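import Pool.Agent.Work.MP_43901b_nt.InvSer

/-!
# Aum (M): the numbers `A(U,M) = [x^N] x^(L(U)) E^M / (1-E)`, `N = p^s u - 1`, `1 ≤ u ≤ q`

`L(U) = Lsum p U = Σ_{v∈U} p^v`, `1/(1-E) = mk (gg q c)`, characteristic `p`, `c_0 = 1`.

`Au_nil`: `gg_geom` with `N+1` terms: `E^M/(1-E) = Σ_{m ≤ N} E^(M+m) + E^(M+N+1)/(1-E)`; the last
term has no coefficient at `x^N` (`coeff_ser_pow_lt`), and `[x^N] E^(M+m) = [M + m = N]` (`star`).
`Au_cons`: `x^(p^v) ≡ Σ_{i≤n} b_i^(p^v) E^(p^v q^i)` modulo `x^(p^v q^(n+1))` (`inv_ser`) and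
`N < p^v q^(n+1)`; `Lsum p (v :: U) = p^v + Lsum p U`.
`Au_zero`: the coefficient of `x^N` of `x^L G`, `L ≤ N`, is the one of `x^(N-L)` of `G`.
-/

namespace Pool.Agent.ZQ

open Finset

variable {R : Type*} [CommRing R] {p q : ℕ} [CharP R p]

/-- `[x^N] x^(L(U)) E^M / (1 - E)` -/
noncomputable def Au {R : Type*} [CommRing R] (p q : ℕ) (c : ℕ → R) (N : ℕ) (U : List ℕ)
    (M : ℕ) : R :=
  PowerSeries.coeff N (PowerSeries.X ^ Lsum p U * ser q c ^ M * PowerSeries.mk fun n => gg q c n)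

theorem Au_nil (h : IsQ p q) (c : ℕ → R) (hc : c 0 = 1) (s : ℕ) {u : ℕ} (hu : 1 ≤ u)
    (hu' : u ≤ q) (M : ℕ) : Au p q c (p ^ s * u - 1) [] M = if M ≤ p ^ s * u - 1 then 1 else 0 := by
  set N := p ^ s * u - 1 with hN
  have h1 : Au p q c N [] M = PowerSeries.coeff N (ser q c ^ M *
      ((∑ m ∈ range (N + 1), ser q c ^ m) +
        ser q c ^ (N + 1) * (PowerSeries.mk fun n => gg q c n))) := by
    rw [← gg_geom c (N + 1)]
    simp [Au, Lsum]
  rw [h1, mul_add, ← mul_assoc, ← pow_add, map_add,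
    coeff_ser_pow_lt c (by omega : N < M + (N + 1)), add_zero, mul_sum, map_sum]
  have h2 : ∀ m ∈ range (N + 1), PowerSeries.coeff N (ser q c ^ M * ser q c ^ m) =
      if M + m = N then 1 else 0 := by
    intro m _
    rw [← pow_add, hN, star h c hc s hu hu' (M + m)]
  rw [sum_congr rfl h2]
  split_ifs with hM
  · rw [sum_eq_single (N - M)]
    · rw [if_pos (by omega)]
    · intro m _ hm
      rw [if_neg (by omega)]
    · intro hm
      exact absurd (mem_range.2 (by omega)) hm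
  · refine sum_eq_zero fun m _ => ?_
    rw [if_neg (by omega)]

theorem Au_cons (h : IsQ p q) (c : ℕ → R) (hc : c 0 = 1) (N v : ℕ) (U : List ℕ) (M : ℕ) {n : ℕ}
    (hn : N < p ^ v * q ^ (n + 1)) : Au p q c N (v :: U) M =
      ∑ i ∈ range (n + 1), (bb q c i) ^ p ^ v * Au p q c N U (M + p ^ v * q ^ i) := by
  have h1 := inv_ser h c hc v n
  have h2 : PowerSeries.coeff N ((PowerSeries.X ^ p ^ v -
      ∑ i ∈ range (n + 1), PowerSeries.C ((bb q c i) ^ p ^ v) * ser q c ^ (p ^ v * q ^ i)) *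
      (PowerSeries.X ^ Lsum p U * ser q c ^ M * PowerSeries.mk fun n => gg q c n)) = 0 := by
    obtain ⟨g, hg⟩ := h1
    rw [hg, mul_assoc, PowerSeries.coeff_X_pow_mul', if_neg (by omega)]
  rw [sub_mul, map_sub, sub_eq_zero] at h2
  have h3 : Au p q c N (v :: U) M = PowerSeries.coeff N (PowerSeries.X ^ p ^ v *
      (PowerSeries.X ^ Lsum p U * ser q c ^ M * PowerSeries.mk fun n => gg q c n)) := by
    rw [Au]
    congr 1
    have : Lsum p (v :: U) = p ^ v + Lsum p U := by simp [Lsum]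
    rw [this, pow_add]
    ring
  rw [h3, h2, sum_mul, map_sum]
  refine sum_congr rfl fun i _ => ?_
  rw [Au, mul_assoc (PowerSeries.C _), PowerSeries.coeff_C_mul]
  congr 2
  rw [pow_add]
  ring

theorem Au_zero {R : Type*} [CommRing R] (c : ℕ → R) {N : ℕ} {U : List ℕ}
    (hL : Lsum p U ≤ N) : Au p q c N U 0 = gg q c (N - Lsum p U) := by
  rw [Au, pow_zero, mul_one, PowerSeries.coeff_X_pow_mul', if_pos hL, PowerSeries.coeff_mk]

end Pool.Agent.ZQ
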