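import Pool.Agent.Work.MP_43901b_nt.Defs

/-!
# Base (S): powers of `p`, Frobenius, `σ_i`
-/

namespace Pool.Agent.ZQ

open Polynomial Finset

variable {p q : ℕ}

namespace IsQ

theorem two_le (h : IsQ p q) : 2 ≤ q := by
  obtain ⟨e, he, rfl⟩ := h.pow
  calc 2 ≤ p := h.prime.two_le
    _ = p ^ 1 := (pow_one p).symm
    _ ≤ p ^ e := Nat.pow_le_pow_right h.prime.pos he

theorem pos (h : IsQ p q) : 0 < q := by have := h.two_le; omega

theorem ne_zero (h : IsQ p q) : q ≠ 0 := by have := h.two_le; omega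

theorem p_le (h : IsQ p q) : p ≤ q := by
  obtain ⟨e, he, rfl⟩ := h.pow
  calc p = p ^ 1 := (pow_one p).symm
    _ ≤ p ^ e := Nat.pow_le_pow_right h.prime.pos he

theorem p_pos (h : IsQ p q) : 0 < p := h.prime.pos

theorem dvd (h : IsQ p q) : p ∣ q := by
  obtain ⟨e, he, rfl⟩ := h.pow
  exact dvd_pow_self p (by omega)

/-- a power of `q` is a power of `p` -/
theorem pow_eq (h : IsQ p q) : ∃ e, 1 ≤ e ∧ ∀ i, q ^ i = p ^ (e * i) := by
  obtain ⟨e, he, rfl⟩ := h.pow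
  exact ⟨e, he, fun i => by rw [pow_mul]⟩

theorem fact (h : IsQ p q) : Fact p.Prime := ⟨h.prime⟩

end IsQ

section Frob

variable {R : Type*} [CommRing R] [CharP R p]

theorem add_pow_pp (h : IsQ p q) (x y : R) (s : ℕ) :
    (x + y) ^ p ^ s = x ^ p ^ s + y ^ p ^ s := by
  have := h.fact
  exact add_pow_char_pow x y p s

theorem sub_pow_pp (h : IsQ p q) (x y : R) (s : ℕ) :
    (x - y) ^ p ^ s = x ^ p ^ s - y ^ p ^ s := by
  have := h.fact
  exact sub_pow_char_pow x y s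

theorem sum_pow_pp (h : IsQ p q) {ι : Type*} (T : Finset ι) (f : ι → R) (s : ℕ) :
    (∑ i ∈ T, f i) ^ p ^ s = ∑ i ∈ T, f i ^ p ^ s := by
  have := h.fact
  exact sum_pow_char_pow p s T f

theorem add_pow_q (h : IsQ p q) (x y : R) (i : ℕ) : (x + y) ^ q ^ i = x ^ q ^ i + y ^ q ^ i := by
  obtain ⟨e, _, he⟩ := h.pow_eq
  rw [he]
  exact add_pow_pp h x y _

theorem sub_pow_q (h : IsQ p q) (x y : R) (i : ℕ) : (x - y) ^ q ^ i = x ^ q ^ i - y ^ q ^ i := by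
  obtain ⟨e, _, he⟩ := h.pow_eq
  rw [he]
  exact sub_pow_pp h x y _

theorem sub_pow_q1 (h : IsQ p q) (x y : R) : (x - y) ^ q = x ^ q - y ^ q := by
  have := sub_pow_q h x y 1
  rwa [pow_one] at this

theorem add_pow_q1 (h : IsQ p q) (x y : R) : (x + y) ^ q = x ^ q + y ^ q := by
  have := add_pow_q h x y 1
  rwa [pow_one] at this

theorem neg_pow_q (h : IsQ p q) (x : R) (i : ℕ) : (-x) ^ q ^ i = - x ^ q ^ i := by
  have h1 := sub_pow_q h 0 x i
  rwa [zero_sub, zero_pow (pow_ne_zero _ h.ne_zero), zero_sub] at h1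

theorem sum_pow_q (h : IsQ p q) {ι : Type*} (T : Finset ι) (f : ι → R) (i : ℕ) :
    (∑ j ∈ T, f j) ^ q ^ i = ∑ j ∈ T, f j ^ q ^ i := by
  obtain ⟨e, _, he⟩ := h.pow_eq
  rw [he]
  exact sum_pow_pp h T f _

theorem q_cast (h : IsQ p q) {i : ℕ} (hi : 1 ≤ i) : ((q ^ i : ℕ) : R) = 0 := by
  rw [CharP.cast_eq_zero_iff R p]
  exact dvd_pow h.dvd (by omega)

/-- `(-1)^n = 1` in characteristic `p` if `q - 1 ∣ n` -/
theorem neg_one_pow_of_dvd (h : IsQ p q) {n : ℕ} (hn : (q - 1) ∣ n) : (-1 : R) ^ n = 1 := by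
  have h1 : (-1 : R) ^ (q - 1) = 1 := by
    obtain ⟨m, hm⟩ : ∃ m, q = m + 1 := ⟨q - 1, by have := h.two_le; omega⟩
    have h2 := neg_pow_q h (1 : R) 1
    rw [pow_one, one_pow, hm, pow_succ] at h2
    have h3 : (-1 : R) ^ m = 1 := by linear_combination (-1 : R) * h2
    rwa [hm, Nat.add_sub_cancel]
  obtain ⟨k, rfl⟩ := hn
  rw [pow_mul, h1, one_pow]

end Frob

instance charP_laurent {F : Type*} [Field F] [CharP F p] : CharP (LaurentSeries F) p :=
  charP_of_injective_ringHom (HahnSeries.C_injective (Γ := ℤ) (R := F)) p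

/-! ### `σ_i` -/

theorem sg_zero (q : ℕ) : sg q 0 = 0 := by simp [sg]

theorem sg_succ (q i : ℕ) : sg q (i + 1) = sg q i + q ^ (i + 1) := by
  rw [sg, sum_range_succ, ← sg]

theorem sg_one (q : ℕ) : sg q 1 = q := by rw [sg_succ, sg_zero, zero_add, zero_add, pow_one]

theorem sg_succ' (q i : ℕ) : sg q (i + 1) = q + q * sg q i := by
  rw [sg, sum_range_succ', sg, mul_sum]
  rw [zero_add, pow_one, add_comm]
  congr 1
  exact sum_congr rfl fun l _ => by ring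

theorem sg_mul {q : ℕ} (hq : 1 ≤ q) (i : ℕ) : (q - 1) * sg q i + q = q ^ (i + 1) := by
  induction i with
  | zero => rw [sg_zero, mul_zero, zero_add, zero_add, pow_one]
  | succ i ih =>
    rw [sg_succ, mul_add, add_right_comm, ih, pow_succ q (i + 1)]
    obtain ⟨m, rfl⟩ : ∃ m, q = m + 1 := ⟨q - 1, by omega⟩
    rw [Nat.add_sub_cancel]
    ring

theorem sg_mono (q : ℕ) {i j : ℕ} (h : i ≤ j) : sg q i ≤ sg q j := by
  unfold sg
  exact sum_le_sum_of_subset (range_mono h)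

/-- `q^i ≡ 1 mod q - 1` -/
theorem q_pow_mod {q : ℕ} (hq : 1 ≤ q) (i : ℕ) : q ^ i ≡ 1 [MOD q - 1] := by
  have h1 : q ≡ 1 [MOD q - 1] := by
    refine (Nat.ModEq.symm ?_)
    exact (Nat.modEq_iff_dvd' hq).2 dvd_rfl
  calc q ^ i ≡ 1 ^ i [MOD q - 1] := h1.pow i
    _ = 1 := one_pow i

theorem Gen.ne {K : Type*} [Field K] {θ : K} (hθ : Gen q θ) {i : ℕ} (hi : 1 ≤ i) :
    θ ^ q ^ i ≠ θ := by
  intro h
  have h1 : i = 0 := hθ (by simpa using h)
  omega

theorem Gen.ne_pow {K : Type*} [Field K] {θ : K} (hθ : Gen q θ) {i j : ℕ} (hij : i ≠ j) :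
    θ ^ q ^ i ≠ θ ^ q ^ j := fun h => hij (hθ h)

end Pool.Agent.ZQ
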