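import Pool.Agent.Work.MP_b19acb_nt.Final

/-!
# Consecutive entries of zeta-like multizeta tuples over `F_2[t]`

`K = F_2(t)` is `RatFunc (ZMod 2)`, `K_∞ = F_2((1/t))` is its completion at infinity
`RatFunc.CompletionAtInfty (ZMod 2)`, `mzv s` is the multizeta value `ζ(s_1, ..., s_r)`, the sum of
`1/(a_1^{s_1} ... a_r^{s_r})` over all monic `a_i` with `deg a_1 > ... > deg a_r`, and
`ZetaLike s` says that the depth is at least 2 and `ζ(s_1, ..., s_r)/ζ(s_1 + ... + s_r)` lies in `K`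
(file `Pool/Agent/Work/MP_b19acb_nt/MDefs.lean`).

For `q = 2` the inequalities of the question are `s_i ≤ s_{i+1}` and `s_{i+1} ≤ 3 s_i`.
-/

namespace Pool.Agent.Results.MP_43901b_nt.BinaryCase

open Pool.Agent.ZL

/-- consecutive entries `x, y` satisfy `x ≤ y ≤ 3 x` -/
private def Good (x y : ℕ) : Prop := x ≤ y ∧ y ≤ 3 * x

private theorem chain_geo (x : ℕ) : ∀ k : ℕ, List.IsChain Good (geo x k)
  | 0 => List.isChain_nil
  | 1 => List.isChain_singleton _
  | k + 2 => by
      have h := chain_geo (2 * x) (k + 1)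
      rw [geo, geo]
      rw [geo] at h
      exact List.isChain_cons_cons.mpr ⟨⟨by omega, by omega⟩, h⟩

private theorem chain_cons_geo {y x : ℕ} (h : Good y x) : ∀ k : ℕ, List.IsChain Good (y :: geo x k)
  | 0 => List.isChain_singleton _
  | k + 1 => by
      have h' := chain_geo x (k + 1)
      rw [geo] at h' ⊢
      exact List.isChain_cons_cons.mpr ⟨h, h'⟩

private theorem chain_fam {s : List ℕ} (h : Fam s) : List.IsChain Good s := by
  cases h with
  | I e n k hn hk =>
      refine chain_cons_geo ?_ k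
      obtain ⟨m, rfl⟩ : ∃ m, n = m + 1 := ⟨n - 1, by omega⟩
      have h1 : 2 ^ (e + (m + 1)) = 2 ^ e * (2 * 2 ^ m) := by ring
      have h2 : 2 ^ (m + 1) = 2 * 2 ^ m := by ring
      have h3 : 1 ≤ 2 ^ m := Nat.one_le_two_pow
      constructor
      · rw [h1]
        exact Nat.mul_le_mul_left _ (by omega)
      · rw [h1, h2, mul_left_comm 3]
        exact Nat.mul_le_mul_left _ (by omega)
  | II e k hk => exact chain_cons_geo ⟨le_rfl, by omega⟩ k
  | III e k =>
      have h1 : 2 ^ (e + 2) = 4 * 2 ^ e := by ring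
      exact List.isChain_cons_cons.mpr ⟨⟨by omega, le_rfl⟩,
        chain_cons_geo ⟨by omega, by omega⟩ k⟩
  | IV e => exact List.isChain_cons_cons.mpr ⟨⟨by omega, by omega⟩, List.isChain_singleton _⟩
  | V e n hn =>
      refine List.isChain_cons_cons.mpr ⟨?_, List.isChain_singleton _⟩
      have h1 : 2 ^ (e + n) = 2 ^ e * 2 ^ n := by ring
      have h3 : 1 ≤ 2 ^ n := Nat.one_le_two_pow
      constructor
      · rw [h1]
        exact Nat.mul_le_mul_left _ (by omega)
      · rw [h1, mul_left_comm 3]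
        exact Nat.mul_le_mul_left _ (by omega)
  | VI e =>
      have h1 : 2 ^ (e + 1) = 2 * 2 ^ e := by ring
      exact List.isChain_cons_cons.mpr ⟨⟨by omega, by omega⟩,
        List.isChain_cons_cons.mpr ⟨⟨by omega, by omega⟩, List.isChain_singleton _⟩⟩

open scoped Valued in
private theorem summable_mzv {s : List ℕ} (hs : ∀ a ∈ s, 1 ≤ a) :
    Summable fun a : Idx s.length => ∏ i, ((toKinf (a.1 i))⁻¹) ^ s.get i := by
  have h := theSetup.hasSum_zeta (ψ := algebraMap (Polynomial (ZMod 2)) (RatFunc (ZMod 2)))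
    (by rw [theSetup_θ, RatFunc.algebraMap_X]) hs
  rw [theSetup_φ] at h
  exact h.summable

open scoped Valued in
private theorem mzv_single_ne {w : ℕ} (hw : 1 ≤ w) : mzv [w] ≠ 0 := by
  rw [mzv_eq (s := [w]) (by simpa using hw)]
  exact theSetup.zeta_single_ne hw

/-- (1) **The case `q = 2` of Q1, every depth**: if `s = (s_1, ..., s_r)` is zeta-like over `F_2[t]`
then `s_i ≤ s_{i+1} ≤ 3 s_i` for all `i`.
(2) Both bounds are attained: `(1,1)` and `(1,3)` are zeta-like.
(3) The series defining the multizeta values converge, and `ζ(w) ≠ 0`. -/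
theorem result :
    (∀ s : List ℕ, (∀ a ∈ s, 1 ≤ a) → ZetaLike s →
      ∀ (i : ℕ) (hi : i + 1 < s.length), s[i] ≤ s[i + 1] ∧ s[i + 1] ≤ 3 * s[i]) ∧
    (ZetaLike [1, 1] ∧ ZetaLike [1, 3]) ∧
    (∀ s : List ℕ, (∀ a ∈ s, 1 ≤ a) →
      Summable fun a : Idx s.length => ∏ i, ((toKinf (a.1 i))⁻¹) ^ s.get i) ∧
    (∀ w : ℕ, 1 ≤ w → mzv [w] ≠ 0) := by
  refine ⟨fun s hs h i hi => ?_, ⟨?_, ?_⟩, fun s hs => ?_, fun w hw => ?_⟩
  · have h1 := chain_fam ((zetaLike_iff hs).mp h)
    exact List.isChain_iff_getElem.mp h1 i hi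
  · exact (zetaLike_iff (by simp)).mpr (by simpa [geo] using Fam.II 0 1 le_rfl)
  · exact (zetaLike_iff (by simp)).mpr (by simpa [geo] using Fam.III 0 0)
  · exact summable_mzv hs
  · exact mzv_single_ne hw

end Pool.Agent.Results.MP_43901b_nt.BinaryCase
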