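import Pool.Agent.Work.MP_43901b_nt.Base

/-!
# CcB (M): the polynomials `c_i(T)` and `f_i(T)`

`K` a field of characteristic `p`, `Gen q θ`: the `θ^(q^d)` are distinct.

* `Dd_ne`: every factor `θ^(q^i) - θ^(q^l)`, `l < i`, is nonzero.
* `Dd_succ`: `D_(i+1) = (θ^(q^(i+1)) - θ) D_i^q` (`prod_range_succ'`, `(x-y)^q = x^q - y^q`).
* `cc_succ`: split off the factor `l = 0`; `(C a - X^m)^q = C a^q - X^(q m)`, `Dd_succ`.
* `cc_natDegree_le`: `deg ∏_{l<i} (..) ≤ Σ q^(l+1) = sg q i`.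
* `cc_dvd`: the factor `l = i-1` is `C θ^(q^i) - X^(q^i) = (C θ - X)^(q^i)`.  `cc_eval_self`: from it.
* `cc_expand`: `R_i = C (D_i)⁻¹ ∏_{l<i} (C (θ^(q^i)) - X^(q^l))`, degree `≤ 1 + q + ... + q^(i-1)`,
  `(q-1)(1 + q + ... + q^(i-1)) = q^i - 1`.
* `cc_eval_T`: `c_i(θ^(q^d)) = ∏_{l=1}^i (θ^(q^i) - θ^(q^(d+l)))/D_i`; it is `0` for `i > d` (`l = i - d`).
* `cc_map`, `ff_map`: `Polynomial.map_mul`, `map_prod`.
* `ff_mul`: `(C θ - X)^(q^(i+1)-1) (C θ - X) = C θ^(q^(i+1)) - X^(q^(i+1))`.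
* `ff_expand`: with `c = (cc i)^q = C (D_i^q)⁻¹ ∏_{l<i} (C θ^(q^(i+1)) - X^(q^(l+2)))`:
  `expand (ff (i+1)) = C (θ^(q^(i+1)) - θ)⁻¹ (C θ - X^q) c` and
  `cc (i+1) = C (θ^(q^(i+1)) - θ)⁻¹ (C θ^(q^(i+1)) - X^q) c`.
-/

namespace Pool.Agent.ZQ

open Polynomial Finset

variable {p q : ℕ} {K : Type*} [Field K] {θ : K}

theorem Dd_ne (hθ : Gen q θ) (i : ℕ) : Dd q θ i ≠ 0 := by
  rw [Dd, prod_ne_zero_iff]
  intro l hl
  rw [mem_range] at hl
  exact sub_ne_zero.2 (hθ.ne_pow (by omega))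

theorem Dd_succ [CharP K p] (h : IsQ p q) (θ : K) (i : ℕ) :
    Dd q θ (i + 1) = (θ ^ q ^ (i + 1) - θ) * (Dd q θ i) ^ q := by
  rw [Dd, prod_range_succ', pow_zero, pow_one, mul_comm, Dd, ← prod_pow]
  congr 1
  refine prod_congr rfl fun l _ => ?_
  rw [sub_pow_q1 h, ← pow_mul, ← pow_mul, ← pow_succ, ← pow_succ]

theorem cc_zero (θ : K) : cc q θ 0 = 1 := by
  simp [cc, Dd]

private theorem ccb_pow [CharP K p] (h : IsQ p q) (θ : K) (i : ℕ) :
    (cc q θ i) ^ q = C (((Dd q θ i) ^ q)⁻¹) *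
      ∏ l ∈ range i, (C (θ ^ q ^ (i + 1)) - X ^ q ^ (l + 2)) := by
  have hC : CharP K[X] p := inferInstance
  rw [cc, mul_pow, ← C_pow, inv_pow, ← prod_pow]
  congr 1
  refine prod_congr rfl fun l _ => ?_
  rw [sub_pow_q1 h, ← C_pow, ← pow_mul, ← pow_mul, ← pow_succ, ← pow_succ]

theorem cc_succ [CharP K p] (h : IsQ p q) (θ : K) (i : ℕ) :
    cc q θ (i + 1) = C ((θ ^ q ^ (i + 1) - θ)⁻¹) * ((C (θ ^ q ^ (i + 1)) - X ^ q) *
      (cc q θ i) ^ q) := by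
  rw [ccb_pow h, cc, prod_range_succ', Dd_succ h, mul_inv, C_mul, zero_add, pow_one]
  ring

private theorem ccb_deg (a : K) (m : ℕ) : (C a - X ^ m : K[X]).natDegree ≤ m := by
  refine (natDegree_sub_le _ _).trans ?_
  rw [natDegree_C, natDegree_X_pow, Nat.zero_max]

theorem cc_natDegree_le (θ : K) (i : ℕ) : (cc q θ i).natDegree ≤ sg q i := by
  rw [cc]
  refine (natDegree_mul_le).trans ?_
  rw [natDegree_C, zero_add, sg]
  refine (natDegree_prod_le _ _).trans (sum_le_sum fun l _ => ?_)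
  exact ccb_deg _ _

theorem cc_dvd [CharP K p] (h : IsQ p q) (θ : K) {i : ℕ} (hi : 1 ≤ i) :
    (C θ - X) ^ q ^ i ∣ cc q θ i := by
  obtain ⟨k, rfl⟩ : ∃ k, i = k + 1 := ⟨i - 1, by omega⟩
  rw [cc, prod_range_succ, sub_pow_q h, ← C_pow]
  exact dvd_mul_of_dvd_right (dvd_mul_left _ _) _

theorem cc_eval_T (θ : K) {i d : ℕ} (h : d < i) : (cc q θ i).eval (θ ^ q ^ d) = 0 := by
  rw [cc, eval_mul, eval_prod]
  refine mul_eq_zero_of_right _ (prod_eq_zero (mem_range.2 (show i - d - 1 < i by omega)) ?_)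
  rw [eval_sub, eval_C, eval_pow, eval_X, ← pow_mul, ← pow_add,
    show d + (i - d - 1 + 1) = i by omega, sub_self]

theorem cc_eval_self (θ : K) {i : ℕ} (hi : 1 ≤ i) : (cc q θ i).eval θ = 0 := by
  have h1 := cc_eval_T (q := q) θ (show 0 < i by omega)
  rwa [pow_zero, pow_one] at h1

private theorem ccb_geom (hq : 1 ≤ q) (i : ℕ) : (q - 1) * ∑ l ∈ range i, q ^ l + 1 = q ^ i := by
  induction i with
  | zero => simp
  | succ i ih =>
    rw [sum_range_succ, mul_add, add_right_comm, ih, pow_succ]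
    obtain ⟨m, rfl⟩ : ∃ m, q = m + 1 := ⟨q - 1, by omega⟩
    rw [Nat.add_sub_cancel]
    ring

theorem cc_expand (h : IsQ p q) (θ : K) (i : ℕ) : ∃ R : K[X], cc q θ i = expand K q R ∧
    (q - 1) * R.natDegree ≤ q ^ i - 1 := by
  refine ⟨C (Dd q θ i)⁻¹ * ∏ l ∈ range i, (C (θ ^ q ^ i) - X ^ q ^ l), ?_, ?_⟩
  · rw [cc, map_mul, expand_C, map_prod]
    congr 1
    refine prod_congr rfl fun l _ => ?_
    rw [map_sub, expand_C, map_pow (expand K q) X, expand_X, ← pow_mul, pow_succ, mul_comm (q ^ l) q]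
  · have h1 : (C (Dd q θ i)⁻¹ * ∏ l ∈ range i, (C (θ ^ q ^ i) - X ^ q ^ l) : K[X]).natDegree ≤
        ∑ l ∈ range i, q ^ l := by
      refine (natDegree_mul_le).trans ?_
      rw [natDegree_C, zero_add]
      exact (natDegree_prod_le _ _).trans (sum_le_sum fun l _ => ccb_deg _ _)
    have h2 := ccb_geom (q := q) h.pos i
    have h3 := Nat.mul_le_mul_left (q - 1) h1
    omega

private theorem ccb_Dd_map {K' : Type*} [Field K'] (f : K →+* K') (θ : K) (i : ℕ) :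
    f (Dd q θ i) = Dd q (f θ) i := by
  simp only [Dd, map_prod, map_sub, map_pow]

theorem cc_map {K' : Type*} [Field K'] (f : K →+* K') (θ : K) (i : ℕ) :
    (cc q θ i).map f = cc q (f θ) i := by
  rw [cc, cc, Polynomial.map_mul, map_C, map_inv₀, ccb_Dd_map, Polynomial.map_prod]
  congr 1
  refine prod_congr rfl fun l _ => ?_
  rw [Polynomial.map_sub, map_C, Polynomial.map_pow, map_X, map_pow]

theorem ff_zero (θ : K) : ff q θ 0 = 1 := rfl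

private theorem ccb_ff_succ (θ : K) (i : ℕ) : ff q θ (i + 1) = C (Dd q θ (i + 1))⁻¹ *
      ((C θ - X) * ∏ l ∈ range i, (C (θ ^ q ^ (i + 1)) - X ^ q ^ (l + 1))) := rfl

theorem ff_mul [CharP K p] (h : IsQ p q) (θ : K) (i : ℕ) :
    (C θ - X) ^ (q ^ i - 1) * ff q θ i = cc q θ i := by
  rcases i with _ | k
  · rw [pow_zero, Nat.sub_self, pow_zero, ff_zero, cc_zero, one_mul]
  · have hq : 1 ≤ q ^ (k + 1) := Nat.one_le_pow _ _ h.pos
    have e1 : (C θ - X : K[X]) ^ (q ^ (k + 1) - 1) * (C θ - X) = C (θ ^ q ^ (k + 1)) - X ^ q ^ (k + 1) := by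
      rw [← pow_succ, Nat.sub_add_cancel hq, sub_pow_q h, C_pow]
    rw [ccb_ff_succ, cc, prod_range_succ, ← e1]
    ring

theorem ff_expand [CharP K p] (h : IsQ p q) (hθ : Gen q θ) (i : ℕ) :
    expand K q (ff q θ (i + 1)) = cc q θ (i + 1) - (cc q θ i) ^ q := by
  have hu : θ ^ q ^ (i + 1) - θ ≠ 0 := sub_ne_zero.2 (hθ.ne (by omega))
  have e1 : expand K q (ff q θ (i + 1)) = C ((θ ^ q ^ (i + 1) - θ)⁻¹) * ((C θ - X ^ q) * (cc q θ i) ^ q) := by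
    rw [ccb_ff_succ, map_mul, expand_C, map_mul, map_sub, expand_C, expand_X, map_prod, ccb_pow h,
      Dd_succ h, mul_inv, C_mul]
    have e2 : ∀ l ∈ range i, expand K q (C (θ ^ q ^ (i + 1)) - X ^ q ^ (l + 1)) =
        C (θ ^ q ^ (i + 1)) - X ^ q ^ (l + 2) := by
      intro l _
      rw [map_sub, expand_C, map_pow (expand K q) X, expand_X, ← pow_mul, pow_succ q (l + 1),
        mul_comm (q ^ (l + 1)) q]
    rw [prod_congr rfl e2]
    ring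
  have e3 : (C ((θ ^ q ^ (i + 1) - θ)⁻¹) : K[X]) * (C (θ ^ q ^ (i + 1)) - C θ) = 1 := by
    rw [← C_sub, ← C_mul, inv_mul_cancel₀ hu, C_1]
  rw [e1, cc_succ h]
  linear_combination (- (cc q θ i) ^ q) * e3

theorem ff_eval_self (θ : K) {i : ℕ} (hi : 1 ≤ i) : (ff q θ i).eval θ = 0 := by
  obtain ⟨k, rfl⟩ : ∃ k, i = k + 1 := ⟨i - 1, by omega⟩
  rw [ccb_ff_succ, eval_mul, eval_mul, eval_sub, eval_C, eval_X, eval_C, sub_self, zero_mul, mul_zero]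

end Pool.Agent.ZQ
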