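import Pool.Agent.Work.MP_43901b_nt.Ser

/-!
# Cong (M): `Q_(n+m+1) ≡ Q_n Q_m` modulo `ε^(min(n,m)+2)`, `Q_n = gg q c n`

`R` of characteristic `p`, `c_0 = 1`, `ε^(q^i) ∣ c_i` for `i ≥ 1`.

Put `Q_n = 0` for negative `n` (e.g. `Qz : ℤ → R`, `Qz n = if 0 ≤ n then gg q c n.toNat else 0`), then
`Q_n = Σ_i c_i Q_(n-q^i)` for all integers `n ≠ 0` (finite sum, all `i < B` for any `B` with `q^B > n`).
(1) Identity, for all `n, m ≥ 0`:
`Q_(n+m+1) = Σ_i c_i Σ_{j<q^i} Q_(n-j) Q_(m-(q^i-1-j))`.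
Strong induction on `n`: `Q_(n+m+1) = Σ_l c_l Q_(n+m+1-q^l)`.  For `q^l ≤ n` use the induction
hypothesis for `(n - q^l, m)`: `Σ_i c_i Σ_{j<q^i} Q_(n-q^l-j) Q_(m-(q^i-1-j))`.  For `q^l > n` the term is
`c_l Q_(m-(q^l-1-n))`.  On the right side insert `Q_(n-j) = Σ_l c_l Q_(n-j-q^l)` for `j ≠ n` and `Q_0 = 1`
for `j = n` (this `j` occurs iff `n < q^i`): the same double sum (terms with `q^l > n` vanish in it) plus
`Σ_{i : q^i > n} c_i Q_(m-(q^i-1-n))`.
(2) The term `i = 0` is `Q_n Q_m`.  So `Δ(n,m) = Q_(n+m+1) - Q_n Q_m =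
Σ_{i≥1} c_i Σ_{j<q^i} Q_(n-j) Q_(m-(q^i-1-j))`.  Claim `ε^(min(n,m)+2) ∣ Δ(n,m)`, strong induction on
`n + m`.  The statement is symmetric; let `n ≤ m`.  Terms with `q^i ≥ n + 2`: `ε^(n+2) ∣ ε^(q^i) ∣ c_i`.
Terms with `1 ≤ i`, `q^i ≤ n + 1`: all indices are `≥ 0`; by the induction hypothesis
`Q_(n-j) Q_(m-(q^i-1-j)) ≡ Q_(n+m+2-q^i)` modulo `ε^(min(n-j, m-(q^i-1-j))+2)`, and
`min(..) ≥ n - (q^i - 1)`, so modulo `ε^(n+3-q^i)`; the sum over the `q^i` values of `j` is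
`≡ q^i Q_(n+m+2-q^i) = 0` (`q_cast`), and with `ε^(q^i) ∣ c_i` the term is divisible by `ε^(n+3)`.

`gg_pow`: induction on `j` from `gg_add` with `n = w-1`, `m = j w - 1`
(`min(w-1, j w-1) + 2 = w+1`): `Q_((j+1)w-1) ≡ Q_(w-1) Q_(jw-1) ≡ Q_(w-1)^(j+1)`.
-/

namespace Pool.Agent.ZQ

open Finset

variable {R : Type*} [CommRing R] {p q : ℕ} [CharP R p]

/-- `Q_n` for all integers `n`, zero for negative `n` -/
private noncomputable def Qz {R : Type*} [CommRing R] (q : ℕ) (c : ℕ → R) (n : ℤ) : R :=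
  if 0 ≤ n then gg q c n.toNat else 0

private theorem Qz_nat {R : Type*} [CommRing R] (q : ℕ) (c : ℕ → R) (n : ℕ) :
    Qz q c (n : ℤ) = gg q c n := by
  rw [Qz, if_pos (Int.natCast_nonneg n), Int.toNat_natCast]

private theorem Qz_neg {R : Type*} [CommRing R] (q : ℕ) (c : ℕ → R) {n : ℤ} (h : n < 0) :
    Qz q c n = 0 := by
  rw [Qz, if_neg (by omega)]

private theorem Qz_rec {R : Type*} [CommRing R] {q : ℕ} (hq : 2 ≤ q) (c : ℕ → R) {B : ℕ} {n : ℤ}
    (hn : n ≠ 0) (hB : n < B) : Qz q c n = ∑ i ∈ range B, c i * Qz q c (n - (q ^ i : ℕ)) := by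
  rcases lt_or_gt_of_ne hn with h | h
  · rw [Qz_neg q c h]
    symm
    refine sum_eq_zero fun i _ => ?_
    rw [Qz_neg q c (by have := Int.natCast_nonneg (q ^ i); omega), mul_zero]
  · obtain ⟨m, rfl⟩ : ∃ m : ℕ, n = m := ⟨n.toNat, by omega⟩
    have hm : 1 ≤ m := by omega
    have hmB : m < B := by omega
    rw [Qz_nat, gg_rec hq c hm]
    have hsub : range (m + 1) ⊆ range B := range_mono (by omega)
    rw [sum_subset (f := fun i => if q ^ i ≤ m then c i * gg q c (m - q ^ i) else 0) hsub]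
    · refine sum_congr rfl fun i _ => ?_
      split_ifs with hi
      · rw [← Nat.cast_sub hi, Qz_nat]
      · rw [Qz_neg q c (by omega), mul_zero]
    · intro i _ hi
      rw [mem_range, not_lt] at hi
      have h1 : i < q ^ i := Nat.lt_pow_self (by omega)
      rw [if_neg (by omega)]

private theorem cong_T {R : Type*} [CommRing R] {q : ℕ} (hq : 2 ≤ q) (c : ℕ → R) (B n m : ℕ)
    (hB : n + m + 1 < B) : gg q c (n + m + 1) = ∑ i ∈ range B, c i * ∑ j ∈ range (q ^ i),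
      Qz q c ((n : ℤ) - j) * Qz q c ((m : ℤ) - ((q ^ i : ℕ) - 1) + j) := by
  induction m generalizing n with
  | zero =>
    rw [add_zero, ← Qz_nat, Qz_rec hq c (B := B) (by omega) (by omega)]
    refine sum_congr rfl fun i _ => ?_
    congr 1
    have hpos : 1 ≤ q ^ i := Nat.one_le_pow _ _ (by omega)
    rw [sum_eq_single (q ^ i - 1)]
    · have e1 : (((0 : ℕ) : ℤ) - ((q ^ i : ℕ) - 1) + ((q ^ i - 1 : ℕ) : ℤ)) = ((0 : ℕ) : ℤ) := by
        push_cast [hpos]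
        ring
      have h0 : gg q c 0 = 1 := gg_zero c
      rw [e1, Qz_nat, h0, mul_one]
      congr 1
      push_cast [hpos]
      ring
    · intro j hj hj'
      rw [mem_range] at hj
      rw [Qz_neg q c (n := ((0 : ℕ) : ℤ) - ((q ^ i : ℕ) - 1) + j) (by omega), mul_zero]
    · intro hj
      exact absurd (mem_range.2 (by omega)) hj
  | succ m ih =>
    have e0 : n + (m + 1) + 1 = (n + 1) + m + 1 := by omega
    rw [e0, ih (n + 1) (by omega), ← sub_eq_zero, ← sum_sub_distrib]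
    have h1 : ∀ i ∈ range B, c i * (∑ j ∈ range (q ^ i),
        Qz q c (((n + 1 : ℕ) : ℤ) - j) * Qz q c ((m : ℤ) - ((q ^ i : ℕ) - 1) + j)) -
        c i * (∑ j ∈ range (q ^ i),
        Qz q c ((n : ℤ) - j) * Qz q c (((m + 1 : ℕ) : ℤ) - ((q ^ i : ℕ) - 1) + j)) =
        Qz q c ((n + 1 : ℕ) : ℤ) * (c i * Qz q c (((m + 1 : ℕ) : ℤ) - (q ^ i : ℕ))) -
          Qz q c ((m + 1 : ℕ) : ℤ) * (c i * Qz q c (((n + 1 : ℕ) : ℤ) - (q ^ i : ℕ))) := by
      intro i _
      rw [← mul_sub, ← sum_sub_distrib]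
      have h2 := sum_range_sub' (fun j : ℕ => Qz q c (((n + 1 : ℕ) : ℤ) - j) *
        Qz q c ((m : ℤ) - ((q ^ i : ℕ) - 1) + j)) (q ^ i)
      have h3 : ∀ j ∈ range (q ^ i), Qz q c (((n + 1 : ℕ) : ℤ) - j) *
          Qz q c ((m : ℤ) - ((q ^ i : ℕ) - 1) + j) -
          Qz q c ((n : ℤ) - j) * Qz q c (((m + 1 : ℕ) : ℤ) - ((q ^ i : ℕ) - 1) + j) =
          Qz q c (((n + 1 : ℕ) : ℤ) - j) * Qz q c ((m : ℤ) - ((q ^ i : ℕ) - 1) + j) -
          Qz q c (((n + 1 : ℕ) : ℤ) - ((j + 1 : ℕ) : ℤ)) *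
            Qz q c ((m : ℤ) - ((q ^ i : ℕ) - 1) + ((j + 1 : ℕ) : ℤ)) := by
        intro j _
        have e1 : (n : ℤ) - j = ((n + 1 : ℕ) : ℤ) - ((j + 1 : ℕ) : ℤ) := by
          push_cast
          ring
        have e2 : ((m + 1 : ℕ) : ℤ) - ((q ^ i : ℕ) - 1) + j =
            (m : ℤ) - ((q ^ i : ℕ) - 1) + ((j + 1 : ℕ) : ℤ) := by
          push_cast
          ring
        rw [e1, e2]
      rw [sum_congr rfl h3, h2]
      have e3 : (((n + 1 : ℕ) : ℤ) - ((0 : ℕ) : ℤ)) = ((n + 1 : ℕ) : ℤ) := by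
        rw [Nat.cast_zero, sub_zero]
      have e4 : (m : ℤ) - ((q ^ i : ℕ) - 1) + ((0 : ℕ) : ℤ) = ((m + 1 : ℕ) : ℤ) - (q ^ i : ℕ) := by
        push_cast
        ring
      have e5 : (m : ℤ) - ((q ^ i : ℕ) - 1) + ((q ^ i : ℕ) : ℤ) = ((m + 1 : ℕ) : ℤ) := by
        push_cast
        ring
      rw [e3, e4, e5]
      ring
    rw [sum_congr rfl h1, sum_sub_distrib, ← mul_sum, ← mul_sum,
      ← Qz_rec hq c (B := B) (by omega) (by omega), ← Qz_rec hq c (B := B) (by omega) (by omega)]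
    ring

theorem gg_add (h : IsQ p q) {ε : R} {c : ℕ → R} (hc : c 0 = 1)
    (hε : ∀ i, 1 ≤ i → ε ^ q ^ i ∣ c i) (n m : ℕ) :
    ε ^ (min n m + 2) ∣ gg q c (n + m + 1) - gg q c n * gg q c m := by
  have hq := h.two_le
  have main : ∀ k n m : ℕ, n + m = k → n ≤ m →
      ε ^ (n + 2) ∣ gg q c (n + m + 1) - gg q c n * gg q c m := by
    intro k
    induction k using Nat.strong_induction_on with
    | _ k ih =>
    intro n m hk hnm
    rw [cong_T hq c (n + m + 2) n m (by omega), sum_range_succ']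
    have e0 : c 0 * ∑ j ∈ range (q ^ 0), Qz q c ((n : ℤ) - j) *
        Qz q c ((m : ℤ) - ((q ^ 0 : ℕ) - 1) + j) = gg q c n * gg q c m := by
      rw [hc, one_mul, pow_zero, sum_range_one]
      have e1 : (n : ℤ) - ((0 : ℕ) : ℤ) = n := by simp
      have e2 : (m : ℤ) - (((1 : ℕ) : ℤ) - 1) + ((0 : ℕ) : ℤ) = m := by simp
      rw [e1, e2, Qz_nat, Qz_nat]
    rw [e0, add_sub_cancel_right]
    refine dvd_sum fun i _ => ?_
    have hd := hε (i + 1) (by omega)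
    have hQ2 : 2 ≤ q ^ (i + 1) := by
      calc 2 ≤ q := hq
        _ = q ^ 1 := (pow_one q).symm
        _ ≤ q ^ (i + 1) := Nat.pow_le_pow_right (by omega) (by omega)
    set Q := q ^ (i + 1) with hQ
    by_cases hi : n + 2 ≤ Q
    · exact ((pow_dvd_pow ε hi).trans hd).mul_right _
    · have hcast : ((Q : ℕ) : R) = 0 := q_cast h (by omega)
      have hin : ε ^ (n + 3 - Q) ∣ ∑ j ∈ range Q,
          Qz q c ((n : ℤ) - j) * Qz q c ((m : ℤ) - ((Q : ℕ) - 1) + j) := by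
        have h1 : ∑ j ∈ range Q,
            Qz q c ((n : ℤ) - j) * Qz q c ((m : ℤ) - ((Q : ℕ) - 1) + j) =
            - ∑ j ∈ range Q, (gg q c (n + m + 2 - Q) -
              Qz q c ((n : ℤ) - j) * Qz q c ((m : ℤ) - ((Q : ℕ) - 1) + j)) := by
          rw [sum_sub_distrib, sum_const, card_range, nsmul_eq_mul, hcast, zero_mul, zero_sub,
            neg_neg]
        rw [h1, dvd_neg]
        refine dvd_sum fun j hj => ?_
        rw [mem_range] at hj
        obtain ⟨a, ha⟩ : ∃ a : ℕ, a = n - j := ⟨_, rfl⟩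
        obtain ⟨b, hb⟩ : ∃ b : ℕ, b = m - (Q - 1) + j := ⟨_, rfl⟩
        have e1 : (n : ℤ) - j = (a : ℕ) := by omega
        have e2 : (m : ℤ) - ((Q : ℕ) - 1) + j = (b : ℕ) := by omega
        rw [e1, e2, Qz_nat, Qz_nat]
        have e3 : n + m + 2 - Q = a + b + 1 := by omega
        rw [e3]
        rcases le_total a b with hab | hab
        · exact (pow_dvd_pow ε (by omega)).trans (ih (a + b) (by omega) a b rfl hab)
        · have h2 := ih (b + a) (by omega) b a rfl hab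
          rw [add_comm b a, mul_comm] at h2
          exact (pow_dvd_pow ε (by omega)).trans h2
      have h3 := mul_dvd_mul hd hin
      rw [← pow_add] at h3
      exact (pow_dvd_pow ε (by omega)).trans h3
  rcases le_total n m with hnm | hnm
  · rw [min_eq_left hnm]
    exact main _ n m rfl hnm
  · rw [min_eq_right hnm, add_comm n m, mul_comm]
    exact main _ m n rfl hnm

theorem gg_pow (h : IsQ p q) {ε : R} {c : ℕ → R} (hc : c 0 = 1)
    (hε : ∀ i, 1 ≤ i → ε ^ q ^ i ∣ c i) {w : ℕ} (hw : 1 ≤ w) {j : ℕ} (hj : 1 ≤ j) :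
    ε ^ (w + 1) ∣ gg q c (j * w - 1) - gg q c (w - 1) ^ j := by
  induction j, hj using Nat.le_induction with
  | base => rw [one_mul, pow_one, sub_self]; exact dvd_zero _
  | succ j hj ih =>
    have hjw : w ≤ j * w := Nat.le_mul_of_pos_left w hj
    have h1 := gg_add h hc hε (w - 1) (j * w - 1)
    have e1 : w - 1 + (j * w - 1) + 1 = (j + 1) * w - 1 := by
      rw [add_mul, one_mul]
      omega
    have e2 : min (w - 1) (j * w - 1) + 2 = w + 1 := by omega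
    rw [e1, e2] at h1
    have h2 : gg q c ((j + 1) * w - 1) - gg q c (w - 1) ^ (j + 1) =
        (gg q c ((j + 1) * w - 1) - gg q c (w - 1) * gg q c (j * w - 1)) +
        gg q c (w - 1) * (gg q c (j * w - 1) - gg q c (w - 1) ^ j) := by
      ring
    rw [h2]
    exact dvd_add h1 (ih.mul_left _)

end Pool.Agent.ZQ
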