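import Mathlib

/-!
# MP_43901b: zeta-like multizeta tuples over `F_q[t]`, all `q`: definitions

`θ` is an element of a field `K` of characteristic `p`, `q` is a power of `p`, `T_d = θ^(q^d)`.
-/

namespace Pool.Agent.ZQ

open Polynomial Finset

/-- `q` is a power of the prime `p` -/
structure IsQ (p q : ℕ) : Prop where
  prime : p.Prime
  pow : ∃ e, 1 ≤ e ∧ q = p ^ e

/-- `σ_i = q + q^2 + ... + q^i` -/
def sg (q i : ℕ) : ℕ := ∑ l ∈ range i, q ^ (l + 1)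

/-! ### Generating functions over a commutative ring -/

section Ring

variable {R : Type*} [CommRing R]

/-- The power series `E = c_0 x + c_1 x^q + c_2 x^(q^2) + ...`. -/
noncomputable def ser (q : ℕ) (c : ℕ → R) : PowerSeries R :=
  PowerSeries.mk fun n => if n = q ^ Nat.log q n then c (Nat.log q n) else 0

/-- Coefficients of `1 / (1 - E)`. -/
noncomputable def gg (q : ℕ) (c : ℕ → R) (n : ℕ) : R :=
  PowerSeries.coeff n (PowerSeries.invOfUnit (1 - ser q c) 1)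

/-- The power series `f_0 + f_1 x^(q-1) + f_2 x^(q^2-1) + ...`. -/
noncomputable def serQ (q : ℕ) (f : ℕ → R) : PowerSeries R :=
  PowerSeries.mk fun n => if n + 1 = q ^ Nat.log q (n + 1) then f (Nat.log q (n + 1)) else 0

/-- Coefficients of `1 / (f_0 + f_1 x^(q-1) + f_2 x^(q^2-1) + ...)` for `f_0 = 1`. -/
noncomputable def hh (q : ℕ) (f : ℕ → R) (n : ℕ) : R :=
  PowerSeries.coeff n (PowerSeries.invOfUnit (serQ q f) 1)

/-- The coefficients of the inverse series `x = E + b_1 E^q + b_2 E^(q^2) + ...` (characteristic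
`p`, `c_0 = 1`): `b_n = - Σ_{l<n} b_l c_{n-l}^(q^l)`. -/
noncomputable def bb (q : ℕ) (c : ℕ → R) : ℕ → R
  | 0 => 1
  | n + 1 => - ∑ l : Fin (n + 1), bb q c l * (c (n + 1 - l)) ^ q ^ (l : ℕ)

end Ring

/-! ### The polynomials `P_a` and the power sums -/

section Field

variable {K : Type*} [Field K]

/-- the elements `θ^(q^d)` are distinct -/
def Gen (q : ℕ) (θ : K) : Prop := Function.Injective fun d : ℕ => θ ^ q ^ d

/-- `D_i = ∏_{l<i} (θ^(q^i) - θ^(q^l))` -/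
def Dd (q : ℕ) (θ : K) (i : ℕ) : K := ∏ l ∈ range i, (θ ^ q ^ i - θ ^ q ^ l)

/-- `c_i(T) = ∏_{l=1}^{i} (θ^(q^i) - T^(q^l)) / D_i` -/
noncomputable def cc (q : ℕ) (θ : K) (i : ℕ) : K[X] :=
  C (Dd q θ i)⁻¹ * ∏ l ∈ range i, (C (θ ^ q ^ i) - X ^ q ^ (l + 1))

/-- `P_a(T)`, the coefficient of `x^(a-1)` of `1 / (1 - Σ c_i(T) x^(q^i))`, `a ≥ 1` -/
noncomputable def Pp (q : ℕ) (θ : K) (a : ℕ) : K[X] := gg q (cc q θ) (a - 1)

/-- `f_0 = 1`, `f_i(T) = (θ - T) ∏_{l=1}^{i-1} (θ^(q^i) - T^(q^l)) / D_i`, `i ≥ 1` -/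
noncomputable def ff (q : ℕ) (θ : K) : ℕ → K[X]
  | 0 => 1
  | i + 1 => C (Dd q θ (i + 1))⁻¹ *
      ((C θ - X) * ∏ l ∈ range i, (C (θ ^ q ^ (i + 1)) - X ^ q ^ (l + 1)))

/-- the telescoping polynomial of `[b]`, `q - 1 ∣ b` -/
noncomputable def Fb (q : ℕ) (θ : K) (b : ℕ) : K[X] := hh q (ff q θ) b

/-- `ℓ_d = ∏_{i=1}^{d} (θ - θ^(q^i))` -/
def ell (q : ℕ) (θ : K) (d : ℕ) : K := ∏ i ∈ range d, (θ - θ ^ q ^ (i + 1))

/-- `x_d = 1/ℓ_d` -/
def xx (q : ℕ) (θ : K) (d : ℕ) : K := (ell q θ d)⁻¹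

/-- `y_d = x_d (θ - θ^(q^d))`, which is `x_{d-1}` for `d ≥ 1` and `0` for `d = 0` -/
def yy (q : ℕ) (θ : K) (d : ℕ) : K := xx q θ d * (θ - θ ^ q ^ d)

/-- The power sum `S_d(a) = x_d^a P_a(T_d)`, `a ≥ 1` (module `PowS`: it is the sum of the `n^(-a)`
over the monic polynomials `n` of degree `d`). -/
noncomputable def ps (q : ℕ) (θ : K) (d a : ℕ) : K :=
  (xx q θ d) ^ a * (Pp q θ a).eval (θ ^ q ^ d)

/-- The multiple power sum `S_{<d}(s_1, ..., s_r)`, the sum over `d > d_1 > ... > d_r ≥ 0`. -/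
noncomputable def SS (q : ℕ) (θ : K) : List ℕ → ℕ → K
  | [], _ => 1
  | a :: s, d => ∑ i ∈ range d, ps q θ i a * SS q θ s i

/-- `f` is the telescoping polynomial of the tuple `s`:
`f_s(T^q) = (θ-T)^(w_s) f_s(T) + P_a(T) (θ-T)^(w_t) f_t(T)`, `s = (a, t)`. -/
def TelF (q : ℕ) (θ : K) : List ℕ → K[X] → Prop
  | [], f => f = 1
  | a :: t, f => ∃ g : K[X], TelF q θ t g ∧
      expand K q f = (C θ - X) ^ (a + t.sum) * f + Pp q θ a * ((C θ - X) ^ t.sum * g)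

end Field

/-! ### Levels: polynomials over `F((1/θ))` -/

section Level

variable {F : Type*} [Field F]

/-- `θ`, as an element of `F((1/θ))` -/
noncomputable def th : LaurentSeries F := HahnSeries.single (-1 : ℤ) (1 : F)

/-- `f = Σ f_i T^i`, `T = θ^(q^j) τ`: the coefficient of `θ^m` of `f`, as a polynomial in `τ`. -/
noncomputable def La (q j : ℕ) (m : ℤ) (f : (LaurentSeries F)[X]) : F[X] :=
  ∑ i ∈ range (f.natDegree + 1), C ((f.coeff i).coeff ((i : ℤ) * (q : ℤ) ^ j - m)) * X ^ i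

/-- `deg_θ f(θ^(q^j) τ) ≤ m`, i.e. `deg f_i + i q^j ≤ m` for all `i` -/
def Nle (q j : ℕ) (m : ℤ) (f : (LaurentSeries F)[X]) : Prop :=
  ∀ (i : ℕ) (n : ℤ), n < (i : ℤ) * (q : ℤ) ^ j - m → (f.coeff i).coeff n = 0

/-- The invariants of the telescoping polynomial `f` of a tuple `s` (non-empty); `(q-1) B` is the
last entry of `s`. -/
structure Inv (p q : ℕ) (s : List ℕ) (f : (LaurentSeries F)[X]) (B K : ℕ) : Prop where
  ne : f ≠ 0
  deg : (q - 1) * f.natDegree = s.sum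
  low : (q - 1) * B ≤ s.sum
  /-- level 0 -/
  n0 : Nle q 0 0 ((C th - X) ^ s.sum * f)
  l0 : La q 0 0 ((C th - X) ^ s.sum * f) ≠ 0
  r0 : (La q 0 0 ((C th - X) ^ s.sum * f)).rootMultiplicity 1 = K
  wK : s.sum ≤ K
  /-- levels `≥` the depth -/
  mono : ∀ i, s.length ≤ i → ∃ (m : ℤ) (c : F), c ≠ 0 ∧ Nle q i m f ∧
    La q i m f = C c * X ^ f.natDegree
  /-- the multiplicities of the roots `θ^(q^i)`, `i` smaller than the depth -/
  ord : ∀ i, 1 ≤ i → i < s.length → (q - 1) * B + 1 ≤ q ^ i * f.rootMultiplicity (th ^ q ^ i)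
  ord0 : (q - 1) * B + 1 ≤ s.sum + f.rootMultiplicity th
  top : q ^ s.length * (K - s.sum) ≤ K
  head : ∀ a t, s = a :: t → (q - 1) * K ≤ q ^ s.length * a
  tl : ∀ a t, s = a :: t → q ^ t.length * (K - t.sum) ≤ K
  kB : K ≤ q * B
  kP : ∀ u, (q - 1) * B + 1 ≤ q * p ^ u → K ≤ q * p ^ u

end Level

/-! ### Digits -/

/-- `m` is valid for `a`: `m > 0`, `q - 1 ∣ m`, `binomial (a+m-1, m)` is not divisible by `p` -/
def Valid (p q a m : ℕ) : Prop := 0 < m ∧ (q - 1) ∣ m ∧ ¬ p ∣ (a + m - 1).choose m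

/-- `Σ p^u` over the list `U` -/
def Lsum (p : ℕ) (U : List ℕ) : ℕ := (U.map (fun u => p ^ u)).sum

/-- for all choices of exponents `i_u`, `u ∈ U`: `M + Σ p^u q^(i_u) ≤ N` implies
`M + Σ p^u q^(i_u) ≤ Z` -/
def Bd (p q N : ℕ) : List ℕ → ℕ → ℕ → Prop
  | [], M, Z => M ≤ N → M ≤ Z
  | u :: U, M, Z => ∀ i : ℕ, Bd p q N U (M + p ^ u * q ^ i) Z

/-- the combinatorial condition which implies `deg P_a ≤ q r` -/
def DegB (p q a r : ℕ) : Prop := ∃ (s c : ℕ) (U : List ℕ) (Z : ℕ), 1 ≤ c ∧ c ≤ q ∧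
  a + Lsum p U = p ^ s * c ∧ Bd p q (p ^ s * c - 1) U 0 Z ∧ Z ≤ Lsum p U + (q - 1) * r

/-- case (C) of the digit lemma -/
def CaseC (p q a : ℕ) : Prop := ∃ m r, Valid p q a m ∧ (q - 1) * a = m + q * ((q - 1) * r) ∧
  DegB p q a r ∧ ((q - 1) ∣ a → ∃ u, a = (q - 1) * (r + p ^ u))

/-- case (N) of the digit lemma -/
def CaseN (p q a : ℕ) : Prop := ∃ m, Valid p q a m ∧ q * (a + m) ≤ (q - 1) ^ 2 * a

/-- the exceptional case of the digit lemma -/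
def CaseE (p q a : ℕ) : Prop := q = 3 ∧ ∃ i, a = 11 * 3 ^ i ∧ Valid p q a (4 * 3 ^ i) ∧
  DegB p q a (4 * 3 ^ i)

/-- `Σ_{u<s} d_u p^u` -/
def dsum (p s : ℕ) (d : ℕ → ℕ) : ℕ := ∑ u ∈ range s, d u * p ^ u

/-- the weight `p^((u-s) mod e)` of the place `u < s` -/
def wt (p e s u : ℕ) : ℕ := p ^ (e - 1 - (s - 1 - u) % e)

/-- the weight of a digit function -/
def wsum (p e s : ℕ) (d : ℕ → ℕ) : ℕ := ∑ u ∈ range s, d u * wt p e s u

end Pool.Agent.ZQ
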