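import Pool.Agent.Work.MP_43901b_nt.CcB
import Pool.Agent.Work.MP_43901b_nt.Cong

/-!
# PpB (M): the polynomials `P_a`

`Pp q θ a = gg q (cc q θ) (a-1)` over the ring `K[X]`.

* `Pp_rec`: `gg_rec`.
* `Pp_eval_self`: evaluate at `θ` (ring homomorphism `eval θ`, `gg_map`): `c_i(θ) = 0` for `i ≥ 1`, so
  by `gg_rec` `gg n = gg (n-1)`, all equal to `1`.
* `Pp_expand`: strong induction with `gg_rec` and `cc_expand`; `(q^i - 1) + (a - q^i) ≤ a - 1` etc.
  (for the sum: all terms are of the form `expand R` with `(q-1) deg R ≤ n`, `n = a-1`: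
  `(q-1) deg (R_i R') ≤ (q^i - 1) + (n - q^i)`).
* `Pp_natDegree_le`: `natDegree_expand`.
* `Pp_map`: `gg_map` for the ring homomorphism `Polynomial.mapRingHom f`, `cc_map`.
* `Pp_pow`: `gg_pow` with `ε = C θ - X`, `cc_dvd`.
* `tel_unique`: `f(θ^(q^(d+1))) = (θ - θ^(q^d))^w f(θ^(q^d))`, and `f(θ^q) = 0` as `w ≥ 1`; so `f` has the
  infinitely many roots `θ^(q^d)`, `d ≥ 1`.
* `SS_tel`: `TelF q θ s f` implies `S_{<d}(s) = y_d^w f(T_d)` for all `d`.  Induction on `s` and on `d`: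
  `d = 0`: `y_0 = 0`, `w ≥ 1` (for `s = []`: `f = 1`).  Step: `y_(d+1) = x_d`
  (`yy_succ`: `ℓ_(d+1) = ℓ_d (θ - T_(d+1))`), `y_d = x_d (θ - T_d)`, evaluate the equation of `f` at
  `T_d` (`expand_eval`).
-/

namespace Pool.Agent.ZQ

open Polynomial Finset

variable {p q : ℕ} {K : Type*} [Field K] {θ : K}

theorem Pp_one (θ : K) : Pp q θ 1 = 1 := gg_zero _

theorem Pp_rec (h : IsQ p q) (θ : K) {a : ℕ} (ha : 1 ≤ a) : Pp q θ (a + 1) =
    ∑ i ∈ range (a + 1), if q ^ i ≤ a then cc q θ i * Pp q θ (a + 1 - q ^ i) else 0 := by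
  have h1 : Pp q θ (a + 1) = gg q (cc q θ) a := rfl
  rw [h1, gg_rec h.two_le _ ha]
  refine sum_congr rfl fun i _ => ?_
  split_ifs with h2
  · have h3 : a + 1 - q ^ i - 1 = a - q ^ i := by omega
    rw [Pp, h3]
  · rfl

private theorem gg_eval_one (h : IsQ p q) (c : ℕ → K) (h0 : c 0 = 1) (h1 : ∀ i, 1 ≤ i → c i = 0)
    (n : ℕ) : gg q c n = 1 := by
  induction n with
  | zero => exact gg_zero _
  | succ n ih =>
    rw [gg_rec h.two_le _ (Nat.succ_le_succ (Nat.zero_le n)), sum_eq_single 0]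
    · have h2 : n + 1 - 1 = n := rfl
      rw [pow_zero, if_pos (show 1 ≤ n + 1 by omega), h0, one_mul, h2, ih]
    · intro i _ hi
      split_ifs
      · rw [h1 i (Nat.one_le_iff_ne_zero.2 hi), zero_mul]
      · rfl
    · intro h2
      exact absurd (mem_range.2 (by omega)) h2

theorem Pp_eval_self (h : IsQ p q) (θ : K) (a : ℕ) : (Pp q θ a).eval θ = 1 := by
  have h1 := gg_map (q := q) (evalRingHom θ) (cc q θ) (a - 1)
  have h2 : (Pp q θ a).eval θ = gg q (fun i => (evalRingHom θ) (cc q θ i)) (a - 1) := h1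
  rw [h2]
  refine gg_eval_one h _ ?_ (fun i hi => ?_) _
  · rw [cc_zero, map_one]
  · exact cc_eval_self θ hi

theorem Pp_ne (h : IsQ p q) (θ : K) (a : ℕ) : Pp q θ a ≠ 0 := by
  intro h0
  have h1 := Pp_eval_self h θ a
  rw [h0, eval_zero] at h1
  exact zero_ne_one h1

private theorem gg_exp (h : IsQ p q) (θ : K) (n : ℕ) : ∃ R : K[X], gg q (cc q θ) n = expand K q R ∧
    (q - 1) * R.natDegree ≤ n := by
  induction n using Nat.strong_induction_on with
  | _ n ih =>
    rcases Nat.eq_zero_or_pos n with rfl | hn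
    · exact ⟨1, by rw [gg_zero, map_one], by rw [natDegree_one]; simp⟩
    · rw [gg_rec h.two_le _ hn]
      refine sum_induction _ (fun f : K[X] => ∃ R : K[X], f = expand K q R ∧
        (q - 1) * R.natDegree ≤ n) ?_ ?_ ?_
      · rintro f g ⟨R, rfl, hR⟩ ⟨R', rfl, hR'⟩
        refine ⟨R + R', by rw [map_add], ?_⟩
        calc (q - 1) * (R + R').natDegree ≤ (q - 1) * max R.natDegree R'.natDegree :=
              Nat.mul_le_mul_left _ (natDegree_add_le _ _)
          _ ≤ n := by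
              rcases max_choice R.natDegree R'.natDegree with h1 | h1 <;> rw [h1] <;> assumption
      · exact ⟨0, by rw [map_zero], by rw [natDegree_zero]; simp⟩
      · intro i _
        split_ifs with h1
        · obtain ⟨R, hR, hR'⟩ := cc_expand h θ i
          have hq : 0 < q ^ i := pow_pos h.pos i
          obtain ⟨S, hS, hS'⟩ := ih (n - q ^ i) (by omega)
          refine ⟨R * S, by rw [map_mul, ← hR, ← hS], ?_⟩
          calc (q - 1) * (R * S).natDegree ≤ (q - 1) * (R.natDegree + S.natDegree) :=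
                Nat.mul_le_mul_left _ natDegree_mul_le
            _ = (q - 1) * R.natDegree + (q - 1) * S.natDegree := mul_add _ _ _
            _ ≤ (q ^ i - 1) + (n - q ^ i) := add_le_add hR' hS'
            _ ≤ n := by omega
        · exact ⟨0, by rw [map_zero], by rw [natDegree_zero]; simp⟩

theorem Pp_expand (h : IsQ p q) (θ : K) (a : ℕ) : ∃ R : K[X], Pp q θ a = expand K q R ∧
    (q - 1) * R.natDegree ≤ a - 1 := gg_exp h θ (a - 1)

theorem Pp_natDegree_le (h : IsQ p q) (θ : K) (a : ℕ) :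
    (q - 1) * (Pp q θ a).natDegree ≤ q * (a - 1) := by
  obtain ⟨R, hR, hR'⟩ := Pp_expand h θ a
  rw [hR, natDegree_expand]
  calc (q - 1) * (R.natDegree * q) = q * ((q - 1) * R.natDegree) := by ring
    _ ≤ q * (a - 1) := Nat.mul_le_mul_left _ hR'

theorem Pp_map {K' : Type*} [Field K'] (f : K →+* K') (θ : K) (a : ℕ) :
    (Pp q θ a).map f = Pp q (f θ) a := by
  have h1 := gg_map (q := q) (mapRingHom f) (cc q θ) (a - 1)
  have h2 : (Pp q θ a).map f = gg q (fun i => (mapRingHom f) (cc q θ i)) (a - 1) := h1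
  rw [h2, Pp]
  congr 1
  funext i
  exact cc_map f θ i

theorem Pp_pow [CharP K p] (h : IsQ p q) (θ : K) {w : ℕ} (hw : 1 ≤ w) {j : ℕ} (hj : 1 ≤ j) :
    (C θ - X) ^ (w + 1) ∣ Pp q θ (j * w) - Pp q θ w ^ j :=
  gg_pow h (cc_zero θ) (fun _ hi => cc_dvd h θ hi) hw hj

theorem tel_unique (hθ : Gen q θ) {w : ℕ} (hw : 1 ≤ w) {f : K[X]}
    (hf : expand K q f = (C θ - X) ^ w * f) : f = 0 := by
  have h1 : ∀ x : K, f.eval (x ^ q) = (θ - x) ^ w * f.eval x := by
    intro x
    have h2 := congrArg (eval x) hf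
    rwa [expand_eval, eval_mul, eval_pow, eval_sub, eval_C, eval_X] at h2
  have h2 : ∀ d : ℕ, f.eval (θ ^ q ^ (d + 1)) = 0 := by
    intro d
    induction d with
    | zero =>
      rw [zero_add, pow_one, h1, sub_self, zero_pow (by omega), zero_mul]
    | succ d ih =>
      rw [pow_succ q (d + 1), pow_mul, h1, ih, mul_zero]
  refine eq_zero_of_infinite_isRoot f ?_
  refine Set.infinite_of_injective_forall_mem (f := fun d : ℕ => θ ^ q ^ (d + 1)) ?_ h2
  intro d e hde
  have := hθ (a₁ := d + 1) (a₂ := e + 1) hde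
  omega

theorem ell_ne (hθ : Gen q θ) (d : ℕ) : ell q θ d ≠ 0 := by
  unfold ell
  refine prod_ne_zero_iff.2 fun i _ => ?_
  exact sub_ne_zero.2 (hθ.ne (Nat.succ_le_succ (Nat.zero_le i))).symm

theorem xx_ne (hθ : Gen q θ) (d : ℕ) : xx q θ d ≠ 0 := inv_ne_zero (ell_ne hθ d)

theorem yy_zero (θ : K) : yy q θ 0 = 0 := by
  rw [yy, pow_zero, pow_one, sub_self, mul_zero]

theorem yy_succ (hθ : Gen q θ) (d : ℕ) : yy q θ (d + 1) = xx q θ d := by
  have h1 : θ - θ ^ q ^ (d + 1) ≠ 0 :=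
    sub_ne_zero.2 (hθ.ne (Nat.succ_le_succ (Nat.zero_le d))).symm
  rw [yy, xx, xx, ell, prod_range_succ, ← ell, mul_inv, mul_assoc, inv_mul_cancel₀ h1, mul_one]

theorem SS_succ (θ : K) (a : ℕ) (s : List ℕ) (d : ℕ) :
    SS q θ (a :: s) (d + 1) = SS q θ (a :: s) d + ps q θ d a * SS q θ s d := by
  rw [SS, SS, sum_range_succ]

theorem SS_tel (hθ : Gen q θ) {s : List ℕ} (hs : ∀ a ∈ s, 1 ≤ a) {f : K[X]}
    (hf : TelF q θ s f) (d : ℕ) :
    SS q θ s d = yy q θ d ^ s.sum * f.eval (θ ^ q ^ d) := by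
  induction s generalizing f d with
  | nil =>
    have h1 : f = 1 := hf
    rw [h1, SS, List.sum_nil, pow_zero, eval_one, mul_one]
  | cons a t ih =>
    obtain ⟨g, hg, he⟩ := hf
    have ha : 1 ≤ a := hs a List.mem_cons_self
    have ht : ∀ b ∈ t, 1 ≤ b := fun b hb => hs b (List.mem_cons_of_mem a hb)
    rw [List.sum_cons]
    induction d with
    | zero =>
      rw [SS, range_zero, sum_empty, yy_zero, zero_pow (by omega), zero_mul]
    | succ d ihd =>
      rw [SS_succ, ihd, ih ht hg d, ps, yy_succ hθ]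
      have h2 : f.eval (θ ^ q ^ (d + 1)) = (θ - θ ^ q ^ d) ^ (a + t.sum) * f.eval (θ ^ q ^ d) +
          (Pp q θ a).eval (θ ^ q ^ d) * ((θ - θ ^ q ^ d) ^ t.sum * g.eval (θ ^ q ^ d)) := by
        have h3 := congrArg (eval (θ ^ q ^ d)) he
        rw [expand_eval, ← pow_mul, ← pow_succ] at h3
        rw [h3]
        simp only [eval_add, eval_mul, eval_pow, eval_sub, eval_C, eval_X]
      rw [h2, yy, mul_pow, mul_pow]
      ring

theorem tel_map {K' : Type*} [Field K'] (φ : K →+* K') {s : List ℕ} {f : K[X]}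
    (hf : TelF q θ s f) : TelF q (φ θ) s (f.map φ) := by
  induction s generalizing f with
  | nil =>
    have h1 : f = 1 := hf
    show f.map φ = 1
    rw [h1, Polynomial.map_one]
  | cons a t ih =>
    obtain ⟨g, hg, he⟩ := hf
    refine ⟨g.map φ, ih hg, ?_⟩
    have h1 := congrArg (Polynomial.map φ) he
    rw [map_expand] at h1
    rw [h1]
    simp only [Polynomial.map_add, Polynomial.map_mul, Polynomial.map_pow, Polynomial.map_sub,
      map_C, map_X, Pp_map]

end Pool.Agent.ZQ
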