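import Pool.Agent.Work.MP_43901b_nt.Aum
import Pool.Agent.Work.MP_43901b_nt.CcB
import Pool.Agent.Work.MP_43901b_nt.PpB

/-!
# DegP (M): `deg P_a ≤ q r` from `DegB p q a r`

Over the ring `K[X]` (characteristic `p`), `c = cc q θ`, `b_l = bb q c l`.

`bb_natDegree_le`: strong induction with `bb_succ`: `deg b_l c_(n-l)^(q^l) ≤ σ_l + q^l σ_(n-l) = σ_n`
(`sg`: `σ_n = σ_l + q^l σ_(n-l)`), `cc_natDegree_le`.

`Au_deg`: induction on `U` (for all `M`) from `Au_cons` (`n` with `N < p^v q^(n+1)`; e.g. `n = N`).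
`U = []`: `Au_nil`: nonzero only for `M ≤ N`, then it is `1`, so the index `n` is `0`, and `M ≤ Z` by `Bd`.
`v :: U`: a nonzero coefficient of the sum at index `n` gives `i`, `n = n₁ + n₂` with a nonzero
coefficient of `b_i^(p^v)` at `n₁` (so `n₁ ≤ p^v σ_i`, `(q-1) n₁ + q p^v ≤ p^v q^(i+1)`, `sg_mul`) and of
`A(U, M + p^v q^i)` at `n₂`, and `Bd .. U (M + p^v q^i) Z` holds; by induction
`(q-1) n₂ + q (M + p^v q^i + L(U)) ≤ q Z`.  Add: `(q-1) n + q (M + p^v + L(U)) ≤ q Z`.

`Pp_deg_of_DegB`: with `DegB`'s `s, c, U, Z`, `N = p^s c - 1`: `a + L = N + 1`, `a ≥ 1`, so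
`L ≤ N` and `Pp a = gg (a-1) = gg (N - L) = A(U, 0)` (`Au_zero`); a coefficient `n` of it satisfies
`(q-1) n + q L ≤ q Z ≤ q (L + (q-1) r)`, so `n ≤ q r`.
-/

namespace Pool.Agent.ZQ

open Polynomial Finset

variable {p q : ℕ} {K : Type*} [Field K] {θ : K}

theorem sg_add (q l m : ℕ) : sg q (l + m) = sg q l + q ^ l * sg q m := by
  induction m with
  | zero => rw [add_zero, sg_zero, mul_zero, add_zero]
  | succ m ih =>
    rw [← add_assoc, sg_succ, ih, sg_succ]
    ring

theorem bb_natDegree_le (θ : K) (n : ℕ) : (bb q (cc q θ) n).natDegree ≤ sg q n := by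
  induction n using Nat.strong_induction_on with
  | _ n ih =>
    cases n with
    | zero =>
      rw [bb_zero, natDegree_one]
      exact Nat.zero_le _
    | succ n =>
      rw [bb_succ, natDegree_neg]
      refine natDegree_sum_le_of_forall_le _ _ fun l hl => ?_
      have hl' : l < n + 1 := mem_range.1 hl
      calc (bb q (cc q θ) l * (cc q θ (n + 1 - l)) ^ q ^ l).natDegree
          ≤ (bb q (cc q θ) l).natDegree + ((cc q θ (n + 1 - l)) ^ q ^ l).natDegree :=
            natDegree_mul_le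
        _ ≤ sg q l + q ^ l * sg q (n + 1 - l) := by
            refine add_le_add (ih l hl') ?_
            exact natDegree_pow_le.trans (Nat.mul_le_mul_left _ (cc_natDegree_le θ _))
        _ = sg q (n + 1) := by
            rw [← sg_add]
            congr 1
            omega

theorem Au_deg [CharP K p] (h : IsQ p q) (θ : K) (s : ℕ) {u : ℕ} (hu : 1 ≤ u) (hu' : u ≤ q)
    (U : List ℕ) (M Z : ℕ) (hB : Bd p q (p ^ s * u - 1) U M Z) (n : ℕ)
    (hn : (Au p q (cc q θ) (p ^ s * u - 1) U M).coeff n ≠ 0) :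
    (q - 1) * n + q * (M + Lsum p U) ≤ q * Z := by
  induction U generalizing M n with
  | nil =>
    rw [Au_nil h (cc q θ) (cc_zero θ) s hu hu'] at hn
    split_ifs at hn with hM
    · have h1 : n = 0 := by
        by_contra h2
        exact hn (by rw [coeff_one, if_neg h2])
      have h2 : M ≤ Z := hB hM
      subst h1
      have h3 : Lsum p [] = 0 := rfl
      rw [h3, mul_zero, zero_add, add_zero]
      exact Nat.mul_le_mul_left _ h2
    · exact absurd (coeff_zero n) hn
  | cons v U ih =>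
    have hq := h.two_le
    have hN : p ^ s * u - 1 < p ^ v * q ^ (p ^ s * u - 1 + 1) := by
      have h1 : p ^ s * u - 1 < q ^ (p ^ s * u - 1 + 1) :=
        (Nat.lt_succ_self _).trans (Nat.lt_pow_self (by omega))
      have h2 : 0 < p ^ v := pow_pos h.p_pos v
      exact h1.trans_le (Nat.le_mul_of_pos_left _ h2)
    rw [Au_cons h (cc q θ) (cc_zero θ) _ v U M hN, finsetSum_coeff] at hn
    obtain ⟨i, -, hi⟩ := exists_ne_zero_of_sum_ne_zero hn
    rw [coeff_mul] at hi
    obtain ⟨⟨n₁, n₂⟩, h12, hi2⟩ := exists_ne_zero_of_sum_ne_zero hi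
    rw [HasAntidiagonal.mem_antidiagonal] at h12
    simp only at h12 hi2
    have h3 := ih _ (hB i) n₂ (right_ne_zero_of_mul hi2)
    have h4 : n₁ ≤ p ^ v * sg q i := by
      refine (le_natDegree_of_ne_zero (left_ne_zero_of_mul hi2)).trans ?_
      exact natDegree_pow_le.trans (Nat.mul_le_mul_left _ (bb_natDegree_le θ i))
    have h5 := sg_mul (q := q) (by omega) i
    have h6 : (q - 1) * n₁ + q * p ^ v ≤ q * (p ^ v * q ^ i) := by
      calc (q - 1) * n₁ + q * p ^ v ≤ (q - 1) * (p ^ v * sg q i) + q * p ^ v :=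
            Nat.add_le_add_right (Nat.mul_le_mul_left _ h4) _
        _ = p ^ v * ((q - 1) * sg q i + q) := by ring
        _ = q * (p ^ v * q ^ i) := by rw [h5]; ring
    have h7 : Lsum p (v :: U) = p ^ v + Lsum p U := by simp [Lsum]
    rw [← h12, h7]
    calc (q - 1) * (n₁ + n₂) + q * (M + (p ^ v + Lsum p U))
        = ((q - 1) * n₁ + q * p ^ v) + ((q - 1) * n₂ + q * (M + Lsum p U)) := by ring
      _ ≤ q * (p ^ v * q ^ i) + ((q - 1) * n₂ + q * (M + Lsum p U)) := Nat.add_le_add_right h6 _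
      _ = (q - 1) * n₂ + q * (M + p ^ v * q ^ i + Lsum p U) := by ring
      _ ≤ q * Z := h3

theorem Pp_deg_of_DegB [CharP K p] (h : IsQ p q) (θ : K) {a r : ℕ} (ha : 1 ≤ a)
    (hB : DegB p q a r) : (Pp q θ a).natDegree ≤ q * r := by
  obtain ⟨s, c, U, Z, hc, hc', h1, h2, h3⟩ := hB
  rw [natDegree_le_iff_coeff_eq_zero]
  intro n hn
  by_contra h4
  have hL : Lsum p U ≤ p ^ s * c - 1 := by omega
  have h5 : Pp q θ a = Au p q (cc q θ) (p ^ s * c - 1) U 0 := by
    rw [Au_zero (cc q θ) hL, Pp]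
    congr 1
    omega
  rw [h5] at h4
  have h6 := Au_deg h θ s hc hc' U 0 Z h2 n h4
  have h7 : q * Z ≤ q * (Lsum p U + (q - 1) * r) := Nat.mul_le_mul_left _ h3
  have h8 : (q - 1) * n ≤ (q - 1) * (q * r) := by
    have h9 : q * (Lsum p U + (q - 1) * r) = q * (0 + Lsum p U) + (q - 1) * (q * r) := by ring
    omega
  have hq := h.two_le
  have h10 : n ≤ q * r := Nat.le_of_mul_le_mul_left h8 (by omega)
  omega

end Pool.Agent.ZQ
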