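import Pool.Agent.Work.MP_43901b_nt.Base

/-!
# DigB (M): Lucas' theorem in blocks, valid numbers

* `luc`: induction on `s` with `Choose.choose_modEq_choose_mod_mul_choose_div_nat`
  (`choose n k ≡ choose (n%p) (k%p) * choose (n/p) (k/p)`): write `A = A' p + a₀`, `M = M' p + m₀`.
* `choose_top`: `binom(p^s - 1, x)`, `x < p^s`: all digits of `p^s - 1` are `p-1` (induction with `luc`,
  `s = 1`: `binom(p-1, x)` divides `(p-1)!`-type argument, `x < p`, no factor `p`).
* `choose_compl`: `binom(p^s - 1 - L + R, R) ≡ (-1)^R binom(L, R) mod p` for `R ≤ L < p^s`; by induction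
  on `s` through `luc` it is enough for one digit: `l, r < p`.  (One digit, `r ≤ l < p`: both sides are
  nonzero mod `p`: `p-1-l+r < p`.  If at some digit `r > l` then `binom(L,R) ≡ 0`, and on the left side
  adding `p^s-1-L` (digits `p-1-l`) and `R` produces a carry, so `≡ 0` by Kummer.)  Alternative proof:
  `binom(p^s-1-L+R, R) binom(p^s - 1, ..)`..: use the identity
  `binom(n, R) binom(n - R, L - R) = binom(n, L) binom(L, R)` with `n = p^s - 1`:
  `binom(p^s-1, R)`, `binom(p^s-1, L)` are units mod `p` (`choose_top`), so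
  `p ∣ binom(L,R) ↔ p ∣ binom(p^s-1-R, L-R)`, and with `R' = L - R`.. : apply this to `(L, L-R)`:
  `binom(L, L-R) = binom(L, R)` and `binom(p^s-1-(L-R), L-(L-R)) = binom(p^s-1-L+R, R)`.  Done.
* `valid_of`: `a + m - 1 = (p^s - 1 - L + R) + p^s ((c - 1 + x) + q y)`, `m = R + p^s (x + q y)`; `luc` twice
  (`p^s`, then `q`, a power of `p`), `choose_compl` for `(s, L, R)` and for `(e, q - c, x)`
  (`q - 1 - (q - c) + x = c - 1 + x`), `binom(y, y) = 1`.
* `choose_digits`: induction on `s` (`sum_range_succ`: top digit) with `luc`; `binom(d,r)`, `r ≤ d < p`.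
* `exists_digits`: `d u = L / p^u % p`.
-/

namespace Pool.Agent.ZQ

open Finset

variable {p q : ℕ}

theorem luc (hp : p.Prime) {s A B M N : ℕ} (hA : A < p ^ s) (hM : M < p ^ s) :
    p ∣ (A + p ^ s * B).choose (M + p ^ s * N) ↔ p ∣ A.choose M ∨ p ∣ B.choose N := by
  have := Fact.mk hp
  induction s generalizing A M with
  | zero =>
    rw [pow_zero, Nat.lt_one_iff] at hA hM
    subst hA hM
    rw [pow_zero, one_mul, one_mul, zero_add, zero_add, Nat.choose_self, Nat.dvd_one]
    constructor
    · exact Or.inr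
    · rintro (h | h)
      · exact absurd h hp.one_lt.ne'
      · exact h
  | succ s ih =>
    have hp0 := hp.pos
    have key : ∀ n k : ℕ, p ∣ n.choose k ↔
        p ∣ (n % p).choose (k % p) ∨ p ∣ (n / p).choose (k / p) := by
      intro n k
      have h1 := Choose.choose_modEq_choose_mod_mul_choose_div_nat (p := p) (n := n) (k := k)
      rw [← hp.dvd_mul]
      exact h1.dvd_iff dvd_rfl
    have hmod : ∀ a b : ℕ, (a + p ^ (s + 1) * b) % p = a % p := by
      intro a b
      rw [pow_succ', mul_assoc, Nat.add_mul_mod_self_left]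
    have hdiv : ∀ a b : ℕ, (a + p ^ (s + 1) * b) / p = a / p + p ^ s * b := by
      intro a b
      rw [pow_succ', mul_assoc, Nat.add_mul_div_left _ _ hp0]
    have hlt : ∀ a : ℕ, a < p ^ (s + 1) → a / p < p ^ s := by
      intro a ha
      rw [Nat.div_lt_iff_lt_mul hp0, ← pow_succ]
      exact ha
    have h9 := ih (hlt A hA) (hlt M hM)
    have h8 := key A M
    rw [key (A + p ^ (s + 1) * B), hmod, hmod, hdiv, hdiv]
    tauto

theorem choose_top (hp : p.Prime) {s x : ℕ} (hx : x < p ^ s) : ¬ p ∣ (p ^ s - 1).choose x := by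
  induction x with
  | zero =>
    rw [Nat.choose_zero_right, Nat.dvd_one]
    exact hp.one_lt.ne'
  | succ x ih =>
    intro h
    apply ih (by omega)
    have h1 : p ∣ (p ^ s).choose (x + 1) := hp.dvd_choose_pow (by omega) (by omega)
    obtain ⟨n, hn⟩ : ∃ n, p ^ s = n + 1 := ⟨p ^ s - 1, by omega⟩
    rw [hn, Nat.add_sub_cancel] at h
    rw [hn, Nat.add_sub_cancel]
    rw [hn, Nat.choose_succ_succ] at h1
    exact (Nat.dvd_add_iff_left h).2 h1

theorem choose_compl (hp : p.Prime) {s L R : ℕ} (hL : L < p ^ s) (hR : R ≤ L) :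
    p ∣ (p ^ s - 1 - L + R).choose R ↔ p ∣ L.choose R := by
  have h1 := Nat.choose_mul (n := p ^ s - 1) (k := L) (s := L - R) (by omega)
  have e1 : p ^ s - 1 - (L - R) = p ^ s - 1 - L + R := by omega
  have e2 : L - (L - R) = R := by omega
  rw [e1, e2, Nat.choose_symm hR] at h1
  have h2 := choose_top hp (s := s) (x := L) hL
  have h3 := choose_top hp (s := s) (x := L - R) (by omega)
  constructor
  · intro h
    have h4 : p ∣ (p ^ s - 1).choose L * L.choose R := by
      rw [h1]
      exact Dvd.dvd.mul_left h _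
    exact (hp.dvd_mul.1 h4).resolve_left h2
  · intro h
    have h4 : p ∣ (p ^ s - 1).choose (L - R) * (p ^ s - 1 - L + R).choose R := by
      rw [← h1]
      exact Dvd.dvd.mul_left h _
    exact (hp.dvd_mul.1 h4).resolve_left h3

theorem valid_of (h : IsQ p q) {s c L R x y : ℕ} (hc : 1 ≤ c) (hc' : c ≤ q) (hL : L < p ^ s)
    (hR : R ≤ L) (hRL : ¬ p ∣ L.choose R) (hx : x ≤ q - c) (hxc : ¬ p ∣ (q - c).choose x)
    (hm : 0 < R + p ^ s * (x + q * y)) (hd : (q - 1) ∣ R + p ^ s * (x + q * y)) :
    Valid p q (p ^ s * c - L) (R + p ^ s * (x + q * y)) := by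
  have hp := h.prime
  refine ⟨hm, hd, ?_⟩
  obtain ⟨e, he, hqe⟩ := h.pow
  have e1 : p ^ s * c - L + (R + p ^ s * (x + q * y)) - 1 =
      (p ^ s - 1 - L + R) + p ^ s * ((c - 1 + x) + q * y) := by
    obtain ⟨c', rfl⟩ : ∃ c', c = c' + 1 := ⟨c - 1, by omega⟩
    rw [Nat.add_sub_cancel]
    have e2 : p ^ s * (c' + 1) = p ^ s * c' + p ^ s := by ring
    have e3 : p ^ s * (c' + x + q * y) = p ^ s * c' + p ^ s * (x + q * y) := by ring
    rw [e2, e3]
    omega
  rw [e1, luc hp (by omega) (by omega), choose_compl hp hL hR]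
  rintro (h1 | h1)
  · exact hRL h1
  · have hB : c - 1 + x < p ^ e := by
      rw [← hqe]
      omega
    have hM : x < p ^ e := by
      rw [← hqe]
      omega
    rw [hqe, luc hp hB hM, Nat.choose_self, Nat.dvd_one] at h1
    rcases h1 with h1 | h1
    · have h2 := choose_compl hp (s := e) (L := q - c) (R := x) (by rw [← hqe]; omega) hx
      have e4 : p ^ e - 1 - (q - c) + x = c - 1 + x := by
        rw [← hqe]
        omega
      rw [e4] at h2
      exact hxc (h2.1 h1)
    · exact hp.one_lt.ne' h1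

theorem dsum_lt (hp : p.Prime) {s : ℕ} {d : ℕ → ℕ} (hd : ∀ u < s, d u < p) : dsum p s d < p ^ s := by
  induction s with
  | zero => simp [dsum]
  | succ s ih =>
    have h1 := ih fun u hu => hd u (by omega)
    have h2 := hd s (by omega)
    have h3 : dsum p (s + 1) d = dsum p s d + d s * p ^ s := by
      unfold dsum
      rw [sum_range_succ]
    have h4 : (d s + 1) * p ^ s ≤ p * p ^ s := Nat.mul_le_mul_right _ h2
    rw [h3, pow_succ']
    have h5 : (d s + 1) * p ^ s = d s * p ^ s + p ^ s := by ring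
    omega

theorem choose_digits (hp : p.Prime) {s : ℕ} {d r : ℕ → ℕ} (hd : ∀ u < s, d u < p)
    (hr : ∀ u < s, r u ≤ d u) : ¬ p ∣ (dsum p s d).choose (dsum p s r) := by
  induction s with
  | zero =>
    have h0 : ∀ f : ℕ → ℕ, dsum p 0 f = 0 := fun f => by simp [dsum]
    rw [h0, h0, Nat.choose_self, Nat.dvd_one]
    exact hp.one_lt.ne'
  | succ s ih =>
    have h3 : ∀ f : ℕ → ℕ, dsum p (s + 1) f = dsum p s f + p ^ s * f s := by
      intro f
      unfold dsum
      rw [sum_range_succ, mul_comm (f s)]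
    rw [h3, h3, luc hp (dsum_lt hp fun u hu => hd u (by omega))
      (dsum_lt hp fun u hu => lt_of_le_of_lt (hr u (by omega)) (hd u (by omega)))]
    rintro (h | h)
    · exact ih (fun u hu => hd u (by omega)) (fun u hu => hr u (by omega)) h
    · have h4 := Nat.choose_mul_factorial_mul_factorial (hr s (by omega))
      have h5 : p ∣ (d s).factorial := by
        rw [← h4]
        exact Dvd.dvd.mul_right (Dvd.dvd.mul_right h _) _
      have h6 := (hp.dvd_factorial).1 h5
      have h7 := hd s (by omega)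
      omega

theorem exists_digits (hp : p.Prime) {s L : ℕ} (hL : L < p ^ s) :
    ∃ d : ℕ → ℕ, (∀ u, d u < p) ∧ dsum p s d = L := by
  refine ⟨fun u => L / p ^ u % p, fun u => Nat.mod_lt _ hp.pos, ?_⟩
  have h1 : ∀ s, dsum p s (fun u => L / p ^ u % p) = L % p ^ s := by
    intro s
    induction s with
    | zero => simp [dsum, Nat.mod_one]
    | succ s ih =>
      have h3 : dsum p (s + 1) (fun u => L / p ^ u % p) =
          dsum p s (fun u => L / p ^ u % p) + L / p ^ s % p * p ^ s := by
        unfold dsum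
        rw [sum_range_succ]
      rw [h3, ih, Nat.mod_pow_succ, mul_comm]
  rw [h1, Nat.mod_eq_of_lt hL]

end Pool.Agent.ZQ
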