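import Pool.Agent.Work.MP_43901b_nt.DigW

/-!
# DigC (S-M): normal form of `a` and case (C)

`normal_form`: `s` minimal with `a ≤ q p^s`, `c = ⌈a/p^s⌉` (so `p^s (c-1) < a ≤ p^s c`), `L = p^s c - a <
p^s`, `1 ≤ c ≤ q`; if `s ≥ 1` then `a > q p^(s-1) = p^(e-1) p^s`, so `c ≥ p^(e-1) + 1`; if `s = 0` then
`L = 0`.  Digits of `L`: `exists_digits`.

`caseC`: `W = wsum`, `L = dsum`, `W + 1 ≤ c`.  `m = L + p^s ((q - c) + q (c - 1 - W))`:
`valid_of` with `R = L`, `x = q - c`, `y = c-1-W` (`binom(L,L) = binom(q-c,q-c) = 1`).  `m > 0`: otherwise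
`L = 0`, `c = q`, `W = c - 1`; but `L = 0` implies `d = 0` on `range s`, `W = 0`, so `q = 1`.
`q - 1 ∣ m`: `L ≡ p^s W` (`dsum_mod`), `q ≡ 1`: `m ≡ p^s (W + 1 - c + c - 1 - W) = 0`.
`r`: `p^s W = L + (q-1) r` (`dsum_le_wsum`, `dsum_mod`); `degB_of_weight`.
`(q-1)(p^s c - L) = m + q (p^s W - L)` : expand.
If `q - 1 ∣ a = p^s c - L`: `p^s (c - W) ≡ 0`, `p^s` is coprime to `q - 1`, so `q-1 ∣ c - W`,
`1 ≤ c - W ≤ q < 2(q-1)` (`q ≥ 3`), so `c - W = q - 1` and
`a = p^s c - L = p^s (q-1) + p^s W - L = (q-1)(p^s + r)`; `u = s`.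
-/

namespace Pool.Agent.ZQ

open Finset

variable {p e : ℕ}

theorem normal_form (hp : p.Prime) (he : 1 ≤ e) {a : ℕ} (ha : 1 ≤ a) :
    ∃ (s c : ℕ) (d : ℕ → ℕ), 1 ≤ c ∧ c ≤ p ^ e ∧ (∀ u, d u < p) ∧
      a + dsum p s d = p ^ s * c ∧ (1 ≤ s → p ^ (e - 1) + 1 ≤ c) := by
  classical
  have hex : ∃ s, a ≤ p ^ e * p ^ s := by
    refine ⟨a, ?_⟩
    have h1 : a < p ^ a := Nat.lt_pow_self hp.one_lt
    have h2 : 1 ≤ p ^ e := Nat.one_le_pow _ _ hp.pos
    calc a ≤ p ^ a := h1.le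
      _ = 1 * p ^ a := (one_mul _).symm
      _ ≤ p ^ e * p ^ a := Nat.mul_le_mul_right _ h2
  set s := Nat.find hex with hs
  have hs1 : a ≤ p ^ e * p ^ s := Nat.find_spec hex
  have hP : 1 ≤ p ^ s := Nat.one_le_pow _ _ hp.pos
  set P := p ^ s with hPdef
  obtain ⟨c, hc⟩ : ∃ c, c = (a + P - 1) / P := ⟨_, rfl⟩
  have hdm := Nat.div_add_mod (a + P - 1) P
  have hml := Nat.mod_lt (a + P - 1) hP
  rw [← hc] at hdm
  have hge : a ≤ P * c := by omega
  have hlt : P * c < a + P := by omega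
  have hc1 : 1 ≤ c := by
    rcases Nat.eq_zero_or_pos c with h0 | h0
    · rw [h0, mul_zero] at hge
      omega
    · exact h0
  have hce : c ≤ p ^ e := by
    by_contra h
    push Not at h
    have h1 : P * (p ^ e + 1) ≤ P * c := Nat.mul_le_mul_left P h
    rw [mul_add, mul_one, mul_comm P] at h1
    omega
  obtain ⟨d, hd, hdL⟩ := exists_digits hp (s := s) (L := P * c - a) (by omega)
  refine ⟨s, c, d, hc1, hce, hd, ?_, fun hs0 => ?_⟩
  · rw [hdL]
    show a + (P * c - a) = P * c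
    omega
  have hmin : ¬ a ≤ p ^ e * p ^ (s - 1) := Nat.find_min hex (by omega)
  have h2 : p ^ e * p ^ (s - 1) = P * p ^ (e - 1) := by
    rw [hPdef, ← pow_add, ← pow_add]
    congr 1
    omega
  rw [h2] at hmin
  by_contra h
  push Not at h
  have h1 : P * c ≤ P * p ^ (e - 1) := Nat.mul_le_mul_left P (by omega)
  omega

theorem caseC (hp : p.Prime) (he : 1 ≤ e) (hq : 3 ≤ p ^ e) {s c a : ℕ} {d : ℕ → ℕ} (hc : 1 ≤ c)
    (hc' : c ≤ p ^ e) (hd : ∀ u, d u < p) (ha : a + dsum p s d = p ^ s * c)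
    (hW : wsum p e s d + 1 ≤ c) : CaseC p (p ^ e) a := by
  have hQ : IsQ p (p ^ e) := ⟨hp, e, he, rfl⟩
  have hP : 1 ≤ p ^ s := Nat.one_le_pow _ _ hp.pos
  have hLlt : dsum p s d < p ^ s := dsum_lt hp fun u _ => hd u
  have hmod := dsum_mod hp he s d
  have hle := dsum_le_wsum hp he s d
  have hW0 : dsum p s d = 0 → wsum p e s d = 0 := by
    intro h0
    rw [dsum, sum_eq_zero_iff] at h0
    refine sum_eq_zero fun u hu => ?_
    rcases mul_eq_zero.1 (h0 u hu) with h1 | h1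
    · rw [h1, zero_mul]
    · exact absurd h1 (pow_ne_zero _ hp.ne_zero)
  obtain ⟨r, hr⟩ : ∃ r, p ^ s * wsum p e s d = dsum p s d + (p ^ e - 1) * r := by
    obtain ⟨r, hr⟩ := (Nat.modEq_iff_dvd' hle).1 hmod
    exact ⟨r, by omega⟩
  have hdeg := degB_of_weight hp he hc hc' (fun u _ => hd u) hr
  generalize hLd : dsum p s d = L at *
  generalize hWd : wsum p e s d = W at *
  obtain ⟨x, hx⟩ : ∃ x, p ^ e = c + x := ⟨p ^ e - c, by omega⟩
  obtain ⟨y, hy⟩ : ∃ y, c = W + 1 + y := ⟨c - 1 - W, by omega⟩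
  have haL : p ^ s * c - L = a := by omega
  have hmid : W + (x + p ^ e * y) = (p ^ e - 1) * (y + 1) := by
    obtain ⟨k, hk⟩ : ∃ k, p ^ e = k + 1 := ⟨p ^ e - 1, by omega⟩
    have h1 : k = W + y + x := by omega
    rw [hk, Nat.add_sub_cancel, h1]
    ring
  have hv := valid_of hQ (s := s) (c := c) (L := L) (R := L) (x := x) (y := y) hc hc' hLlt le_rfl
    (by rw [Nat.choose_self]; exact fun h => hp.one_lt.ne' (Nat.dvd_one.1 h)) (by omega)
    (by
      have h1 : p ^ e - c = x := by omega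
      rw [h1, Nat.choose_self]
      exact fun h => hp.one_lt.ne' (Nat.dvd_one.1 h))
    (by
      rcases Nat.eq_zero_or_pos L with h0 | h0
      · have h1 := hW0 h0
        have h2 : 0 < x + p ^ e * y := by
          rcases Nat.eq_zero_or_pos y with h3 | h3
          · omega
          · have : 1 ≤ p ^ e * y := Nat.mul_pos (by omega) h3
            omega
        have := Nat.mul_pos hP h2
        omega
      · omega)
    (by
      rw [← Nat.modEq_zero_iff_dvd]
      have h1 : L + p ^ s * (x + p ^ e * y) ≡ p ^ s * W + p ^ s * (x + p ^ e * y)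
        [MOD p ^ e - 1] := Nat.ModEq.add_right _ hmod
      refine h1.trans ?_
      rw [← mul_add, hmid, Nat.modEq_zero_iff_dvd]
      exact Dvd.intro_left (p ^ s * (y + 1)) (by ring))
  rw [haL] at hv hdeg
  refine ⟨_, r, hv, ?_, hdeg, fun hdvd => ⟨s, ?_⟩⟩
  · obtain ⟨k, hk⟩ : ∃ k, p ^ e = k + 1 := ⟨p ^ e - 1, by omega⟩
    rw [hk, Nat.add_sub_cancel] at hr ⊢
    have h1 : k = W + y + x := by omega
    have h2 : (a : ℤ) = p ^ s * c - L := by
      have := congrArg (Nat.cast (R := ℤ)) ha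
      push_cast at this
      linarith
    have h3 : (k : ℤ) * r = p ^ s * W - L := by
      have := congrArg (Nat.cast (R := ℤ)) hr
      push_cast at this
      linarith
    have h4 : (c : ℤ) = W + 1 + y := by exact_mod_cast hy
    have h5 : (k : ℤ) = W + y + x := by exact_mod_cast h1
    have h6 : ((k * a : ℕ) : ℤ) = ((L + p ^ s * (x + (k + 1) * y) + (k + 1) * (k * r) : ℕ) : ℤ) := by
      push_cast
      rw [h3, h2, h4, h5]
      ring
    exact_mod_cast h6
  · have hcop : Nat.Coprime (p ^ e - 1) (p ^ s) := by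
      refine Nat.Coprime.pow_right s ?_
      rw [Nat.coprime_comm, hp.coprime_iff_not_dvd]
      intro h1
      have h2 : p ∣ p ^ e := dvd_pow_self p (by omega)
      have h3 : p ∣ 1 := by
        have := Nat.dvd_sub h2 h1
        have h4 : p ^ e - (p ^ e - 1) = 1 := by omega
        rwa [h4] at this
      exact hp.one_lt.ne' (Nat.dvd_one.1 h3)
    have h1 : a = p ^ s * (y + 1) + (p ^ e - 1) * r := by
      have h2 : p ^ s * c = p ^ s * W + p ^ s * (y + 1) := by
        rw [hy]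
        ring
      omega
    have h3 : (p ^ e - 1) ∣ p ^ s * (y + 1) := by
      have h4 := hdvd
      rw [h1] at h4
      exact (Nat.dvd_add_left (Dvd.intro r rfl)).1 h4
    have h5 : (p ^ e - 1) ∣ y + 1 := hcop.dvd_of_dvd_mul_left h3
    obtain ⟨k, hk⟩ := h5
    have h6 : k = 1 := by
      rcases Nat.lt_or_ge k 2 with h7 | h7
      · rcases Nat.eq_zero_or_pos k with h8 | h8
        · rw [h8, mul_zero] at hk
          omega
        · omega
      · have h8 : (p ^ e - 1) * 2 ≤ (p ^ e - 1) * k := Nat.mul_le_mul_left _ h7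
        omega
    rw [h6, mul_one] at hk
    rw [h1, hk]
    ring

end Pool.Agent.ZQ
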