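import Pool.Agent.Work.MP_43901b_nt.DigC

/-!
# DigN3 (M): case (N) for `q = 3`, with the exceptions `4·3^i` (case (C)) and `11·3^i` (case (E))

`H = 3^s`, `a + L = H c`, `L = dsum 3 s d < H`, `2 ≤ c ≤ 3`, all weights are 1 (`e = 1`), `W = Σ d_u ≥ c`.
`(q-1)^2 = 4`: want `m` valid (even) with `3 (a + m) ≤ 4 a`, i.e. `3 m ≤ a`.

`m = ρ₁ + ρ₂`, the two lowest units of `L` (`ρ₁ ≤ ρ₂`, powers of 3, `ρ₁ = ρ₂` if the lowest nonzero digit
is 2): `valid_of` with `R = m`, `x = y = 0` (`choose_digits`), `m` is even.  Here `ρ₂ ≤ H/3`.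
`c = 3`: `a = 3H - L > 2H ≥ 3 m`.
`c = 2`: `a = 2H - L`.
 * exactly two units: `L = m`, `3 m ≤ 2H - m` iff `2 m ≤ H`.  `m = H/3 + H/3`: `a = 4H/3 = 4·3^(s-1)`,
   exception 1.  Otherwise `m ≤ H/3 + H/9`, `2m ≤ 8H/9`.
 * at least three units: need `3(ρ₁+ρ₂) + L ≤ 2H`.  If `ρ₂ ≤ H/9`: `2H/3 + H`.  If `ρ₂ = H/3`: then `L`
   has exactly the units `ρ₁ ≤ H/9`, `H/3`, `H/3` (digits ≤ 2), `3(ρ₁ + H/3) + ρ₁ + 2H/3 = 5H/3 + 4ρ₁ ≤ 2H`
   if `ρ₁ ≤ H/27`; `ρ₁ = H/9`: `L = 7H/9`, `a = 11H/9 = 11·3^(s-2)`, exception 2.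

Exception 1, `a = 4·3^i`, `s = i+1`, case (C): `m = 2·3^i` (`valid_of` with `s = i+1`, `c = 2`,
`L = R = 2·3^i`, `x = y = 0`), `r = 3^i`: `2·4·3^i = 2·3^i + 3·(2·3^i)`; `u = i`: `a = 2 (3^i + 3^i)`.
`DegB`: `s = i+1`, `c = 2`, `U = [i, i]`, `Z = 4·3^i ≤ 2·3^i + 2·3^i`: if `3^i 3^(i₁) + 3^i 3^(i₂) ≤ 6·3^i - 1`
then `3^(i₁) + 3^(i₂) ≤ 5`, so `≤ 4` (it is even, or: `i₁, i₂ ≤ 1`, not both 1).
Exception 2, `a = 11·3^i`, case (E): `s = i+2`, `c = 2`, `L = 7·3^i`, `R = 4·3^i = 3^(i+1) + 3^i`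
(`luc`/`choose_digits`: `binom(7·3^i, 4·3^i)`: digits (2,1), (1,1)), `m = 4·3^i` even.
`DegB p 3 a (4·3^i)`: `U = [i+1, i+1, i]`, `Z = 15·3^i = 7·3^i + 2·4·3^i`: if
`3·3^(i₁) + 3·3^(i₂) + 3^(i₃) ≤ 17` then `≤ 15` (`i₁, i₂ ≤ 1`, `i₃ ≤ 2`, check).
-/

namespace Pool.Agent.ZQ

open Finset

private theorem n3_isQ : IsQ 3 (3 ^ 1) := ⟨Nat.prime_three, 1, le_rfl, rfl⟩

private theorem n3_add (s : ℕ) (d r : ℕ → ℕ) :
    dsum 3 s (fun u => d u + r u) = dsum 3 s d + dsum 3 s r := by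
  unfold dsum
  rw [← sum_add_distrib]
  exact sum_congr rfl fun u _ => add_mul _ _ _

private theorem n3_single {s v : ℕ} (hv : v < s) :
    dsum 3 s (fun u => if u = v then 1 else 0) = 3 ^ v := by
  unfold dsum
  rw [sum_eq_single v]
  · show (if v = v then 1 else 0) * 3 ^ v = 3 ^ v
    rw [if_pos rfl, one_mul]
  · intro u _ hu
    show (if u = v then 1 else 0) * 3 ^ u = 0
    rw [if_neg hu, zero_mul]
  · intro h
    exact absurd (mem_range.2 hv) h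

private theorem n3_wsum (s : ℕ) (d : ℕ → ℕ) : wsum 3 1 s d = ∑ u ∈ range s, d u := by
  unfold wsum wt
  refine sum_congr rfl fun u _ => ?_
  rw [Nat.sub_self, Nat.zero_sub, pow_zero, mul_one]

/-- the lowest unit -/
private theorem n3_low {s : ℕ} {d : ℕ → ℕ} (h : 1 ≤ ∑ u ∈ range s, d u) :
    ∃ (v : ℕ) (d' : ℕ → ℕ), v < s ∧ (∀ u, d u = d' u + if u = v then 1 else 0) ∧
      (∀ u < v, d u = 0) ∧ dsum 3 s d = dsum 3 s d' + 3 ^ v ∧
      ∑ u ∈ range s, d u = ∑ u ∈ range s, d' u + 1 := by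
  classical
  have hex : ∃ v, v < s ∧ d v ≠ 0 := by
    by_contra hcon
    push Not at hcon
    have : ∑ u ∈ range s, d u = 0 := sum_eq_zero fun u hu => hcon u (mem_range.1 hu)
    omega
  have hv := Nat.find_spec hex
  have hmin : ∀ u < Nat.find hex, d u = 0 := by
    intro u hu
    by_contra h0
    exact Nat.find_min hex hu ⟨hu.trans hv.1, h0⟩
  set v := Nat.find hex with hvdef
  have hd : ∀ u, d u = (fun u => d u - if u = v then 1 else 0) u + if u = v then 1 else 0 := by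
    intro u
    by_cases hu : u = v
    · subst hu
      have := hv.2
      simp only [if_true]
      omega
    · simp only [if_neg hu]
      omega
  refine ⟨v, fun u => d u - if u = v then 1 else 0, hv.1, hd, hmin, ?_, ?_⟩
  · conv_lhs => rw [show d = fun u => (fun u => d u - if u = v then 1 else 0) u +
      (fun u => if u = v then 1 else 0) u from funext hd]
    rw [n3_add, n3_single hv.1]
  · conv_lhs => rw [sum_congr rfl fun u _ => hd u]
    rw [sum_add_distrib]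
    congr 1
    rw [sum_ite_eq' (range s) v (fun _ => 1), if_pos (mem_range.2 hv.1)]

theorem caseC_four (i : ℕ) : CaseC 3 (3 ^ 1) (4 * 3 ^ i) := by
  have hpos : 0 < 3 ^ i := by positivity
  have hs : 3 ^ (i + 1) = 3 * 3 ^ i := by rw [pow_succ]; ring
  refine ⟨2 * 3 ^ i, 3 ^ i, ?_, by ring, ?_, fun _ => ⟨i, by ring⟩⟩
  · have h1 := valid_of n3_isQ (s := i + 1) (c := 2) (L := 2 * 3 ^ i) (R := 2 * 3 ^ i) (x := 0)
      (y := 0) (by norm_num) (by norm_num) (by omega) le_rfl (by rw [Nat.choose_self]; norm_num)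
      (Nat.zero_le _) (by rw [Nat.choose_zero_right]; norm_num) (by omega)
      (by norm_num)
    have e1 : 3 ^ (i + 1) * 2 - 2 * 3 ^ i = 4 * 3 ^ i := by omega
    have e2 : 2 * 3 ^ i + 3 ^ (i + 1) * (0 + 3 ^ 1 * 0) = 2 * 3 ^ i := by ring
    rwa [e1, e2] at h1
  · refine ⟨i + 1, 2, [i, i], 4 * 3 ^ i, by norm_num, by norm_num, ?_, ?_, ?_⟩
    · simp only [Lsum, List.map_cons, List.map_nil, List.sum_cons, List.sum_nil]
      omega
    · intro i₁ i₂ h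
      rw [pow_one] at h ⊢
      have key : ∀ k : ℕ, 3 ^ k = 1 ∨ 3 ^ k = 3 ∨ 9 ≤ 3 ^ k := by
        intro k
        rcases k with _ | _ | k
        · exact Or.inl rfl
        · exact Or.inr (Or.inl rfl)
        · right; right
          have : 0 < 3 ^ k := by positivity
          rw [pow_succ, pow_succ]
          omega
      have h' : 3 ^ i * 3 ^ i₁ + 3 ^ i * 3 ^ i₂ + 1 ≤ 6 * 3 ^ i := by omega
      have hlt : 3 ^ i * (3 ^ i₁ + 3 ^ i₂) < 3 ^ i * 6 := by linarith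
      have h2 : 3 ^ i₁ + 3 ^ i₂ < 6 := Nat.lt_of_mul_lt_mul_left hlt
      have h3 : 3 ^ i₁ + 3 ^ i₂ ≤ 4 := by
        rcases key i₁ with h4 | h4 | h4 <;> rcases key i₂ with h5 | h5 | h5 <;> omega
      calc 0 + 3 ^ i * 3 ^ i₁ + 3 ^ i * 3 ^ i₂ = 3 ^ i * (3 ^ i₁ + 3 ^ i₂) := by ring
        _ ≤ 3 ^ i * 4 := Nat.mul_le_mul_left _ h3
        _ = 4 * 3 ^ i := by ring
    · simp only [Lsum, List.map_cons, List.map_nil, List.sum_cons, List.sum_nil]
      omega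

theorem caseE_eleven (i : ℕ) : CaseE 3 (3 ^ 1) (11 * 3 ^ i) := by
  have hpos : 0 < 3 ^ i := by positivity
  have hs : 3 ^ (i + 2) = 9 * 3 ^ i := by rw [pow_succ, pow_succ]; ring
  have hs1 : 3 ^ (i + 1) = 3 * 3 ^ i := by rw [pow_succ]; ring
  refine ⟨rfl, i, rfl, ?_, ?_⟩
  · have hch : ¬ 3 ∣ (7 * 3 ^ i).choose (4 * 3 ^ i) := by
      have h1 := luc (p := 3) Nat.prime_three (s := i) (A := 0) (B := 7) (M := 0) (N := 4) hpos hpos
      rw [zero_add, zero_add, mul_comm (3 ^ i) 7, mul_comm (3 ^ i) 4] at h1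
      rw [h1]
      decide
    have h1 := valid_of n3_isQ (s := i + 2) (c := 2) (L := 7 * 3 ^ i) (R := 4 * 3 ^ i) (x := 0)
      (y := 0) (by norm_num) (by norm_num) (by omega) (by omega) hch
      (Nat.zero_le _) (by rw [Nat.choose_zero_right]; norm_num) (by omega)
      ⟨2 * 3 ^ i, by norm_num; ring⟩
    have e1 : 3 ^ (i + 2) * 2 - 7 * 3 ^ i = 11 * 3 ^ i := by omega
    have e2 : 4 * 3 ^ i + 3 ^ (i + 2) * (0 + 3 ^ 1 * 0) = 4 * 3 ^ i := by ring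
    rwa [e1, e2] at h1
  · refine ⟨i + 2, 2, [i + 1, i + 1, i], 15 * 3 ^ i, by norm_num, by norm_num, ?_, ?_, ?_⟩
    · simp only [Lsum, List.map_cons, List.map_nil, List.sum_cons, List.sum_nil]
      omega
    · intro i₁ i₂ i₃ h
      rw [pow_one] at h ⊢
      have key : ∀ k : ℕ, 3 ^ k = 1 ∨ 3 ^ k = 3 ∨ 3 ^ k = 9 ∨ 27 ≤ 3 ^ k := by
        intro k
        rcases k with _ | _ | _ | k
        · exact Or.inl rfl
        · exact Or.inr (Or.inl rfl)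
        · exact Or.inr (Or.inr (Or.inl rfl))
        · right; right; right
          have : 0 < 3 ^ k := by positivity
          rw [pow_succ, pow_succ, pow_succ]
          omega
      rw [hs1] at h ⊢
      have e3 : 0 + 3 * 3 ^ i * 3 ^ i₁ + 3 * 3 ^ i * 3 ^ i₂ + 3 ^ i * 3 ^ i₃ =
          3 ^ i * (3 * 3 ^ i₁ + 3 * 3 ^ i₂ + 3 ^ i₃) := by ring
      rw [e3] at h ⊢
      have hlt : 3 ^ i * (3 * 3 ^ i₁ + 3 * 3 ^ i₂ + 3 ^ i₃) < 3 ^ i * 18 := by omega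
      have h2 : 3 * 3 ^ i₁ + 3 * 3 ^ i₂ + 3 ^ i₃ < 18 := Nat.lt_of_mul_lt_mul_left hlt
      have h3 : 3 * 3 ^ i₁ + 3 * 3 ^ i₂ + 3 ^ i₃ ≤ 15 := by
        rcases key i₁ with h4 | h4 | h4 | h4 <;> rcases key i₂ with h5 | h5 | h5 | h5 <;>
          rcases key i₃ with h6 | h6 | h6 | h6 <;> omega
      calc 3 ^ i * (3 * 3 ^ i₁ + 3 * 3 ^ i₂ + 3 ^ i₃) ≤ 3 ^ i * 15 := Nat.mul_le_mul_left _ h3
        _ = 15 * 3 ^ i := by ring
    · simp only [Lsum, List.map_cons, List.map_nil, List.sum_cons, List.sum_nil]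
      omega

theorem caseN_three {s c a : ℕ} {d : ℕ → ℕ} (hc' : c ≤ 3) (hd : ∀ u, d u < 3)
    (ha : a + dsum 3 s d = 3 ^ s * c) (hW : c ≤ wsum 3 1 s d) (hg : 2 ≤ c) :
    CaseN 3 (3 ^ 1) a ∨ (∃ i, a = 4 * 3 ^ i) ∨ ∃ i, a = 11 * 3 ^ i := by
  rw [n3_wsum] at hW
  obtain ⟨u₁, d₁, hu₁, h1, h1', hD1, hS1⟩ := n3_low (s := s) (d := d) (by omega)
  obtain ⟨u₂, d₂, hu₂, h2, h2', hD2, hS2⟩ := n3_low (s := s) (d := d₁) (by omega)
  have h12 : u₁ ≤ u₂ := by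
    by_contra hcon
    have h3 := h1 u₂
    have h4 := h1' u₂ (by omega)
    have h5 := h2 u₂
    rw [if_pos rfl] at h5
    omega
  -- the number `m`
  have hp1 : 0 < 3 ^ u₁ := by positivity
  have hp2 : 0 < 3 ^ u₂ := by positivity
  have hL : dsum 3 s d < 3 ^ s := dsum_lt Nat.prime_three fun u _ => hd u
  have hLe : dsum 3 s d = dsum 3 s d₂ + 3 ^ u₂ + 3 ^ u₁ := by rw [hD1, hD2]
  have hRr : dsum 3 s (fun u => (if u = u₁ then 1 else 0) + if u = u₂ then 1 else 0) =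
      3 ^ u₁ + 3 ^ u₂ := by
    rw [n3_add s (fun u => if u = u₁ then 1 else 0) (fun u => if u = u₂ then 1 else 0),
      n3_single hu₁, n3_single hu₂]
  have hch : ¬ 3 ∣ (dsum 3 s d).choose (3 ^ u₁ + 3 ^ u₂) := by
    rw [← hRr]
    refine choose_digits Nat.prime_three (fun u _ => hd u) fun u _ => ?_
    have h3 := h1 u
    have h4 := h2 u
    show (if u = u₁ then 1 else 0) + (if u = u₂ then 1 else 0) ≤ d u
    omega
  have hodd : ∀ k : ℕ, ∃ z, 3 ^ k = 2 * z + 1 := by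
    intro k
    have : Odd (3 ^ k) := Odd.pow (by decide)
    exact this
  have hdiv : (3 ^ 1 - 1) ∣ 3 ^ u₁ + 3 ^ u₂ := by
    obtain ⟨z₁, hz₁⟩ := hodd u₁
    obtain ⟨z₂, hz₂⟩ := hodd u₂
    exact ⟨z₁ + z₂ + 1, by rw [hz₁, hz₂]; norm_num; ring⟩
  have hv := valid_of n3_isQ (s := s) (c := c) (L := dsum 3 s d) (R := 3 ^ u₁ + 3 ^ u₂) (x := 0)
      (y := 0) (by omega) (by norm_num; omega) hL (by omega) hch
      (Nat.zero_le _) (by rw [Nat.choose_zero_right]; norm_num)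
      (by omega)
      (by rw [mul_zero, add_zero, mul_zero, add_zero]; exact hdiv)
  have e1 : 3 ^ s * c - dsum 3 s d = a := by omega
  have e2 : 3 ^ u₁ + 3 ^ u₂ + 3 ^ s * (0 + 3 ^ 1 * 0) = 3 ^ u₁ + 3 ^ u₂ := by ring
  rw [e1, e2] at hv
  have hfin : 3 * (3 ^ u₁ + 3 ^ u₂) ≤ a → CaseN 3 (3 ^ 1) a := fun h =>
    ⟨_, hv, by norm_num; omega⟩
  obtain ⟨t, rfl⟩ : ∃ t, s = t + 1 := ⟨s - 1, by omega⟩
  have hst : 3 ^ (t + 1) = 3 * 3 ^ t := by rw [pow_succ]; ring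
  have hb₂ : 3 ^ u₂ ≤ 3 ^ t := Nat.pow_le_pow_right (by norm_num) (by omega)
  have hb₁ : 3 ^ u₁ ≤ 3 ^ t := Nat.pow_le_pow_right (by norm_num) (by omega)
  rcases (show c = 2 ∨ c = 3 by omega) with rfl | rfl
  swap
  · left
    exact hfin (by omega)
  -- `c = 2`
  rcases Nat.eq_zero_or_pos (dsum 3 (t + 1) d₂) with h0 | h0
  · -- exactly two units
    rcases (show u₁ = t ∨ u₁ < t by omega) with h3 | h3
    · right; left
      have h4 : u₂ = t := by omega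
      subst h4
      rw [h3] at hLe
      exact ⟨u₂, by omega⟩
    · left
      obtain ⟨t', rfl⟩ : ∃ t', t = t' + 1 := ⟨t - 1, by omega⟩
      have h4 : 3 ^ u₁ ≤ 3 ^ t' := Nat.pow_le_pow_right (by norm_num) (by omega)
      have h5 : 3 ^ (t' + 1) = 3 * 3 ^ t' := by rw [pow_succ]; ring
      exact hfin (by omega)
  · rcases (show u₂ = t ∨ u₂ < t by omega) with h3 | h3
    · subst h3
      -- all further units are at the top place
      have h4 : dsum 3 (u₂ + 1) d₂ = d₂ u₂ * 3 ^ u₂ := by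
        unfold dsum
        rw [sum_range_succ, sum_eq_zero, zero_add]
        intro u hu
        have h5 := h2' u (mem_range.1 hu)
        have h6 := h2 u
        have h7 : d₂ u = 0 := by omega
        rw [h7, zero_mul]
      have h5 : d₂ u₂ ≠ 0 := by
        intro h6
        rw [h4, h6, zero_mul] at h0
        exact lt_irrefl _ h0
      have h6 := h1 u₂
      have h7 := h2 u₂
      rw [if_pos rfl] at h7
      have h8 := hd u₂
      have h9 : u₁ ≠ u₂ := by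
        intro h10
        rw [if_pos h10.symm] at h6
        omega
      rw [if_neg (Ne.symm h9)] at h6
      have h10 : d₂ u₂ = 1 := by omega
      rw [h10, one_mul] at h4
      obtain ⟨t', rfl⟩ : ∃ t', u₂ = t' + 1 := ⟨u₂ - 1, by omega⟩
      have h11 : 3 ^ (t' + 1) = 3 * 3 ^ t' := by rw [pow_succ]; ring
      rcases (show u₁ = t' ∨ u₁ < t' by omega) with h12' | h12'
      · right; right
        subst h12'
        exact ⟨u₁, by omega⟩
      · left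
        obtain ⟨t'', rfl⟩ : ∃ t'', t' = t'' + 1 := ⟨t' - 1, by omega⟩
        have h13 : 3 ^ u₁ ≤ 3 ^ t'' := Nat.pow_le_pow_right (by norm_num) (by omega)
        have h14 : 3 ^ (t'' + 1) = 3 * 3 ^ t'' := by rw [pow_succ]; ring
        exact hfin (by omega)
    · left
      obtain ⟨t', rfl⟩ : ∃ t', t = t' + 1 := ⟨t - 1, by omega⟩
      have h4 : 3 ^ u₂ ≤ 3 ^ t' := Nat.pow_le_pow_right (by norm_num) (by omega)
      have h4' : 3 ^ u₁ ≤ 3 ^ t' := Nat.pow_le_pow_right (by norm_num) (by omega)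
      have h5 : 3 ^ (t' + 1) = 3 * 3 ^ t' := by rw [pow_succ]; ring
      exact hfin (by omega)

end Pool.Agent.ZQ
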