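import Pool.Agent.Work.MP_43901b_nt.DigC

/-!
# DigN4 (M): case (N), `q = 4` (`p = e = 2`)

`H = 2^s`, `a + L = H c`, `L = dsum 2 s d < H`, digits `d_u ∈ {0,1}`, `3 ≤ c ≤ 4`, weights: `wt 2 2 s u = 2`
for `s - 1 - u` even and `1` for odd; `W = wsum ≥ c ≥ 3`.  Want `m` valid (`3 ∣ m`) with
`4 (a + m) ≤ 9 a`, i.e. `4 m ≤ 5 a`; `a = H c - L > 2 H`.

(1) If there is `r ≤ d`, with `dsum r > 0` and `3 ∣ dsum r`: `m = R = dsum r ≤ L < H`
(`valid_of`, `x = y = 0`), `4 m < 4 H ≤ 5 a`.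
By `dsum_mod` `3 ∣ dsum r ↔ 3 ∣ wsum r`.  So (1) applies if `d` contains one unit of weight 1 and one of
weight 2, or three units of weight 1, or three units of weight 2.
(2) Otherwise, as `W ≥ 3`, `d` consists of exactly two units, both of weight 2, at places
`u₁ < u₂`, `s-1-u_i` even: `u₂ ≤ s - 1`, `u₁ ≤ s - 3`: `L = ρ₁ + ρ₂`, `ρ₂ ≤ H/2`, `ρ₁ ≤ H/8` (`s ≥ 3`).
`R = ρ₁` (weight 2).  `c = 3`: `m = ρ₁ + H` (`x = 1 = q - c`, `y = 0`; `≡ H (2 + 1) ≡ 0`);
`4 m ≤ 4.5 H ≤ 5 · 19/8 H ≤ 5 a`.  `c = 4`: `m = ρ₁ + 4 H` (`x = 0`, `y = 1`; `≡ H(2+4) ≡ 0`),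
`4 m ≤ 16.5 H ≤ 5 · 27/8 H ≤ 5 a`.
-/

namespace Pool.Agent.ZQ

open Finset

private theorem n4_isQ : IsQ 2 (2 ^ 2) := ⟨Nat.prime_two, 2, by norm_num, rfl⟩

private theorem n4_dsum_add (s : ℕ) (d r : ℕ → ℕ) :
    dsum 2 s (fun u => d u + r u) = dsum 2 s d + dsum 2 s r := by
  unfold dsum
  rw [← sum_add_distrib]
  exact sum_congr rfl fun u _ => add_mul _ _ _

private theorem n4_dsum_single {s v : ℕ} (hv : v < s) :
    dsum 2 s (fun u => if u = v then 1 else 0) = 2 ^ v := by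
  unfold dsum
  rw [sum_eq_single v]
  · show (if v = v then 1 else 0) * 2 ^ v = 2 ^ v
    rw [if_pos rfl, one_mul]
  · intro u _ hu
    show (if u = v then 1 else 0) * 2 ^ u = 0
    rw [if_neg hu, zero_mul]
  · intro h
    exact absurd (mem_range.2 hv) h

private theorem n4_wsum_single {s v : ℕ} (hv : v < s) :
    wsum 2 2 s (fun u => if u = v then 1 else 0) = wt 2 2 s v := by
  unfold wsum
  rw [sum_eq_single v]
  · show (if v = v then 1 else 0) * wt 2 2 s v = wt 2 2 s v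
    rw [if_pos rfl, one_mul]
  · intro u _ hu
    show (if u = v then 1 else 0) * wt 2 2 s u = 0
    rw [if_neg hu, zero_mul]
  · intro h
    exact absurd (mem_range.2 hv) h

private theorem n4_wt (s u : ℕ) : (wt 2 2 s u = 2 ∧ (s - 1 - u) % 2 = 0) ∨
    (wt 2 2 s u = 1 ∧ (s - 1 - u) % 2 = 1) := by
  unfold wt
  rcases Nat.mod_two_eq_zero_or_one (s - 1 - u) with h | h
  · left
    exact ⟨by rw [h]; norm_num, h⟩
  · right
    exact ⟨by rw [h]; norm_num, h⟩

theorem caseN_four {s c a : ℕ} {d : ℕ → ℕ} (hc' : c ≤ 4) (hd : ∀ u, d u < 2)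
    (ha : a + dsum 2 s d = 2 ^ s * c) (hW : c ≤ wsum 2 2 s d) (hg : 3 ≤ c) :
    CaseN 2 (2 ^ 2) a := by
  have hL : dsum 2 s d < 2 ^ s := dsum_lt Nat.prime_two fun u _ => hd u
  have hH : 0 < 2 ^ s := by positivity
  have ha2 : 2 * 2 ^ s < a := by
    have h1 : 2 ^ s * 3 ≤ 2 ^ s * c := Nat.mul_le_mul_left _ hg
    omega
  have e1 : 2 ^ s * c - dsum 2 s d = a := by omega
  -- case (1)
  have key : ∀ r : ℕ → ℕ, (∀ u, r u ≤ d u) → 0 < wsum 2 2 s r → 3 ∣ wsum 2 2 s r →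
      CaseN 2 (2 ^ 2) a := by
    intro r hr h0 h3
    have hle : dsum 2 s r ≤ dsum 2 s d := dsum_mono fun u _ => hr u
    have hpos : 0 < dsum 2 s r := by
      rcases Nat.eq_zero_or_pos (dsum 2 s r) with h4 | h4
      · exfalso
        have h5 : wsum 2 2 s r = 0 := by
          unfold dsum at h4
          unfold wsum
          rw [sum_eq_zero_iff] at h4
          refine sum_eq_zero fun u hu => ?_
          rcases Nat.mul_eq_zero.1 (h4 u hu) with h6 | h6
          · rw [h6, zero_mul]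
          · exact absurd h6 (by positivity)
        omega
      · exact h4
    have h5 : 3 ∣ dsum 2 s r := by
      have h6 := dsum_mod Nat.prime_two (e := 2) (by norm_num) s r
      have h7 : (2 ^ 2 - 1 : ℕ) = 3 := by norm_num
      rw [h7] at h6
      exact (h6.dvd_iff (dvd_refl 3)).2 (h3.mul_left _)
    have hv := valid_of n4_isQ (s := s) (c := c) (L := dsum 2 s d) (R := dsum 2 s r) (x := 0)
      (y := 0) (by omega) (by norm_num; omega) hL hle
      (choose_digits Nat.prime_two (fun u _ => hd u) fun u _ => hr u)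
      (Nat.zero_le _) (by rw [Nat.choose_zero_right]; norm_num) (by omega)
      (by rw [mul_zero, add_zero, mul_zero, add_zero]; exact h5)
    have e2 : dsum 2 s r + 2 ^ s * (0 + 2 ^ 2 * 0) = dsum 2 s r := by ring
    rw [e1, e2] at hv
    exact ⟨_, hv, by norm_num; omega⟩
  -- the units of weight 1 and 2
  set d1 : ℕ → ℕ := fun u => if wt 2 2 s u = 1 then d u else 0 with hd1
  set d2 : ℕ → ℕ := fun u => if wt 2 2 s u = 2 then d u else 0 with hd2
  have hdd : ∀ u, d u = d1 u + d2 u := by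
    intro u
    rcases n4_wt s u with ⟨h, -⟩ | ⟨h, -⟩
    · simp only [hd1, hd2, h]
      norm_num
    · simp only [hd1, hd2, h]
      norm_num
  have hw1 : ∀ r : ℕ → ℕ, (∀ u, r u ≤ d1 u) → wsum 2 2 s r = ∑ u ∈ range s, r u := by
    intro r hr
    unfold wsum
    refine sum_congr rfl fun u _ => ?_
    by_cases h : wt 2 2 s u = 1
    · rw [h, mul_one]
    · have h1 := hr u
      simp only [hd1, if_neg h] at h1
      have h2 : r u = 0 := by omega
      rw [h2, zero_mul]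
  have hw2 : ∀ r : ℕ → ℕ, (∀ u, r u ≤ d2 u) → wsum 2 2 s r = 2 * ∑ u ∈ range s, r u := by
    intro r hr
    unfold wsum
    rw [mul_sum]
    refine sum_congr rfl fun u _ => ?_
    by_cases h : wt 2 2 s u = 2
    · rw [h, mul_comm]
    · have h1 := hr u
      simp only [hd2, if_neg h] at h1
      have h2 : r u = 0 := by omega
      rw [h2, zero_mul, mul_zero]
  have hwadd : ∀ r r' : ℕ → ℕ, wsum 2 2 s (fun u => r u + r' u) = wsum 2 2 s r + wsum 2 2 s r' := by
    intro r r'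
    unfold wsum
    rw [← sum_add_distrib]
    exact sum_congr rfl fun u _ => add_mul _ _ _
  have hWW : wsum 2 2 s d = ∑ u ∈ range s, d1 u + 2 * ∑ u ∈ range s, d2 u := by
    conv_lhs => rw [show d = fun u => d1 u + d2 u from funext hdd]
    rw [hwadd, hw1 d1 fun _ => le_rfl, hw2 d2 fun _ => le_rfl]
  have sub : ∀ t1 t2 : ℕ, t1 ≤ ∑ u ∈ range s, d1 u → t2 ≤ ∑ u ∈ range s, d2 u →
      0 < t1 + 2 * t2 → 3 ∣ t1 + 2 * t2 → CaseN 2 (2 ^ 2) a := by
    intro t1 t2 h1 h2 h3 h4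
    obtain ⟨r1, hr1, hr1'⟩ := exists_sub_count s h1
    obtain ⟨r2, hr2, hr2'⟩ := exists_sub_count s h2
    have h5 : wsum 2 2 s (fun u => r1 u + r2 u) = t1 + 2 * t2 := by
      rw [hwadd, hw1 r1 hr1, hw2 r2 hr2, hr1', hr2']
    refine key (fun u => r1 u + r2 u) (fun u => ?_) (by rw [h5]; exact h3) (by rw [h5]; exact h4)
    have h6 := hr1 u
    have h7 := hr2 u
    have h8 := hdd u
    show r1 u + r2 u ≤ d u
    omega
  by_cases hA : 1 ≤ ∑ u ∈ range s, d1 u ∧ 1 ≤ ∑ u ∈ range s, d2 u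
  · exact sub 1 1 hA.1 hA.2 (by norm_num) (by norm_num)
  by_cases hB : 3 ≤ ∑ u ∈ range s, d1 u
  · exact sub 3 0 hB (Nat.zero_le _) (by norm_num) (by norm_num)
  by_cases hC : 3 ≤ ∑ u ∈ range s, d2 u
  · exact sub 0 3 (Nat.zero_le _) hC (by norm_num) (by norm_num)
  have hN1 : ∑ u ∈ range s, d1 u = 0 := by
    rw [hWW] at hW
    by_contra hcon
    exact hA ⟨by omega, by omega⟩
  have hN2 : ∑ u ∈ range s, d2 u = 2 := by
    rw [hWW] at hW
    omega
  have hall : ∀ u < s, d u = d2 u := by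
    intro u hu
    have h1 := (sum_eq_zero_iff.1 hN1) u (mem_range.2 hu)
    rw [hdd u, h1, zero_add]
  -- the two units
  have hcard : ((range s).filter fun u => d2 u = 1).card = 2 := by
    rw [card_filter, ← hN2]
    refine sum_congr rfl fun u _ => ?_
    have h1 := hd u
    have h2 := hdd u
    by_cases h3 : d2 u = 1
    · rw [if_pos h3, h3]
    · rw [if_neg h3]
      omega
  have hxy : ∃ x y, x < y ∧ y < s ∧ d2 x = 1 ∧ d2 y = 1 ∧
      ∀ u < s, u ≠ x → u ≠ y → d2 u = 0 := by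
    obtain ⟨x, y, hne, hxy⟩ := card_eq_two.1 hcard
    have hx : x ∈ (range s).filter fun u => d2 u = 1 := by rw [hxy]; simp
    have hy : y ∈ (range s).filter fun u => d2 u = 1 := by rw [hxy]; simp
    rw [mem_filter, mem_range] at hx hy
    have hz : ∀ u < s, u ≠ x → u ≠ y → d2 u = 0 := by
      intro u hu h1 h2
      by_contra h3
      have h4 := hd u
      have h5 := hdd u
      have h6 : u ∈ (range s).filter fun u => d2 u = 1 := by
        rw [mem_filter, mem_range]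
        exact ⟨hu, by omega⟩
      rw [hxy] at h6
      simp only [mem_insert, mem_singleton] at h6
      rcases h6 with h6 | h6
      · exact h1 h6
      · exact h2 h6
    rcases lt_or_gt_of_ne hne with h | h
    · exact ⟨x, y, h, hy.1, hx.2, hy.2, hz⟩
    · exact ⟨y, x, h, hx.1, hy.2, hx.2, fun u hu h1 h2 => hz u hu h2 h1⟩
  obtain ⟨x, y, hlt, hys, hx2, hy2, hz⟩ := hxy
  have hwx : wt 2 2 s x = 2 ∧ (s - 1 - x) % 2 = 0 := by
    rcases n4_wt s x with h | h
    · exact h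
    · simp only [hd2, h.1] at hx2
      norm_num at hx2
  have hwy : wt 2 2 s y = 2 ∧ (s - 1 - y) % 2 = 0 := by
    rcases n4_wt s y with h | h
    · exact h
    · simp only [hd2, h.1] at hy2
      norm_num at hy2
  have hxs : x + 3 ≤ s := by omega
  have hdL : dsum 2 s d = 2 ^ x + 2 ^ y := by
    have h1 : ∀ u < s, d u = (if u = x then 1 else 0) + if u = y then 1 else 0 := by
      intro u hu
      rw [hall u hu]
      by_cases h2 : u = x
      · rw [h2, if_pos rfl, if_neg hlt.ne, hx2]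
      · by_cases h3 : u = y
        · rw [h3, if_pos rfl, if_neg hlt.ne', hy2]
        · rw [if_neg h2, if_neg h3, hz u hu h2 h3]
    have h2 : dsum 2 s d = dsum 2 s (fun u => (if u = x then 1 else 0) + if u = y then 1 else 0) :=
      sum_congr rfl fun u hu => by rw [h1 u (mem_range.1 hu)]
    rw [h2, n4_dsum_add s (fun u => if u = x then 1 else 0) (fun u => if u = y then 1 else 0),
      n4_dsum_single (by omega), n4_dsum_single hys]
  have hρ1 : 8 * 2 ^ x ≤ 2 ^ s := by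
    calc 8 * 2 ^ x = 2 ^ (x + 3) := by rw [pow_add]; ring
      _ ≤ 2 ^ s := Nat.pow_le_pow_right (by norm_num) hxs
  have hρ2 : 2 * 2 ^ y ≤ 2 ^ s := by
    calc 2 * 2 ^ y = 2 ^ (y + 1) := by rw [pow_add]; ring
      _ ≤ 2 ^ s := Nat.pow_le_pow_right (by norm_num) (by omega)
  have hxpos : 0 < 2 ^ x := by positivity
  have hypos : 0 < 2 ^ y := by positivity
  have hmodx : 2 ^ x ≡ 2 ^ s * 2 [MOD 3] := by
    have h6 := dsum_mod Nat.prime_two (e := 2) (by norm_num) s (fun u => if u = x then 1 else 0)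
    rw [n4_dsum_single (by omega), n4_wsum_single (by omega), hwx.1] at h6
    exact h6
  have hchx : ¬ 2 ∣ (dsum 2 s d).choose (2 ^ x) := by
    rw [← n4_dsum_single (s := s) (v := x) (by omega)]
    refine choose_digits Nat.prime_two (fun u _ => hd u) fun u hu => ?_
    show (if u = x then 1 else 0) ≤ d u
    by_cases h2 : u = x
    · rw [h2, if_pos rfl, hall x (by omega), hx2]
    · rw [if_neg h2]
      exact Nat.zero_le _
  rcases (show c = 3 ∨ c = 4 by omega) with rfl | rfl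
  · have hdv : 3 ∣ 2 ^ x + 2 ^ s * (1 + 2 ^ 2 * 0) := by
      have h1 : 2 ^ x + 2 ^ s * (1 + 2 ^ 2 * 0) ≡ 2 ^ s * 2 + 2 ^ s * (1 + 2 ^ 2 * 0) [MOD 3] :=
        hmodx.add_right _
      refine (h1.dvd_iff (dvd_refl 3)).2 ⟨2 ^ s, by ring⟩
    have hv := valid_of n4_isQ (s := s) (c := 3) (L := dsum 2 s d) (R := 2 ^ x) (x := 1)
      (y := 0) (by norm_num) (by norm_num) hL (by omega) hchx
      (by norm_num) (by norm_num) (by omega) hdv
    have e2 : 2 ^ x + 2 ^ s * (1 + 2 ^ 2 * 0) = 2 ^ x + 2 ^ s := by ring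
    rw [e1, e2] at hv
    exact ⟨_, hv, by norm_num; omega⟩
  · have hdv : 3 ∣ 2 ^ x + 2 ^ s * (0 + 2 ^ 2 * 1) := by
      have h1 : 2 ^ x + 2 ^ s * (0 + 2 ^ 2 * 1) ≡ 2 ^ s * 2 + 2 ^ s * (0 + 2 ^ 2 * 1) [MOD 3] :=
        hmodx.add_right _
      refine (h1.dvd_iff (dvd_refl 3)).2 ⟨2 ^ s * 2, by ring⟩
    have hv := valid_of n4_isQ (s := s) (c := 4) (L := dsum 2 s d) (R := 2 ^ x) (x := 0)
      (y := 1) (by norm_num) (by norm_num) hL (by omega) hchx
      (by norm_num) (by norm_num) (by omega) hdv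
    have e2 : 2 ^ x + 2 ^ s * (0 + 2 ^ 2 * 1) = 2 ^ x + 4 * 2 ^ s := by ring
    rw [e1, e2] at hv
    exact ⟨_, hv, by norm_num; omega⟩

end Pool.Agent.ZQ
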