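import Pool.Agent.Work.MP_43901b_nt.DigN
import Pool.Agent.Work.MP_43901b_nt.DigN4
import Pool.Agent.Work.MP_43901b_nt.DigN3

/-!
# DigG (S): the digit lemma

`q = p^e ≥ 3`.  `normal_form`; if `W + 1 ≤ c`: `caseC`.  Otherwise `c ≤ W`; then `s ≥ 1` (for `s = 0`
`W = 0`), so `c ≥ p^(e-1) + 1`.  `q ≥ 5`: `caseN_five`.  `q = 4`: `p = e = 2`, `caseN_four`.
`q = 3`: `p = 3`, `e = 1`: `caseN_three`, `caseC_four`, `caseE_eleven`.
-/

namespace Pool.Agent.ZQ

theorem lemmaG {p q : ℕ} (h : IsQ p q) (hq : 3 ≤ q) {a : ℕ} (ha : 1 ≤ a) :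
    CaseC p q a ∨ CaseN p q a ∨ CaseE p q a := by
  have hp := h.prime
  obtain ⟨e, he, rfl⟩ := h.pow
  obtain ⟨s, c, d, hc, hc', hd, had, hs⟩ := normal_form hp he ha
  by_cases hW : wsum p e s d + 1 ≤ c
  · exact Or.inl (caseC hp he hq hc hc' hd had hW)
  · have hW' : c ≤ wsum p e s d := by omega
    have hs1 : 1 ≤ s := by
      by_contra hs0
      have : s = 0 := by omega
      subst this
      simp [wsum] at hW'
      omega
    have hg := hs hs1
    by_cases h5 : 5 ≤ p ^ e
    · exact Or.inr (Or.inl (caseN_five hp he h5 hc' hd had hW' hg))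
    · by_cases h4 : p ^ e = 4
      · have hp2 : p = 2 := by
          have h1 : p ∣ 2 ^ 2 := by
            have : p ∣ p ^ e := dvd_pow_self p (by omega)
            rw [h4] at this
            exact this
          exact (Nat.prime_dvd_prime_iff_eq hp Nat.prime_two).1 (hp.dvd_of_dvd_pow h1)
        subst hp2
        have he2 : e = 2 := by
          have : (2 : ℕ) ^ e = 2 ^ 2 := by rw [h4]; norm_num
          exact Nat.pow_right_injective le_rfl this
        subst he2
        exact Or.inr (Or.inl (caseN_four (by simpa using hc') hd had hW' (by simpa using hg)))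
      · have h3 : p ^ e = 3 := by omega
        have hp3 : p = 3 := by
          have h1 : p ∣ 3 := by
            have : p ∣ p ^ e := dvd_pow_self p (by omega)
            rw [h3] at this
            exact this
          exact (Nat.prime_dvd_prime_iff_eq hp Nat.prime_three).1 h1
        subst hp3
        have he1 : e = 1 := by
          have : (3 : ℕ) ^ e = 3 ^ 1 := by rw [h3, pow_one]
          exact Nat.pow_right_injective (by norm_num) this
        subst he1
        rcases caseN_three (by simpa using hc') hd had hW' (by simpa using hg) with h | ⟨i, rfl⟩ | ⟨i, rfl⟩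
        · exact Or.inr (Or.inl h)
        · exact Or.inl (caseC_four i)
        · exact Or.inr (Or.inr (caseE_eleven i))

end Pool.Agent.ZQ
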