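import Pool.Agent.Work.MP_43901b_nt.DigC

/-!
# DigN (M): case (N), `q ≥ 5`

`q = p^e`, `a + L = p^s c`, `L = dsum p s d < p^s =: H`, `W = wsum p e s d ≥ c`, `g = p^(e-1)`, `c ≥ g + 1`.
Write `c - 1 = A g + ρ`, `0 ≤ ρ < g`, so `1 ≤ A ≤ p - 1` (`c ≤ q = p g`).

General choice (`caseN_gen`): `exists_sub_weight` gives `r ≤ d` with weight `A g` (`A g ≤ c - 1 < W`);
`R = dsum r ≤ L`; `m = R + H ((q - c) + q ρ)`: `valid_of` with `x = q-c`, `y = ρ`
(`choose_digits` for `R`); `m ≡ H (A g + 1 - c + ρ) = 0`, and `m > 0` (if `m = 0` then `R = 0`; but the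
weight of `r` is `A g > 0` so `R > 0`).  Inequality `q (a+m) ≤ (q-1)^2 a`, i.e.
`q m ≤ ((q-1)^2 - q) a`, `a = H c - L`: equivalent to
`q^2 A g H ≥ (2q-1) c H + ((q-1)^2 - q) L + q R`  (use `c - 1 = A g + ρ`); as `R ≤ L < H` it is enough that
`q^2 A g ≥ (2q-1) c + (q-1)^2`, and as `c ≤ g (A+1)` it is enough that
`g ((q-1)^2 A - (2q-1)) ≥ (q-1)^2`  (*).
(*) holds if `A ≥ 2`, `q ≥ 4` (`(q-1)^2 ≥ 2q-1`), and if `A ≥ 1`, `g ≥ 2`, `q ≥ 6` (`2((q-1)^2-(2q-1)) ≥ (q-1)^2`).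
The remaining case with `q ≥ 5` is `g = 1` (`e = 1`, `q = p`), `A = 1`, so `c = 2` (`q = 5`: `g = 1`).

`caseN_two` (`e = 1`, `q = p ≥ 5`, `c = 2`): all weights are 1, `C' = Σ d_u = W ≥ 2`.
If `C' ≥ q - 1`: `r ≤ d` with `Σ r_u = q-1` (`exists_sub_count`), `m = R = dsum r ≤ L < H`
(`x = y = 0`): `q - 1 ∣ m` (`dsum_mod`, weight `q-1`), `q m < q H`, `((q-1)^2-q) a ≥ q a` (`q ≥ 4`:
`(q-1)^2 ≥ 2 q`), `a = 2H - L > H`.
If `2 ≤ C' ≤ q - 2`: `m = L + H (q-1-C')`: `valid_of` with `R = L`, `x = q-1-C' ≤ q - 2 = q - c` and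
`p ∤ binom(q-2, x)` (`q - 2 < p`), `y = 0`.  `m ≡ H C' + H (q-1-C') ≡ 0`.  `m ≤ L + H(q-3)`, and
`q (L + H (q-3)) ≤ ((q-1)^2-q)(2H - L)` iff `L (q-1) ≤ H (q-2)`, and `L ≤ C' p^(s-1) ≤ (q-2) H/q`.
-/

namespace Pool.Agent.ZQ

open Finset

variable {p e : ℕ}

theorem dsum_pos_of_wsum (hp : p.Prime) {s : ℕ} {r : ℕ → ℕ} (h : 0 < wsum p e s r) :
    0 < dsum p s r := by
  by_contra hcon
  have h0 : dsum p s r = 0 := by omega
  have h1 : ∀ u ∈ range s, r u * p ^ u = 0 := by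
    unfold dsum at h0
    exact (sum_eq_zero_iff).1 h0
  have h2 : wsum p e s r = 0 := by
    unfold wsum
    refine sum_eq_zero fun u hu => ?_
    have h3 := h1 u hu
    have h4 : r u = 0 := by
      rcases Nat.mul_eq_zero.1 h3 with h5 | h5
      · exact h5
      · exact absurd h5 (pow_ne_zero _ hp.ne_zero)
    rw [h4, zero_mul]
  omega

theorem wsum_one (p s : ℕ) (d : ℕ → ℕ) : wsum p 1 s d = ∑ u ∈ range s, d u := by
  unfold wsum wt
  refine sum_congr rfl fun u _ => ?_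
  rw [Nat.sub_self, Nat.zero_sub, pow_zero, mul_one]

theorem caseN_gen (hp : p.Prime) (he : 1 ≤ e) {s c a A ρ : ℕ} {d : ℕ → ℕ}
    (hc' : c ≤ p ^ e) (hd : ∀ u, d u < p) (ha : a + dsum p s d = p ^ s * c)
    (hW : c ≤ wsum p e s d) (hA : 1 ≤ A) (hρ : ρ < p ^ (e - 1)) (hcA : c = A * p ^ (e - 1) + ρ + 1)
    (hineq : (2 * p ^ e - 1) * c + (p ^ e - 1) ^ 2 ≤ (p ^ e) ^ 2 * (A * p ^ (e - 1))) :
    CaseN p (p ^ e) a := by
  have hQ : IsQ p (p ^ e) := ⟨hp, e, he, rfl⟩
  have hpq : 0 < p ^ e := hQ.pos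
  have hg : 0 < p ^ (e - 1) := Nat.pow_pos hp.pos
  obtain ⟨r, hr, hrw⟩ := exists_sub_weight (e := e) hp (s := s) (d := d) (A := A) (by omega)
  have hL : dsum p s d < p ^ s := dsum_lt hp fun u _ => hd u
  have hR : dsum p s r ≤ dsum p s d := dsum_mono fun u _ => hr u
  have hAg : 0 < A * p ^ (e - 1) := Nat.mul_pos hA hg
  have hR0 : 0 < dsum p s r := dsum_pos_of_wsum (e := e) hp (by rw [hrw]; exact hAg)
  have hRL : ¬ p ∣ (dsum p s d).choose (dsum p s r) :=
    choose_digits hp (fun u _ => hd u) (fun u _ => hr u)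
  have hv := valid_of hQ (s := s) (c := c) (L := dsum p s d) (R := dsum p s r) (x := p ^ e - c)
    (y := ρ) (by omega) hc' hL hR hRL le_rfl
    (by rw [Nat.choose_self]; exact fun h => hp.one_lt.ne' (Nat.dvd_one.1 h)) (by omega)
    (by
      have h1 : dsum p s r ≡ p ^ s * (A * p ^ (e - 1)) [MOD p ^ e - 1] := by
        rw [← hrw]; exact dsum_mod hp he s r
      have h2 : dsum p s r + p ^ s * (p ^ e - c + p ^ e * ρ) ≡
          p ^ s * (A * p ^ (e - 1)) + p ^ s * (p ^ e - c + p ^ e * ρ) [MOD p ^ e - 1] :=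
        Nat.ModEq.add_right _ h1
      have h3 : p ^ s * (A * p ^ (e - 1)) + p ^ s * (p ^ e - c + p ^ e * ρ) =
          (p ^ e - 1) * (p ^ s * (ρ + 1)) := by
        rw [← mul_add]
        have h4 : A * p ^ (e - 1) + (p ^ e - c + p ^ e * ρ) = (p ^ e - 1) * (ρ + 1) := by
          obtain ⟨n, hn⟩ : ∃ n, p ^ e = c + n := ⟨p ^ e - c, by omega⟩
          have h5 : p ^ e - c = n := by omega
          rw [h5, hn, hcA]
          have h6 : A * p ^ (e - 1) + ρ + 1 + n - 1 = A * p ^ (e - 1) + ρ + n := by omega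
          rw [h6]
          ring
        rw [h4]
        ring
      rw [h3] at h2
      exact (Nat.modEq_zero_iff_dvd).1 (h2.trans ((Nat.modEq_zero_iff_dvd).2 (dvd_mul_right _ _))))
  refine ⟨dsum p s r + p ^ s * (p ^ e - c + p ^ e * ρ), ?_, ?_⟩
  · have h1 : a = p ^ s * c - dsum p s d := by omega
    rw [h1]
    exact hv
  · -- the inequality, over the integers
    generalize dsum p s r = R at *
    generalize dsum p s d = L at *
    generalize p ^ s = H at *
    generalize hG : A * p ^ (e - 1) = G at *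
    generalize p ^ e = Q at *
    obtain ⟨k, rfl⟩ : ∃ k, Q = k + 1 := ⟨Q - 1, by omega⟩
    obtain ⟨n, hn⟩ : ∃ n, k + 1 = c + n := ⟨k + 1 - c, by omega⟩
    have e1 : k + 1 - c = n := by omega
    have e2 : 2 * (k + 1) - 1 = 2 * k + 1 := by omega
    rw [e2, Nat.add_sub_cancel] at hineq
    rw [e1, Nat.add_sub_cancel]
    zify at *
    have h1 : (a : ℤ) = H * c - L := by linarith
    have h2 : (n : ℤ) = k + 1 - c := by linarith
    have h3 : (ρ : ℤ) = c - 1 - G := by linarith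
    rw [h1, h2, h3]
    have h4 : (0 : ℤ) ≤ H * ((k + 1) ^ 2 * G - ((2 * k + 1) * c + k ^ 2)) :=
      mul_nonneg (by positivity) (by linarith)
    have h5 : (0 : ℤ) ≤ (k : ℤ) ^ 2 * (H - L) := mul_nonneg (by positivity) (by linarith)
    have h6 : (0 : ℤ) ≤ ((k : ℤ) + 1) * (L - R) := mul_nonneg (by positivity) (by linarith)
    nlinarith [h4, h5, h6]

theorem caseN_two (hp : p.Prime) (h5 : 5 ≤ p) {s a : ℕ} {d : ℕ → ℕ}
    (hd : ∀ u, d u < p) (ha : a + dsum p s d = p ^ s * 2) (hW : 2 ≤ wsum p 1 s d) :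
    CaseN p (p ^ 1) a := by
  have hQ : IsQ p (p ^ 1) := ⟨hp, 1, le_rfl, rfl⟩
  have hp1 : p ^ 1 = p := pow_one p
  have hH : 0 < p ^ s := Nat.pow_pos hp.pos
  have hL : dsum p s d < p ^ s := dsum_lt hp fun u _ => hd u
  have h1d : ¬ p ∣ 1 := fun h => hp.one_lt.ne' (Nat.dvd_one.1 h)
  have h1 : a = p ^ s * 2 - dsum p s d := by omega
  rcases Nat.lt_or_ge (wsum p 1 s d) (p - 1) with hC | hC
  · -- `2 ≤ C' ≤ p - 2`
    have hmod := dsum_mod hp le_rfl s d
    have hpL : p * dsum p s d ≤ p ^ s * wsum p 1 s d := by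
      rw [wsum_one]
      unfold dsum
      rw [mul_sum, mul_sum]
      refine sum_le_sum fun u hu => ?_
      have h2 : p ^ (u + 1) ≤ p ^ s := Nat.pow_le_pow_right hp.pos (by simpa using hu)
      calc p * (d u * p ^ u) = d u * p ^ (u + 1) := by ring
        _ ≤ d u * p ^ s := Nat.mul_le_mul_left _ h2
        _ = p ^ s * d u := by ring
    obtain ⟨x, hx⟩ : ∃ x, p - 1 = wsum p 1 s d + x := ⟨p - 1 - wsum p 1 s d, by omega⟩
    have hv := valid_of hQ (s := s) (c := 2) (L := dsum p s d) (R := dsum p s d) (x := x)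
      (y := 0) (by norm_num) (by omega) hL le_rfl (by rw [Nat.choose_self]; exact h1d) (by omega)
      (by
        intro h2
        have hxp : x ≤ p ^ 1 - 2 := by omega
        have h3 : (p ^ 1 - 2).choose x ∣ (p ^ 1 - 2).factorial := by
          rw [← Nat.choose_mul_factorial_mul_factorial hxp, mul_assoc]
          exact dvd_mul_right _ _
        have h4 := (hp.dvd_factorial).1 (h2.trans h3)
        omega)
      (by
        have : 0 < p ^ s * (x + p ^ 1 * 0) := Nat.mul_pos hH (by omega)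
        omega)
      (by
        rw [mul_zero, add_zero]
        have h2 : dsum p s d + p ^ s * x ≡ p ^ s * wsum p 1 s d + p ^ s * x [MOD p ^ 1 - 1] :=
          Nat.ModEq.add_right _ hmod
        rw [← mul_add, ← hx] at h2
        refine (Nat.modEq_zero_iff_dvd).1 (h2.trans ((Nat.modEq_zero_iff_dvd).2 ?_))
        rw [hp1]
        exact dvd_mul_left _ _)
    refine ⟨dsum p s d + p ^ s * (x + p ^ 1 * 0), ?_, ?_⟩
    · rw [h1]
      exact hv
    · rw [mul_zero, add_zero, hp1]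
      obtain ⟨k, rfl⟩ : ∃ k, p = k + 2 := ⟨p - 2, by omega⟩
      have e1 : k + 2 - 1 = k + 1 := by omega
      rw [e1] at *
      generalize dsum (k + 2) s d = L at *
      generalize wsum (k + 2) 1 s d = C' at *
      generalize (k + 2) ^ s = H at *
      have h2 : a + (L + H * x) = H * (x + 2) := by rw [mul_add, ← ha]; ring
      rw [h2]
      have h3 : x + 2 ≤ k + 1 := by omega
      have h4 : (k + 2) * L ≤ H * k := hpL.trans (Nat.mul_le_mul_left _ (by omega))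
      have h6 : (k + 2) * H ≤ (k + 1) * a := by nlinarith
      calc (k + 2) * (H * (x + 2)) = ((k + 2) * H) * (x + 2) := by ring
        _ ≤ ((k + 1) * a) * (k + 1) := Nat.mul_le_mul h6 h3
        _ = (k + 1) ^ 2 * a := by ring
  · -- `C' ≥ p - 1`
    rw [wsum_one] at hC
    obtain ⟨r, hr, hrs⟩ := exists_sub_count s hC
    have hR : dsum p s r ≤ dsum p s d := dsum_mono fun u _ => hr u
    have hrw : wsum p 1 s r = p - 1 := by rw [wsum_one, hrs]
    have hR0 : 0 < dsum p s r := dsum_pos_of_wsum (e := 1) hp (by rw [hrw]; omega)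
    have hRL : ¬ p ∣ (dsum p s d).choose (dsum p s r) :=
      choose_digits hp (fun u _ => hd u) (fun u _ => hr u)
    have hv := valid_of hQ (s := s) (c := 2) (L := dsum p s d) (R := dsum p s r) (x := 0)
      (y := 0) (by norm_num) (by omega) hL hR hRL (Nat.zero_le _)
      (by rw [Nat.choose_zero_right]; exact h1d) (by omega)
      (by
        rw [mul_zero, add_zero, mul_zero, add_zero]
        have h2 := dsum_mod hp le_rfl s r
        rw [hrw] at h2
        refine (Nat.modEq_zero_iff_dvd).1 (h2.trans ((Nat.modEq_zero_iff_dvd).2 ?_))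
        rw [hp1]
        exact dvd_mul_left _ _)
    refine ⟨dsum p s r + p ^ s * (0 + p ^ 1 * 0), ?_, ?_⟩
    · rw [h1]
      exact hv
    · rw [mul_zero, add_zero, mul_zero, add_zero, hp1]
      obtain ⟨k, rfl⟩ : ∃ k, p = k + 4 := ⟨p - 4, by omega⟩
      have e1 : k + 4 - 1 = k + 3 := by omega
      rw [e1]
      have h2 : dsum (k + 4) s r ≤ a := by omega
      have h3 : (k + 4) * dsum (k + 4) s r ≤ (k + 4) * a := Nat.mul_le_mul_left _ h2
      nlinarith [Nat.zero_le (k * k * a), Nat.zero_le (k * a)]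

theorem caseN_five (hp : p.Prime) (he : 1 ≤ e) (hq : 5 ≤ p ^ e) {s c a : ℕ} {d : ℕ → ℕ}
    (hc' : c ≤ p ^ e) (hd : ∀ u, d u < p) (ha : a + dsum p s d = p ^ s * c)
    (hW : c ≤ wsum p e s d) (hg : p ^ (e - 1) + 1 ≤ c) : CaseN p (p ^ e) a := by
  have hg0 : 0 < p ^ (e - 1) := Nat.pow_pos hp.pos
  have hqg : p ^ e = p * p ^ (e - 1) := by
    rw [← pow_succ']
    congr 1
    omega
  obtain ⟨A, ρ, hρ, hcA⟩ : ∃ A ρ, ρ < p ^ (e - 1) ∧ c = A * p ^ (e - 1) + ρ + 1 := by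
    refine ⟨(c - 1) / p ^ (e - 1), (c - 1) % p ^ (e - 1), Nat.mod_lt _ hg0, ?_⟩
    have := Nat.div_add_mod' (c - 1) (p ^ (e - 1))
    omega
  have hA : 1 ≤ A := by
    by_contra hcon
    have : A = 0 := by omega
    subst this
    omega
  by_cases hA1 : A = 1 ∧ e = 1
  · obtain ⟨rfl, rfl⟩ := hA1
    have hc2 : c = 2 := by
      simp at hρ hcA
      omega
    subst hc2
    exact caseN_two hp (by simpa using hq) hd ha hW
  · refine caseN_gen hp he hc' hd ha hW hA hρ hcA ?_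
    have hcle : c ≤ (A + 1) * p ^ (e - 1) := by
      rw [add_mul, one_mul]
      omega
    have hp2 := hp.two_le
    have hge : 2 ≤ A ∨ (2 ≤ p ^ (e - 1) ∧ 6 ≤ p ^ e) := by
      rcases Nat.lt_or_ge A 2 with h | h
      · right
        have he2 : 2 ≤ e := by
          by_contra hcon
          exact hA1 ⟨by omega, by omega⟩
        have h2 : 2 ≤ p ^ (e - 1) := by
          calc 2 ≤ p ^ 1 := by rw [pow_one]; exact hp2
            _ ≤ p ^ (e - 1) := Nat.pow_le_pow_right hp.pos (by omega)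
        refine ⟨h2, ?_⟩
        by_contra hcon
        have h3 : p ^ e = 5 := by omega
        rw [hqg] at h3
        have h4 : p ≤ 2 := by nlinarith
        have h5 : p ^ (e - 1) ≤ 2 := by nlinarith
        have h6 : p * p ^ (e - 1) ≤ 2 * 2 := Nat.mul_le_mul h4 h5
        omega
      · exact Or.inl h
    clear hqg hW ha hcA hρ hA1 hg hc'
    generalize p ^ (e - 1) = g at *
    generalize p ^ e = Q at *
    obtain ⟨k, rfl⟩ : ∃ k, Q = k + 5 := ⟨Q - 5, by omega⟩
    have e1 : 2 * (k + 5) - 1 = 2 * k + 9 := by omega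
    have e2 : k + 5 - 1 = k + 4 := by omega
    rw [e1, e2]
    refine (Nat.add_le_add_right (Nat.mul_le_mul_left _ hcle) _).trans ?_
    rcases hge with h2 | ⟨h2, h3⟩
    · obtain ⟨B, rfl⟩ : ∃ B, A = B + 2 := ⟨A - 2, by omega⟩
      obtain ⟨n, rfl⟩ : ∃ n, g = n + 1 := ⟨g - 1, by omega⟩
      nlinarith [Nat.zero_le (k * k * B * n), Nat.zero_le (k * B * n), Nat.zero_le (k * k * n),
        Nat.zero_le (k * k * B), Nat.zero_le (k * B), Nat.zero_le (k * n), Nat.zero_le (B * n)]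
    · obtain ⟨B, rfl⟩ : ∃ B, A = B + 1 := ⟨A - 1, by omega⟩
      obtain ⟨n, rfl⟩ : ∃ n, g = n + 2 := ⟨g - 2, by omega⟩
      obtain ⟨j, rfl⟩ : ∃ j, k = j + 1 := ⟨k - 1, by omega⟩
      nlinarith [Nat.zero_le (j * j * B * n), Nat.zero_le (j * B * n), Nat.zero_le (j * j * n),
        Nat.zero_le (j * j * B), Nat.zero_le (j * B), Nat.zero_le (j * n), Nat.zero_le (B * n)]

end Pool.Agent.ZQ
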