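import Pool.Agent.Work.MP_43901b_nt.DigB

/-!
# DigW (M): weights of digits, the coin lemma, `DegB` from the weight

`q = p^e`, `e ≥ 1`.  For a place `u < s`: `wt p e s u = p^(e-1-(s-1-u)%e)` and
`p^u q^n = p^s wt`, `n = (s-1-u)/e + 1` (`wt_spec`: `s-1-u = e k + r`, `u + e (k+1) = s + (e-1-r)`).
* `wt_dvd`: `wt ∣ p^(e-1)`; `wt_pos`; `wt_mul_lt`: `wt * p ≤ q`.
* `dsum_mod`: `d_u p^u ≡ d_u p^u q^n = p^s d_u wt(u)` modulo `q - 1` (`q_pow_mod`).
* `dsum_le_wsum`: `p^u ≤ p^u q^n = p^s wt`.
* `coin`: among the `r ≤ d` (pointwise on `range s`, `0` outside) with `t ≤ Σ r_u v_u` (for instance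
  `d`) choose one with `Σ_{u<s} r_u` minimal.  If `Σ r_u v_u > t`: let `v` be the smallest `v_u` with
  `r_u > 0`; all `v_u` with `r_u > 0` are powers of `p`, hence divisible by `v`, and `v ∣ g ∣ t`.  So
  `Σ r_u v_u - t ≥ v`, and decreasing `r_u` by one at the place of `v` gives a smaller element.
  Contradiction.
* `exists_sub_weight`: `coin` with `v u = wt p e s u`, `g = p^(e-1)`, `t = A p^(e-1)`.
* `bd_of_place`: if `p^v q^i ≤ N` implies `p^v q^i ≤ Y_v` for all `v ∈ U` and all `i`, then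
  `Bd p q N U M (M + Σ_{v ∈ U} Y_v)` (induction on `U`; `Bd` is monotone in `Z`; if a later stage has
  `M' + .. ≤ N` then all the summands are `≤ N`; it is convenient to prove the following by induction
  on `U`: for all `M`, `Z` with `Z ≥ M + Σ Y`, or `M > N`: `Bd p q N U M Z`).
* `degB_of_weight`: `U` = the list with `d_u` copies of `u`, `u < s` (e.g. `List.flatMap (range s)
  (replicate (d u) u)`), `Lsum p U = dsum p s d`, `N = p^s c - 1 < p^s q`; for a place `u < s`,
  `p^u q^i ≤ N` implies `i ≤ n_u` (otherwise `p^u q^i ≥ q p^s wt(u) ≥ q p^s > N`), so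
  `p^u q^i ≤ p^s wt(u) =: Y_u`; the sum of the `Y` is `p^s wsum`.  `Z = p^s wsum`.
-/

namespace Pool.Agent.ZQ

open Finset

variable {p e : ℕ}

theorem wt_spec (hp : p.Prime) (he : 1 ≤ e) {s u : ℕ} (hu : u < s) :
    ∃ n, 1 ≤ n ∧ p ^ u * (p ^ e) ^ n = p ^ s * wt p e s u := by
  refine ⟨(s - 1 - u) / e + 1, Nat.le_add_left 1 _, ?_⟩
  have h1 := Nat.div_add_mod (s - 1 - u) e
  have h2 := Nat.mod_lt (s - 1 - u) (show 0 < e by omega)
  unfold wt
  rw [← pow_mul, ← pow_add, ← pow_add]
  congr 1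
  rw [mul_add, mul_one]
  omega

theorem wt_dvd (p e s u : ℕ) : wt p e s u ∣ p ^ (e - 1) := by
  unfold wt
  exact pow_dvd_pow p (Nat.sub_le _ _)

theorem wt_pos (hp : p.Prime) (e s u : ℕ) : 1 ≤ wt p e s u := by
  unfold wt
  exact Nat.pow_pos hp.pos

theorem dsum_mod (hp : p.Prime) (he : 1 ≤ e) (s : ℕ) (d : ℕ → ℕ) :
    dsum p s d ≡ p ^ s * wsum p e s d [MOD p ^ e - 1] := by
  have hq : ∀ n : ℕ, (p ^ e) ^ n ≡ 1 [MOD p ^ e - 1] := by
    intro n
    have h0 : p ^ e ≡ 1 [MOD p ^ e - 1] := by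
      have h1 : 1 ≤ p ^ e := Nat.pow_pos hp.pos
      exact ((Nat.modEq_iff_dvd' h1).2 dvd_rfl).symm
    have := h0.pow n
    rwa [one_pow] at this
  unfold dsum wsum
  rw [mul_sum]
  have key : ∀ T : Finset ℕ, (∀ u ∈ T, u < s) →
      (∑ u ∈ T, d u * p ^ u) ≡ ∑ u ∈ T, p ^ s * (d u * wt p e s u) [MOD p ^ e - 1] := by
    intro T
    induction T using Finset.induction_on with
    | empty =>
      intro _
      rw [sum_empty, sum_empty]
    | insert a T ha ih =>
      intro hT
      rw [sum_insert ha, sum_insert ha]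
      refine Nat.ModEq.add ?_ (ih fun u hu => hT u (mem_insert_of_mem hu))
      obtain ⟨n, _, hn⟩ := wt_spec (p := p) hp he (hT a (mem_insert_self a T))
      have h1 : p ^ s * (d a * wt p e s a) = d a * p ^ a * (p ^ e) ^ n := by
        calc p ^ s * (d a * wt p e s a) = d a * (p ^ s * wt p e s a) := by ring
          _ = d a * (p ^ a * (p ^ e) ^ n) := by rw [hn]
          _ = d a * p ^ a * (p ^ e) ^ n := by ring
      rw [h1]
      have h2 := (hq n).mul_left (d a * p ^ a)
      rw [mul_one] at h2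
      exact h2.symm
  exact key _ fun u hu => mem_range.1 hu

theorem dsum_le_wsum (hp : p.Prime) (he : 1 ≤ e) (s : ℕ) (d : ℕ → ℕ) :
    dsum p s d ≤ p ^ s * wsum p e s d := by
  unfold dsum wsum
  rw [mul_sum]
  refine sum_le_sum fun u hu => ?_
  obtain ⟨n, _, hn⟩ := wt_spec (p := p) hp he (mem_range.1 hu)
  have h1 : p ^ s * (d u * wt p e s u) = d u * p ^ u * (p ^ e) ^ n := by
    calc p ^ s * (d u * wt p e s u) = d u * (p ^ s * wt p e s u) := by ring
      _ = d u * (p ^ u * (p ^ e) ^ n) := by rw [hn]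
      _ = d u * p ^ u * (p ^ e) ^ n := by ring
  rw [h1]
  exact Nat.le_mul_of_pos_right _ (Nat.pow_pos (Nat.pow_pos hp.pos))

theorem coin (hp : p.Prime) {s : ℕ} {v d : ℕ → ℕ} {g t : ℕ} (hv : ∀ u < s, ∃ x, v u = p ^ x)
    (hg : ∀ u < s, v u ∣ g) (ht : g ∣ t) (hle : t ≤ ∑ u ∈ range s, d u * v u) :
    ∃ r : ℕ → ℕ, (∀ u, r u ≤ d u) ∧ ∑ u ∈ range s, r u * v u = t := by
  obtain ⟨N, hN⟩ : ∃ N, N = ∑ u ∈ range s, d u := ⟨_, rfl⟩
  induction N using Nat.strong_induction_on generalizing d with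
  | _ N ih =>
    rcases hle.eq_or_lt with h | h
    · exact ⟨d, fun u => le_rfl, h.symm⟩
    · -- a place with the smallest value
      have hne : ((range s).filter fun u => 0 < d u).Nonempty := by
        by_contra h0
        rw [not_nonempty_iff_eq_empty, filter_eq_empty_iff] at h0
        have h1 : ∑ u ∈ range s, d u * v u = 0 := by
          refine sum_eq_zero fun u hu => ?_
          have h2 := h0 hu
          have h3 : d u = 0 := by omega
          rw [h3, zero_mul]
        omega
      obtain ⟨a, ha, hmin⟩ := exists_min_image _ v hne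
      rw [mem_filter, mem_range] at ha
      obtain ⟨x, hx⟩ := hv a ha.1
      have hdv : ∀ u < s, 0 < d u → v a ∣ v u := by
        intro u hu hdu
        obtain ⟨y, hy⟩ := hv u hu
        have h1 := hmin u (mem_filter.2 ⟨mem_range.2 hu, hdu⟩)
        rw [hx, hy] at h1 ⊢
        exact pow_dvd_pow p ((Nat.pow_le_pow_iff_right hp.one_lt).1 h1)
      have h1 : v a ∣ ∑ u ∈ range s, d u * v u := by
        refine dvd_sum fun u hu => ?_
        rcases Nat.eq_zero_or_pos (d u) with h0 | h0
        · rw [h0, zero_mul]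
          exact dvd_zero _
        · exact Dvd.dvd.mul_left (hdv u (mem_range.1 hu) h0) _
      have h2 : v a ∣ t := (hg a ha.1).trans ht
      have h3 : v a ∣ (∑ u ∈ range s, d u * v u) - t := Nat.dvd_sub h1 h2
      have h4 : v a ≤ (∑ u ∈ range s, d u * v u) - t := Nat.le_of_dvd (by omega) h3
      obtain ⟨k, hk⟩ : ∃ k, d a = k + 1 := ⟨d a - 1, by omega⟩
      have hsum : ∀ f : ℕ → ℕ, ∑ u ∈ range s, d u * f u =
          (∑ u ∈ range s, Function.update d a k u * f u) + f a := by
        intro f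
        rw [← add_sum_erase (range s) _ (mem_range.2 ha.1),
          ← add_sum_erase (range s) (fun u => Function.update d a k u * f u) (mem_range.2 ha.1)]
        have h5 : ∑ u ∈ (range s).erase a, Function.update d a k u * f u =
            ∑ u ∈ (range s).erase a, d u * f u := by
          refine sum_congr rfl fun u hu => ?_
          rw [Function.update_of_ne (ne_of_mem_erase hu)]
        rw [h5, Function.update_self, hk]
        ring
      have h6 := hsum v
      have h7 := hsum fun _ => 1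
      simp only [mul_one] at h7
      obtain ⟨r, hr, hrt⟩ := ih (∑ u ∈ range s, Function.update d a k u) (by omega)
        (d := Function.update d a k) (by omega) rfl
      refine ⟨r, fun u => (hr u).trans ?_, hrt⟩
      by_cases hua : u = a
      · subst hua
        rw [Function.update_self]
        omega
      · rw [Function.update_of_ne hua]

theorem exists_sub_weight (hp : p.Prime) {s : ℕ} {d : ℕ → ℕ} {A : ℕ}
    (hle : A * p ^ (e - 1) ≤ wsum p e s d) :
    ∃ r : ℕ → ℕ, (∀ u, r u ≤ d u) ∧ wsum p e s r = A * p ^ (e - 1) :=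
  coin hp (v := wt p e s) (g := p ^ (e - 1)) (fun u _ => ⟨_, rfl⟩) (fun u _ => wt_dvd p e s u)
    (Dvd.intro_left A rfl) hle

/-- a sub-multiset with a given number of units (`e = 1`: all weights are 1) -/
theorem exists_sub_count (s : ℕ) {d : ℕ → ℕ} {t : ℕ} (hle : t ≤ ∑ u ∈ range s, d u) :
    ∃ r : ℕ → ℕ, (∀ u, r u ≤ d u) ∧ ∑ u ∈ range s, r u = t := by
  obtain ⟨r, hr, h⟩ := coin (p := 2) Nat.prime_two (s := s) (v := fun _ => 1) (d := d) (g := 1)
    (t := t) (fun u _ => ⟨0, rfl⟩) (fun u _ => dvd_rfl) (one_dvd t) (by simpa using hle)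
  exact ⟨r, hr, by simpa using h⟩

theorem dsum_mono {s : ℕ} {d r : ℕ → ℕ} (h : ∀ u < s, r u ≤ d u) : dsum p s r ≤ dsum p s d := by
  unfold dsum
  exact sum_le_sum fun u hu => Nat.mul_le_mul_right _ (h u (mem_range.1 hu))

theorem bd_of_place {q N : ℕ} (Y : ℕ → ℕ) (U : List ℕ)
    (hY : ∀ v ∈ U, ∀ i, p ^ v * q ^ i ≤ N → p ^ v * q ^ i ≤ Y v) (M Z : ℕ)
    (hZ : M + (U.map Y).sum ≤ Z ∨ N < M) : Bd p q N U M Z := by
  induction U generalizing M with
  | nil =>
    intro h
    rw [List.map_nil, List.sum_nil] at hZ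
    omega
  | cons u U ih =>
    intro i
    refine ih (fun v hv => hY v (List.mem_cons_of_mem _ hv)) _ ?_
    rw [List.map_cons, List.sum_cons] at hZ
    have h1 := hY u List.mem_cons_self i
    rcases hZ with hZ | hZ
    · by_cases h2 : p ^ u * q ^ i ≤ N
      · left
        have := h1 h2
        omega
      · right
        omega
    · right
      omega

private theorem digw_flat (f d : ℕ → ℕ) (s : ℕ) :
    (((List.range s).flatMap fun u => List.replicate (d u) u).map f).sum =
      ∑ u ∈ range s, d u * f u := by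
  induction s with
  | zero => simp
  | succ s ih =>
    rw [List.range_succ, List.flatMap_append, List.map_append, List.sum_append, ih,
      sum_range_succ]
    simp

theorem degB_of_weight (hp : p.Prime) (he : 1 ≤ e) {s c r : ℕ} {d : ℕ → ℕ} (hc : 1 ≤ c)
    (hc' : c ≤ p ^ e) (hd : ∀ u < s, d u < p)
    (hr : p ^ s * wsum p e s d = dsum p s d + (p ^ e - 1) * r) :
    DegB p (p ^ e) (p ^ s * c - dsum p s d) r := by
  have hlt := dsum_lt hp hd
  have hps : 1 ≤ p ^ s := Nat.pow_pos hp.pos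
  have hsc : p ^ s ≤ p ^ s * c := Nat.le_mul_of_pos_right _ hc
  have hL : Lsum p ((List.range s).flatMap fun u => List.replicate (d u) u) = dsum p s d := by
    unfold Lsum dsum
    rw [digw_flat]
  refine ⟨s, c, (List.range s).flatMap fun u => List.replicate (d u) u, p ^ s * wsum p e s d,
    hc, hc', ?_, ?_, ?_⟩
  · rw [hL]
    omega
  · refine bd_of_place (fun u => p ^ s * wt p e s u) _ (fun v hv i hi => ?_) _ _ (Or.inl ?_)
    · have hvs : v < s := by
        rw [List.mem_flatMap] at hv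
        obtain ⟨u, hu, hvu⟩ := hv
        rw [List.mem_replicate] at hvu
        rw [hvu.2]
        exact List.mem_range.1 hu
      obtain ⟨n, _, hn⟩ := wt_spec (p := p) hp he hvs
      show p ^ v * (p ^ e) ^ i ≤ p ^ s * wt p e s v
      rw [← hn]
      have hq1 : 1 ≤ p ^ e := Nat.pow_pos hp.pos
      by_cases hin : i ≤ n
      · exact Nat.mul_le_mul_left _ (Nat.pow_le_pow_right hq1 hin)
      · exfalso
        have h1 : p ^ v * (p ^ e) ^ (n + 1) ≤ p ^ v * (p ^ e) ^ i :=
          Nat.mul_le_mul_left _ (Nat.pow_le_pow_right hq1 (by omega))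
        have h2 : p ^ v * (p ^ e) ^ (n + 1) = p ^ s * (p ^ e * wt p e s v) := by
          calc p ^ v * (p ^ e) ^ (n + 1) = p ^ v * (p ^ e) ^ n * p ^ e := by ring
            _ = p ^ s * wt p e s v * p ^ e := by rw [hn]
            _ = p ^ s * (p ^ e * wt p e s v) := by ring
        have h3 : c ≤ p ^ e * wt p e s v :=
          hc'.trans (Nat.le_mul_of_pos_right _ (wt_pos hp e s v))
        have h4 : p ^ s * c ≤ p ^ s * (p ^ e * wt p e s v) := Nat.mul_le_mul_left _ h3
        omega
    · rw [digw_flat, zero_add]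
      unfold wsum
      rw [mul_sum]
      refine le_of_eq (sum_congr rfl fun u _ => ?_)
      ring
  · rw [hL, hr]

end Pool.Agent.ZQ
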