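import Pool.Agent.Work.MP_43901b_nt.Ser

/-!
# SerQ (S-M): the series `Ψ = Σ f_i x^(q^i-1)` and the coefficients of `1/Ψ`

Model: helper29's `MP_b19acb_nt/HH.lean` (case `q = 2`).  `x Ψ = ser q f` coefficientwise.
`hh_inv`: `PowerSeries.mul_invOfUnit`, the constant coefficient of `Ψ` is `f 0 = 1` (`0 + 1 = q^0`).
`hh_map`: uniqueness of the inverse (`PowerSeries.map f (serQ q c) = serQ q (f ∘ c)`).
`hh_scale`: with `S_a` = `PowerSeries.rescale a`: `rescale a (serQ q f) = serQ q (a^(q^i-1) f_i)`,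
uniqueness of the inverse.  `hh_const`: then `Ψ = 1`.

Proved by helper65.
-/

namespace Pool.Agent.ZQ

open Finset

variable {R : Type*} [CommRing R] {q : ℕ}

private theorem coeff_serQ' (f : ℕ → R) (n : ℕ) : PowerSeries.coeff n (serQ q f) =
    if n + 1 = q ^ Nat.log q (n + 1) then f (Nat.log q (n + 1)) else 0 :=
  PowerSeries.coeff_mk _ _

theorem X_mul_serQ (hq : 2 ≤ q) (f : ℕ → R) : PowerSeries.X * serQ q f = ser q f := by
  have _ := hq
  ext n
  cases n with
  | zero =>
    rw [PowerSeries.coeff_zero_X_mul, PowerSeries.coeff_zero_eq_constantCoeff_apply, ser_const]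
  | succ n =>
    rw [PowerSeries.coeff_succ_X_mul, coeff_serQ']
    unfold ser
    rw [PowerSeries.coeff_mk]

private theorem serQ_const (f : ℕ → R) (hf : f 0 = 1) :
    PowerSeries.constantCoeff (serQ q f) = ((1 : Rˣ) : R) := by
  rw [← PowerSeries.coeff_zero_eq_constantCoeff_apply, Units.val_one, coeff_serQ']
  simp [hf]

private theorem hh_mk (f : ℕ → R) : (PowerSeries.mk fun n => hh q f n) =
    PowerSeries.invOfUnit (serQ q f) 1 := by
  ext n
  rw [PowerSeries.coeff_mk]
  rfl

theorem hh_inv (f : ℕ → R) (hf : f 0 = 1) :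
    serQ q f * (PowerSeries.mk fun n => hh q f n) = 1 := by
  rw [hh_mk]
  exact PowerSeries.mul_invOfUnit _ _ (serQ_const f hf)

private theorem serQ_inv_unique {P A B : PowerSeries R} (hA : P * A = 1) (hB : P * B = 1) :
    A = B := by
  calc A = A * (P * B) := by rw [hB, mul_one]
    _ = (P * A) * B := by ring
    _ = B := by rw [hA, one_mul]

theorem hh_unique (f : ℕ → R) (hf : f 0 = 1) {G : PowerSeries R} (hG : serQ q f * G = 1) (n : ℕ) :
    hh q f n = PowerSeries.coeff n G := by
  rw [← serQ_inv_unique (hh_inv f hf) hG, PowerSeries.coeff_mk]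

theorem hh_zero (f : ℕ → R) : hh q f 0 = 1 := by
  unfold hh
  rw [PowerSeries.coeff_zero_eq_constantCoeff_apply, PowerSeries.constantCoeff_invOfUnit]
  simp

theorem hh_map {S : Type*} [CommRing S] (g : R →+* S) (f : ℕ → R) (hf : f 0 = 1) (n : ℕ) :
    g (hh q f n) = hh q (fun i => g (f i)) n := by
  have h1 : PowerSeries.map g (serQ q f) = serQ q (fun i => g (f i)) := by
    ext n
    rw [PowerSeries.coeff_map, coeff_serQ', coeff_serQ']
    split_ifs
    · rfl
    · rw [map_zero]
  have h2 : serQ q (fun i => g (f i)) * PowerSeries.map g (PowerSeries.mk fun n => hh q f n) =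
      1 := by
    rw [← h1, ← map_mul, hh_inv f hf, map_one]
  have h3 := hh_unique (fun i => g (f i)) (by simp only [hf, map_one]) h2 n
  rw [h3, PowerSeries.coeff_map, PowerSeries.coeff_mk]

theorem hh_scale (hq : 2 ≤ q) (a : R) (f : ℕ → R) (hf : f 0 = 1) (n : ℕ) :
    hh q (fun i => a ^ (q ^ i - 1) * f i) n = a ^ n * hh q f n := by
  have _ := hq
  have h1 : PowerSeries.rescale a (serQ q f) = serQ q (fun i => a ^ (q ^ i - 1) * f i) := by
    ext n
    rw [PowerSeries.coeff_rescale, coeff_serQ', coeff_serQ']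
    split_ifs with h
    · rw [← h, Nat.add_sub_cancel]
    · rw [mul_zero]
  have h2 : serQ q (fun i => a ^ (q ^ i - 1) * f i) *
      PowerSeries.rescale a (PowerSeries.mk fun n => hh q f n) = 1 := by
    rw [← h1, ← map_mul, hh_inv f hf, map_one]
  have h3 := hh_unique (fun i => a ^ (q ^ i - 1) * f i) (by simp [hf]) h2 n
  rw [h3, PowerSeries.coeff_rescale, PowerSeries.coeff_mk]

theorem hh_const (f : ℕ → R) (hf : f 0 = 1) (hf' : ∀ i, 1 ≤ i → f i = 0) {n : ℕ} (hn : 1 ≤ n) :
    hh q f n = 0 := by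
  have h1 : serQ q f = 1 := by
    ext m
    rw [coeff_serQ', PowerSeries.coeff_one]
    rcases Nat.eq_zero_or_pos m with rfl | hm
    · simp [hf]
    · rw [if_neg (by omega : ¬ m = 0)]
      split_ifs with h
      · rcases Nat.eq_zero_or_pos (Nat.log q (m + 1)) with h0 | h0
        · rw [h0, pow_zero] at h
          omega
        · exact hf' _ h0
      · rfl
  have h2 := hh_unique (q := q) f hf (G := 1) (by rw [h1, mul_one]) n
  rw [h2, PowerSeries.coeff_one, if_neg (by omega)]

end Pool.Agent.ZQ
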