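import Pool.Agent.Work.MP_43901b_nt.PpB
import Pool.Agent.Work.MP_43901b_nt.SerQ

/-!
# FbEq (M): `F_b(T^q) = (θ-T)^b F_b(T) + P_b(T)` for `q - 1 ∣ b`, and `F_b(θ) = 0`

Work in power series over `R = K[X]` (characteristic `p`).  Let `c = cc q θ`, `E = ser q c`,
`S = serQ q c` (`X S = E`, `X_mul_serQ`, `c_0 = 1`), `H = 1/S`, coefficients `hh q c n`.

(1) `hh q c n = (C θ - X)^n F_n`: `hh_scale` and `ff_mul` (`c_i = (θ-T)^(q^i-1) f_i`).
(2) `expand F_n = hh q (fun i => expand (f_i)) n` (`hh_map` for the ring homomorphism `expand K q`), and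
`expand (f_0) = 1 = c_0`, `expand (f_(i+1)) = c_(i+1) - c_i^q` (`ff_expand`).  So
`serQ q (expand ∘ f) = S - E^(q-1) S = S (1 - E^(q-1))`: indeed `X * serQ q (expand ∘ f) =
ser q (expand ∘ f) = E - E^q` coefficientwise (`E^q` has the coefficient `c_i^q` at `x^(q^(i+1))`;
`coeff_pow_p`-type statement: in characteristic `p`, `E^q = Σ c_i^q x^(q^(i+1))`), and `E = X S`.
(3) Let `U = 1/(1 - E^(q-1))` (`invOfUnit`), so the inverse of `S (1 - E^(q-1))` is `H U`, and
`expand F_b - (θ-T)^b F_b = [x^b] H (U - 1) = [x^b] H E^(q-1) U = [x^b] x E^(q-2) U = [x^(b-1)] E^(q-2) U`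
(`U - 1 = E^(q-1) U`, `H E = x`).
(4) `G = 1/(1-E) = Σ_{m<q-1} E^m U` (as `(1-E) Σ_{m<q-1} E^m = 1 - E^(q-1)`).
(5) Homogeneity: say that a power series `f` is of class `r` if `coeff n f ≠ 0` implies
`n ≡ r mod q-1`.  `E` is of class `1` (`q_pow_mod`), products add classes, `1` is of class `0`, and
`U` is of class `0` (strong induction on the index: `U = 1 + E^(q-1) U`).  So `E^m U` is of class `m`,
and for `b ≡ 0`, `[x^(b-1)] E^m U = 0` for `m < q-1`, `m ≠ q-2`.  Hence
`P_b = [x^(b-1)] G = [x^(b-1)] E^(q-2) U`.  (For `q = 2`: `q - 1 = 1`, everything is of every class, the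
only `m` is `0 = q-2`.)

`Fb_eval`: `hh_map` for `eval θ`, `ff_eval_self`, `hh_const`.
-/

namespace Pool.Agent.ZQ

open Polynomial Finset

variable {p q : ℕ} {K : Type*} [Field K] {θ : K}

private theorem charP_ps {R : Type*} [CommRing R] [CharP R p] : CharP (PowerSeries R) p :=
  charP_of_injective_ringHom (f := PowerSeries.C (R := R)) PowerSeries.C_injective p

private theorem ser_split {R : Type*} [CommRing R] (hq : 2 ≤ q) (c : ℕ → R) (N : ℕ) :
    ∃ E' : PowerSeries R, ser q c = (∑ i ∈ range N, PowerSeries.C (c i) * PowerSeries.X ^ q ^ i) +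
      PowerSeries.X ^ q ^ N * E' := by
  have h1 : PowerSeries.X ^ q ^ N ∣ ser q c -
      ∑ i ∈ range N, PowerSeries.C (c i) * PowerSeries.X ^ q ^ i := by
    rw [PowerSeries.X_pow_dvd_iff]
    intro m hm
    rw [map_sub, map_sum]
    have h2 : ∀ i ∈ range N, PowerSeries.coeff m (PowerSeries.C (c i) * PowerSeries.X ^ q ^ i) =
        if m = q ^ i then c i else 0 := by
      intro i _
      rw [PowerSeries.coeff_C_mul, PowerSeries.coeff_X_pow]
      split_ifs <;> simp
    rw [sum_congr rfl h2]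
    by_cases h3 : ∃ i, m = q ^ i
    · obtain ⟨j, rfl⟩ := h3
      have hj : j < N := (Nat.pow_lt_pow_iff_right hq).1 hm
      rw [coeff_ser_pow hq, sum_eq_single j, if_pos rfl, sub_self]
      · intro i _ hi
        rw [if_neg]
        intro h4
        exact hi (Nat.pow_right_injective hq h4).symm
      · intro h4
        exact absurd (mem_range.2 hj) h4
    · have h4 : ∀ i, m ≠ q ^ i := fun i hi => h3 ⟨i, hi⟩
      rw [coeff_ser_ne c h4, sum_eq_zero, sub_self]
      intro i _
      rw [if_neg (h4 i)]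
  obtain ⟨E', hE⟩ := h1
  exact ⟨E', by rw [← hE]; ring⟩

private theorem ser_pow_q {R : Type*} [CommRing R] [CharP R p] (h : IsQ p q) (c : ℕ → R) :
    ser q (fun i => if i = 0 then 0 else (c (i - 1)) ^ q) = ser q c ^ q := by
  have hch : CharP (PowerSeries R) p := charP_ps
  ext n
  obtain ⟨E', hE⟩ := ser_split h.two_le c (n + 1)
  have hn : n < q ^ (n + 1) := by
    calc n < n + 1 := Nat.lt_succ_self n
      _ < q ^ (n + 1) := Nat.lt_pow_self h.two_le
  have h1 : ser q c ^ q = (∑ i ∈ range (n + 1), PowerSeries.C (c i ^ q) *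
      PowerSeries.X ^ q ^ (i + 1)) + PowerSeries.X ^ q ^ (n + 1) *
        (PowerSeries.X ^ (q ^ (n + 1) * (q - 1)) * E' ^ q) := by
    rw [hE, add_pow_q1 h]
    congr 1
    · have h2 := sum_pow_q h (range (n + 1))
        (fun i => PowerSeries.C (c i) * PowerSeries.X ^ q ^ i : ℕ → PowerSeries R) 1
      rw [pow_one] at h2
      rw [h2]
      refine sum_congr rfl fun i _ => ?_
      rw [mul_pow, ← map_pow, ← pow_mul, ← pow_succ]
    · rw [mul_pow, ← mul_assoc, ← pow_add, ← pow_mul]
      congr 2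
      have := h.two_le
      obtain ⟨m, rfl⟩ : ∃ m, q = m + 1 := ⟨q - 1, by omega⟩
      rw [Nat.add_sub_cancel]
      ring
  rw [h1, map_add, PowerSeries.coeff_X_pow_mul', if_neg (by omega), add_zero, map_sum]
  have h2 : ∀ i ∈ range (n + 1), PowerSeries.coeff n
      (PowerSeries.C (c i ^ q) * PowerSeries.X ^ q ^ (i + 1)) =
        if n = q ^ (i + 1) then c i ^ q else 0 := by
    intro i _
    rw [PowerSeries.coeff_C_mul, PowerSeries.coeff_X_pow]
    split_ifs <;> simp
  rw [sum_congr rfl h2]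
  by_cases h3 : ∃ i, n = q ^ i
  · obtain ⟨j, hj⟩ := h3
    rw [hj, coeff_ser_pow h.two_le]
    rcases Nat.eq_zero_or_pos j with rfl | hj0
    · rw [if_pos rfl, sum_eq_zero]
      intro i _
      rw [if_neg]
      intro h4
      have := Nat.pow_right_injective h.two_le h4
      omega
    · rw [if_neg (by omega), sum_eq_single (j - 1), if_pos (by congr 1; omega)]
      · intro i _ hi
        rw [if_neg]
        intro h4
        have := Nat.pow_right_injective h.two_le h4
        omega
      · intro h4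
        exfalso
        apply h4
        rw [mem_range]
        have : j < q ^ j := Nat.lt_pow_self h.two_le
        omega
  · have h4 : ∀ i, n ≠ q ^ i := fun i hi => h3 ⟨i, hi⟩
    rw [coeff_ser_ne _ h4, sum_eq_zero]
    intro i _
    rw [if_neg (h4 (i + 1))]

/-- `f` is of class `r` modulo `m` -/
private def Cl {R : Type*} [CommRing R] (m r : ℕ) (f : PowerSeries R) : Prop :=
  ∀ n, PowerSeries.coeff n f ≠ 0 → n ≡ r [MOD m]

private theorem Cl.mul {R : Type*} [CommRing R] {m r s : ℕ} {f g : PowerSeries R} (hf : Cl m r f)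
    (hg : Cl m s g) : Cl m (r + s) (f * g) := by
  intro n hn
  rw [PowerSeries.coeff_mul] at hn
  obtain ⟨⟨i, j⟩, hij, h1⟩ := exists_ne_zero_of_sum_ne_zero hn
  rw [HasAntidiagonal.mem_antidiagonal] at hij
  have hi : PowerSeries.coeff i f ≠ 0 := fun h2 => h1 (by rw [h2, zero_mul])
  have hj : PowerSeries.coeff j g ≠ 0 := fun h2 => h1 (by rw [h2, mul_zero])
  rw [← hij]
  exact (hf i hi).add (hg j hj)

private theorem Cl.one {R : Type*} [CommRing R] {m : ℕ} : Cl m 0 (1 : PowerSeries R) := by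
  intro n hn
  rw [PowerSeries.coeff_one] at hn
  split_ifs at hn with h1
  · rw [h1]
  · exact absurd rfl hn

private theorem Cl.pow {R : Type*} [CommRing R] {m r : ℕ} {f : PowerSeries R} (hf : Cl m r f)
    (k : ℕ) : Cl m (k * r) (f ^ k) := by
  induction k with
  | zero => rw [pow_zero, zero_mul]; exact Cl.one
  | succ k ih =>
    rw [pow_succ, Nat.succ_mul]
    exact ih.mul hf

private theorem Cl.ser {R : Type*} [CommRing R] (hq : 1 ≤ q) (c : ℕ → R) :
    Cl (q - 1) 1 (ser q c) := by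
  intro n hn
  by_cases h3 : ∃ i, n = q ^ i
  · obtain ⟨j, rfl⟩ := h3
    exact q_pow_mod hq j
  · exact absurd (coeff_ser_ne c fun i hi => h3 ⟨i, hi⟩) hn

private theorem Cl.inv {R : Type*} [CommRing R] {m : ℕ} {V U : PowerSeries R}
    (hV : Cl m 0 V) (h0 : PowerSeries.coeff 0 V = 0) (hU : U = 1 + V * U) : Cl m 0 U := by
  intro n
  induction n using Nat.strong_induction_on with
  | _ n ih =>
    intro hn
    rw [hU, map_add, PowerSeries.coeff_mul] at hn
    by_cases h1 : PowerSeries.coeff n (1 : PowerSeries R) = 0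
    · rw [h1, zero_add] at hn
      obtain ⟨⟨i, j⟩, hij, h2⟩ := exists_ne_zero_of_sum_ne_zero hn
      rw [HasAntidiagonal.mem_antidiagonal] at hij
      have hi : PowerSeries.coeff i V ≠ 0 := fun h3 => h2 (by rw [h3, zero_mul])
      have hj : PowerSeries.coeff j U ≠ 0 := fun h3 => h2 (by rw [h3, mul_zero])
      have hi0 : i ≠ 0 := by
        rintro rfl
        exact hi h0
      dsimp only at hij
      rw [← hij]
      exact (hV i hi).add (ih j (by omega) hj)
    · exact Cl.one n h1

theorem Fb_eq [CharP K p] (h : IsQ p q) (hθ : Gen q θ) {b : ℕ} (hb : 1 ≤ b) (hd : (q - 1) ∣ b) :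
    expand K q (Fb q θ b) = (C θ - X) ^ b * Fb q θ b + Pp q θ b := by
  have hq := h.two_le
  set E : PowerSeries K[X] := ser q (cc q θ) with hEdef
  set S : PowerSeries K[X] := serQ q (cc q θ) with hSdef
  set H : PowerSeries K[X] := PowerSeries.mk fun n => hh q (cc q θ) n with hHdef
  have hc0 : cc q θ 0 = 1 := cc_zero θ
  have hXS : PowerSeries.X * S = E := X_mul_serQ hq _
  have hSH : S * H = 1 := hh_inv _ hc0
  -- step 1
  have s1 : (C θ - X) ^ b * Fb q θ b = PowerSeries.coeff b H := by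
    rw [hHdef, PowerSeries.coeff_mk, Fb, ← hh_scale hq (C θ - X) (ff q θ) (ff_zero θ) b]
    congr 1
    funext i
    exact ff_mul h θ i
  -- step 2
  set c' : ℕ → K[X] := fun i => expand K q (ff q θ i) with hc'
  have hc'0 : c' 0 = 1 := by rw [hc']; simp only [ff_zero, map_one]
  have s2 : expand K q (Fb q θ b) = hh q c' b :=
    hh_map ((expand K q : K[X] →ₐ[K] K[X]) : K[X] →+* K[X]) (ff q θ) (ff_zero θ) b
  have hser : ser q c' = E - E ^ q := by
    rw [hEdef, ← ser_pow_q h]
    ext1 n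
    rw [map_sub]
    by_cases h3 : ∃ i, n = q ^ i
    · obtain ⟨j, rfl⟩ := h3
      rw [coeff_ser_pow hq, coeff_ser_pow hq, coeff_ser_pow hq]
      rcases Nat.eq_zero_or_pos j with rfl | hj0
      · rw [if_pos rfl, sub_zero, hc'0, hc0]
      · obtain ⟨i, rfl⟩ : ∃ i, j = i + 1 := ⟨j - 1, by omega⟩
        rw [if_neg (by omega), Nat.add_sub_cancel]
        exact ff_expand h hθ i
    · have h4 : ∀ i, n ≠ q ^ i := fun i hi => h3 ⟨i, hi⟩
      rw [coeff_ser_ne _ h4, coeff_ser_ne _ h4, coeff_ser_ne _ h4, sub_zero]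
  have hEq : E ^ q = E * E ^ (q - 1) := by
    rw [← pow_succ']
    congr 1
    omega
  have hS' : serQ q c' = S * (1 - E ^ (q - 1)) := by
    refine mul_left_cancel₀ (PowerSeries.X_ne_zero (R := K[X])) ?_
    rw [X_mul_serQ hq, hser, ← mul_assoc, hXS, hEq]
    ring
  have hE0 : PowerSeries.constantCoeff E = 0 := ser_const _
  -- step 3
  set U : PowerSeries K[X] := PowerSeries.invOfUnit (1 - E ^ (q - 1)) 1 with hUdef
  have hU : (1 - E ^ (q - 1)) * U = 1 := by
    refine PowerSeries.mul_invOfUnit _ _ ?_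
    rw [map_sub, map_pow, hE0, zero_pow (by omega), sub_zero, map_one, Units.val_one]
  have hU' : U = 1 + E ^ (q - 1) * U := by
    linear_combination hU
  have s3 : hh q c' b = PowerSeries.coeff b (H * U) := by
    refine hh_unique c' hc'0 ?_ b
    rw [hS']
    calc S * (1 - E ^ (q - 1)) * (H * U) = (S * H) * ((1 - E ^ (q - 1)) * U) := by ring
      _ = 1 := by rw [hSH, hU, one_mul]
  have hHE : H * E = PowerSeries.X := by
    rw [← hXS]
    calc H * (PowerSeries.X * S) = PowerSeries.X * (S * H) := by ring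
      _ = PowerSeries.X := by rw [hSH, mul_one]
  have hEq2 : E ^ (q - 1) = E * E ^ (q - 2) := by
    rw [← pow_succ']
    congr 1
    omega
  have s4 : H * U = H + PowerSeries.X * (E ^ (q - 2) * U) := by
    calc H * U = H * (1 + E ^ (q - 1) * U) := by rw [← hU']
      _ = H + (H * E) * (E ^ (q - 2) * U) := by rw [hEq2]; ring
      _ = _ := by rw [hHE]
  have s5 : PowerSeries.coeff b (H * U) = PowerSeries.coeff b H +
      PowerSeries.coeff (b - 1) (E ^ (q - 2) * U) := by
    rw [s4, map_add]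
    obtain ⟨m, rfl⟩ : ∃ m, b = m + 1 := ⟨b - 1, by omega⟩
    rw [PowerSeries.coeff_succ_X_mul, Nat.add_sub_cancel]
  -- step 4
  have hG : (PowerSeries.mk fun n => gg q (cc q θ) n) = (∑ m ∈ range (q - 1), E ^ m) * U := by
    have h1 := gg_inv (q := q) (cc q θ)
    have h2 : (1 - E) * ((∑ m ∈ range (q - 1), E ^ m) * U) = 1 := by
      rw [← mul_assoc, mul_neg_geom_sum, hU]
    calc (PowerSeries.mk fun n => gg q (cc q θ) n)
        = ((1 - E) * ((∑ m ∈ range (q - 1), E ^ m) * U)) *
          (PowerSeries.mk fun n => gg q (cc q θ) n) := by rw [h2, one_mul]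
      _ = ((1 - E) * (PowerSeries.mk fun n => gg q (cc q θ) n)) *
          ((∑ m ∈ range (q - 1), E ^ m) * U) := by ring
      _ = _ := by rw [hEdef, h1, one_mul]
  have s6 : Pp q θ b = ∑ m ∈ range (q - 1), PowerSeries.coeff (b - 1) (E ^ m * U) := by
    have h1 : Pp q θ b = PowerSeries.coeff (b - 1) (PowerSeries.mk fun n => gg q (cc q θ) n) := by
      rw [PowerSeries.coeff_mk, Pp]
    rw [h1, hG, sum_mul, map_sum]
  -- step 5
  have hClE : ∀ m, Cl (q - 1) m (E ^ m) := fun m => by
    have := (Cl.ser (by omega : 1 ≤ q) (cc q θ)).pow m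
    rwa [mul_one] at this
  have hClU : Cl (q - 1) 0 U := by
    refine Cl.inv (V := E ^ (q - 1)) ?_ ?_ hU'
    · intro n hn
      exact (hClE (q - 1) n hn).trans (Nat.modEq_zero_iff_dvd.2 dvd_rfl)
    · rw [PowerSeries.coeff_zero_eq_constantCoeff, map_pow, hE0, zero_pow (by omega)]
  have s7 : Pp q θ b = PowerSeries.coeff (b - 1) (E ^ (q - 2) * U) := by
    rw [s6, sum_eq_single (q - 2)]
    · intro m hm hne
      by_contra hn
      have h1 := ((hClE m).mul hClU) (b - 1) hn
      rw [add_zero] at h1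
      have h2 : b ≡ m + 1 [MOD q - 1] := by
        have := h1.add_right 1
        rwa [Nat.sub_add_cancel hb] at this
      have h3 : m + 1 ≡ 0 [MOD q - 1] :=
        h2.symm.trans (Nat.modEq_zero_iff_dvd.2 hd)
      have h4 := Nat.modEq_zero_iff_dvd.1 h3
      have h5 := Nat.le_of_dvd (by omega) h4
      rw [mem_range] at hm
      omega
    · intro hn
      exfalso
      apply hn
      rw [mem_range]
      omega
  rw [s2, s3, s5, s1, s7]

theorem Fb_eval (θ : K) {b : ℕ} (hb : 1 ≤ b) : (Fb q θ b).eval θ = 0 := by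
  have h1 : (Fb q θ b).eval θ = hh q (fun i => (evalRingHom θ) (ff q θ i)) b :=
    hh_map (evalRingHom θ) (ff q θ) (ff_zero θ) b
  rw [h1]
  refine hh_const _ ?_ (fun i hi => ?_) hb
  · rw [ff_zero, map_one]
  · exact ff_eval_self θ hi

end Pool.Agent.ZQ
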