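import Pool.Agent.Work.MP_43901b_nt.InvS3

/-!
# InvS (M): telescoping tuples have invariants; the bounds for them

`inv_step`: fields of `Inv p q (a :: t) f B K`, `j = t.length`, `w = a + t.sum`:
`ne`, `deg` (`step_deg`, `step_main`); `low`: `(q-1) B ≤ t.sum ≤ w`; `n0`, `l0`, `r0`, `wK`:
`step_level0`, `root_of_level0`; `mono`: `step_main` and `mono_of_level` (`i ≥ j+1 > j`);
`ord`: `step_ord`; `ord0`: `(q-1) B + 1 ≤ t.sum + a`; `kB`, `kP` from `hI`;
`u` from `step_main`: `(q-1) B + 1 ≤ q^j M ≤ q (q^j p^u)`, and `q^j p^u` is a power of `p`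
(`IsQ.pow_eq`), so by `kP`: `K ≤ q^(j+1) p^u`, and `(q-1) K ≤ q^(j+1) (q-1) p^u ≤ q^(j+1) a`: `head`.
`top`: `q^(j+1) (K - w) ≤ K`: `q^(j+1) (K - t.sum) ≤ q K` (`hI.top`), minus `q^(j+1) a ≥ (q-1) K`.
`tl`: `hI.top`.

`tel_inv`: induction on `s` (`t = []`: `g = 1`, `inv_base`; `t ≠ []`: induction hypothesis, `inv_step`).
`tel_T1`: from it (`s = []`: `f = 1`).
`pair_bounds`: `t = b :: t'`, `j = t.length`, `Inv` for `t` and for `a :: t` with the same `B`, `K`:
`a ≤ K - t.sum` and `q^j (K - t.sum) ≤ K`: `q^j a ≤ K`; `(q-1) K ≤ q^j b` (`head`): `(q-1) a ≤ b`.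
`q^(j-1) (K - t'.sum) ≤ K` (`tl` of `t`; `j - 1 = t'.length`), `a + b ≤ K - t'.sum`:
`q^(j-1) (a+b) ≤ K`, `(q-1) K ≤ q^(j+1) a`: `(q-1)(a+b) ≤ q^2 a`, so (`q - 1 ≥ 1`) `a + b ≤ q^2 a`.
`tel_bounds`: from these.
-/

namespace Pool.Agent.ZQ

open Polynomial Finset

variable {F : Type*} [Field F] [Fintype F] {p q : ℕ} [CharP F p]

theorem inv_step (h : IsQ p q) (hF : Fintype.card F = q) (hq : 3 ≤ q) {a : ℕ} (ha : 1 ≤ a)
    {t : List ℕ} {f g : (LaurentSeries F)[X]}
    {B K : ℕ} (hI : Inv p q t g B K) (ht : 1 ≤ t.length) (hf : expand _ q f =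
      (C th - X) ^ (a + t.sum) * f + Pp q th a * ((C th - X) ^ t.sum * g)) :
    Inv p q (a :: t) f B K := by
  obtain ⟨hf0, -⟩ := step_deg h ha hI hf
  obtain ⟨hD, ⟨m, hm, hc⟩, u, hu, hup⟩ := step_main h hF hq ha hI ht hf
  obtain ⟨hn, hl⟩ := step_level0 h ha hI hf
  obtain ⟨hl0, hr0, hwK⟩ := root_of_level0 h hI hn hl
  have hlow := hI.low
  have hhead : (q - 1) * K ≤ q ^ (t.length + 1) * a := by
    obtain ⟨e, -, he⟩ := h.pow_eq
    have h1 := step_ord h ha hI hf0 hf ht le_rfl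
    have h2 : q ^ t.length * f.rootMultiplicity (th ^ q ^ t.length) ≤
        q * p ^ (e * t.length + u) := by
      calc q ^ t.length * f.rootMultiplicity (th ^ q ^ t.length)
          ≤ q ^ t.length * (q * p ^ u) := Nat.mul_le_mul_left _ hu
        _ = q * (p ^ (e * t.length) * p ^ u) := by rw [← he]; ring
        _ = q * p ^ (e * t.length + u) := by rw [pow_add]
    have h3 := hI.kP _ (h1.trans h2)
    calc (q - 1) * K ≤ (q - 1) * (q * p ^ (e * t.length + u)) := Nat.mul_le_mul_left _ h3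
      _ = q ^ (t.length + 1) * ((q - 1) * p ^ u) := by
        rw [pow_add p, ← he]
        ring
      _ ≤ q ^ (t.length + 1) * a := Nat.mul_le_mul_left _ hup
  refine ⟨hf0, ?_, ?_, ?_, ?_, ?_, ?_, ?_, ?_, ?_, ?_, ?_, ?_, hI.kB, hI.kP⟩
  · rw [List.sum_cons]
    exact hD
  · rw [List.sum_cons]
    omega
  · rw [List.sum_cons]
    exact hn
  · rw [List.sum_cons]
    exact hl0
  · rw [List.sum_cons]
    exact hr0
  · rw [List.sum_cons]
    exact hwK
  · intro i hi
    rw [List.length_cons] at hi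
    exact mono_of_level (by omega) hm hc (by omega)
  · intro i hi hi'
    rw [List.length_cons] at hi'
    exact step_ord h ha hI hf0 hf hi (by omega)
  · rw [List.sum_cons]
    omega
  · rw [List.sum_cons, List.length_cons]
    have h1 := Nat.mul_le_mul_left q hI.top
    have h2 : q ^ (t.length + 1) * (K - (a + t.sum)) =
        q * (q ^ t.length * (K - t.sum)) - q ^ (t.length + 1) * a := by
      rw [add_comm a, ← Nat.sub_sub, Nat.mul_sub, pow_succ]
      congr 1
      ring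
    rw [h2]
    have h3 : (q - 1) * K + K = q * K := by
      obtain ⟨n, rfl⟩ : ∃ n, q = n + 1 := ⟨q - 1, by omega⟩
      rw [Nat.add_sub_cancel]
      ring
    omega
  · intro a' t' hat
    rw [List.cons_eq_cons] at hat
    obtain ⟨rfl, rfl⟩ := hat
    rw [List.length_cons]
    exact hhead
  · intro a' t' hat
    rw [List.cons_eq_cons] at hat
    obtain ⟨rfl, rfl⟩ := hat
    exact hI.top

theorem tel_inv (h : IsQ p q) (hF : Fintype.card F = q) (hq : 3 ≤ q) {s : List ℕ}
    (hs : ∀ a ∈ s, 1 ≤ a) (hl : s ≠ []) {f : (LaurentSeries F)[X]} (hf : TelF q th s f) :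
    ∃ B K, Inv p q s f B K := by
  induction s generalizing f with
  | nil => exact absurd rfl hl
  | cons a t ih =>
    have ha : 1 ≤ a := hs a List.mem_cons_self
    obtain ⟨g, hg, hfg⟩ := hf
    cases t with
    | nil =>
      have hg1 : g = 1 := hg
      subst hg1
      refine inv_base h hq ha ?_
      rw [hfg, List.sum_nil, add_zero, pow_zero, one_mul, mul_one]
    | cons b t' =>
      obtain ⟨B, K, hI⟩ := ih (fun x hx => hs x (List.mem_cons_of_mem _ hx)) (by simp) hg
      exact ⟨B, K, inv_step h hF hq ha hI (by rw [List.length_cons]; omega) hfg⟩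

theorem tel_T1 (h : IsQ p q) (hF : Fintype.card F = q) (hq : 3 ≤ q) {s : List ℕ}
    (hs : ∀ a ∈ s, 1 ≤ a) {f : (LaurentSeries F)[X]} (hf : TelF q th s f) :
    (q - 1) * f.natDegree = s.sum := by
  cases s with
  | nil =>
    have h1 : f = 1 := hf
    rw [h1, natDegree_one, mul_zero, List.sum_nil]
  | cons a t =>
    obtain ⟨B, K, hI⟩ := tel_inv h hF hq hs (by simp) hf
    exact hI.deg

theorem pair_bounds (hq : 2 ≤ q) {a b : ℕ} {t : List ℕ} {f g : (LaurentSeries F)[X]} {B K : ℕ}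
    (hI : Inv p q (b :: t) g B K) (hI' : Inv p q (a :: b :: t) f B K) :
    (q - 1) * a ≤ b ∧ b ≤ (q ^ 2 - 1) * a := by
  have h1 := hI.head b t rfl
  have h2 := hI'.head a (b :: t) rfl
  have h3 := hI'.wK
  have h4 := hI.top
  have h5 := hI.tl b t rfl
  rw [List.length_cons] at h1 h4
  rw [List.length_cons, List.length_cons] at h2
  rw [List.sum_cons, List.sum_cons] at h3
  rw [List.sum_cons] at h4
  have hpos : 0 < q ^ t.length := pow_pos (by omega) _
  have hpos1 : 0 < q ^ (t.length + 1) := pow_pos (by omega) _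
  constructor
  · -- `q^(l+1) a ≤ K`
    have h6 : q ^ (t.length + 1) * a ≤ K := by
      refine le_trans (Nat.mul_le_mul_left _ ?_) h4
      omega
    have h7 : q ^ (t.length + 1) * ((q - 1) * a) ≤ q ^ (t.length + 1) * b := by
      calc q ^ (t.length + 1) * ((q - 1) * a) = (q - 1) * (q ^ (t.length + 1) * a) := by ring
        _ ≤ (q - 1) * K := Nat.mul_le_mul_left _ h6
        _ ≤ _ := h1
    exact Nat.le_of_mul_le_mul_left h7 hpos1
  · have h6 : q ^ t.length * (a + b) ≤ K := by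
      refine le_trans (Nat.mul_le_mul_left _ ?_) h5
      omega
    have h7 : q ^ t.length * ((q - 1) * (a + b)) ≤ q ^ t.length * (q ^ 2 * a) := by
      calc q ^ t.length * ((q - 1) * (a + b)) = (q - 1) * (q ^ t.length * (a + b)) := by ring
        _ ≤ (q - 1) * K := Nat.mul_le_mul_left _ h6
        _ ≤ q ^ (t.length + 1 + 1) * a := h2
        _ = q ^ t.length * (q ^ 2 * a) := by ring
    have h8 := Nat.le_of_mul_le_mul_left h7 hpos
    have h9 : a + b ≤ q ^ 2 * a := by
      refine le_trans ?_ h8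
      calc a + b = 1 * (a + b) := (one_mul _).symm
        _ ≤ (q - 1) * (a + b) := Nat.mul_le_mul_right _ (by omega)
    rw [Nat.sub_mul, one_mul]
    omega

theorem tel_bounds (h : IsQ p q) (hF : Fintype.card F = q) (hq : 3 ≤ q) {a b : ℕ} {t : List ℕ}
    (hs : ∀ x ∈ a :: b :: t, 1 ≤ x) {f : (LaurentSeries F)[X]} (hf : TelF q th (a :: b :: t) f) :
    (q - 1) * a ≤ b ∧ b ≤ (q ^ 2 - 1) * a := by
  obtain ⟨g, hg, hfg⟩ := hf
  obtain ⟨B, K, hI⟩ := tel_inv h hF hq (fun x hx => hs x (List.mem_cons_of_mem _ hx)) (by simp) hg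
  have hI' := inv_step h hF hq (hs a List.mem_cons_self) hI (by rw [List.length_cons]; omega) hfg
  exact pair_bounds (by omega) hI hI'

end Pool.Agent.ZQ
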