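import Pool.Agent.Work.MP_43901b_nt.DigB

/-!
# LemO (M): a digit lemma for `a/(q-1)`

`q = p^e ≥ 3`, `a ≥ 1`, `q - 1 ∤ a`.  There is `m₁` with `a ≤ (q-1) m₁`, `m₁ ≤ a`, (`q m₁ ≤ (q-1) a` or
`m₁` is a power of `p`), such that `p ∤ binom(A, m₁)` for every `A` with `(q-1) A ≡ a mod p^v`,
`p^v > a`.  Strong induction on `a`.

Let `p^u ≤ a < p^(u+1)`.  Let `A₀ < p^u` be the solution of `(q-1) A₀ ≡ a mod p^u` (`q-1` is prime to
`p`); so `A % p^u = A₀` for all the `A` in question (`v ≥ u+1`), and `(q-1) A₀ - a = κ p^u` with an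
integer `κ ≠ 0` (`q-1 ∤ a`).

Case `κ ≥ 1`: `m₁ = A₀`.  `(q-1) m₁ > a`; `p ∤ binom(A, A₀)`: `luc` with `s = u`: `A = A₀ + p^u B`,
`binom(A₀, A₀) binom(B, 0) = 1`.  `(q-1) m₁ = a + κ p^u ≤ (q-1)(p^u - 1)` and `a ≥ p^u` give
`κ p^u ≤ (q-1)(p^u-1) - a < (q-2) p^u`, `κ ≤ q-3`, so `(q-1) m₁ ≤ a + (q-3) p^u ≤ (q-2) a` and
`q (q-1) m₁ ≤ q (q-2) a ≤ (q-1)^2 a`, i.e. `q m₁ ≤ (q-1) a` (also `m₁ ≤ a`).

Case `κ = -i`, `i ≥ 1`: `a = (q-1) A₀ + i p^u`, so `1 ≤ i ≤ p - 1` (`a < p^(u+1)`).  For `A` as above,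
`A = A₀ + p^u B`: `(q-1) p^u B ≡ i p^u mod p^v`, so `(q-1) B ≡ i mod p` (`v ≥ u+1`), `B ≡ -i`, so `p ∤ B`.
(a) `a ≤ (q-1) p^u`: `m₁ = p^u ≤ a`: `luc` with `s = u`, `M = 0`, `N = 1`: `binom(A₀,0) binom(B,1) = B`.
(b) `a > (q-1) p^u`: as `a < p^(u+1)`, `q - 1 < p`, so `q = p`; `a = (q-1) q^u + a₁`, `0 < a₁ < q^u`,
`q-1 ∤ a₁`.  Induction hypothesis for `a₁`: `m⁽¹⁾`; `m⁽¹⁾ ≤ a₁ < q^u`.  `m₁ = q^u + m⁽¹⁾`.
`(q-1) m₁ ≥ (q-1) q^u + a₁ = a`; `m₁ ≤ a`.  `luc` with `s = u`, `M = m⁽¹⁾`, `N = 1`: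
`binom(A₀, m⁽¹⁾) B`, and `p ∤ binom(A₀, m⁽¹⁾)` by the induction hypothesis, applied to `A₀` with `v = u`:
`(q-1) A₀ ≡ a ≡ a₁ mod q^u` (`(q-1) A₀ = a - i q^u`), `q^u > a₁`.
`q m₁ ≤ (q-1) a`: `q^(u+1) + q m⁽¹⁾ ≤ (q-1)^2 q^u + (q-1) a₁`: if `q m⁽¹⁾ ≤ (q-1) a₁` because
`q ≤ (q-1)^2`; otherwise `m⁽¹⁾ ≤ a₁`, `q m⁽¹⁾ ≤ (q-1) a₁ + a₁`, `a₁ < q^u ≤ ((q-1)^2 - q) q^u`
(`q ≥ 3`).
-/

namespace Pool.Agent.ZQ

theorem lemmaO {p q : ℕ} (h : IsQ p q) (hq : 3 ≤ q) {a : ℕ} (ha : 1 ≤ a) (hd : ¬ (q - 1) ∣ a) :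
    ∃ m₁, a ≤ (q - 1) * m₁ ∧ m₁ ≤ a ∧ (q * m₁ ≤ (q - 1) * a ∨ ∃ u, m₁ = p ^ u) ∧
      ∀ A v, a < p ^ v → (q - 1) * A ≡ a [MOD p ^ v] → ¬ p ∣ A.choose m₁ := by
  induction a using Nat.strong_induction_on with
  | _ a ih =>
    have hp := h.prime
    have hp2 := hp.two_le
    have hpq := h.p_le
    obtain ⟨e, he, hqe⟩ := h.pow
    set u := Nat.log p a with hu
    have hu1 : p ^ u ≤ a := Nat.pow_log_le_self p (by omega)
    have hu2 : a < p ^ (u + 1) := Nat.lt_pow_succ_log_self (by omega) a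
    have hpu : 0 < p ^ u := Nat.pow_pos (by omega)
    -- `q - 1` is prime to `p`
    have hcop1 : Nat.Coprime (q - 1) p := by
      rw [Nat.coprime_comm, hp.coprime_iff_not_dvd]
      intro h1
      have h2 : p ∣ q - (q - 1) := Nat.dvd_sub h.dvd h1
      have h3 : q - (q - 1) = 1 := by omega
      rw [h3] at h2
      exact hp.one_lt.ne' (Nat.dvd_one.1 h2)
    have hcop : Nat.Coprime (q - 1) (p ^ u) := hcop1.pow_right u
    obtain ⟨A₀, hA0, hA0m⟩ : ∃ A₀, A₀ < p ^ u ∧ (q - 1) * A₀ ≡ a [MOD p ^ u] := by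
      obtain ⟨x, -, hx⟩ := Nat.exists_mul_mod_eq_of_coprime a hcop hpu.ne'
      refine ⟨x % p ^ u, Nat.mod_lt _ hpu, ?_⟩
      calc (q - 1) * (x % p ^ u) ≡ (q - 1) * x [MOD p ^ u] :=
            Nat.ModEq.mul_left _ (Nat.mod_modEq _ _)
        _ ≡ a [MOD p ^ u] := hx
    -- the residue of `A`
    have hdec : ∀ A v, a < p ^ v → (q - 1) * A ≡ a [MOD p ^ v] →
        ∃ B, A = A₀ + p ^ u * B ∧ (q - 1) * A ≡ a [MOD p ^ (u + 1)] := by
      intro A v hv hA
      have huv : u + 1 ≤ v := by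
        by_contra hcon
        have : p ^ v ≤ p ^ u := Nat.pow_le_pow_right (by omega) (by omega)
        omega
      have h1 : (q - 1) * A ≡ a [MOD p ^ (u + 1)] := hA.of_dvd (pow_dvd_pow p huv)
      have h2 : (q - 1) * A ≡ a [MOD p ^ u] := hA.of_dvd (pow_dvd_pow p (by omega))
      have h3 : A ≡ A₀ [MOD p ^ u] :=
        Nat.ModEq.cancel_left_of_coprime (by rwa [Nat.coprime_comm] at hcop) (h2.trans hA0m.symm)
      refine ⟨A / p ^ u, ?_, h1⟩
      have h4 : A % p ^ u = A₀ := by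
        have := h3
        unfold Nat.ModEq at this
        rwa [Nat.mod_eq_of_lt hA0] at this
      rw [← h4]
      exact (Nat.mod_add_div A (p ^ u)).symm
    rcases lt_or_ge a ((q - 1) * A₀) with hlt | hge
    · -- case `κ ≥ 1`
      refine ⟨A₀, hlt.le, by omega, Or.inl ?_, ?_⟩
      · have h1 : p ^ u ∣ (q - 1) * A₀ - a := (Nat.modEq_iff_dvd' hlt.le).1 hA0m.symm
        obtain ⟨κ, hκ⟩ := h1
        obtain ⟨m, rfl⟩ : ∃ m, q = m + 3 := ⟨q - 3, by omega⟩
        have e1 : m + 3 - 1 = m + 2 := by omega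
        rw [e1] at hκ hlt ⊢
        have h2 : (m + 2) * A₀ = a + p ^ u * κ := by omega
        have h3 : κ < m + 1 := by
          by_contra hcon
          have h4 : p ^ u * (m + 1) ≤ p ^ u * κ := Nat.mul_le_mul_left _ (by omega)
          have h5 : (m + 2) * (A₀ + 1) ≤ (m + 2) * p ^ u := Nat.mul_le_mul_left _ hA0
          nlinarith
        have h4 : (m + 2) * A₀ ≤ (m + 1) * a := by
          have h5 : p ^ u * κ ≤ a * m := Nat.mul_le_mul hu1 (by omega)
          rw [h2]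
          nlinarith
        have h6 : (m + 2) * ((m + 3) * A₀) ≤ (m + 2) * ((m + 2) * a) := by
          calc (m + 2) * ((m + 3) * A₀) = (m + 3) * ((m + 2) * A₀) := by ring
            _ ≤ (m + 3) * ((m + 1) * a) := Nat.mul_le_mul_left _ h4
            _ ≤ (m + 2) * ((m + 2) * a) := by nlinarith
        exact Nat.le_of_mul_le_mul_left h6 (by omega)
      · intro A v hv hA
        obtain ⟨B, rfl, -⟩ := hdec A v hv hA
        have h1 := luc hp (s := u) (A := A₀) (B := B) (M := A₀) (N := 0) hA0 hA0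
        rw [mul_zero, add_zero, Nat.choose_self, Nat.choose_zero_right, or_self] at h1
        rw [h1]
        exact fun h2 => hp.one_lt.ne' (Nat.dvd_one.1 h2)
    · -- case `κ = - i`
      have h1 : p ^ u ∣ a - (q - 1) * A₀ := (Nat.modEq_iff_dvd' hge).1 hA0m
      obtain ⟨i, hi⟩ := h1
      have ha' : a = (q - 1) * A₀ + p ^ u * i := by omega
      have hi1 : 1 ≤ i := by
        by_contra hcon
        have : i = 0 := by omega
        subst this
        apply hd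
        rw [ha', mul_zero, add_zero]
        exact dvd_mul_right _ _
      have hip : i < p := by
        by_contra hcon
        have h2 : p ^ u * p ≤ p ^ u * i := Nat.mul_le_mul_left _ (by omega)
        rw [pow_succ] at hu2
        omega
      have hB : ∀ B, (q - 1) * (A₀ + p ^ u * B) ≡ a [MOD p ^ (u + 1)] → ¬ p ∣ B := by
        intro B hB hpB
        rw [ha', mul_add] at hB
        have h2 : (q - 1) * (p ^ u * B) ≡ p ^ u * i [MOD p ^ (u + 1)] :=
          Nat.ModEq.add_left_cancel' _ hB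
        have h3 : p ^ u * ((q - 1) * B) ≡ p ^ u * i [MOD p ^ u * p] := by
          rw [← pow_succ, mul_left_comm]
          exact h2
        have h4 : (q - 1) * B ≡ i [MOD p] := Nat.ModEq.mul_left_cancel' hpu.ne' h3
        have h5 : p ∣ i := (Nat.ModEq.dvd_iff h4 dvd_rfl).1 (Dvd.dvd.mul_left hpB _)
        exact absurd (Nat.le_of_dvd (by omega) h5) (by omega)
      rcases Nat.lt_or_ge ((q - 1) * p ^ u) a with hb | hb
      · -- (b)
        have hqp : q = p := by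
          have h2 : (q - 1) * p ^ u < p * p ^ u := by
            rw [pow_succ, mul_comm] at hu2
            omega
          have h3 : q - 1 < p := Nat.lt_of_mul_lt_mul_right h2
          omega
        obtain ⟨a₁, ha₁⟩ : ∃ a₁, a = (q - 1) * p ^ u + a₁ := ⟨a - (q - 1) * p ^ u, by omega⟩
        have ha₁0 : 1 ≤ a₁ := by omega
        have ha₁u : a₁ < p ^ u := by
          rw [pow_succ, mul_comm] at hu2
          have : p * p ^ u = (q - 1) * p ^ u + p ^ u := by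
            rw [← hqp]
            obtain ⟨m, hm⟩ : ∃ m, q = m + 1 := ⟨q - 1, by omega⟩
            rw [hm, Nat.add_sub_cancel]
            ring
          omega
        have hd₁ : ¬ (q - 1) ∣ a₁ := fun h2 => hd (ha₁ ▸ dvd_add (dvd_mul_right _ _) h2)
        have hlt : a₁ < a := by omega
        obtain ⟨m, hm1, hm2, -, hm4⟩ := ih a₁ hlt ha₁0 hd₁
        refine ⟨m + p ^ u, ?_, ?_, Or.inl ?_, ?_⟩
        · rw [ha₁, mul_add]
          omega
        · have : p ^ u ≤ (q - 1) * p ^ u := Nat.le_mul_of_pos_left _ (by omega)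
          omega
        · rw [ha₁]
          obtain ⟨n, rfl⟩ : ∃ n, q = n + 3 := ⟨q - 3, by omega⟩
          have e1 : n + 3 - 1 = n + 2 := by omega
          rw [e1]
          have h5 : (n + 3) * m ≤ (n + 3) * a₁ := Nat.mul_le_mul_left _ hm2
          nlinarith [Nat.zero_le (n * n * p ^ u), Nat.zero_le (n * p ^ u)]
        · intro A v hv hA
          obtain ⟨B, rfl, hB'⟩ := hdec A v hv hA
          have hm : m < p ^ u := by omega
          have h1 := luc hp (s := u) (A := A₀) (B := B) (M := m) (N := 1) hA0 hm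
          rw [mul_one, Nat.choose_one_right] at h1
          rw [h1]
          rintro (h2 | h2)
          · refine hm4 A₀ u ha₁u ?_ h2
            calc (q - 1) * A₀ ≡ a [MOD p ^ u] := hA0m
              _ ≡ a₁ [MOD p ^ u] := by
                rw [ha₁]
                have : (q - 1) * p ^ u + a₁ ≡ 0 + a₁ [MOD p ^ u] :=
                  Nat.ModEq.add_right _ ((Nat.modEq_zero_iff_dvd).2 (dvd_mul_left _ _))
                rwa [zero_add] at this
          · exact hB B hB' h2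
      · -- (a)
        refine ⟨p ^ u, hb, hu1, Or.inr ⟨u, rfl⟩, ?_⟩
        intro A v hv hA
        obtain ⟨B, rfl, hB'⟩ := hdec A v hv hA
        have h1 := luc hp (s := u) (A := A₀) (B := B) (M := 0) (N := 1) hA0 hpu
        rw [mul_one, zero_add, Nat.choose_one_right, Nat.choose_zero_right] at h1
        rw [h1]
        rintro (h2 | h2)
        · exact hp.one_lt.ne' (Nat.dvd_one.1 h2)
        · exact hB B hB' h2

end Pool.Agent.ZQ
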