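import Pool.Agent.Work.MP_43901b_nt.Base

/-!
# OddG (M): `(X-1)^m ∣ G^(q-1) - X^a` with `(q-1) deg G ≤ a-1` implies `m ≤ m₁`

`F` has `q` elements.  Suppose the multiplicity of 1 in `G^(q-1) - X^a` (nonzero: otherwise
`(q-1) natDegree G = a`) is `> m₁`, so `N := (X-1)^(m₁+1)` divides it.  `G(1)^(q-1) = 1`, so `G(1) ≠ 0`.
Multiply by `G`: `N ∣ G^q - X^a G = expand q G - X^a G` (`FiniteField.expand_card`).
Iterate: `N ∣ expand (q^n) G - X^(a(1+q+...+q^(n-1))) G` (apply `expand (q^i)`; `(X-1) ∣ X^(q^i)-1 =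
expand (q^i) (X-1)`).  Choose `n` with `q^n > a` and `q^n > m₁`.  `expand (q^n) G ≡ C (G(1))` modulo
`X^(q^n) - 1 = (X-1)^(q^n)`, which is divisible by `N`.  With `M' = a(1+q+...+q^(n-1))`, `(q-1) M' =
a (q^n - 1)`, `A = a q^n - M'`: `X^(A+M') = X^(a q^n) ≡ 1`, so `N ∣ C (G(1)) X^A - G`.
`(q-1) A = (q-1) a q^n - a (q^n - 1) = a (q-2) q^n + a ≡ a mod q^n`, `q^n = p^v > a`: by `h2`
`p ∤ binom(A, m₁)`.  Coefficient of `(X-1)^(m₁)` (`Polynomial.taylor 1`): `G(1) binom(A, m₁) ≠ 0` for the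
first polynomial and `0` for `G` (`natDegree G < m₁` as `(q-1) natDegree G ≤ a-1 < (q-1) m₁`): but `N`
divides the difference, contradiction.
-/

namespace Pool.Agent.ZQ

open Polynomial Finset

variable {F : Type*} [Field F] [Fintype F] {p q : ℕ} [CharP F p]

omit [Fintype F] in
private theorem oddG_Xsub (h : IsQ p q) (n : ℕ) : (X - C (1 : F)) ^ q ^ n = X ^ q ^ n - 1 := by
  have h1 := sub_pow_q h (X : F[X]) (C 1) n
  rw [h1, ← C_pow, one_pow, C_1]

omit [Fintype F] [CharP F p] in
private theorem oddG_dvd_expand (m N : ℕ) (hm : 0 < m) :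
    (X - C (1 : F)) ^ N ∣ expand F m ((X - C (1 : F)) ^ N) := by
  rw [map_pow]
  refine pow_dvd_pow_of_dvd ?_ N
  rw [map_sub, expand_X, expand_C, dvd_iff_isRoot]
  simp

theorem odd_G (h : IsQ p q) (hF : Fintype.card F = q) {a : ℕ} (ha : 1 ≤ a)
    {G : F[X]} (hG : (q - 1) * G.natDegree ≤ a - 1) {m₁ : ℕ} (h1 : a ≤ (q - 1) * m₁)
    (h2 : ∀ A v, a < p ^ v → (q - 1) * A ≡ a [MOD p ^ v] → ¬ p ∣ A.choose m₁) :
    (G ^ (q - 1) - X ^ a).rootMultiplicity 1 ≤ m₁ := by
  have hq := h.two_le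
  by_contra hcon
  push Not at hcon
  by_cases hP : G ^ (q - 1) - X ^ a = 0
  · rw [hP, rootMultiplicity_zero] at hcon
    omega
  have hN : (X - C (1 : F)) ^ (m₁ + 1) ∣ G ^ (q - 1) - X ^ a :=
    (le_rootMultiplicity_iff hP).1 hcon
  set N : F[X] := (X - C (1 : F)) ^ (m₁ + 1) with hNdef
  -- the value at 1
  have hG1 : G.eval 1 ≠ 0 := by
    intro h0
    have h3 : (X - C (1 : F)) ∣ G ^ (q - 1) - X ^ a := (dvd_pow_self _ (by omega)).trans hN
    rw [dvd_iff_isRoot, IsRoot.def, eval_sub, eval_pow, eval_pow, eval_X, one_pow, h0,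
      zero_pow (by omega)] at h3
    norm_num at h3
  have hstep : N ∣ expand F q G - X ^ a * G := by
    have h3 : expand F q G = G ^ q := by
      subst hF
      exact FiniteField.expand_card G
    have h4 : expand F q G - X ^ a * G = (G ^ (q - 1) - X ^ a) * G := by
      rw [h3, sub_mul, ← pow_succ, Nat.sub_add_cancel (by omega)]
    rw [h4]
    exact hN.mul_right _
  have hiter : ∀ n : ℕ, N ∣ expand F (q ^ n) G - X ^ (a * ∑ i ∈ range n, q ^ i) * G := by
    intro n
    induction n with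
    | zero => simp
    | succ n ih =>
      have h3 : N ∣ expand F q (expand F (q ^ n) G - X ^ (a * ∑ i ∈ range n, q ^ i) * G) := by
        refine (oddG_dvd_expand q (m₁ + 1) (by omega)).trans ?_
        obtain ⟨g, hg⟩ := ih
        rw [hg, map_mul]
        exact Dvd.intro _ rfl
      have h4 : expand F (q ^ (n + 1)) G - X ^ (a * ∑ i ∈ range (n + 1), q ^ i) * G =
          expand F q (expand F (q ^ n) G - X ^ (a * ∑ i ∈ range n, q ^ i) * G) +
          X ^ (q * (a * ∑ i ∈ range n, q ^ i)) * (expand F q G - X ^ a * G) := by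
        have e1 : ∑ i ∈ range (n + 1), q ^ i = 1 + q * ∑ i ∈ range n, q ^ i := by
          rw [sum_range_succ', pow_zero, add_comm, mul_sum]
          congr 1
          exact sum_congr rfl fun i _ => by ring
        have e2 : expand F q (expand F (q ^ n) G) = expand F (q ^ (n + 1)) G := by
          rw [expand_expand, pow_succ']
        rw [map_sub, map_mul, map_pow, expand_X, e2, e1, ← pow_mul]
        ring
      rw [h4]
      exact dvd_add h3 (hstep.mul_left _)
  set n := a + m₁ + 1 with hn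
  have hqn : n < q ^ n := Nat.lt_pow_self (by omega)
  obtain ⟨e, he, hpow⟩ := h.pow_eq
  have hNX : N ∣ X ^ q ^ n - 1 := by
    rw [← oddG_Xsub h n]
    exact pow_dvd_pow _ (by omega)
  -- `expand (q^n) G ≡ G(1)`
  have h5 : N ∣ expand F (q ^ n) G - C (G.eval 1) := by
    have h6 : (X - C (1 : F)) ∣ G - C (G.eval 1) := X_sub_C_dvd_sub_C_eval
    obtain ⟨g, hg⟩ := h6
    have h7 := congrArg (expand F (q ^ n)) hg
    rw [map_sub, map_mul, map_sub, expand_C, expand_X, expand_C, C_1] at h7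
    rw [h7]
    exact hNX.mul_right _
  set S := ∑ i ∈ range n, q ^ i with hS
  have hSq : (q - 1) * S = q ^ n - 1 := by
    have e12 : (q - 1) * S + 1 = q ^ n := by
      rw [hS]
      clear_value n
      clear hS hn hqn hNX h5 S
      induction n with
      | zero => simp
      | succ n ih =>
        rw [sum_range_succ, mul_add, add_right_comm, ih, pow_succ]
        obtain ⟨r, rfl⟩ : ∃ r, q = r + 1 := ⟨q - 1, by omega⟩
        rw [Nat.add_sub_cancel]
        ring
    omega
  have h8 : N ∣ C (G.eval 1) - X ^ (a * S) * G := by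
    have h9 := dvd_sub (hiter n) h5
    have e3 : expand F (q ^ n) G - X ^ (a * S) * G - (expand F (q ^ n) G - C (G.eval 1)) =
      C (G.eval 1) - X ^ (a * S) * G := by ring
    rwa [e3] at h9
  have hSle : S ≤ q ^ n := by
    have : S ≤ (q - 1) * S := Nat.le_mul_of_pos_left _ (by omega)
    omega
  obtain ⟨A, hA⟩ : ∃ A, a * q ^ n = A + a * S :=
    ⟨a * q ^ n - a * S, by have := Nat.mul_le_mul_left a hSle; omega⟩
  have h10 : N ∣ C (G.eval 1) * X ^ A - G := by
    have h11 := (h8.mul_left (X ^ A))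
    have h12 : N ∣ (X ^ (a * q ^ n) - 1) * G := by
      refine Dvd.dvd.mul_right ?_ _
      refine hNX.trans ?_
      rw [mul_comm, pow_mul]
      have := sub_dvd_pow_sub_pow (X ^ q ^ n : F[X]) 1 a
      rwa [one_pow] at this
    have h13 := dvd_add h11 h12
    have e4 : X ^ A * (C (G.eval 1) - X ^ (a * S) * G) + (X ^ (a * q ^ n) - 1) * G =
        C (G.eval 1) * X ^ A - G := by
      rw [hA, pow_add]
      ring
    rwa [e4] at h13
  -- the congruence for `A`
  have hmod : (q - 1) * A ≡ a [MOD p ^ (e * n)] := by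
    have e5 : (q - 1) * A + a * (q ^ n - 1) = (q - 1) * (a * q ^ n) := by
      rw [hA, mul_add, ← hSq]
      ring
    have e6 : (q - 1) * A + a * q ^ n = a + q ^ n * ((q - 1) * a) := by
      have e7 : a * (q ^ n - 1) + a = a * q ^ n := by
        rw [← Nat.mul_succ]
        congr 1
        omega
      have e8 : (q - 1) * (a * q ^ n) = q ^ n * ((q - 1) * a) := by ring
      omega
    rw [← hpow n]
    have e9 : (q - 1) * A + a * q ^ n ≡ (q - 1) * A [MOD q ^ n] := by
      have := Nat.ModEq.add_left ((q - 1) * A)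
        ((Nat.modEq_zero_iff_dvd (n := q ^ n)).2 (Dvd.intro_left a rfl))
      simpa using this
    have e10 : a + q ^ n * ((q - 1) * a) ≡ a [MOD q ^ n] := by
      have := Nat.ModEq.add_left a
        ((Nat.modEq_zero_iff_dvd (n := q ^ n)).2 (Dvd.intro ((q - 1) * a) rfl))
      simpa using this
    rw [e6] at e9
    exact e9.symm.trans e10
  have hch := h2 A (e * n) (by rw [← hpow n]; omega) hmod
  -- the coefficient
  have h14 : (X : F[X]) ^ (m₁ + 1) ∣ taylor 1 (C (G.eval 1) * X ^ A - G) := by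
    obtain ⟨g, hg⟩ := h10
    rw [hg]
    have e11 : taylor (1 : F) (N * g) = X ^ (m₁ + 1) * taylor 1 g := by
      rw [taylor_mul, hNdef, taylor_pow, map_sub, taylor_X, taylor_C, add_sub_cancel_right]
    rw [e11]
    exact Dvd.intro _ rfl
  have h15 := (X_pow_dvd_iff.1 h14) m₁ (by omega)
  have h16 : (taylor (1 : F) G).coeff m₁ = 0 := by
    apply coeff_eq_zero_of_natDegree_lt
    rw [natDegree_taylor]
    by_contra hlt
    push Not at hlt
    have := Nat.mul_le_mul_left (q - 1) hlt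
    omega
  have h17 : taylor (1 : F) (C (G.eval 1) * X ^ A - G) =
      C (G.eval 1) * (X + 1) ^ A - taylor 1 G := by
    rw [map_sub, taylor_mul, taylor_C, taylor_pow, taylor_X, C_1]
  rw [h17, coeff_sub, h16, sub_zero, coeff_C_mul, coeff_X_add_one_pow] at h15
  rcases mul_eq_zero.1 h15 with h18 | h18
  · exact hG1 h18
  · exact hch ((CharP.cast_eq_zero_iff F p _).1 h18)

end Pool.Agent.ZQ
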