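import Pool.Agent.Work.MP_43901b_nt.OddC
import Pool.Agent.Work.MP_43901b_nt.OddG
import Pool.Agent.Work.MP_43901b_nt.LemO
import Pool.Agent.Work.MP_43901b_nt.InvS

/-!
# OddF (S-M): the bounds in the odd case

`d = s.length`, `s = b :: t`.
`odd_K`: `K ≤ q^(d+1) a`.  By `odd_cases`: Case 1: `(q-1)((q-1)B+1) ≤ q^(d+1) (a-1)`, and
`K ≤ q B ≤ (q-1)^2 B` (`q ≥ 3`).  Case 2: `m₁` from `lemmaO`, `odd_G`: `(q-1) B + 1 ≤ q^(d+1) m₁`.
If `q m₁ ≤ (q-1) a`: `q ((q-1)B+1) ≤ q^(d+1) (q-1) a`, `(q-1) K ≤ (q-1) q B ≤ q^(d+1) (q-1) a`.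
If `m₁ = p^u`: `(q-1)B+1 ≤ q (q^d p^u)` and `q^d p^u` is a power of `p`: `kP`: `K ≤ q^(d+1) p^u`, and
`m₁ ≤ a`.
`odd_bounds`: lower bound: `a ≤ K - s.sum` (`odd_wK`), `q^d (K - s.sum) ≤ K` (`top`): `q^d a ≤ K`;
`(q-1) K ≤ q^d b` (`head`); so `(q-1) a ≤ b`.  Upper bound: `tl`: `q^(d-1) (K - t.sum) ≤ K`,
`a + b ≤ K - t.sum`: `q^(d-1)(a+b) ≤ K ≤ q^(d+1) a`, so `a + b ≤ q^2 a`.
`like_bounds`: if `c = 0`: `TelF q th (a :: b :: t) f`, `tel_bounds`.  If `q - 1 ∣ a`: `q-1 ∣ w = a + (b::t).sum`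
(`tel_T1`), so with `f' = f + C c * Fb q th w` (`Fb_eq`, `gen_th`) the terms with `P_w` cancel and
`TelF q th (a :: b :: t) f'` (the equation is linear; `expand (C c * ..) = C c * expand ..`), `tel_bounds`.
Otherwise `OddEq` with `B`, `K` from `tel_inv`, `odd_bounds`.
-/

namespace Pool.Agent.ZQ

open Polynomial Finset

variable {F : Type*} [Field F] [Fintype F] {p q : ℕ} [CharP F p]

private theorem odd_K (h : IsQ p q) (hF : Fintype.card F = q) (hq : 3 ≤ q) {a b : ℕ} {t : List ℕ}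
    {f g : (LaurentSeries F)[X]} {c : LaurentSeries F} {B K : ℕ}
    (ho : OddEq p q a (b :: t) f g c B K) : K ≤ q ^ (t.length + 2) * a := by
  obtain ⟨r, rfl⟩ : ∃ r, q = r + 3 := ⟨q - 3, by omega⟩
  have hr : r + 3 - 1 = r + 2 := by omega
  have hkB := ho.inv.kB
  have hcases := odd_cases h hF hq ho (by simp)
  have hlen : (b :: t).length + 1 = t.length + 2 := by simp
  rw [hlen, hr] at hcases
  rcases hcases with h1 | ⟨G, hG1, hG2⟩
  · have h2 : (r + 3) ^ (t.length + 2) * (a - 1) ≤ (r + 3) ^ (t.length + 2) * a :=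
      Nat.mul_le_mul_left _ (Nat.sub_le _ _)
    nlinarith [Nat.zero_le B, Nat.zero_le r, Nat.zero_le (r * B), Nat.zero_le (r * r * B)]
  · obtain ⟨m₁, hm1, hm2, hm3, hm4⟩ := lemmaO h hq ho.ha ho.hd
    rw [hr] at hm3
    have hmult := odd_G h hF ho.ha (by rw [hr]; exact hG1) hm1 hm4
    rw [hr] at hmult
    have h3 : (r + 2) * B + 1 ≤ (r + 3) ^ (t.length + 2) * m₁ :=
      hG2.trans (Nat.mul_le_mul_left _ hmult)
    rcases hm3 with h4 | ⟨u, rfl⟩
    · have h5 : (r + 3) ^ (t.length + 2) * ((r + 3) * m₁) ≤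
          (r + 3) ^ (t.length + 2) * ((r + 2) * a) := Nat.mul_le_mul_left _ h4
      have h6 : (r + 3) * ((r + 2) * B + 1) ≤ (r + 3) * ((r + 3) ^ (t.length + 2) * m₁) :=
        Nat.mul_le_mul_left _ h3
      have h7 : (r + 2) * K ≤ (r + 2) * ((r + 3) * B) := Nat.mul_le_mul_left _ hkB
      have h8 : (r + 2) * K ≤ (r + 2) * ((r + 3) ^ (t.length + 2) * a) := by
        calc (r + 2) * K ≤ (r + 2) * ((r + 3) * B) := h7
          _ ≤ (r + 3) * ((r + 2) * B + 1) := by nlinarith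
          _ ≤ (r + 3) * ((r + 3) ^ (t.length + 2) * m₁) := h6
          _ = (r + 3) ^ (t.length + 2) * ((r + 3) * m₁) := by ring
          _ ≤ (r + 3) ^ (t.length + 2) * ((r + 2) * a) := h5
          _ = (r + 2) * ((r + 3) ^ (t.length + 2) * a) := by ring
      exact Nat.le_of_mul_le_mul_left h8 (by omega)
    · obtain ⟨e, he, hpow⟩ := h.pow_eq
      have h5 : (r + 3) ^ (t.length + 2) * p ^ u =
          (r + 3) * p ^ (e * (t.length + 1) + u) := by
        rw [pow_add p, ← hpow, show t.length + 2 = (t.length + 1) + 1 by ring, pow_succ]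
        ring
      have h6 := ho.inv.kP (e * (t.length + 1) + u) (by rw [hr, ← h5]; exact h3)
      rw [← h5] at h6
      exact h6.trans (Nat.mul_le_mul_left _ hm2)

theorem odd_bounds (h : IsQ p q) (hF : Fintype.card F = q) (hq : 3 ≤ q) {a b : ℕ} {t : List ℕ}
    {f g : (LaurentSeries F)[X]} {c : LaurentSeries F} {B K : ℕ}
    (ho : OddEq p q a (b :: t) f g c B K) : (q - 1) * a ≤ b ∧ b ≤ (q ^ 2 - 1) * a := by
  have hK := odd_K h hF hq ho
  have hwK := odd_wK h ho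
  have htop := ho.inv.top
  have hhead := ho.inv.head b t rfl
  have htl := ho.inv.tl b t rfl
  rw [List.sum_cons] at hwK htop
  rw [List.length_cons] at htop hhead
  have hq0 : 0 < q := by omega
  constructor
  · have h1 : a ≤ K - (b + t.sum) := by omega
    have h2 : q ^ (t.length + 1) * a ≤ K := (Nat.mul_le_mul_left _ h1).trans htop
    have h3 : q ^ (t.length + 1) * ((q - 1) * a) ≤ q ^ (t.length + 1) * b := by
      calc q ^ (t.length + 1) * ((q - 1) * a) = (q - 1) * (q ^ (t.length + 1) * a) := by ring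
        _ ≤ (q - 1) * K := Nat.mul_le_mul_left _ h2
        _ ≤ q ^ (t.length + 1) * b := hhead
    exact Nat.le_of_mul_le_mul_left h3 (pow_pos hq0 _)
  · have h1 : a + b ≤ K - t.sum := by omega
    have h2 : q ^ t.length * (a + b) ≤ q ^ t.length * (q ^ 2 * a) := by
      calc q ^ t.length * (a + b) ≤ q ^ t.length * (K - t.sum) := Nat.mul_le_mul_left _ h1
        _ ≤ K := htl
        _ ≤ q ^ (t.length + 2) * a := hK
        _ = q ^ t.length * (q ^ 2 * a) := by rw [pow_add]; ring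
    have h3 : a + b ≤ q ^ 2 * a := Nat.le_of_mul_le_mul_left h2 (pow_pos hq0 _)
    rw [Nat.sub_mul, one_mul]
    omega

/-- Both cases together: `t` telescopes and `[w]` is subtracted with a constant `c`. -/
theorem like_bounds (h : IsQ p q) (hF : Fintype.card F = q) (hq : 3 ≤ q) {a b : ℕ} {t : List ℕ}
    (hs : ∀ x ∈ a :: b :: t, 1 ≤ x) {f g : (LaurentSeries F)[X]} {c : LaurentSeries F}
    (hg : TelF q th (b :: t) g) (hf : expand _ q f = (C th - X) ^ (a + (b :: t).sum) * f +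
      Pp q th a * ((C th - X) ^ (b :: t).sum * g) - C c * Pp q th (a + (b :: t).sum)) :
    (q - 1) * a ≤ b ∧ b ≤ (q ^ 2 - 1) * a := by
  have hst : ∀ x ∈ b :: t, 1 ≤ x := fun x hx => hs x (List.mem_cons_of_mem _ hx)
  have ha : 1 ≤ a := hs a List.mem_cons_self
  by_cases hc : c = 0
  · refine tel_bounds h hF hq hs (f := f) ⟨g, hg, ?_⟩
    rw [hf, hc]
    simp
  · by_cases hd : (q - 1) ∣ a
    · have hT1 := tel_T1 h hF hq hst hg
      have hdw : (q - 1) ∣ a + (b :: t).sum := by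
        rw [← hT1]
        exact dvd_add hd (dvd_mul_right _ _)
      have hFb := Fb_eq h (gen_th h.two_le : Gen q (th : LaurentSeries F)) (b := a + (b :: t).sum)
        (by omega) hdw
      refine tel_bounds h hF hq hs (f := f + C c * Fb q th (a + (b :: t).sum)) ⟨g, hg, ?_⟩
      rw [map_add, map_mul, expand_C, hf, hFb]
      ring
    · obtain ⟨B, K, hI⟩ := tel_inv h hF hq hst (List.cons_ne_nil _ _) hg
      exact odd_bounds h hF hq (t := t) (f := f) (g := g) (c := c) (B := B) (K := K)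
        ⟨ha, hd, hI, hc, hf⟩

end Pool.Agent.ZQ
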