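import Pool.Agent.Work.MP_43901b_nt.ZSum

/-!
# ZKinf (M): the completion at infinity as a setting

(Model: helper29's `MP_b19acb_nt/KinfS.lean`, `F = ZMod 2`; replace `ZMod 2` by `F` everywhere.)
`theSetup`: `φ = algebraMap`, `O` = range of `algebraMap F[X] (RatFunc F)`, `θ = RatFunc.X`.
`mzv_eq`: `hasSum_zeta` with `ψ = algebraMap F[X] (RatFunc F)`.
`iota`: `IsFractionRing.lift (toL_injective)` : `RatFunc F → F((1/θ))`, `RatFunc.X ↦ th` (`toL` is in
`S1Exp`).
-/

set_option linter.unusedSectionVars false

namespace Pool.Agent.ZQ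

open Polynomial Finset Filter

variable {p q : ℕ} (F : Type*) [Field F]

private theorem ks_alg (x : RatFunc F) :
    Valued.v (algebraMap (RatFunc F) (Kinf F) x) = RatFunc.inftyValuationDef F x := by
  let _ := RatFunc.inftyValued F
  exact Valued.valuedCompletion_apply x

private theorem ks_X : Valued.v (algebraMap (RatFunc F) (Kinf F) RatFunc.X) =
    (WithZero.exp 1 : WithZero (Multiplicative ℤ)) := by
  rw [ks_alg, ← RatFunc.inftyValuation_apply, RatFunc.inftyValuation.X]

private theorem ks_nontriv :
    (Valued.v : Valuation (Kinf F) (WithZero (Multiplicative ℤ))).IsNontrivial := by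
  refine ⟨algebraMap (RatFunc F) (Kinf F) RatFunc.X, ?_, ?_⟩
  · rw [ks_X]
    simp
  · rw [ks_X]
    simp

noncomputable instance rankOneK :
    Valuation.RankOne (Valued.v : Valuation (Kinf F) (WithZero (Multiplicative ℤ))) := by
  haveI := ks_nontriv F
  haveI : MulArchimedean (MonoidWithZeroHom.ValueGroup₀
      (.ofClass (Valued.v : Valuation (Kinf F) (WithZero (Multiplicative ℤ))))) :=
    MulArchimedean.comap (MonoidWithZeroHom.ValueGroup₀.embedding).toMonoidHom
      MonoidWithZeroHom.ValueGroup₀.embedding_strictMono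
  exact (Valuation.nonempty_rankOne_iff_mulArchimedean.2 this).some

instance charP_ratFunc [CharP F p] : CharP (RatFunc F) p :=
  charP_of_injective_algebraMap (algebraMap F (RatFunc F)).injective p

open scoped Valued

instance completeKinf : @CompleteSpace (Kinf F)
    (Valued.toNormedField (Kinf F) (WithZero (Multiplicative ℤ))).toMetricSpace.toUniformSpace := by
  let _ := RatFunc.inftyValued F
  exact UniformSpace.Completion.completeSpace (RatFunc F)

/-- the setting given by `F(t)` and its completion at infinity -/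
noncomputable def theSetup (h : IsQ p q) : Setup p q (RatFunc F) (Kinf F) where
  isq := h
  φ := algebraMap (RatFunc F) (Kinf F)
  O := (algebraMap F[X] (RatFunc F)).range
  θ := RatFunc.X
  norm_ge := by
    rintro _ ⟨p, rfl⟩ hp
    have hp0 : p ≠ 0 := by
      intro h
      rw [h, map_zero] at hp
      exact hp rfl
    rw [Valued.toNormedField.one_le_norm_iff, ks_alg, RatFunc.inftyValuation.polynomial _ hp0]
    rw [← WithZero.exp_zero, WithZero.exp_le_exp]
    exact Int.natCast_nonneg _
  frac := by
    intro x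
    refine ⟨algebraMap F[X] (RatFunc F) x.denom, ⟨_, rfl⟩, ?_, x.num, ?_⟩
    · exact (map_ne_zero_iff _ (IsFractionRing.injective F[X] (RatFunc F))).2
        x.denom_ne_zero
    · have h1 := x.num_div_denom
      have h2 : algebraMap F[X] (RatFunc F) x.denom ≠ 0 :=
        (map_ne_zero_iff _ (IsFractionRing.injective F[X] (RatFunc F))).2
          x.denom_ne_zero
      rw [div_eq_iff h2] at h1
      rw [h1, mul_comm]
  θ_mem := ⟨X, RatFunc.algebraMap_X⟩
  hθ := by
    rw [Valued.toNormedField.one_lt_norm_iff, ks_X, ← WithZero.exp_zero, WithZero.exp_lt_exp]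
    exact zero_lt_one

theorem mzv_eq [Fintype F] [CharP F p] (h : IsQ p q) (hF : Fintype.card F = q) {s : List ℕ}
    (hs : ∀ a ∈ s, 1 ≤ a) : mzv F s = (theSetup F h).zeta s :=
  ((theSetup F h).hasSum_zeta hF (ψ := algebraMap F[X] (RatFunc F))
    RatFunc.algebraMap_X hs).tsum_eq

theorem summable_mzv [Fintype F] [CharP F p] (h : IsQ p q) (hF : Fintype.card F = q) {s : List ℕ}
    (hs : ∀ a ∈ s, 1 ≤ a) :
    Summable fun a : Idx F s.length => ∏ i, ((toKinf (a.1 i))⁻¹) ^ s.get i :=
  ((theSetup F h).hasSum_zeta hF (ψ := algebraMap F[X] (RatFunc F))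
    RatFunc.algebraMap_X hs).summable

end Pool.Agent.ZQ
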