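import Pool.Agent.Work.MP_43901b_nt.ZKinf
import Pool.Agent.Work.MP_b19acb_nt.MainT
import Pool.Agent.Work.MP_b19acb_nt.MzvSum

/-!
# ZTwo (M): fields with two elements

`F` with `Fintype.card F = 2`.  The results of helper29 (`MP_b19acb_nt`, namespace `Pool.Agent.ZL`) are
stated for an abstract setting `ZL.Setup k L` in characteristic 2; only the last step there uses
`F_2 = ZMod 2`.  Here they are applied to `k = RatFunc F`, `L = Kinf F`.

* `twoSetup`: the same data as `theSetup F` (`φ`, `O`, `θ`, `norm_ge`, `frac`, `θ_mem`, `hθ`).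
* `e : ZMod 2 ≃+* F` (`ZMod.ringEquiv` or `ZMod.castHom` bijective by cardinality).  With
  `ψ = (algebraMap F[X] (RatFunc F)).comp (Polynomial.mapRingHom e)`, `ψ X = RatFunc.X`, helper29's
  `ZL.Setup.hasSum_zeta` gives the sum over `ZL.Idx s.length` (tuples over `ZMod 2`) as `twoSetup.zeta s`;
  the bijection `ZL.Idx r ≃ Idx F r` induced by `Polynomial.mapEquiv e` (monic, `natDegree_map`) turns it
  into `mzv F s = twoSetup.zeta s`.
* `two_bounds`: `ZetaLike F s` → `∃ c, zeta s = φ c * zeta [s.sum]` (`zeta [w] ≠ 0`: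
  `ZL.Setup.zeta_single_ne`) → `Fam s` (`ZL.Setup.zeta_like_iff`) → consecutive entries `x ≤ y ≤ 3 x`
  (see `Pool/Agent/Results/MP_43901b_nt/BinaryCase.lean`, lemmas `chain_geo`, `chain_cons_geo`,
  `chain_fam`, which have to be copied).
-/

set_option linter.unusedSectionVars false

namespace Pool.Agent.ZQ

open Polynomial

/-- consecutive entries `x, y` satisfy `x ≤ y ≤ 3 x` -/
private def Good (x y : ℕ) : Prop := x ≤ y ∧ y ≤ 3 * x

private theorem chain_geo (x : ℕ) : ∀ k : ℕ, List.IsChain Good (ZL.geo x k)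
  | 0 => List.isChain_nil
  | 1 => List.isChain_singleton _
  | k + 2 => by
      have h := chain_geo (2 * x) (k + 1)
      rw [ZL.geo, ZL.geo]
      rw [ZL.geo] at h
      exact List.isChain_cons_cons.mpr ⟨⟨by omega, by omega⟩, h⟩

private theorem chain_cons_geo {y x : ℕ} (h : Good y x) :
    ∀ k : ℕ, List.IsChain Good (y :: ZL.geo x k)
  | 0 => List.isChain_singleton _
  | k + 1 => by
      have h' := chain_geo x (k + 1)
      rw [ZL.geo] at h' ⊢
      exact List.isChain_cons_cons.mpr ⟨h, h'⟩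

private theorem chain_fam {s : List ℕ} (h : ZL.Fam s) : List.IsChain Good s := by
  cases h with
  | I e n k hn hk =>
      refine chain_cons_geo ?_ k
      obtain ⟨m, rfl⟩ : ∃ m, n = m + 1 := ⟨n - 1, by omega⟩
      have h1 : 2 ^ (e + (m + 1)) = 2 ^ e * (2 * 2 ^ m) := by ring
      have h2 : 2 ^ (m + 1) = 2 * 2 ^ m := by ring
      have h3 : 1 ≤ 2 ^ m := Nat.one_le_two_pow
      constructor
      · rw [h1]
        exact Nat.mul_le_mul_left _ (by omega)
      · rw [h1, h2, mul_left_comm 3]
        exact Nat.mul_le_mul_left _ (by omega)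
  | II e k hk => exact chain_cons_geo ⟨le_rfl, by omega⟩ k
  | III e k =>
      have h1 : 2 ^ (e + 2) = 4 * 2 ^ e := by ring
      exact List.isChain_cons_cons.mpr ⟨⟨by omega, le_rfl⟩,
        chain_cons_geo ⟨by omega, by omega⟩ k⟩
  | IV e => exact List.isChain_cons_cons.mpr ⟨⟨by omega, by omega⟩, List.isChain_singleton _⟩
  | V e n hn =>
      refine List.isChain_cons_cons.mpr ⟨?_, List.isChain_singleton _⟩
      have h1 : 2 ^ (e + n) = 2 ^ e * 2 ^ n := by ring
      have h3 : 1 ≤ 2 ^ n := Nat.one_le_two_pow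
      constructor
      · rw [h1]
        exact Nat.mul_le_mul_left _ (by omega)
      · rw [h1, mul_left_comm 3]
        exact Nat.mul_le_mul_left _ (by omega)
  | VI e =>
      have h1 : 2 ^ (e + 1) = 2 * 2 ^ e := by ring
      exact List.isChain_cons_cons.mpr ⟨⟨by omega, by omega⟩,
        List.isChain_cons_cons.mpr ⟨⟨by omega, by omega⟩, List.isChain_singleton _⟩⟩

private theorem isQ_two : IsQ 2 2 := ⟨Nat.prime_two, 1, le_rfl, (pow_one 2).symm⟩

instance charP_kinf {p : ℕ} (F : Type*) [Field F] [CharP F p] : CharP (Kinf F) p :=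
  charP_of_injective_algebraMap (algebraMap (RatFunc F) (Kinf F)).injective p

/-- the tuples over `F_2` and over `F` correspond to each other -/
private noncomputable def idxEquiv {F : Type*} [Field F] (e : ZMod 2 ≃+* F) (r : ℕ) :
    ZL.Idx r ≃ Idx F r :=
  Equiv.subtypeEquiv (Equiv.piCongrRight fun _ => (Polynomial.mapEquiv e).toEquiv) (by
    intro a
    have h1 : ∀ i, (Equiv.piCongrRight (fun _ : Fin r => (Polynomial.mapEquiv e).toEquiv) a) i =
        (a i).map (e : ZMod 2 →+* F) := fun i => rfl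
    have hinj : Function.Injective (e : ZMod 2 →+* F) := e.injective
    have h2 : ∀ i, ((a i).map (e : ZMod 2 →+* F)).natDegree = (a i).natDegree :=
      fun i => natDegree_map_eq_of_injective hinj _
    have h3 : ∀ i, ((a i).map (e : ZMod 2 →+* F)).Monic ↔ (a i).Monic :=
      fun i => ⟨fun h => monic_of_injective hinj h, fun h => h.map _⟩
    simp only [h1, h2, h3])

open scoped Valued

/-- helper29's setting for `F(t)`, `F` of characteristic 2 -/
private noncomputable def twoSetup (F : Type*) [Field F] [CharP F 2] :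
    ZL.Setup (RatFunc F) (Kinf F) where
  φ := (theSetup F isQ_two).φ
  O := (theSetup F isQ_two).O
  θ := (theSetup F isQ_two).θ
  norm_ge := (theSetup F isQ_two).norm_ge
  frac := (theSetup F isQ_two).frac
  θ_mem := (theSetup F isQ_two).θ_mem
  hθ := (theSetup F isQ_two).hθ

private theorem mzv_two (F : Type*) [Field F] [Fintype F] [CharP F 2] (hF : Fintype.card F = 2)
    {s : List ℕ} (hs : ∀ a ∈ s, 1 ≤ a) : mzv F s = (twoSetup F).zeta s := by
  let e : ZMod 2 ≃+* F := ZMod.ringEquiv F hF
  let ψ : (ZMod 2)[X] →+* RatFunc F :=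
    (algebraMap F[X] (RatFunc F)).comp (Polynomial.mapRingHom (e : ZMod 2 →+* F))
  have hψ : ψ X = (twoSetup F).θ := by
    show algebraMap F[X] (RatFunc F) (Polynomial.mapRingHom (e : ZMod 2 →+* F) X) = RatFunc.X
    rw [coe_mapRingHom, map_X, RatFunc.algebraMap_X]
  have h := (twoSetup F).hasSum_zeta hψ hs
  rw [mzv, ← (idxEquiv e s.length).tsum_eq]
  exact h.tsum_eq

theorem two_bounds (F : Type*) [Field F] [Fintype F] (hF : Fintype.card F = 2) {s : List ℕ}
    (hs : ∀ a ∈ s, 1 ≤ a) (h : ZetaLike F s) :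
    List.IsChain (fun x y => x ≤ y ∧ y ≤ 3 * x) s := by
  haveI : Fact (Nat.Prime 2) := ⟨Nat.prime_two⟩
  haveI : CharP F 2 := charP_of_card_eq_prime hF
  obtain ⟨hl, c, hc⟩ := h
  have hsum : 1 ≤ s.sum := by
    rcases s with _ | ⟨a, s⟩
    · simp at hl
    · have := hs a (by simp)
      rw [List.sum_cons]
      omega
  have hne := (twoSetup F).zeta_single_ne hsum
  rw [mzv_two F hF hs, mzv_two F hF (s := [s.sum]) (by simpa using hsum), div_eq_iff hne] at hc
  exact chain_fam (((twoSetup F).zeta_like_iff hs hl).mp ⟨c, hc⟩)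

end Pool.Agent.ZQ
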