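import Pool.Agent.Work.MP_43901b_nt.HMain
import Pool.Agent.Work.MP_43901b_nt.OddF
import Pool.Agent.Work.MP_43901b_nt.ZKinf
import Pool.Agent.Work.MP_43901b_nt.ZTwo

/-!
# Fin (S-M): the final theorem

`p`, `q`: `q = Fintype.card F = p^e` (`FiniteField.card`).
`iota : RatFunc F →+* LaurentSeries F`, `IsFractionRing.lift toL_injective`, `iota RatFunc.X = th`.
`T1_ok`: `TelF q X s f` → `TelF q th s (f.map iota)` (`tel_map`) → `tel_T1`, `natDegree_map`.
`like_chain`, `q ≥ 3`: `ZetaLike F s`, `s = a :: b :: t`; `mzv_eq` for `s` and `[s.sum]`, `zeta [w] ≠ 0`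
(`norm_zeta_single`), so `zeta s = φ c * zeta [w]`; `main` (with `S = theSetup F h`, `t := b :: t`), map
everything to `LaurentSeries F` by `iota` (`Pp_map`, `map_expand`), `like_bounds` for the first pair; for
the tail `b :: t`: `TelF` and `tel_bounds` for all its pairs (induction on the list, `tel_chain`).
`q = 2`: `two_bounds`.
-/

set_option linter.unusedSectionVars false

namespace Pool.Agent.ZQ

open Polynomial

/-- the property of consecutive entries -/
def Good (q x y : ℕ) : Prop := x ≤ y ∧ (q - 1) * x ≤ y ∧ y ≤ (q ^ 2 - 1) * x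

private theorem good_of {q x y : ℕ} (hq : 2 ≤ q) (h : (q - 1) * x ≤ y ∧ y ≤ (q ^ 2 - 1) * x) :
    Good q x y :=
  ⟨(Nat.le_mul_of_pos_left x (by omega)).trans h.1, h.1, h.2⟩

theorem tel_chain {p q : ℕ} {F : Type*} [Field F] [Fintype F] [CharP F p] (h : IsQ p q)
    (hF : Fintype.card F = q) (hq : 3 ≤ q) {s : List ℕ} (hs : ∀ a ∈ s, 1 ≤ a)
    {f : (LaurentSeries F)[X]} (hf : TelF q th s f) : List.IsChain (Good q) s := by
  induction s generalizing f with
  | nil => exact List.isChain_nil
  | cons a t ih =>
    cases t with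
    | nil => exact List.isChain_singleton _
    | cons b t =>
      have hb := tel_bounds h hF hq hs hf
      obtain ⟨g, hg, -⟩ := hf
      exact List.isChain_cons_cons.mpr ⟨good_of (by omega) hb,
        ih (fun x hx => hs x (List.mem_cons_of_mem a hx)) hg⟩

/-- the embedding of `F(θ)` in `F((1/θ))` -/
noncomputable def iota (F : Type*) [Field F] [Fintype F] : RatFunc F →+* LaurentSeries F :=
  IsFractionRing.lift (toL_injective (F := F))

theorem iota_X (F : Type*) [Field F] [Fintype F] : iota F RatFunc.X = th := by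
  rw [← RatFunc.algebraMap_X, iota, IsFractionRing.lift_algebraMap, toL_X]

open scoped Valued in
theorem T1_ok {p q : ℕ} (F : Type*) [Field F] [Fintype F] [CharP F p] (h : IsQ p q)
    (hF : Fintype.card F = q) (hq : 3 ≤ q) : (theSetup F h).T1 := by
  intro s f hs hf
  have h1 : TelF q (iota F RatFunc.X) s (f.map (iota F)) := tel_map (iota F) hf
  rw [iota_X] at h1
  have h2 := tel_T1 h hF hq hs h1
  rwa [natDegree_map] at h2

open scoped Valued in
theorem like_chain (F : Type*) [Field F] [Fintype F] {s : List ℕ}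
    (hs : ∀ a ∈ s, 1 ≤ a) (h : ZetaLike F s) : List.IsChain (Good (Fintype.card F)) s := by
  obtain ⟨p, hp⟩ := CharP.exists F
  obtain ⟨e, hpr, hcard⟩ := FiniteField.card F p
  have hQ : IsQ p (Fintype.card F) := ⟨hpr, e, e.pos, hcard⟩
  rcases Nat.lt_or_ge (Fintype.card F) 3 with h2 | hq
  · have h3 : Fintype.card F = 2 := by have := hQ.two_le; omega
    rw [h3]
    refine (two_bounds F h3 hs h).imp fun x y hxy => ?_
    exact ⟨hxy.1, by simpa using hxy.1, by simpa using hxy.2⟩
  · obtain ⟨hl, c, hc⟩ := h
    obtain ⟨a, t, rfl⟩ : ∃ a t, s = a :: t := by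
      cases s with
      | nil => simp at hl
      | cons a t => exact ⟨a, t, rfl⟩
    obtain ⟨b, t, rfl⟩ : ∃ b t', t = b :: t' := by
      cases t with
      | nil => simp at hl
      | cons b t => exact ⟨b, t, rfl⟩
    have ha : 1 ≤ a := hs a (by simp)
    have hw : 1 ≤ (a :: b :: t).sum := by
      rw [List.sum_cons]
      omega
    rw [mzv_eq F hQ rfl hs, mzv_eq F hQ rfl (s := [(a :: b :: t).sum]) (by simpa using hw)] at hc
    have hne : (theSetup F hQ).zeta [(a :: b :: t).sum] ≠ 0 := by
      intro h0
      have h1 := (theSetup F hQ).norm_zeta_single hw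
      rw [h0, norm_zero] at h1
      exact zero_ne_one h1
    have hz : (theSetup F hQ).zeta (a :: b :: t) =
        (theSetup F hQ).φ c * (theSetup F hQ).zeta [a + (b :: t).sum] := by
      rw [div_eq_iff hne] at hc
      exact hc
    obtain ⟨f, g, hg, hf⟩ := (theSetup F hQ).main hq (T1_ok F hQ rfl hq) hs hz
    have hg' : TelF (Fintype.card F) (iota F RatFunc.X) (b :: t) (g.map (iota F)) :=
      tel_map (iota F) hg
    rw [iota_X] at hg'
    have hf' : expand _ (Fintype.card F) (f.map (iota F)) =
        (C th - X) ^ (a + (b :: t).sum) * f.map (iota F) +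
          Pp (Fintype.card F) th a * ((C th - X) ^ (b :: t).sum * g.map (iota F)) -
          C (iota F c) * Pp (Fintype.card F) th (a + (b :: t).sum) := by
      have h1 := congrArg (Polynomial.map (iota F)) hf
      have hθ : iota F (theSetup F hQ).θ = th := iota_X F
      simp only [map_expand, Polynomial.map_sub, Polynomial.map_add, Polynomial.map_mul,
        Polynomial.map_pow, map_C, map_X, Pp_map, hθ] at h1
      exact h1
    have hb := like_bounds hQ rfl hq hs hg' hf'
    exact List.isChain_cons_cons.mpr ⟨good_of (by omega) hb,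
      tel_chain hQ rfl hq (fun x hx => hs x (List.mem_cons_of_mem a hx)) hg'⟩

end Pool.Agent.ZQ
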