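import Pool.Agent.Work.MP_43901b_nt.HDefs

/-!
# HBase (S): first properties of the setting
-/

namespace Pool.Agent.ZQ

open Polynomial Finset Filter

variable {p q : ℕ} {k L : Type*} [Field k] [NormedField L] (S : Setup p q k L)

namespace Setup

include S in
theorem q_two : 2 ≤ q := S.isq.two_le

theorem θ_ne : S.θ ≠ 0 := by
  intro h
  have h1 := S.hθ
  rw [h, map_zero, norm_zero] at h1
  exact absurd h1 (not_lt.2 zero_le_one)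

theorem t_ne (d : ℕ) : S.t d ≠ 0 := inv_ne_zero (pow_ne_zero _ S.θ_ne)

theorem T_ne (d : ℕ) : S.T d ≠ 0 := pow_ne_zero _ S.θ_ne

theorem t_eq (d : ℕ) : S.t d = (S.T d)⁻¹ := rfl

theorem T_mul_t (d : ℕ) : S.T d * S.t d = 1 := mul_inv_cancel₀ (S.T_ne d)

theorem T_succ (d : ℕ) : S.T (d + 1) = S.T d ^ q := by
  unfold T
  rw [pow_succ q d, pow_mul]

theorem t_succ (d : ℕ) : S.t (d + 1) = S.t d ^ q := by
  unfold t
  rw [pow_succ q d, pow_mul, inv_pow]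

theorem norm_t (d : ℕ) : ‖S.φ (S.t d)‖ = ‖S.φ S.θ‖⁻¹ ^ q ^ d := by
  unfold t
  rw [map_inv₀, map_pow, norm_inv, norm_pow, inv_pow]

theorem norm_T (d : ℕ) : ‖S.φ (S.T d)‖ = ‖S.φ S.θ‖ ^ q ^ d := by
  unfold T
  rw [map_pow, norm_pow]

theorem tb_q : 0 < ‖S.φ S.θ‖⁻¹ ∧ ‖S.φ S.θ‖⁻¹ < 1 :=
  ⟨inv_pos.2 (zero_lt_one.trans S.hθ), inv_lt_one_of_one_lt₀ S.hθ⟩

theorem norm_t_pos (d : ℕ) : 0 < ‖S.φ (S.t d)‖ := by
  rw [norm_t]
  exact pow_pos S.tb_q.1 _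

theorem norm_t_lt (d : ℕ) : ‖S.φ (S.t d)‖ < 1 := by
  rw [norm_t]
  exact pow_lt_one₀ S.tb_q.1.le S.tb_q.2 (pow_ne_zero _ S.isq.ne_zero)

theorem norm_t_succ_le (d : ℕ) : ‖S.φ (S.t (d + 1))‖ ≤ ‖S.φ (S.t d)‖ := by
  rw [t_succ, map_pow, norm_pow]
  exact pow_le_of_le_one (norm_nonneg _) (S.norm_t_lt d).le S.isq.ne_zero

theorem tendsto_t : Tendsto (fun d => ‖S.φ (S.t d)‖) atTop (nhds 0) := by
  refine squeeze_zero (fun d => norm_nonneg _) (fun d => ?_)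
    (tendsto_pow_atTop_nhds_zero_of_lt_one S.tb_q.1.le S.tb_q.2)
  rw [norm_t]
  exact pow_le_pow_of_le_one S.tb_q.1.le S.tb_q.2.le
    ((Nat.lt_pow_self S.q_two).le)

theorem gen : Gen q S.θ := by
  intro i j hij
  have h1 : ‖S.φ S.θ‖ ^ q ^ i = ‖S.φ S.θ‖ ^ q ^ j := by
    rw [← norm_pow, ← norm_pow, ← map_pow, ← map_pow]
    exact congrArg (fun x => ‖S.φ x‖) hij
  have h2 := (pow_right_injective₀ (zero_lt_one.trans S.hθ) S.hθ.ne') h1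
  exact Nat.pow_right_injective S.q_two h2

theorem T_inj : Function.Injective S.T := S.gen

theorem T_mem (d : ℕ) : S.T d ∈ S.O := S.O.pow_mem S.θ_mem _

end Setup

end Pool.Agent.ZQ
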