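import Pool.Agent.Work.MP_43901b_nt.PpB

/-!
# HDefs: the setting of the transcendence part (general `q`)

`k` (in the application `F_q(θ)`) with its ring of integers `O` (`F_q[θ]`), embedded in a complete
nonarchimedean field `L`.  `T_d = θ^(q^d)`, `t_d = 1/T_d`, `‖t_d‖ → 0`, `t_{d+1} = t_d^q`.
-/

namespace Pool.Agent.ZQ

open Polynomial Finset Filter

/-- The setting of the transcendence part. -/
structure Setup (p q : ℕ) (k L : Type*) [Field k] [NormedField L] where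
  isq : IsQ p q
  φ : k →+* L
  O : Subring k
  θ : k
  norm_ge : ∀ x ∈ O, x ≠ 0 → 1 ≤ ‖φ x‖
  frac : ∀ x : k, ∃ e ∈ O, e ≠ 0 ∧ e * x ∈ O
  θ_mem : θ ∈ O
  hθ : 1 < ‖φ θ‖

/-- `G(X^q)` -/
noncomputable def sq {k : Type*} [Field k] (q : ℕ) (G : PowerSeries k) : PowerSeries k :=
  PowerSeries.mk fun n => if q ∣ n then PowerSeries.coeff (n / q) G else 0

namespace Setup

variable {p q : ℕ} {k L : Type*} [Field k] [NormedField L] (S : Setup p q k L)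

/-- `T_d = θ^(q^d)` -/
def T (d : ℕ) : k := S.θ ^ q ^ d

/-- `t_d = θ^(-q^d)` -/
def t (d : ℕ) : k := (S.θ ^ q ^ d)⁻¹

/-- the sequence `α` is represented by the power series `G` at the points `t_d` -/
def Rep (α : ℕ → L) (G : PowerSeries k) : Prop :=
  ∀ M : ℕ, ∃ C : ℝ, ∀ᶠ d in atTop,
    ‖α d - S.φ ((PowerSeries.trunc M G).eval (S.t d))‖ ≤ C * ‖S.φ (S.t d)‖ ^ M

/-- `α d` is smaller than every power of `t_d` -/
def Small (α : ℕ → L) : Prop :=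
  ∀ M : ℕ, ∃ C : ℝ, ∀ᶠ d in atTop, ‖α d‖ ≤ C * ‖S.φ (S.t d)‖ ^ M

/-- bounded denominators -/
def Den (ρ : ℕ → k) : Prop := ∃ e ∈ S.O, e ≠ 0 ∧ ∀ d, e * ρ d ∈ S.O

/-- moderate growth -/
def Gro (ρ : ℕ → k) : Prop :=
  ∃ (n : ℕ) (C : ℝ), ∀ᶠ d in atTop, ‖S.φ (ρ d)‖ * ‖S.φ (S.t d)‖ ^ n ≤ C

/-- `zg (s_j, ..., s_1) d` is the sum over all `d_1 > ... > d_j ≥ d` of the products of the power
sums `S_{d_i}(s_i)` (the prefix is reversed) -/
noncomputable def zg : List ℕ → ℕ → L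
  | [], _ => 1
  | n :: l, d => ∑' e : ℕ, S.φ (ps q S.θ (d + e) n) * zg l (d + e + 1)

/-- the limit of the multiple power sums -/
noncomputable def zeta (s : List ℕ) : L := S.zg s.reverse 0

/-- the normalised tail `t_d^N zg l d / y_d^σ`, `σ = l.sum`, `N = ⌊σ/(q-1)⌋` -/
noncomputable def hn (l : List ℕ) (d : ℕ) : L :=
  S.φ (S.t d) ^ (l.sum / (q - 1)) * (S.zg l d / S.φ (yy q S.θ d) ^ l.sum)

/-- the normalised front part `S_{<d}(s)/y_d^w` -/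
noncomputable def rho (s : List ℕ) (d : ℕ) : k := SS q S.θ s d / yy q S.θ d ^ s.sum

/-- `N(l) = ⌊σ/(q-1)⌋` -/
def Nn (q : ℕ) (l : List ℕ) : ℕ := l.sum / (q - 1)

/-- `ε(l) = σ - (q-1) N` -/
def Ep (q : ℕ) (l : List ℕ) : ℕ := l.sum % (q - 1)

/-- `n_a = ⌊(a-1)/(q-1)⌋` -/
def na (q a : ℕ) : ℕ := (a - 1) / (q - 1)

/-- `ε'(n, l) = N(n :: l) + (n + l.sum) - q (n_a + N(l))` -/
def Ep' (q n : ℕ) (l : List ℕ) : ℕ :=
  Nn q (n :: l) + (n + l.sum) - q * (na q n + Nn q l)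

/-- the polynomial `P̃_a` with `P_a(T) = T^(q n_a) P̃_a(T^(-q))` -/
noncomputable def pt (a : ℕ) : k[X] :=
  (Polynomial.contract q (Pp q S.θ a)).reflect (na q a)

/-- `θ X - 1` -/
noncomputable def E : k[X] := C S.θ * X - 1

end Setup

end Pool.Agent.ZQ
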