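import Pool.Agent.Work.MP_43901b_nt.HBase

/-!
# Liou (S-M): a lower bound for nonzero values

`P_i` of degree `≤ N`, `i ∈ T`; there is `e₁ ∈ O`, `e₁ ≠ 0` with `e₁ * (P_i).coeff j ∈ O` for all `i ∈ T`,
`j ≤ N` (product of the denominators from `S.frac`; induction over finite sets, `O` is a subring of a
field), and `e₂` with `e₂ * ρ_i d ∈ O` for all `i ∈ T` and `d` (product of the ones from `Den`).
`t_d^j θ^(2^(d+1) N) = θ^(2^(d+1) (N-j)) ∈ O` for `j ≤ N`.  So `Δ d = Σ_{i∈T} ρ_i(d) P_i(t_d)` satisfies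
`e₁ e₂ θ^(2^(d+1) N) Δ d ∈ O`.  If `Δ d ≠ 0` then `1 ≤ ‖φ(e₁ e₂)‖ ‖t_d‖^(-N) ‖φ (Δ d)‖`
(`norm_ge`).  `c = ‖φ (e₁ e₂)‖⁻¹`.
-/

set_option linter.unusedSectionVars false

namespace Pool.Agent.ZQ

open Polynomial Finset Filter

variable {p q : ℕ} {k L : Type*} [Field k] [NormedField L]
  [IsUltrametricDist L] (S : Setup p q k L)

namespace Setup

private theorem lio_frac (A : Finset k) : ∃ e ∈ S.O, e ≠ 0 ∧ ∀ x ∈ A, e * x ∈ S.O := by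
  classical
  induction A using Finset.induction_on with
  | empty => exact ⟨1, S.O.one_mem, one_ne_zero, fun x hx => absurd hx (Finset.notMem_empty x)⟩
  | insert a A _ ih =>
    obtain ⟨e, he, he0, h⟩ := ih
    obtain ⟨f, hf, hf0, h'⟩ := S.frac a
    refine ⟨e * f, S.O.mul_mem he hf, mul_ne_zero he0 hf0, fun x hx => ?_⟩
    rcases Finset.mem_insert.1 hx with rfl | hx
    · rw [mul_assoc]
      exact S.O.mul_mem he h'
    · rw [mul_right_comm]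
      exact S.O.mul_mem (h x hx) hf

private theorem lio_den {ι : Type*} (T : Finset ι) {ρ : ι → ℕ → k}
    (hρ : ∀ i ∈ T, S.Den (ρ i)) : ∃ e ∈ S.O, e ≠ 0 ∧ ∀ i ∈ T, ∀ d, e * ρ i d ∈ S.O := by
  classical
  induction T using Finset.induction_on with
  | empty => exact ⟨1, S.O.one_mem, one_ne_zero, fun x hx => absurd hx (Finset.notMem_empty x)⟩
  | insert a A _ ih =>
    obtain ⟨e, he, he0, h⟩ := ih fun i hi => hρ i (Finset.mem_insert_of_mem hi)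
    obtain ⟨f, hf, hf0, h'⟩ := hρ a (Finset.mem_insert_self a A)
    refine ⟨e * f, S.O.mul_mem he hf, mul_ne_zero he0 hf0, fun x hx d => ?_⟩
    rcases Finset.mem_insert.1 hx with rfl | hx
    · rw [mul_assoc]
      exact S.O.mul_mem he (h' d)
    · rw [mul_right_comm]
      exact S.O.mul_mem (h x hx d) hf

theorem liouville {ι : Type*} (T : Finset ι) {ρ : ι → ℕ → k} (hρ : ∀ i ∈ T, S.Den (ρ i))
    {P : ι → k[X]} {N : ℕ} (hP : ∀ i ∈ T, (P i).natDegree ≤ N) :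
    ∃ c : ℝ, 0 < c ∧ ∀ d, (∑ i ∈ T, ρ i d * (P i).eval (S.t d)) = 0 ∨
      c * ‖S.φ (S.t d)‖ ^ N ≤ ‖S.φ (∑ i ∈ T, ρ i d * (P i).eval (S.t d))‖ := by
  classical
  obtain ⟨e₁, he₁, he₁0, h₁⟩ := lio_frac S
    ((T ×ˢ range (N + 1)).image fun x => (P x.1).coeff x.2)
  obtain ⟨e₂, he₂, he₂0, h₂⟩ := lio_den S T hρ
  have hθ0 : S.θ ≠ 0 := S.θ_ne
  have hφ : ∀ x : k, x ≠ 0 → 0 < ‖S.φ x‖ := fun x hx =>
    norm_pos_iff.2 ((map_ne_zero S.φ).2 hx)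
  refine ⟨‖S.φ (e₁ * e₂)‖⁻¹, inv_pos.2 (hφ _ (mul_ne_zero he₁0 he₂0)), fun d => ?_⟩
  by_cases hΔ : (∑ i ∈ T, ρ i d * (P i).eval (S.t d)) = 0
  · exact Or.inl hΔ
  right
  have hmem : e₁ * e₂ * (S.θ ^ (q ^ d * N)) * (∑ i ∈ T, ρ i d * (P i).eval (S.t d)) ∈
      S.O := by
    rw [Finset.mul_sum]
    refine S.O.sum_mem fun i hi => ?_
    rw [eval_eq_sum_range' (Nat.lt_succ_iff.2 (hP i hi)), Finset.mul_sum, Finset.mul_sum]
    refine S.O.sum_mem fun j hj => ?_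
    have hj' : j ≤ N := Nat.lt_succ_iff.1 (Finset.mem_range.1 hj)
    have h3 : S.θ ^ (q ^ d * N) * S.t d ^ j = S.θ ^ (q ^ d * (N - j)) := by
      have h4 : q ^ d * N = q ^ d * (N - j) + q ^ d * j := by
        rw [← mul_add, Nat.sub_add_cancel hj']
      unfold Setup.t
      rw [inv_pow, ← pow_mul, h4, pow_add, mul_assoc,
        mul_inv_cancel₀ (pow_ne_zero _ hθ0), mul_one]
    have h4 : e₁ * e₂ * S.θ ^ (q ^ d * N) * (ρ i d * ((P i).coeff j * S.t d ^ j)) =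
        (e₂ * ρ i d) * (e₁ * (P i).coeff j) * S.θ ^ (q ^ d * (N - j)) := by
      rw [← h3]
      ring
    rw [h4]
    refine S.O.mul_mem (S.O.mul_mem (h₂ i hi d) (h₁ _ ?_)) (S.O.pow_mem S.θ_mem _)
    exact Finset.mem_image.2 ⟨(i, j), Finset.mem_product.2 ⟨hi, hj⟩, rfl⟩
  have h5 := S.norm_ge _ hmem (mul_ne_zero (mul_ne_zero (mul_ne_zero he₁0 he₂0)
    (pow_ne_zero _ hθ0)) hΔ)
  rw [map_mul, map_mul, norm_mul, norm_mul, map_pow, norm_pow] at h5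
  have ha : 0 < ‖S.φ (e₁ * e₂)‖ := hφ _ (mul_ne_zero he₁0 he₂0)
  have hb : 0 < ‖S.φ S.θ‖ ^ (q ^ d * N) := pow_pos (hφ _ hθ0) _
  have h6 : ‖S.φ (S.t d)‖ ^ N = (‖S.φ S.θ‖ ^ (q ^ d * N))⁻¹ := by
    rw [S.norm_t, inv_pow, inv_pow, ← pow_mul]
  rw [h6, ← mul_inv, inv_le_iff_one_le_mul₀ (mul_pos ha hb)]
  linarith [h5, mul_comm (‖S.φ (e₁ * e₂)‖ * ‖S.φ S.θ‖ ^ (q ^ d * N))
    ‖S.φ (∑ i ∈ T, ρ i d * (P i).eval (S.t d))‖]

end Setup

end Pool.Agent.ZQ
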