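import Pool.Agent.Work.MP_43901b_nt.HZg
import Pool.Agent.Work.MP_43901b_nt.HLiou

/-!
# HDen (M): denominators and growth

`rho s d = S_{<d}(s)/y_d^w`.
* `rho_nil`: `1`.  `rho_succ`, `d ≥ 1`: `rho (a::s) (d+1) = (θ-T_d)^w rho (a::s) d +
  P_a(T_d) (θ-T_d)^(s.sum) rho s d`, `w = a + s.sum` (`SS_succ`, `y_(d+1) = x_d`, `y_d = x_d (θ-T_d) ≠ 0`,
  `ps = x_d^a P_a(T_d)`).
* `den_poly`: `P ∈ k[X]`: `P(T_d)` has bounded denominators (`S.frac` for each coefficient, product;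
  `T_d ∈ O`).
* `den_add`, `den_mul`, `den_const`.
* `den_rho`: there is `e ∈ O`, `e ≠ 0` with `e P_a(T_d) ∈ O` for all `d`, and by induction on `s` `e'` with
  `e' rho s d ∈ O`; then `e e'` works for `a :: s` (induction on `d`: `rho (a::s) 0 = 0` (`SS .. 0 = 0`),
  `rho (a::s) 1 = P_a(θ) (SS s 0)`, up to `x_0 = y_1 = 1`, is `0` or `1` (`Pp_eval_self`), then `rho_succ`).
* `gro_rho`: `‖φ (SS s d)‖ ≤ 1` (`norm_SS_le`), `‖φ y_d‖^(-w) = Θ^(w σ_(d-1)) ≤ Θ^(w q^d) = ‖φ t_d‖^(-w)`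
  (`norm_yy`, `norm_t`; `σ_(d-1) ≤ q^d` from `sg_mul`), so `n = w`, `C = 1`.
* `gro_mul_T`, `den_mul_T`: the same for `ρ d * T_d^N`.
-/

set_option linter.unusedSectionVars false

namespace Pool.Agent.ZQ

open Polynomial Finset Filter

variable {p q : ℕ} {k L : Type*} [Field k] [NormedField L] [CompleteSpace L]
  [IsUltrametricDist L] (S : Setup p q k L)

namespace Setup

theorem rho_nil (d : ℕ) : S.rho [] d = 1 := by
  rw [rho, SS, List.sum_nil, pow_zero, div_one]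

private theorem dn_ne {d : ℕ} (hd : 1 ≤ d) : S.θ - S.T d ≠ 0 :=
  sub_ne_zero.2 (S.gen.ne hd).symm

theorem rho_succ (a : ℕ) (s : List ℕ) {d : ℕ} (hd : 1 ≤ d) :
    S.rho (a :: s) (d + 1) = (S.θ - S.T d) ^ (a + s.sum) * S.rho (a :: s) d +
      (Pp q S.θ a).eval (S.T d) * ((S.θ - S.T d) ^ s.sum * S.rho s d) := by
  have hx : xx q S.θ d ≠ 0 := xx_ne S.gen d
  have ht : S.θ - S.T d ≠ 0 := S.dn_ne hd
  have hy : yy q S.θ d = xx q S.θ d * (S.θ - S.T d) := rfl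
  have hps : ps q S.θ d a = (xx q S.θ d) ^ a * (Pp q S.θ a).eval (S.T d) := rfl
  rw [rho, rho, rho, yy_succ S.gen, SS_succ, hps, hy, List.sum_cons, mul_pow, mul_pow, pow_add,
    pow_add]
  field_simp

private theorem dn_zero : S.Den fun _ => (0 : k) :=
  ⟨1, S.O.one_mem, one_ne_zero, fun _ => by rw [mul_zero]; exact S.O.zero_mem⟩

theorem den_add {ρ σ : ℕ → k} (h1 : S.Den ρ) (h2 : S.Den σ) : S.Den fun d => ρ d + σ d := by
  obtain ⟨e, he, he0, h⟩ := h1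
  obtain ⟨f, hf, hf0, h'⟩ := h2
  refine ⟨e * f, S.O.mul_mem he hf, mul_ne_zero he0 hf0, fun d => ?_⟩
  have h3 : e * f * (ρ d + σ d) = f * (e * ρ d) + e * (f * σ d) := by ring
  rw [h3]
  exact S.O.add_mem (S.O.mul_mem hf (h d)) (S.O.mul_mem he (h' d))

theorem den_mul {ρ σ : ℕ → k} (h1 : S.Den ρ) (h2 : S.Den σ) : S.Den fun d => ρ d * σ d := by
  obtain ⟨e, he, he0, h⟩ := h1
  obtain ⟨f, hf, hf0, h'⟩ := h2
  refine ⟨e * f, S.O.mul_mem he hf, mul_ne_zero he0 hf0, fun d => ?_⟩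
  have h3 : e * f * (ρ d * σ d) = (e * ρ d) * (f * σ d) := by ring
  rw [h3]
  exact S.O.mul_mem (h d) (h' d)

theorem den_const (c : k) : S.Den fun _ => c := by
  obtain ⟨e, he, he0, h⟩ := S.frac c
  exact ⟨e, he, he0, fun _ => h⟩

private theorem dn_sum {ι : Type*} (T : Finset ι) {ρ : ι → ℕ → k}
    (h : ∀ i ∈ T, S.Den (ρ i)) : S.Den fun d => ∑ i ∈ T, ρ i d := by
  classical
  induction T using Finset.induction_on with
  | empty =>
    simp only [Finset.sum_empty]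
    exact S.dn_zero
  | insert a T ha ih =>
    simp only [Finset.sum_insert ha]
    exact S.den_add (h a (Finset.mem_insert_self a T))
      (ih fun i hi => h i (Finset.mem_insert_of_mem hi))

theorem den_poly (P : k[X]) : S.Den fun d => P.eval (S.T d) := by
  have h : (fun d => P.eval (S.T d)) =
      fun d => ∑ i ∈ range (P.natDegree + 1), P.coeff i * S.T d ^ i := by
    funext d
    exact eval_eq_sum_range _
  rw [h]
  refine S.dn_sum _ fun i _ => S.den_mul (S.den_const _) ?_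
  exact ⟨1, S.O.one_mem, one_ne_zero, fun d => by
    rw [one_mul]
    exact S.O.pow_mem (S.T_mem d) i⟩

private theorem dn_SS_zero (s : List ℕ) : SS q S.θ s 0 ∈ S.O := by
  cases s with
  | nil =>
    rw [SS]
    exact S.O.one_mem
  | cons a s =>
    rw [SS, Finset.range_zero, Finset.sum_empty]
    exact S.O.zero_mem

theorem den_rho {s : List ℕ} (hs : ∀ a ∈ s, 1 ≤ a) : S.Den (S.rho s) := by
  induction s with
  | nil =>
    refine ⟨1, S.O.one_mem, one_ne_zero, fun d => ?_⟩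
    rw [rho_nil, mul_one]
    exact S.O.one_mem
  | cons a s ih =>
    obtain ⟨e, he, he0, h⟩ := S.den_poly (Pp q S.θ a)
    obtain ⟨f, hf, hf0, h'⟩ := ih fun b hb => hs b (List.mem_cons_of_mem a hb)
    refine ⟨e * f, S.O.mul_mem he hf, mul_ne_zero he0 hf0, fun d => ?_⟩
    have hθT : ∀ d, S.θ - S.T d ∈ S.O := fun d => S.O.sub_mem S.θ_mem (S.T_mem d)
    induction d with
    | zero =>
      rw [rho, SS, Finset.range_zero, Finset.sum_empty, zero_div, mul_zero]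
      exact S.O.zero_mem
    | succ d ihd =>
      rcases Nat.eq_zero_or_pos d with rfl | hd
      · have hx : xx q S.θ 0 = 1 := by
          rw [xx, ell, Finset.range_zero, Finset.prod_empty, inv_one]
        have h1 : S.rho (a :: s) (0 + 1) = SS q S.θ s 0 := by
          rw [rho, yy_succ S.gen, hx, one_pow, div_one, SS_succ, ps_zero, one_mul, SS,
            Finset.range_zero, Finset.sum_empty, zero_add]
        rw [h1]
        exact S.O.mul_mem (S.O.mul_mem he hf) (S.dn_SS_zero s)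
      · rw [S.rho_succ a s hd]
        have h1 : e * f * ((S.θ - S.T d) ^ (a + s.sum) * S.rho (a :: s) d +
            (Pp q S.θ a).eval (S.T d) * ((S.θ - S.T d) ^ s.sum * S.rho s d)) =
            (S.θ - S.T d) ^ (a + s.sum) * (e * f * S.rho (a :: s) d) +
            (e * (Pp q S.θ a).eval (S.T d)) * ((S.θ - S.T d) ^ s.sum * (f * S.rho s d)) := by
          ring
        rw [h1]
        exact S.O.add_mem (S.O.mul_mem (S.O.pow_mem (hθT d) _) ihd)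
          (S.O.mul_mem (h d) (S.O.mul_mem (S.O.pow_mem (hθT d) _) (h' d)))

theorem gro_add {ρ σ : ℕ → k} (h1 : S.Gro ρ) (h2 : S.Gro σ) : S.Gro fun d => ρ d + σ d := by
  obtain ⟨n, C, h⟩ := h1
  obtain ⟨m, D, h'⟩ := h2
  refine ⟨n + m, C + D, ?_⟩
  filter_upwards [h, h'] with d hd hd'
  have ht : 0 < ‖S.φ (S.t d)‖ := S.norm_t_pos d
  have ht1 : ‖S.φ (S.t d)‖ ≤ 1 := (S.norm_t_lt d).le
  have hn : ‖S.φ (S.t d)‖ ^ n ≤ 1 := pow_le_one₀ ht.le ht1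
  have hm : ‖S.φ (S.t d)‖ ^ m ≤ 1 := pow_le_one₀ ht.le ht1
  have h3 : ‖S.φ (ρ d + σ d)‖ ≤ ‖S.φ (ρ d)‖ + ‖S.φ (σ d)‖ := by
    rw [map_add]
    exact norm_add_le _ _
  calc ‖S.φ (ρ d + σ d)‖ * ‖S.φ (S.t d)‖ ^ (n + m)
      ≤ (‖S.φ (ρ d)‖ + ‖S.φ (σ d)‖) * ‖S.φ (S.t d)‖ ^ (n + m) :=
        mul_le_mul_of_nonneg_right h3 (pow_nonneg ht.le _)
    _ = (‖S.φ (ρ d)‖ * ‖S.φ (S.t d)‖ ^ n) * ‖S.φ (S.t d)‖ ^ m +
        (‖S.φ (σ d)‖ * ‖S.φ (S.t d)‖ ^ m) * ‖S.φ (S.t d)‖ ^ n := by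
        rw [pow_add]
        ring
    _ ≤ ‖S.φ (ρ d)‖ * ‖S.φ (S.t d)‖ ^ n + ‖S.φ (σ d)‖ * ‖S.φ (S.t d)‖ ^ m :=
        add_le_add (mul_le_of_le_one_right (by positivity) hm)
          (mul_le_of_le_one_right (by positivity) hn)
    _ ≤ C + D := add_le_add hd hd'

theorem gro_const (c : k) : S.Gro fun _ => c :=
  ⟨0, ‖S.φ c‖, Eventually.of_forall fun d => by rw [pow_zero, mul_one]⟩

theorem gro_mul_const {ρ : ℕ → k} (h1 : S.Gro ρ) (c : k) : S.Gro fun d => c * ρ d := by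
  obtain ⟨n, C, h⟩ := h1
  refine ⟨n, ‖S.φ c‖ * C, ?_⟩
  filter_upwards [h] with d hd
  rw [map_mul, norm_mul, mul_assoc]
  exact mul_le_mul_of_nonneg_left hd (norm_nonneg _)

theorem gro_mul_T {ρ : ℕ → k} (h1 : S.Gro ρ) (N : ℕ) : S.Gro fun d => ρ d * S.T d ^ N := by
  obtain ⟨n, C, h⟩ := h1
  refine ⟨n + N, C, ?_⟩
  filter_upwards [h] with d hd
  have hTt : ‖S.φ (S.T d)‖ * ‖S.φ (S.t d)‖ = 1 := by
    rw [← norm_mul, ← map_mul, S.T_mul_t, map_one, norm_one]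
  have h2 : ‖S.φ (ρ d * S.T d ^ N)‖ * ‖S.φ (S.t d)‖ ^ (n + N) =
      ‖S.φ (ρ d)‖ * ‖S.φ (S.t d)‖ ^ n * (‖S.φ (S.T d)‖ * ‖S.φ (S.t d)‖) ^ N := by
    rw [map_mul, norm_mul, map_pow, norm_pow, pow_add, mul_pow]
    ring
  rw [h2, hTt, one_pow, mul_one]
  exact hd

theorem gro_rho {s : List ℕ} (hs : ∀ a ∈ s, 1 ≤ a) : S.Gro (S.rho s) := by
  refine ⟨s.sum, 1, ?_⟩
  filter_upwards [eventually_ge_atTop 1] with d hd
  have hΘ : 0 < ‖S.φ S.θ‖ := zero_lt_one.trans S.hθ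
  have h1 : sg q (d - 1) ≤ q ^ d := by
    have h2 := sg_mul (q := q) S.isq.pos (d - 1)
    rw [Nat.sub_add_cancel hd] at h2
    have h3 : 1 * sg q (d - 1) ≤ (q - 1) * sg q (d - 1) :=
      Nat.mul_le_mul_right _ (by have := S.q_two; omega)
    omega
  rw [rho, map_div₀, norm_div, map_pow, norm_pow, S.norm_yy hd, inv_pow, div_inv_eq_mul, S.norm_t,
    inv_pow, inv_pow, ← pow_mul, ← pow_mul]
  have h2 : ‖S.φ (SS q S.θ s d)‖ * ‖S.φ S.θ‖ ^ (sg q (d - 1) * s.sum) ≤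
      ‖S.φ S.θ‖ ^ (q ^ d * s.sum) := by
    calc ‖S.φ (SS q S.θ s d)‖ * ‖S.φ S.θ‖ ^ (sg q (d - 1) * s.sum)
        ≤ 1 * ‖S.φ S.θ‖ ^ (sg q (d - 1) * s.sum) :=
          mul_le_mul_of_nonneg_right (S.norm_SS_le hs d) (pow_nonneg hΘ.le _)
      _ = ‖S.φ S.θ‖ ^ (sg q (d - 1) * s.sum) := one_mul _
      _ ≤ ‖S.φ S.θ‖ ^ (q ^ d * s.sum) :=
          pow_le_pow_right₀ S.hθ.le (Nat.mul_le_mul_right _ h1)
  exact mul_inv_le_one_of_le₀ h2 (pow_nonneg hΘ.le _)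

end Setup

end Pool.Agent.ZQ
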