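import Pool.Agent.Work.MP_43901b_nt.HRepB

/-!
# RepRec (M): solutions of α(d) = β(d) α(d+1) + η(d)

`rec_series`: `G` with constant coefficient 0 and coefficients
`G_n = Σ_{i+2j=n} B_i G_j + H_n` for `n ≥ 1` (strong recursion, `j ≤ n/2 < n`; e.g. define `G` by
`Nat.strongRec`, or as a limit of iterations); for `n = 0` both sides are 0 since `H_0 = 0`.
`rep_rec`: take this `G`.  Fix `M ≥ 1`, `P = trunc M G`, `α' d = α d - φ (P(t_d))`.  Then
`α' d = β d α' (d+1) + η' d` with `η' d = η d + β d φ(P(t_d^2)) - φ(P(t_d))`, represented by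
`H + B * sq q P - P`, which is divisible by `X^M` (`B sq q G + H = G` and `sq q G - sq q P` is
divisible by `X^(2M)`), so `‖η' d‖ ≤ C ‖t_d‖^M` for `d ≥ d₀` (`rep_dvd`), `C ≥ 0`.
`β d → 1`, so `‖β d‖ ≤ 1` for `d ≥ d₀` (`Rep` with `M = 1`: `‖β d - 1‖ < 1`, ultrametric).
`α' d → 0` (`α d → 0`, `P(t_d) → P(0) = 0`).  By induction on `n`
`‖α' d‖ ≤ max (C ‖t_d‖^M) ‖α' (d+n)‖` for `d ≥ d₀` (ultrametric, `‖t_{d+1}‖ ≤ ‖t_d‖`); let
`n → ∞`: `‖α' d‖ ≤ C ‖t_d‖^M`.
-/

set_option linter.unusedSectionVars false

namespace Pool.Agent.ZQ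

open Polynomial Finset Filter

variable {p q : ℕ} {k L : Type*} [Field k] [NormedField L]
  [IsUltrametricDist L] (S : Setup p q k L)

/-- one step of the recursion for the coefficients -/
private noncomputable def rrStep {k : Type*} [Field k] (q : ℕ) (B H : PowerSeries k)
    (G : PowerSeries k) : PowerSeries k := B * sq q G + H

theorem rec_series {k : Type*} [Field k] (hq2 : 2 ≤ q) (B H : PowerSeries k)
    (hH : PowerSeries.constantCoeff H = 0) :
    ∃ G : PowerSeries k, PowerSeries.constantCoeff G = 0 ∧ G = B * sq q G + H := by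
  have hq : 0 < q := by omega
  have hmul : ∀ n, 1 ≤ n → n + 1 ≤ q * n := fun n hn => by nlinarith
  -- iterate the step
  let it : ℕ → PowerSeries k := fun n => (rrStep q B H)^[n] 0
  have it_succ : ∀ n, it (n + 1) = B * sq q (it n) + H := by
    intro n
    show (rrStep q B H)^[n + 1] 0 = _
    rw [Function.iterate_succ_apply']
    rfl
  have hc : ∀ n, PowerSeries.constantCoeff (it n) = 0 := by
    intro n
    induction n with
    | zero => show PowerSeries.constantCoeff (0 : PowerSeries k) = 0; simp
    | succ n ih =>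
      rw [it_succ, map_add, map_mul, sq_const hq.ne', ih, hH, mul_zero, add_zero]
  have hstep : ∀ n, PowerSeries.X ^ (n + 1) ∣ it (n + 1) - it n := by
    intro n
    induction n with
    | zero =>
      rw [zero_add, pow_one, PowerSeries.X_dvd_iff, map_sub, hc, hc, sub_zero]
    | succ n ih =>
      have h1 : it (n + 1 + 1) - it (n + 1) = B * sq q (it (n + 1) - it n) := by
        rw [it_succ (n + 1), sq_sub hq.ne']
        conv_lhs => rw [it_succ n]
        rw [it_succ n]
        ring
      rw [h1]
      exact ((pow_dvd_pow _ (hmul (n + 1) (by omega))).trans (sq_dvd hq.ne' ih)).mul_left B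
  have hstab : ∀ n m j, n < m → PowerSeries.coeff n (it (m + j)) = PowerSeries.coeff n (it m) := by
    intro n m j hnm
    induction j with
    | zero => rfl
    | succ j ih =>
      rw [← ih]
      have h1 := PowerSeries.X_pow_dvd_iff.1 (hstep (m + j)) n (by omega)
      rw [map_sub, sub_eq_zero] at h1
      exact h1
  let G : PowerSeries k := PowerSeries.mk fun n => PowerSeries.coeff n (it (n + 1))
  have hG : ∀ n m, n < m → PowerSeries.coeff n G = PowerSeries.coeff n (it m) := by
    intro n m hnm
    rw [PowerSeries.coeff_mk]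
    obtain ⟨j, rfl⟩ := Nat.exists_eq_add_of_le (Nat.succ_le_of_lt hnm)
    exact (hstab n (n + 1) j (Nat.lt_succ_self n)).symm
  have hdvd : ∀ m, PowerSeries.X ^ m ∣ G - it m := by
    intro m
    rw [PowerSeries.X_pow_dvd_iff]
    intro n hn
    rw [map_sub, hG n m hn, sub_self]
  refine ⟨G, ?_, ?_⟩
  · rw [← PowerSeries.coeff_zero_eq_constantCoeff_apply, hG 0 1 Nat.one_pos,
      PowerSeries.coeff_zero_eq_constantCoeff_apply, hc]
  · rw [← sub_eq_zero]
    ext n
    have h1 : G - (B * sq q G + H) = (G - it (n + 1)) - B * sq q (G - it n) := by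
      rw [sq_sub hq.ne', it_succ n]
      ring
    have h2 : PowerSeries.X ^ n ∣ sq q (G - it n) := by
      rcases Nat.eq_zero_or_pos n with rfl | hn
      · simp
      · exact (pow_dvd_pow _ (by have := hmul n hn; omega)).trans (sq_dvd hq.ne' (hdvd n))
    rcases Nat.eq_zero_or_pos n with rfl | hn
    · rw [PowerSeries.coeff_zero_eq_constantCoeff_apply, map_sub, map_add, map_mul, sq_const hq.ne']
      have h3 : PowerSeries.constantCoeff G = 0 := by
        rw [← PowerSeries.coeff_zero_eq_constantCoeff_apply, hG 0 1 Nat.one_pos,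
          PowerSeries.coeff_zero_eq_constantCoeff_apply, hc]
      rw [h3, hH]
      simp
    · have h4 : PowerSeries.X ^ (n + 1) ∣ sq q (G - it n) :=
        (pow_dvd_pow _ (hmul n hn)).trans (sq_dvd hq.ne' (hdvd n))
      have h5 : PowerSeries.X ^ (n + 1) ∣ G - (B * sq q G + H) := by
        rw [h1]
        exact dvd_sub (hdvd (n + 1)) (h4.mul_left B)
      rw [PowerSeries.X_pow_dvd_iff.1 h5 n (Nat.lt_succ_self n)]
      simp

namespace Setup

theorem rep_rec {α β η : ℕ → L} {B H : PowerSeries k} (hB : S.Rep β B) (hH : S.Rep η H)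
    (hB0 : ‖S.φ (PowerSeries.constantCoeff B)‖ ≤ 1) (hH0 : PowerSeries.constantCoeff H = 0)
    (hrec : ∀ᶠ d in atTop, α d = β d * α (d + 1) + η d) (hlim : Tendsto α atTop (nhds 0)) :
    ∃ G : PowerSeries k, S.Rep α G ∧ PowerSeries.constantCoeff G = 0 := by
  have hq2 := S.q_two
  have hq : 0 < q := by omega
  obtain ⟨G, hG0, hG⟩ := rec_series hq2 B H hH0
  refine ⟨G, ?_, hG0⟩
  -- it is enough to treat M ≥ 1
  have key : ∀ M : ℕ, 1 ≤ M → ∃ C : ℝ, ∀ᶠ d in atTop,
      ‖α d - S.φ ((PowerSeries.trunc M G).eval (S.t d))‖ ≤ C * ‖S.φ (S.t d)‖ ^ M := by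
    intro M hM
    set P : k[X] := PowerSeries.trunc M G with hP
    -- the polynomial P at t d and t (d+1)
    have hPd : S.Rep (fun d => S.φ (P.eval (S.t d))) (P : PowerSeries k) := S.rep_poly P
    have hPd1 : S.Rep (fun d => S.φ (P.eval (S.t (d + 1)))) (sq q (P : PowerSeries k)) :=
      S.rep_shift hPd
    have hneg : S.Rep (fun d => - S.φ (P.eval (S.t d))) (-(P : PowerSeries k)) := by
      have h1 := S.rep_mul (S.rep_C (-1 : k)) hPd
      refine (show (PowerSeries.C (-1 : k) * (P : PowerSeries k)) = -(P : PowerSeries k) by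
        rw [map_neg, map_one, neg_one_mul]) ▸ S.rep_congr h1 (Eventually.of_forall fun d => ?_)
      show S.φ (-1) * _ = _
      rw [map_neg, map_one, neg_one_mul]
    have hη' : S.Rep (fun d => η d + (β d * S.φ (P.eval (S.t (d + 1))) + - S.φ (P.eval (S.t d))))
        (H + (B * sq q (P : PowerSeries k) + -(P : PowerSeries k))) :=
      S.rep_add hH (S.rep_add (S.rep_mul hB hPd1) hneg)
    have hPG : PowerSeries.X ^ M ∣ (P : PowerSeries k) - G := by
      rw [PowerSeries.X_pow_dvd_iff]
      intro n hn
      rw [map_sub, Polynomial.coeff_coe, hP, PowerSeries.coeff_trunc, if_pos hn, sub_self]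
    have hdvd : PowerSeries.X ^ M ∣
        H + (B * sq q (P : PowerSeries k) + -(P : PowerSeries k)) := by
      have h1 : H + (B * sq q (P : PowerSeries k) + -(P : PowerSeries k)) =
          B * sq q ((P : PowerSeries k) - G) - ((P : PowerSeries k) - G) := by
        rw [sq_sub hq.ne']
        linear_combination (-1 : PowerSeries k) * hG
      rw [h1]
      exact dvd_sub (((pow_dvd_pow _ (Nat.le_mul_of_pos_left M hq)).trans
        (sq_dvd hq.ne' hPG)).mul_left B) hPG
    obtain ⟨C, hC⟩ := S.rep_dvd hη' hdvd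
    -- β is eventually of norm ≤ 1
    have hβ : ∀ᶠ d in atTop, ‖β d‖ ≤ 1 := by
      obtain ⟨C1, hC1⟩ := hB 1
      have h1 : PowerSeries.trunc 1 B = Polynomial.C (PowerSeries.constantCoeff B) := by
        ext n
        rw [PowerSeries.coeff_trunc, coeff_C]
        rcases Nat.eq_zero_or_pos n with rfl | hn
        · simp
        · rw [if_neg (by omega), if_neg (by omega)]
      have h2 : Tendsto (fun d => C1 * ‖S.φ (S.t d)‖ ^ 1) atTop (nhds 0) := by
        have := S.tendsto_t.const_mul C1
        simpa using this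
      have h3 : ∀ᶠ d in atTop, C1 * ‖S.φ (S.t d)‖ ^ 1 < 1 := h2.eventually (gt_mem_nhds one_pos)
      refine (hC1.and h3).mono fun d hd => ?_
      rw [h1, eval_C] at hd
      have h4 : ‖β d - S.φ (PowerSeries.constantCoeff B)‖ < 1 := hd.1.trans_lt hd.2
      have h5 : β d = (β d - S.φ (PowerSeries.constantCoeff B)) +
        S.φ (PowerSeries.constantCoeff B) := by ring
      rw [h5]
      refine (IsUltrametricDist.norm_add_le_max _ _).trans ?_
      exact max_le h4.le hB0
    -- the remainder tends to 0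
    have hP0 : Tendsto (fun d => S.φ (P.eval (S.t d))) atTop (nhds 0) := by
      have h1 : X ^ 1 ∣ P := by
        rw [X_pow_dvd_iff]
        intro n hn
        have : n = 0 := by omega
        subst this
        rw [hP, PowerSeries.coeff_trunc, if_pos (by omega),
          PowerSeries.coeff_zero_eq_constantCoeff_apply, hG0]
      obtain ⟨C1, hC1⟩ := S.poly_small h1
      rw [tendsto_zero_iff_norm_tendsto_zero]
      refine squeeze_zero (fun d => norm_nonneg _) hC1 ?_
      have := S.tendsto_t.const_mul C1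
      simpa using this
    set α' : ℕ → L := fun d => α d - S.φ (P.eval (S.t d)) with hα'
    have hα'0 : Tendsto (fun d => ‖α' d‖) atTop (nhds 0) := by
      have h1 : Tendsto α' atTop (nhds (0 - 0)) := hlim.sub hP0
      rw [sub_zero] at h1
      exact tendsto_zero_iff_norm_tendsto_zero.1 h1
    -- from some index on
    obtain ⟨d₀, hd₀⟩ := eventually_atTop.1 (hrec.and (hC.and hβ))
    refine ⟨max C 0, eventually_atTop.2 ⟨d₀, fun d hd => ?_⟩⟩
    have hstep : ∀ e, d₀ ≤ e → ‖α' e‖ ≤ max (max C 0 * ‖S.φ (S.t e)‖ ^ M) ‖α' (e + 1)‖ := by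
      intro e he
      obtain ⟨h1, h2, h3⟩ := hd₀ e he
      have h4 : α' e = β e * α' (e + 1) +
          (η e + (β e * S.φ (P.eval (S.t (e + 1))) + - S.φ (P.eval (S.t e)))) := by
        simp only [hα']
        rw [h1]
        ring
      rw [h4]
      refine (IsUltrametricDist.norm_add_le_max _ _).trans ?_
      rw [max_comm]
      refine max_le_max ?_ ?_
      · exact h2.trans (mul_le_mul_of_nonneg_right (le_max_left _ _)
          (pow_nonneg (norm_nonneg _) _))
      · rw [norm_mul]
        exact mul_le_of_le_one_left (norm_nonneg _) h3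
    have hn : ∀ n, ‖α' d‖ ≤ max (max C 0 * ‖S.φ (S.t d)‖ ^ M) ‖α' (d + n)‖ := by
      intro n
      induction n with
      | zero => exact le_max_right _ _
      | succ n ih =>
        refine ih.trans (max_le (le_max_left _ _) ?_)
        refine (hstep (d + n) (by omega)).trans (max_le_max ?_ le_rfl)
        refine mul_le_mul_of_nonneg_left (pow_le_pow_left₀ (norm_nonneg _) ?_ _) (le_max_right _ _)
        clear ih
        induction n with
        | zero => exact le_rfl
        | succ n ih => exact (S.norm_t_succ_le (d + n)).trans ih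
    have hlim2 : Tendsto (fun n => max (max C 0 * ‖S.φ (S.t d)‖ ^ M) ‖α' (d + n)‖) atTop
        (nhds (max (max C 0 * ‖S.φ (S.t d)‖ ^ M) 0)) := by
      refine Tendsto.max tendsto_const_nhds ?_
      have := hα'0.comp (tendsto_add_atTop_nat d)
      refine this.congr fun n => ?_
      simp only [Function.comp_apply]
      rw [add_comm]
    have hfin := ge_of_tendsto' hlim2 hn
    rwa [max_eq_left (mul_nonneg (le_max_right _ _) (pow_nonneg (norm_nonneg _) _))] at hfin
  intro M
  rcases Nat.eq_zero_or_pos M with rfl | hM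
  · have h0 : PowerSeries.trunc 0 G = 0 := by
      ext n
      simp
    refine ⟨1, ?_⟩
    have h1 : ∀ᶠ d in atTop, ‖α d‖ < 1 := by
      have h2 := tendsto_zero_iff_norm_tendsto_zero.1 hlim
      exact h2.eventually (gt_mem_nhds one_pos)
    refine h1.mono fun d hd => ?_
    rw [h0, eval_zero, map_zero, sub_zero, pow_zero, mul_one]
    exact hd.le
  · exact key M hM

end Setup

end Pool.Agent.ZQ
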