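import Pool.Agent.Work.MP_43901b_nt.HZg
import Pool.Agent.Work.MP_43901b_nt.HRepRec

/-!
# HGam (M-L): the power series of the normalised tails

(Model: helper29's `MP_b19acb_nt/Gam.lean`.)

`hn l d = φ(t_d)^N zg l d/φ(y_d)^σ`, `σ = l.sum`, `N = Nn q l = σ/(q-1)`; `Ep q l = σ % (q-1)`, so
`σ = (q-1) N + Ep`.
* `pt_eval`: `P_a(T_d) = T_d^(q n_a) P̃_a(t_d^q)`: `P_a = expand q R`, `R = contract q P_a`,
  `natDegree R ≤ n_a = (a-1)/(q-1)` (`Pp_expand`, `contract_expand`), `pt a = reflect n_a R`,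
  `R(x) = x^(n_a) (reflect n_a R)(1/x)` for `x = T_d^q`.
* `Ep'_spec`: `q (n_a + N(l)) + Ep' q n l = N(n :: l) + (n + l.sum)` and `Ep' ≥ 1` for `n ≥ 1`: put
  `n + σ' - 1 = (q-1) u + v`, `v ≤ q-2`: `n_a + N(l) ≤ u ≤ N(n::l)`, and
  `N(n::l) + n + σ' - q u = N(n::l) - u + v + 1 ≥ 1`.
* `hn_rec`, `d ≥ 1`: from `zg_succ`, `y_(d+1) = x_d`, `y_d = x_d (θ - T_d)`, `ps = x_d^n P_n(T_d)`:
  `zg (n::l) d / y_d^σ = (θ - T_d)^(-σ) [P_n(T_d) zg l (d+1)/y_(d+1)^(σ') + zg (n::l) (d+1)/y_(d+1)^σ]`,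
  `σ = n + σ'`; multiply by `t_d^N (θ t_d - 1)^σ = t_d^(N+σ) (θ - T_d)^σ` and use
  `hn l (d+1) = t_d^(q N') zg l (d+1)/y_(d+1)^(σ')` (`t_(d+1) = t_d^q`), `pt_eval`:
  `E(t_d)^σ hn (n::l) d = t_d^(Ep) hn (n::l) (d+1) + t_d^(Ep') P̃_n(t_d^q) hn l (d+1)`
  (`N + σ - q N = Ep`, as natural numbers `N + σ = q N + Ep`).
* `hn_tendsto`, `l ≠ []`: `‖hn l d‖ ≤ Θ^(-N q^d + σ σ_(d-1) - σ_d)` (`norm_zg`, `norm_yy`, `norm_t`), and
  `(q-1) N q^d + (q-1) σ_d - (q-1) σ σ_(d-1) = (q-1) N q^d + q^(d+1) - q - σ (q^d - q)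
   ≥ q^(d+1) - Ep q^d ≥ 2 q^d` up to `(σ-1) q ≥ 0` (`sg_mul`, `σ ≥ 1`, `Ep ≤ q-2`), so `hn l d → 0`.
* `exists_gam`: induction on `l`.  `[]`: `hn [] d = 1`, `G = 1`.  Step: `rep_rec` with
  `β d = φ(t_d^(Ep)/E(t_d)^σ)`, `B = X^(Ep) (E^σ)⁻¹` (`rep_poly`, `rep_inv`: `E` has constant coefficient
  `-1`; the constant coefficient of `B` is `0` or `(-1)^(-σ)`, of norm `≤ 1` under `φ`),
  `η d = φ(t_d^(Ep') P̃_n(t_(d+1))/E(t_d)^σ) hn l (d+1)` (`rep_shift`), constant coefficient 0 because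
  `Ep' ≥ 1`; `hn_tendsto`.
* `Gam l`: `Classical.choose` for `l` with positive entries, else 1 (as in the model).
* `gam_const`: the constant coefficient of `Gam l` is 0 for `l ≠ []` (not needed if awkward).
* `gam_fe`: both sides represent the same sequence (`hn_rec`), `rep_unique`.
-/

set_option autoImplicit false
set_option linter.unusedSectionVars false

namespace Pool.Agent.ZQ

open Polynomial Finset Filter

variable {p q : ℕ} {k L : Type*} [Field k] [NormedField L] [CompleteSpace L]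
  [IsUltrametricDist L] (S : Setup p q k L)

namespace Setup

theorem pt_eval (a : ℕ) (d : ℕ) :
    (Pp q S.θ a).eval (S.T d) = S.T d ^ (q * na q a) * (S.pt a).eval (S.t d ^ q) := by
  obtain ⟨R, hR, hdeg⟩ := Pp_expand S.isq S.θ a
  have hq : q ≠ 0 := S.isq.ne_zero
  have hq2 := S.q_two
  have hdeg' : R.natDegree ≤ na q a := by
    unfold na
    rw [Nat.le_div_iff_mul_le (by omega), mul_comm]
    exact hdeg
  have hpt : S.pt a = R.reflect (na q a) := by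
    unfold pt
    rw [hR, contract_expand q hq]
  have hx : S.T d ^ q ≠ 0 := pow_ne_zero _ (S.T_ne d)
  let _ : Invertible (S.T d ^ q) := invertibleOfNonzero hx
  have h1 := eval₂_reflect_mul_pow (RingHom.id k) (S.T d ^ q) (na q a) R hdeg'
  have h2 : ⅟(S.T d ^ q) = S.t d ^ q := by
    rw [invOf_eq_inv, S.t_eq, inv_pow]
  rw [h2] at h1
  rw [hR, expand_eval, hpt, pow_mul, mul_comm]
  exact h1.symm

theorem Ep_spec (l : List ℕ) : Nn q l + l.sum = q * Nn q l + Ep q l := by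
  unfold Nn Ep
  rcases Nat.eq_zero_or_pos q with rfl | hq
  · simp
  · have h := Nat.div_add_mod l.sum (q - 1)
    obtain ⟨m, rfl⟩ : ∃ m, q = m + 1 := ⟨q - 1, by omega⟩
    rw [Nat.add_sub_cancel] at h ⊢
    nlinarith [h]

theorem Ep'_spec (hq : 2 ≤ q) {n : ℕ} (hn : 1 ≤ n) (l : List ℕ) :
    q * (na q n + Nn q l) + Ep' q n l = Nn q (n :: l) + (n + l.sum) ∧ 1 ≤ Ep' q n l := by
  have key : q * (na q n + Nn q l) + 1 ≤ Nn q (n :: l) + (n + l.sum) := by
    unfold na Nn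
    rw [List.sum_cons]
    obtain ⟨m, rfl⟩ : ∃ m, q = m + 1 := ⟨q - 1, by omega⟩
    rw [Nat.add_sub_cancel]
    have h1 : (n - 1) / m + l.sum / m ≤ (n - 1 + l.sum) / m := Nat.div_add_div_le_add_div
    have h2 : (n - 1 + l.sum) / m ≤ (n + l.sum) / m := Nat.div_le_div_right (by omega)
    have h3 : m * ((n - 1 + l.sum) / m) ≤ n - 1 + l.sum := Nat.mul_div_le _ _
    have h4 : (m + 1) * ((n - 1) / m + l.sum / m) ≤ (m + 1) * ((n - 1 + l.sum) / m) :=
      Nat.mul_le_mul_left _ h1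
    have h5 : (m + 1) * ((n - 1 + l.sum) / m) =
        m * ((n - 1 + l.sum) / m) + (n - 1 + l.sum) / m := by ring
    omega
  unfold Ep'
  omega

theorem hn_nil (d : ℕ) : S.hn [] d = 1 := by
  unfold hn
  rw [zg, List.sum_nil, Nat.zero_div, pow_zero, pow_zero, div_one, one_mul]

private theorem hg_E (d : ℕ) : S.φ (S.E.eval (S.t d)) =
    S.φ (S.t d) * (S.φ S.θ - S.φ (S.T d)) := by
  have h := congrArg S.φ (S.T_mul_t d)
  rw [map_mul, map_one] at h
  unfold E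
  rw [eval_sub, eval_mul, eval_C, eval_X, eval_one, map_sub, map_mul, map_one]
  linear_combination (1 : L) * h

private theorem hg_yy (d : ℕ) : S.φ (yy q S.θ d) =
    S.φ (xx q S.θ d) * (S.φ S.θ - S.φ (S.T d)) := by
  unfold yy
  rw [map_mul, map_sub]
  rfl

private theorem hg_ne {d : ℕ} (hd : 1 ≤ d) : S.φ S.θ - S.φ (S.T d) ≠ 0 := by
  intro h
  have h1 := S.yy_ne hd
  apply h1
  apply S.φ.injective
  rw [S.hg_yy, h, mul_zero, map_zero]

private theorem hg_E_ne {d : ℕ} (hd : 1 ≤ d) : S.φ (S.E.eval (S.t d)) ≠ 0 := by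
  rw [S.hg_E]
  exact mul_ne_zero ((map_ne_zero S.φ).2 (S.t_ne d)) (S.hg_ne hd)

private theorem hg_alg {t T w x P z z' : L} {n s N M Q e e' a : ℕ} (ht : T * t = 1)
    (hw : w ≠ 0) (hx : x ≠ 0) (h1 : N + (n + s) = Q * N + e)
    (h2 : Q * (a + M) + e' = N + (n + s)) :
    (t * w) ^ (n + s) * (t ^ N * ((x ^ n * (T ^ (Q * a) * P) * z + z') / (x * w) ^ (n + s))) =
      t ^ e * ((t ^ Q) ^ N * (z' / x ^ (n + s))) +
        t ^ e' * P * ((t ^ Q) ^ M * (z / x ^ s)) := by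
  have e1 : t ^ e * (t ^ Q) ^ N = t ^ (N + (n + s)) := by
    rw [h1, ← pow_mul, ← pow_add, add_comm]
  have e2 : t ^ (N + (n + s)) * T ^ (Q * a) = t ^ e' * (t ^ Q) ^ M := by
    rw [← h2, mul_add, pow_add, pow_add, ← pow_mul]
    have h3 : T ^ (Q * a) * t ^ (Q * a) = 1 := by rw [← mul_pow, ht, one_pow]
    calc t ^ (Q * a) * t ^ (Q * M) * t ^ e' * T ^ (Q * a)
        = (T ^ (Q * a) * t ^ (Q * a)) * (t ^ e' * t ^ (Q * M)) := by ring
      _ = _ := by rw [h3, one_mul]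
  have e3 : x ^ (n + s) = x ^ n * x ^ s := pow_add _ _ _
  have hxn : x ^ n ≠ 0 := pow_ne_zero _ hx
  have hxs : x ^ s ≠ 0 := pow_ne_zero _ hx
  have hws : w ^ (n + s) ≠ 0 := pow_ne_zero _ hw
  have lhs : (t * w) ^ (n + s) * (t ^ N * ((x ^ n * (T ^ (Q * a) * P) * z + z') /
      (x * w) ^ (n + s))) = t ^ (N + (n + s)) * ((x ^ n * (T ^ (Q * a) * P) * z + z') /
      x ^ (n + s)) := by
    rw [mul_pow, mul_pow, pow_add t N]
    field_simp
  rw [lhs, ← mul_assoc (t ^ e), e1]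
  have r2 : t ^ e' * P * ((t ^ Q) ^ M * (z / x ^ s)) =
      (t ^ e' * (t ^ Q) ^ M) * (P * (z / x ^ s)) := by ring
  rw [r2, ← e2, e3]
  field_simp
  ring

theorem hn_rec {n : ℕ} {l : List ℕ} (hn : 1 ≤ n) (hl : ∀ a ∈ l, 1 ≤ a) {d : ℕ} (hd : 1 ≤ d) :
    S.φ (S.E.eval (S.t d)) ^ (n + l.sum) * S.hn (n :: l) d =
      S.φ (S.t d) ^ Ep q (n :: l) * S.hn (n :: l) (d + 1) +
        S.φ (S.t d) ^ Ep' q n l * S.φ ((S.pt n).eval (S.t d ^ q)) * S.hn l (d + 1) := by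
  have hT := congrArg S.φ (S.T_mul_t d)
  rw [map_mul, map_one] at hT
  have hx : S.φ (xx q S.θ d) ≠ 0 := (map_ne_zero S.φ).2 (xx_ne S.gen d)
  have h1 := Ep_spec (q := q) (n :: l)
  rw [List.sum_cons] at h1
  have h2 := (Ep'_spec S.q_two hn l).1
  have hps : S.φ (ps q S.θ d n) =
      S.φ (xx q S.θ d) ^ n * (S.φ (S.T d) ^ (q * na q n) * S.φ ((S.pt n).eval (S.t d ^ q))) := by
    unfold ps
    have h3 := S.pt_eval n d
    unfold T at h3
    rw [h3, map_mul, map_pow, map_mul, map_pow]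
    rfl
  have h := hg_alg (P := S.φ ((S.pt n).eval (S.t d ^ q))) (z := S.zg l (d + 1))
    (z' := S.zg (n :: l) (d + 1)) hT (S.hg_ne hd) hx h1 h2
  rw [← hps, ← S.zg_succ hn hl d, ← S.hg_E, ← S.hg_yy] at h
  unfold Setup.hn
  rw [yy_succ S.gen, S.t_succ, map_pow, List.sum_cons]
  unfold Nn at h
  rw [List.sum_cons] at h
  exact h

private theorem hg_nat {q : ℕ} (hq : 3 ≤ q) {s : ℕ} (hs : 1 ≤ s) (i : ℕ) :
    s * sg q i + (i + 1) ≤ s / (q - 1) * q ^ (i + 1) + sg q (i + 1) := by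
  obtain ⟨m, rfl⟩ : ∃ m, q = m + 1 := ⟨q - 1, by omega⟩
  have h1 := sg_mul (q := m + 1) (by omega) i
  have h2 := sg_mul (q := m + 1) (by omega) (i + 1)
  have h3 := Nat.div_add_mod s m
  have h4 : s % m < m := Nat.mod_lt _ (by omega)
  have h5 : i + 1 ≤ (m + 1) ^ i := Nat.succ_le_of_lt (Nat.lt_pow_self (by omega))
  rw [Nat.add_sub_cancel] at h1 h2 ⊢
  have hp1 : (m + 1) ^ (i + 1) = (m + 1) * (m + 1) ^ i := pow_succ' _ _
  have hp2 : (m + 1) ^ (i + 1 + 1) = (m + 1) * ((m + 1) * (m + 1) ^ i) := by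
    rw [pow_succ', hp1]
  rw [hp1] at h1 ⊢
  rw [hp2] at h2
  generalize (m + 1) ^ i = Q at h1 h2 h5 ⊢
  generalize sg (m + 1) i = A at h1 ⊢
  generalize sg (m + 1) (i + 1) = B at h2 ⊢
  generalize s / m = N at h3 ⊢
  generalize s % m = e at h3 h4
  have hm : 0 < m := by omega
  refine Nat.le_of_mul_le_mul_left ?_ hm
  -- everything multiplied by `m`
  have e1 : m * (s * A + (i + 1)) = s * (m * A) + m * (i + 1) := by ring
  have e2 : m * (N * ((m + 1) * Q) + B) = m * N * ((m + 1) * Q) + m * B := by ring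
  rw [e1, e2]
  have i1 : m * (i + 1) ≤ m * Q := Nat.mul_le_mul_left _ h5
  have i2 : (e + 1) * ((m + 1) * Q) ≤ m * ((m + 1) * Q) := Nat.mul_le_mul_right _ h4
  have i3 : m + 1 ≤ s * (m + 1) := Nat.le_mul_of_pos_left _ hs
  have j1 : s * (m * A) + s * (m + 1) = s * ((m + 1) * Q) := by rw [← mul_add, h1]
  have j2 : s * ((m + 1) * Q) = m * N * ((m + 1) * Q) + e * ((m + 1) * Q) := by
    rw [← add_mul, h3]
  have j3 : (e + 1) * ((m + 1) * Q) = e * ((m + 1) * Q) + (m + 1) * Q := by ring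
  have j4 : (m + 1) * ((m + 1) * Q) = m * ((m + 1) * Q) + (m + 1) * Q := by ring
  have j5 : (m + 1) * Q = m * Q + Q := by ring
  generalize s * (m * A) = a1 at *
  generalize m * N * ((m + 1) * Q) = a2 at *
  generalize m * B = a3 at *
  generalize e * ((m + 1) * Q) = a4 at *
  generalize (m + 1) * ((m + 1) * Q) = a5 at *
  generalize s * ((m + 1) * Q) = a6 at *
  generalize (e + 1) * ((m + 1) * Q) = a7 at *
  generalize m * ((m + 1) * Q) = a8 at *
  generalize (m + 1) * Q = a9 at *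
  generalize m * Q = a10 at *
  generalize m * (i + 1) = a11 at *
  generalize s * (m + 1) = a12 at *
  omega

theorem hn_tendsto (hq : 3 ≤ q) {l : List ℕ} (hl : ∀ a ∈ l, 1 ≤ a) (hne : l ≠ []) :
    Tendsto (S.hn l) atTop (nhds 0) := by
  have hΘ : 1 < ‖S.φ S.θ‖ := S.hθ
  have hΘ0 : 0 < ‖S.φ S.θ‖ := zero_lt_one.trans hΘ
  have hs : 1 ≤ l.sum := by
    obtain ⟨a, t, rfl⟩ := List.exists_cons_of_ne_nil hne
    rw [List.sum_cons]
    have := hl a List.mem_cons_self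
    omega
  rw [tendsto_zero_iff_norm_tendsto_zero]
  refine squeeze_zero' (Eventually.of_forall fun d => norm_nonneg _) ?_
    (tendsto_pow_atTop_nhds_zero_of_lt_one S.tb_q.1.le S.tb_q.2)
  filter_upwards [eventually_ge_atTop 1] with d hd
  obtain ⟨i, rfl⟩ : ∃ i, d = i + 1 := ⟨d - 1, by omega⟩
  have h1 := S.norm_zg hl hne (i + 1)
  have h2 := S.norm_yy (d := i + 1) (by omega)
  rw [Nat.add_sub_cancel] at h2
  have h3 := S.norm_t (i + 1)
  have h4 := hg_nat hq hs i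
  unfold hn
  rw [norm_mul, norm_pow, norm_div, norm_pow, h2, h3]
  have hA : (‖S.φ S.θ‖⁻¹ ^ q ^ (i + 1)) ^ (l.sum / (q - 1)) =
      (‖S.φ S.θ‖ ^ (l.sum / (q - 1) * q ^ (i + 1)))⁻¹ := by
    rw [← pow_mul, inv_pow, mul_comm]
  have hB : ((‖S.φ S.θ‖ ^ sg q i)⁻¹) ^ l.sum = (‖S.φ S.θ‖ ^ (l.sum * sg q i))⁻¹ := by
    rw [inv_pow, ← pow_mul, mul_comm]
  rw [hA, hB, div_inv_eq_mul, inv_pow]
  have hpos : ∀ j : ℕ, 0 < ‖S.φ S.θ‖ ^ j := fun j => pow_pos hΘ0 j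
  calc (‖S.φ S.θ‖ ^ (l.sum / (q - 1) * q ^ (i + 1)))⁻¹ *
        (‖S.zg l (i + 1)‖ * ‖S.φ S.θ‖ ^ (l.sum * sg q i))
      ≤ (‖S.φ S.θ‖ ^ (l.sum / (q - 1) * q ^ (i + 1)))⁻¹ *
        ((‖S.φ S.θ‖ ^ sg q (i + 1))⁻¹ * ‖S.φ S.θ‖ ^ (l.sum * sg q i)) := by
        refine mul_le_mul_of_nonneg_left (mul_le_mul_of_nonneg_right h1 (hpos _).le)
          (inv_nonneg.2 (hpos _).le)
    _ = ‖S.φ S.θ‖ ^ (l.sum * sg q i) *
        (‖S.φ S.θ‖ ^ (l.sum / (q - 1) * q ^ (i + 1) + sg q (i + 1)))⁻¹ := by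
        rw [pow_add ‖S.φ S.θ‖ (l.sum / (q - 1) * q ^ (i + 1)) (sg q (i + 1)), mul_inv]
        ring
    _ ≤ ‖S.φ S.θ‖ ^ (l.sum * sg q i) *
        (‖S.φ S.θ‖ ^ (l.sum * sg q i + (i + 1)))⁻¹ := by
        refine mul_le_mul_of_nonneg_left ?_ (hpos _).le
        exact inv_anti₀ (hpos _) (pow_le_pow_right₀ hΘ.le h4)
    _ = (‖S.φ S.θ‖ ^ (i + 1))⁻¹ := by
        rw [pow_add, mul_inv, ← mul_assoc, mul_inv_cancel₀ (hpos _).ne', one_mul]

private theorem hg_one : S.Rep (fun _ => (1 : L)) 1 := by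
  have h := S.rep_C 1
  rw [map_one, map_one] at h
  exact h

private theorem hg_E0 (m : ℕ) : PowerSeries.constantCoeff
    ((S.E ^ m : k[X]) : PowerSeries k) = (-1) ^ m := by
  rw [← PowerSeries.coeff_zero_eq_constantCoeff_apply, Polynomial.coeff_coe,
    coeff_zero_eq_eval_zero]
  unfold E
  simp

private theorem hg_repE (m : ℕ) : S.Rep (fun d => S.φ (S.E.eval (S.t d)) ^ m)
    ((S.E ^ m : k[X]) : PowerSeries k) := by
  refine S.rep_congr (S.rep_poly (S.E ^ m)) (Eventually.of_forall fun d => ?_)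
  rw [eval_pow, map_pow]

private theorem hg_repX (m : ℕ) : S.Rep (fun d => S.φ (S.t d) ^ m)
    ((X ^ m : k[X]) : PowerSeries k) := by
  refine S.rep_congr (S.rep_poly (X ^ m)) (Eventually.of_forall fun d => ?_)
  rw [eval_pow, eval_X, map_pow]

private theorem hg_repP (m n : ℕ) : S.Rep
    (fun d => S.φ (S.t d) ^ m * S.φ ((S.pt n).eval (S.t d ^ q)))
    ((X ^ m * expand k q (S.pt n) : k[X]) : PowerSeries k) := by
  refine S.rep_congr (S.rep_poly (X ^ m * expand k q (S.pt n)))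
    (Eventually.of_forall fun d => ?_)
  rw [eval_mul, eval_pow, eval_X, expand_eval, map_mul, map_pow]

theorem exists_gam (hq : 3 ≤ q) {l : List ℕ} (hl : ∀ a ∈ l, 1 ≤ a) :
    ∃ G : PowerSeries k, S.Rep (S.hn l) G := by
  induction l with
  | nil => exact ⟨1, S.rep_congr S.hg_one (Eventually.of_forall fun d => (S.hn_nil d).symm)⟩
  | cons n l ih =>
    have hn := hl n List.mem_cons_self
    have hl' : ∀ a ∈ l, 1 ≤ a := fun b hb => hl b (List.mem_cons_of_mem n hb)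
    obtain ⟨G, hG⟩ := ih hl'
    have hc0 : PowerSeries.constantCoeff ((S.E ^ (n + l.sum) : k[X]) : PowerSeries k) ≠ 0 := by
      rw [S.hg_E0]
      exact pow_ne_zero _ (neg_ne_zero.2 one_ne_zero)
    have hinv := S.rep_inv (S.hg_repE (n + l.sum)) hc0
    have hB := S.rep_mul (S.hg_repX (Ep q (n :: l))) hinv
    have hH := S.rep_mul (S.rep_mul (S.hg_repP (Ep' q n l) n) (S.rep_shift hG)) hinv
    have hEp' := (Ep'_spec (by omega : 2 ≤ q) hn l).2
    obtain ⟨G', hG', -⟩ := S.rep_rec (α := S.hn (n :: l)) hB hH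
      (by
        rw [map_mul, PowerSeries.constantCoeff_inv, S.hg_E0,
          ← PowerSeries.coeff_zero_eq_constantCoeff_apply, Polynomial.coeff_coe, coeff_X_pow]
        split_ifs with h
        · rw [one_mul, map_inv₀, map_pow, map_neg, map_one, norm_inv, norm_pow, norm_neg,
            norm_one, one_pow, inv_one]
        · rw [zero_mul, map_zero, norm_zero]
          exact zero_le_one)
      (by
        rw [map_mul, map_mul]
        have : PowerSeries.constantCoeff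
            ((X ^ Ep' q n l * expand k q (S.pt n) : k[X]) : PowerSeries k) = 0 := by
          rw [← PowerSeries.coeff_zero_eq_constantCoeff_apply, Polynomial.coeff_coe,
            mul_coeff_zero, coeff_X_pow, if_neg (by omega), zero_mul]
        rw [this, zero_mul, zero_mul])
      (by
        filter_upwards [eventually_ge_atTop 1] with d hd
        have h := S.hn_rec hn hl' hd
        have hE : S.φ (S.E.eval (S.t d)) ^ (n + l.sum) ≠ 0 := pow_ne_zero _ (S.hg_E_ne hd)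
        rw [← mul_right_inj' hE, h]
        generalize S.φ (S.E.eval (S.t d)) ^ (n + l.sum) = w at hE
        field_simp)
      (S.hn_tendsto hq hl (List.cons_ne_nil n l))
    exact ⟨G', hG'⟩

open Classical in
/-- the power series of the normalised tail -/
noncomputable def Gam (l : List ℕ) : PowerSeries k :=
  if h : l ≠ [] ∧ ∃ G : PowerSeries k, S.Rep (S.hn l) G then h.2.choose else 1

theorem gam_nil : S.Gam [] = 1 := by
  unfold Gam
  rw [dif_neg fun h => h.1 rfl]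

theorem gam_rep (hq : 3 ≤ q) {l : List ℕ} (hl : ∀ a ∈ l, 1 ≤ a) : S.Rep (S.hn l) (S.Gam l) := by
  by_cases hne : l = []
  · subst hne
    rw [S.gam_nil]
    exact S.rep_congr S.hg_one (Eventually.of_forall fun d => (S.hn_nil d).symm)
  · have h : l ≠ [] ∧ ∃ G : PowerSeries k, S.Rep (S.hn l) G := ⟨hne, S.exists_gam hq hl⟩
    unfold Gam
    rw [dif_pos h]
    exact h.2.choose_spec

theorem gam_fe (hq : 3 ≤ q) {n : ℕ} {l : List ℕ} (hn : 1 ≤ n) (hl : ∀ a ∈ l, 1 ≤ a) :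
    ((S.E ^ (n + l.sum) : k[X]) : PowerSeries k) * S.Gam (n :: l) =
      ((X ^ Ep q (n :: l) : k[X]) : PowerSeries k) * sq q (S.Gam (n :: l)) +
        ((X ^ Ep' q n l * expand k q (S.pt n) : k[X]) : PowerSeries k) * sq q (S.Gam l) := by
  have hnl : ∀ a ∈ n :: l, 1 ≤ a := fun b hb => by
    rcases List.mem_cons.1 hb with rfl | hb
    · exact hn
    · exact hl b hb
  have h1 := S.rep_mul (S.hg_repE (n + l.sum)) (S.gam_rep hq hnl)
  have h2 := S.rep_add (S.rep_mul (S.hg_repX (Ep q (n :: l))) (S.rep_shift (S.gam_rep hq hnl)))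
    (S.rep_mul (S.hg_repP (Ep' q n l) n) (S.rep_shift (S.gam_rep hq hl)))
  refine S.rep_unique h1 (S.rep_congr h2 ?_)
  filter_upwards [eventually_ge_atTop 1] with d hd
  exact (S.hn_rec hn hl hd).symm

end Setup

end Pool.Agent.ZQ
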