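import Pool.Agent.Work.MP_43901b_nt.HRepB

/-!
# HRat (M): rational solutions of `Z(d+1) = (θ - T_d)^w Z(d) + h(T_d)` are polynomials

(Model: helper29's `MP_b19acb_nt/RatPoly.lean`.)

* `poly_eq_of_T`: two polynomials which agree at `T_d` for all large `d` are equal (`T_inj`, infinitely
  many points).  `polyT_ne`: `M ≠ 0` implies `M(T_d) ≠ 0` for all large `d`.
* `t_to_T`: for `n ≥ natDegree Q`: `R = Q.reflect n` satisfies `R(T_d) = T_d^n Q(t_d)` (`t_d = 1/T_d`;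
  `Polynomial.eval₂_reflect_..` or coefficientwise), and `R ≠ 0` if `Q ≠ 0`.
* `rat_poly`: divide `M`, `N` by their gcd (its value at `T_d` is nonzero for large `d`): we may assume
  `IsCoprime N M`.  For large `d` (`M(T_d), M(T_(d+1)) ≠ 0`), `T_(d+1) = T_d^q`:
  `N(T_d^q) M(T_d) = M(T_d^q) ((θ-T_d)^w N(T_d) + h(T_d) M(T_d))`, so
  `expand q N * M = expand q M * ((C θ - X)^w N + h M)`.  `IsCoprime (expand q N) (expand q M)`
  (`isCoprime_expand`), so `expand q M ∣ M`, `q natDegree M ≤ natDegree M`, `M` is a nonzero constant;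
  `f = N/M`: `Z d = f(T_d)` for large `d`, and the identity is the equation for `f`.
-/

set_option linter.unusedSectionVars false

namespace Pool.Agent.ZQ

open Polynomial Finset Filter

variable {p q : ℕ} {k L : Type*} [Field k] [NormedField L]
  [IsUltrametricDist L] (S : Setup p q k L)

namespace Setup

private theorem hr_ne {P : k[X]} (hP : P ≠ 0) : ∀ᶠ d in atTop, P.eval (S.T d) ≠ 0 := by
  classical
  have h1 : {d : ℕ | P.eval (S.T d) = 0}.Finite := by
    have h2 : {d : ℕ | P.eval (S.T d) = 0} = S.T ⁻¹' (↑P.roots.toFinset : Set k) := by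
      ext d
      simp [hP]
    rw [h2]
    exact (Finset.finite_toSet _).preimage S.T_inj.injOn
  have h2 := h1.compl_mem_cofinite
  rw [Nat.cofinite_eq_atTop] at h2
  exact h2

theorem poly_eq_of_T {P Q : k[X]} (h : ∀ᶠ d in atTop, P.eval (S.T d) = Q.eval (S.T d)) :
    P = Q := by
  by_contra hne
  have h1 := S.hr_ne (sub_ne_zero.2 hne)
  obtain ⟨d, h2, h3⟩ := (h.and h1).exists
  rw [eval_sub, h2, sub_self] at h3
  exact h3 rfl

theorem polyT_ne {M : k[X]} (hM : M ≠ 0) : ∀ᶠ d in atTop, M.eval (S.T d) ≠ 0 := S.hr_ne hM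

theorem t_to_T (Q : k[X]) {n : ℕ} (hn : Q.natDegree ≤ n) : ∃ R : k[X],
    (∀ d, R.eval (S.T d) = S.T d ^ n * Q.eval (S.t d)) ∧ (Q ≠ 0 → R ≠ 0) := by
  set R : k[X] := ∑ i ∈ range (n + 1), C (Q.coeff i) * X ^ (n - i) with hR
  have hev : ∀ d, R.eval (S.T d) = S.T d ^ n * Q.eval (S.t d) := by
    intro d
    rw [hR, eval_finsetSum, eval_eq_sum_range' (Nat.lt_succ_of_le hn), Finset.mul_sum]
    refine Finset.sum_congr rfl fun i hi => ?_
    rw [eval_mul, eval_C, eval_pow, eval_X]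
    have hi' : i ≤ n := by
      rw [Finset.mem_range] at hi
      omega
    have h2 : S.T d ^ n = S.T d ^ (n - i) * S.T d ^ i := by
      rw [← pow_add, Nat.sub_add_cancel hi']
    have h3 : S.T d ^ i * S.t d ^ i = 1 := by
      rw [← mul_pow, S.T_mul_t, one_pow]
    rw [h2]
    linear_combination (-1) * Q.coeff i * S.T d ^ (n - i) * h3
  refine ⟨R, hev, fun hQ hR0 => ?_⟩
  obtain ⟨d, hd⟩ := (S.poly_ne hQ).exists
  have h1 := hev d
  rw [hR0, eval_zero] at h1
  exact mul_ne_zero (pow_ne_zero _ (S.T_ne d)) hd h1.symm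

private theorem hr_coprime {M N : k[X]} (hM : M ≠ 0) : ∃ g M' N' : k[X], g ≠ 0 ∧ M = g * M' ∧
    N = g * N' ∧ IsCoprime N' M' := by
  classical
  set g := EuclideanDomain.gcd M N with hg
  obtain ⟨M', hM'⟩ := EuclideanDomain.gcd_dvd_left M N
  obtain ⟨N', hN'⟩ := EuclideanDomain.gcd_dvd_right M N
  have hg0 : g ≠ 0 := by
    intro h
    rw [← hg, h, zero_mul] at hM'
    exact hM hM'
  refine ⟨g, M', N', hg0, hM', hN', ?_⟩
  have h1 := EuclideanDomain.gcd_eq_gcd_ab M N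
  refine ⟨EuclideanDomain.gcdB M N, EuclideanDomain.gcdA M N, ?_⟩
  apply mul_left_cancel₀ hg0
  have h2 : g = g * M' * EuclideanDomain.gcdA M N + g * N' * EuclideanDomain.gcdB M N := by
    conv_lhs => rw [hg, h1]
    rw [← hM', ← hN']
  calc g * (EuclideanDomain.gcdB M N * N' + EuclideanDomain.gcdA M N * M') =
      g * M' * EuclideanDomain.gcdA M N + g * N' * EuclideanDomain.gcdB M N := by ring
    _ = g := h2.symm
    _ = g * 1 := (mul_one g).symm

theorem rat_poly {w : ℕ} {h : k[X]} {Z : ℕ → k} {M N : k[X]} (hM : M ≠ 0)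
    (h1 : ∀ᶠ d in atTop, Z d * M.eval (S.T d) = N.eval (S.T d))
    (h2 : ∀ᶠ d in atTop, Z (d + 1) = (S.θ - S.T d) ^ w * Z d + h.eval (S.T d)) :
    ∃ f : k[X], expand k q f = (C S.θ - X) ^ w * f + h ∧ ∀ᶠ d in atTop, Z d = f.eval (S.T d) := by
  obtain ⟨g, M₂, N₂, hg, hgM, hgN, hcop⟩ := hr_coprime (N := N) hM
  have hM₂0 : M₂ ≠ 0 := by
    rintro rfl
    rw [mul_zero] at hgM
    exact hM hgM
  have h3 : ∀ᶠ d in atTop, Z d * M₂.eval (S.T d) = N₂.eval (S.T d) := by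
    filter_upwards [h1, S.hr_ne hg] with d hd hgd
    rw [hgM, hgN, eval_mul, eval_mul] at hd
    apply mul_left_cancel₀ hgd
    linear_combination hd
  have hT : ∀ (P : k[X]) (d : ℕ), (expand k q P).eval (S.T d) = P.eval (S.T (d + 1)) := by
    intro P d
    rw [expand_eval, S.T_succ]
  have hid : expand k q N₂ * M₂ = expand k q M₂ * ((C S.θ - X) ^ w * N₂ + h * M₂) := by
    apply S.poly_eq_of_T
    have h3' := (tendsto_add_atTop_nat 1).eventually h3
    filter_upwards [h3, h3', h2] with d hd hd' hd2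
    rw [eval_mul, eval_mul, hT, hT, eval_add, eval_mul, eval_mul, eval_pow, eval_sub, eval_C,
      eval_X, ← hd', ← hd, hd2]
    ring
  have hcop2 : IsCoprime (expand k q N₂) (expand k q M₂) := by
    have := hcop.map (expand k q : k[X] →ₐ[k] k[X]).toRingHom
    simpa using this
  have hdvd : expand k q M₂ ∣ M₂ := by
    refine hcop2.symm.dvd_of_dvd_mul_left ?_
    rw [hid]
    exact dvd_mul_right _ _
  have hM₂deg : M₂.natDegree = 0 := by
    have e1 := natDegree_le_of_dvd hdvd hM₂0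
    rw [natDegree_expand] at e1
    have h2q := S.q_two
    by_contra hne
    have : M₂.natDegree * 2 ≤ M₂.natDegree * q := Nat.mul_le_mul_left _ h2q
    omega
  obtain ⟨m, hm⟩ : ∃ m, M₂ = C m := ⟨M₂.coeff 0, eq_C_of_natDegree_eq_zero hM₂deg⟩
  have hm0 : m ≠ 0 := by
    rintro rfl
    rw [C_0] at hm
    exact hM₂0 hm
  obtain ⟨f, hf⟩ : ∃ f : k[X], f = C m⁻¹ * N₂ := ⟨_, rfl⟩
  have hN₂ : N₂ = C m * f := by
    rw [hf, ← mul_assoc, ← C_mul, mul_inv_cancel₀ hm0, C_1, one_mul]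
  refine ⟨f, ?_, ?_⟩
  · have hCm : (C m : k[X]) ≠ 0 := by rwa [Ne, C_eq_zero]
    rw [hm, hN₂, map_mul, expand_C] at hid
    apply mul_left_cancel₀ (mul_ne_zero hCm hCm)
    linear_combination hid
  · filter_upwards [h3] with d hd
    rw [hm, hN₂, eval_mul, eval_C] at hd
    apply mul_right_cancel₀ hm0
    linear_combination hd

/-- the same with a quotient of polynomials in `t_d` -/
theorem rat_poly_t {w : ℕ} {h : k[X]} {Z : ℕ → k} {M N : k[X]} {n₁ n₂ : ℕ} (hM : M ≠ 0)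
    (h1 : ∀ᶠ d in atTop, Z d * (M.eval (S.t d) * S.t d ^ n₁) = N.eval (S.t d) * S.t d ^ n₂)
    (h2 : ∀ᶠ d in atTop, Z (d + 1) = (S.θ - S.T d) ^ w * Z d + h.eval (S.T d)) :
    ∃ f : k[X], expand k q f = (C S.θ - X) ^ w * f + h ∧ ∀ᶠ d in atTop, Z d = f.eval (S.T d) := by
  have hMX : M * X ^ n₁ ≠ 0 := mul_ne_zero hM (pow_ne_zero _ X_ne_zero)
  obtain ⟨M₁, hM₁, hM₁0⟩ := S.t_to_T (M * X ^ n₁)
    (le_max_left (M * X ^ n₁).natDegree (N * X ^ n₂).natDegree)
  obtain ⟨N₁, hN₁, -⟩ := S.t_to_T (N * X ^ n₂)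
    (le_max_right (M * X ^ n₁).natDegree (N * X ^ n₂).natDegree)
  refine S.rat_poly (N := N₁) (hM₁0 hMX) ?_ h2
  filter_upwards [h1] with d hd
  rw [hM₁, hN₁, eval_mul, eval_mul, eval_pow, eval_pow, eval_X, ← hd]
  ring

end Setup

end Pool.Agent.ZQ
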