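import Pool.Agent.Work.MP_43901b_nt.HRepB

/-!
# HRelRec (M): a relation satisfies the transposed functional equation

(Model: helper29's `MP_b19acb_nt/RelRec.lean`, `q = 2`.)

`sq_indep`: write `b_j = Σ_{r<q} X^r expand q (b_{j,r})` (`b_{j,r}` has the coefficients
`b_j.coeff (q n + r)`).  The part of `Σ b_j sq Γ_j = 0` with exponents `≡ r mod q` is
`X^r Σ_j sq (b_{j,r} Γ_j) = 0` (`sq_mul`, `sq_coe`; compare the coefficients of index `q n + r`), `sq` is
injective, so `Σ_j b_{j,r} Γ_j = 0` and all `b_{j,r} = 0`.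

`rel_rec`: multiply `Σ_{j≤r} Q_j Γ_j = 0` by `E^(σ r)` and insert `hfe` for `j ≥ 1`, and `Γ_0 = 1 = sq Γ_0`,
`σ 0 = 0`, `ε 0 = 0` for `j = 0`: `Σ_{j≤r} c_j sq Γ_j = 0` with `c_r = Q_r X^(ε r)` and
`c_j = Q_j E^(σ r - σ j) X^(ε j) + Q_{j+1} E^(σ r - σ (j+1)) B_{j+1}` for `j < r`.
Applying `sq` to the relation: `Σ_{j≤r} expand q (Q_j) sq Γ_j = 0`.  Multiply the first by
`expand q Q_r`, the second by `c_r`, subtract: only `j < r` remain, so by `sq_indep`
`expand q Q_r * c_j = c_r * expand q Q_j`.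
-/

set_option linter.unusedSectionVars false

namespace Pool.Agent.ZQ

open Polynomial Finset

variable {k : Type*} [Field k] {q : ℕ}

/-- the part of `P` with exponents `≡ r mod q` -/
private noncomputable def rr_p (q r : ℕ) (P : k[X]) : k[X] :=
  ∑ i ∈ range (P.natDegree + 1), C (P.coeff (q * i + r)) * X ^ i

private theorem rr_p_coeff (hq : 1 ≤ q) (r : ℕ) (P : k[X]) (n : ℕ) :
    (rr_p q r P).coeff n = P.coeff (q * n + r) := by
  unfold rr_p
  rw [finsetSum_coeff]
  simp only [coeff_C_mul, coeff_X_pow, mul_ite, mul_one, mul_zero]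
  rw [Finset.sum_ite_eq]
  split_ifs with h
  · rfl
  · rw [Finset.mem_range] at h
    have h1 : n ≤ q * n := Nat.le_mul_of_pos_left n hq
    exact (coeff_eq_zero_of_natDegree_lt (by omega)).symm

private theorem rr_dvd (hq : 1 ≤ q) {m r r' : ℕ} (hr : r < q) (hr' : r' < q)
    (hle : r' ≤ q * m + r) (hd : q ∣ q * m + r - r') : r = r' := by
  obtain ⟨c, hc⟩ := hd
  have h1 : q * m + r = q * c + r' := by omega
  have h2 : (q * m + r) % q = (q * c + r') % q := by rw [h1]
  rwa [Nat.mul_add_mod, Nat.mul_add_mod, Nat.mod_eq_of_lt hr, Nat.mod_eq_of_lt hr'] at h2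

private theorem rr_split (hq : 1 ≤ q) (P : k[X]) :
    P = ∑ r ∈ range q, X ^ r * expand k q (rr_p q r P) := by
  ext n
  rw [finsetSum_coeff]
  have hn : q * (n / q) + n % q = n := Nat.div_add_mod n q
  have hlt : n % q < q := Nat.mod_lt n hq
  rw [Finset.sum_eq_single (n % q)]
  · rw [coeff_X_pow_mul', if_pos (Nat.mod_le n q), coeff_expand hq]
    have h1 : n - n % q = q * (n / q) := by omega
    rw [h1, if_pos (dvd_mul_right q _), Nat.mul_div_cancel_left _ hq, rr_p_coeff hq, hn]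
  · intro r hr hne
    rw [coeff_X_pow_mul']
    split_ifs with h1
    · rw [coeff_expand hq]
      split_ifs with h2
      · exfalso
        rw [← hn] at h1 h2
        exact hne (rr_dvd hq hlt (mem_range.1 hr) h1 h2).symm
      · rfl
    · rfl
  · intro h
    exact absurd (mem_range.2 hlt) h

private theorem rr_coeff (hq : 1 ≤ q) (H : PowerSeries k) {m r r' : ℕ} (hr : r < q)
    (hr' : r' < q) : PowerSeries.coeff (q * m + r) (PowerSeries.X ^ r' * sq q H) =
      if r' = r then PowerSeries.coeff m H else 0 := by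
  rw [PowerSeries.coeff_X_pow_mul']
  split_ifs with h1 h2 h2
  · subst h2
    rw [Nat.add_sub_cancel, sq_coeff_mul (by omega)]
  · exact sq_coeff_ne H fun hd => h2 (rr_dvd hq hr hr' h1 hd).symm
  · omega
  · rfl

theorem sq_indep (hq : 2 ≤ q) {r : ℕ} {Γ : ℕ → PowerSeries k}
    (h : ∀ Q : ℕ → k[X], ∑ j ∈ range r, (Q j : PowerSeries k) * Γ j = 0 → ∀ j < r, Q j = 0)
    (b : ℕ → k[X]) (hb : ∑ j ∈ range r, (b j : PowerSeries k) * sq q (Γ j) = 0) :
    ∀ j < r, b j = 0 := by
  have hq0 : q ≠ 0 := by omega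
  have hq1 : 1 ≤ q := by omega
  have h1 : ∀ j, (b j : PowerSeries k) * sq q (Γ j) =
      ∑ s ∈ range q, PowerSeries.X ^ s * sq q (((rr_p q s (b j) : k[X]) : PowerSeries k) * Γ j) := by
    intro j
    conv_lhs => rw [rr_split hq1 (b j)]
    have e1 : ((∑ s ∈ range q, X ^ s * expand k q (rr_p q s (b j)) : k[X]) : PowerSeries k) =
        ∑ s ∈ range q, PowerSeries.X ^ s *
          ((expand k q (rr_p q s (b j)) : k[X]) : PowerSeries k) := by
      have := map_sum (Polynomial.coeToPowerSeries.ringHom (R := k))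
        (fun s => X ^ s * expand k q (rr_p q s (b j))) (range q)
      simp only [Polynomial.coeToPowerSeries.ringHom_apply] at this
      rw [this]
      refine Finset.sum_congr rfl fun s _ => ?_
      rw [Polynomial.coe_mul, Polynomial.coe_pow, Polynomial.coe_X]
    rw [e1, Finset.sum_mul]
    refine Finset.sum_congr rfl fun s _ => ?_
    rw [sq_mul hq0, sq_coe hq0]
    ring
  have h2 : ∀ s < q, ∀ j < r, rr_p q s (b j) = 0 := by
    intro s hs
    refine h (fun j => rr_p q s (b j)) ?_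
    ext m
    have h3 := congrArg (PowerSeries.coeff (q * m + s)) hb
    rw [map_zero, map_sum] at h3
    rw [map_zero, map_sum, ← h3]
    refine Finset.sum_congr rfl fun j _ => ?_
    rw [h1 j, map_sum, Finset.sum_eq_single s]
    · rw [rr_coeff hq1 _ hs hs, if_pos rfl]
    · intro s' hs' hne
      rw [rr_coeff hq1 _ hs (mem_range.1 hs'), if_neg hne]
    · intro hn
      exact absurd (mem_range.2 hs) hn
  intro j hj
  rw [rr_split hq1 (b j)]
  refine Finset.sum_eq_zero fun s hs => ?_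
  rw [h2 s (mem_range.1 hs) j hj, map_zero, mul_zero]

theorem rel_rec (hq : 2 ≤ q) {r : ℕ} {Γ : ℕ → PowerSeries k} {E : k[X]} {B : ℕ → k[X]}
    {σ ε : ℕ → ℕ} (hσ0 : σ 0 = 0) (hε0 : ε 0 = 0) (hσ : Monotone σ) (hΓ0 : Γ 0 = 1)
    (hfe : ∀ j < r, ((E ^ σ (j + 1) : k[X]) : PowerSeries k) * Γ (j + 1) =
      ((X ^ ε (j + 1) : k[X]) : PowerSeries k) * sq q (Γ (j + 1)) +
        ((B (j + 1) : k[X]) : PowerSeries k) * sq q (Γ j))
    (h : ∀ Q : ℕ → k[X], ∑ j ∈ range r, (Q j : PowerSeries k) * Γ j = 0 → ∀ j < r, Q j = 0)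
    (Q : ℕ → k[X]) (hQ : ∑ j ∈ range (r + 1), (Q j : PowerSeries k) * Γ j = 0) {j : ℕ}
    (hj : j < r) :
    expand k q (Q r) * (Q j * E ^ (σ r - σ j) * X ^ ε j +
      Q (j + 1) * E ^ (σ r - σ (j + 1)) * B (j + 1)) = Q r * X ^ ε r * expand k q (Q j) := by
  have hq0 : q ≠ 0 := by omega
  -- first relation
  have h1 : ∑ i ∈ range r, (((Q i * E ^ (σ r - σ i) * X ^ ε i + Q (i + 1) *
      E ^ (σ r - σ (i + 1)) * B (i + 1) : k[X]) : PowerSeries k)) * sq q (Γ i) +
      ((Q r * X ^ ε r : k[X]) : PowerSeries k) * sq q (Γ r) = 0 := by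
    have e1 : ∑ i ∈ range (r + 1), ((E ^ σ r : k[X]) : PowerSeries k) *
        ((Q i : PowerSeries k) * Γ i) = 0 := by
      rw [← Finset.mul_sum, hQ, mul_zero]
    have e2 : ∑ i ∈ range (r + 1), ((E ^ σ r : k[X]) : PowerSeries k) *
        ((Q i : PowerSeries k) * Γ i) =
        ∑ i ∈ range (r + 1), ((Q i * E ^ (σ r - σ i) * X ^ ε i : k[X]) : PowerSeries k) *
          sq q (Γ i) +
        ∑ i ∈ range r, ((Q (i + 1) * E ^ (σ r - σ (i + 1)) * B (i + 1) : k[X]) :
          PowerSeries k) * sq q (Γ i) := by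
      rw [Finset.sum_range_succ', Finset.sum_range_succ' (fun i =>
        ((Q i * E ^ (σ r - σ i) * X ^ ε i : k[X]) : PowerSeries k) * sq q (Γ i)), add_right_comm,
        ← Finset.sum_add_distrib]
      congr 1
      · refine Finset.sum_congr rfl fun i hi => ?_
        have hi' := Finset.mem_range.1 hi
        have hle : σ (i + 1) ≤ σ r := hσ (by omega)
        have e3 : (E ^ σ r : k[X]) = E ^ (σ r - σ (i + 1)) * E ^ σ (i + 1) := by
          rw [← pow_add]
          congr 1
          omega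
        rw [e3]
        have e4 := hfe i hi'
        simp only [Polynomial.coe_mul] at e4 ⊢
        linear_combination ((Q (i + 1) : k[X]) : PowerSeries k) *
          ((E ^ (σ r - σ (i + 1)) : k[X]) : PowerSeries k) * e4
      · rw [hσ0, hΓ0, sq_one hq0, Nat.sub_zero, hε0, pow_zero, mul_one, mul_one, mul_one,
          Polynomial.coe_mul]
        ring
    rw [e2, Finset.sum_range_succ, Nat.sub_self, pow_zero, mul_one, add_right_comm,
      ← Finset.sum_add_distrib] at e1
    rw [← e1]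
    congr 1
    refine Finset.sum_congr rfl fun i _ => ?_
    simp only [Polynomial.coe_mul, Polynomial.coe_add]
    ring
  -- second relation
  have h2 : ∑ i ∈ range r, ((expand k q (Q i) : k[X]) : PowerSeries k) * sq q (Γ i) +
      ((expand k q (Q r) : k[X]) : PowerSeries k) * sq q (Γ r) = 0 := by
    have e1 := congrArg (sq q) hQ
    rw [sq_sum hq0, sq_zero hq0, Finset.sum_range_succ, sq_mul hq0, sq_coe hq0] at e1
    rw [← e1]
    congr 1
    refine Finset.sum_congr rfl fun i _ => ?_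
    rw [sq_mul hq0, sq_coe hq0]
  -- combination
  have h3 : ∑ i ∈ range r, (((expand k q (Q r) * (Q i * E ^ (σ r - σ i) * X ^ ε i + Q (i + 1) *
      E ^ (σ r - σ (i + 1)) * B (i + 1)) - Q r * X ^ ε r * expand k q (Q i) : k[X]) :
      PowerSeries k)) * sq q (Γ i) = 0 := by
    have e1 : ∑ i ∈ range r, (((expand k q (Q r) * (Q i * E ^ (σ r - σ i) * X ^ ε i +
        Q (i + 1) * E ^ (σ r - σ (i + 1)) * B (i + 1)) - Q r * X ^ ε r * expand k q (Q i) :
        k[X]) : PowerSeries k)) * sq q (Γ i) =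
        ((expand k q (Q r) : k[X]) : PowerSeries k) * ∑ i ∈ range r, (((Q i *
          E ^ (σ r - σ i) * X ^ ε i + Q (i + 1) * E ^ (σ r - σ (i + 1)) * B (i + 1) : k[X]) :
          PowerSeries k)) * sq q (Γ i) -
        ((Q r * X ^ ε r : k[X]) : PowerSeries k) *
          ∑ i ∈ range r, ((expand k q (Q i) : k[X]) : PowerSeries k) * sq q (Γ i) := by
      rw [Finset.mul_sum, Finset.mul_sum, ← Finset.sum_sub_distrib]
      refine Finset.sum_congr rfl fun i _ => ?_
      simp only [Polynomial.coe_sub, Polynomial.coe_mul]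
      ring
    rw [e1]
    linear_combination ((expand k q (Q r) : k[X]) : PowerSeries k) * h1 -
      ((Q r * X ^ ε r : k[X]) : PowerSeries k) * h2
  have h4 := sq_indep hq h (fun i => expand k q (Q r) * (Q i * E ^ (σ r - σ i) * X ^ ε i +
    Q (i + 1) * E ^ (σ r - σ (i + 1)) * B (i + 1)) - Q r * X ^ ε r * expand k q (Q i)) h3 j hj
  exact sub_eq_zero.1 h4

end Pool.Agent.ZQ
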