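import Pool.Agent.Work.MP_43901b_nt.HGam
import Pool.Agent.Work.MP_43901b_nt.HRelRec
import Pool.Agent.Work.MP_43901b_nt.HRat
import Pool.Agent.Work.MP_43901b_nt.HDen

/-!
# HIndep (L): the power series of the tails are linearly independent over `k[X]`

(Model: helper29's `MP_b19acb_nt/Indep.lean`.)  `hT1` is the hypothesis that a telescoping tuple has a
polynomial of degree `w/(q-1)` (proved elsewhere).

Induction on `r = s.length`.  `r = 0`: `Gam [] = 1`.  `r ≥ 1`: `l_j = (s.take j).reverse`,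
`Γ j = Gam l_j`, `σ j = (s.take j).sum`, `ε j = Ep q l_j`, `N_j = Nn q l_j`.  By induction (for
`s.take (r-1)`) the `Γ j`, `j < r`, are independent.  Assume `Σ_{j≤r} Q_j Γ_j = 0` with `Q_r ≠ 0`
(otherwise done by induction).
(1) `rel_rec` with `E = S.E`, `B (j+1) = X^(Ep' q s_j l_j) * expand q (pt s_j)`
(`l_(j+1) = s_j :: l_j`, `gam_fe`), `σ 0 = 0`, `ε 0 = 0`.
(2) Let `R_j d = Q_j(t_d) t_d^(N_j) / (Q_r(t_d) t_d^(N_r))` (for large `d` the denominator is `≠ 0`).
Evaluate (1) at `t_d`: `expand q Q (t_d) = Q(t_(d+1))`, `E(t_d) = t_d (θ - T_d)`,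
`(pt s_j)(t_d^q) = t_d^(q n) P_(s_j)(T_d)`, `n = na q s_j` (`pt_eval`).  With `w_j = σ r - σ j = (s.drop j).sum`,
all powers of `t_d` cancel (`Ep_spec`, `Ep'_spec`): for `j < r` and large `d`
`R_j (d+1) = (θ-T_d)^(w_j) R_j d + P_(s_j)(T_d) (θ-T_d)^(w_(j+1)) R_(j+1) d`.
[Exponents of `t_d` after multiplication: with `Q_j(t_d) = q_j t_d^(-N_j)` the three terms have the
exponents `-q N_r - N_j + w_j + ε_j = σ_r - q N_r - q N_j`,
`-q N_r - N_(j+1) + w_(j+1) + Ep' + q n = σ_r - q N_r - q N_j` and `-N_r + ε_r - q N_j = σ_r - q N_r - q N_j`.]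
(3) Downward induction on `j ≤ r`: there is `f_j` with `TelF q θ (s.drop j) f_j` and `R_j d = f_j(T_d)` for
large `d`: `j = r`: `f = 1`; step: `rat_poly_t` with `h = P_(s_j) (C θ - X)^(w_(j+1)) f_(j+1)`.
(4) `Σ_j φ(Q_j(t_d)) hn l_j d` is `Small` (it is represented by `Σ Q_j Γ_j = 0`); it equals, for large `d`,
`φ(Q_r(t_d) t_d^(N_r)) Σ_j φ(R_j d) zg l_j d/φ(y_d)^(σ_j)`, and `R_j d = f_j(T_d) = rho (s.drop j) d`
(`SS_tel`), so the sum is `zeta s / φ(y_d)^(σ_r)` (`split`), and `‖φ(y_d)‖ ≤ 1`.  So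
`φ(Q_r(t_d) t_d^(N_r)) * zeta s` is `Small`; by `poly_lower` (polynomial `Q_r X^(N_r)`) `zeta s = 0`.
(5) `zeta_ne_of_tel` (with `f_0` and `hT1`): contradiction.
-/

set_option linter.unusedSectionVars false

namespace Pool.Agent.ZQ

open Polynomial Finset Filter

variable {p q : ℕ} {k L : Type*} [Field k] [NormedField L] [CompleteSpace L]
  [IsUltrametricDist L] (S : Setup p q k L)

namespace Setup

/-- the property (T1) of the setting -/
def T1 : Prop := ∀ (s : List ℕ) (f : k[X]), (∀ a ∈ s, 1 ≤ a) → TelF q S.θ s f →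
  (q - 1) * f.natDegree = s.sum

private theorem sigma_mono (s : List ℕ) : Monotone fun j => (s.take j).sum := by
  refine monotone_nat_of_le_succ fun j => ?_
  by_cases hj : j < s.length
  · rw [List.take_succ_eq_append_getElem hj, List.sum_append]
    omega
  · rw [List.take_of_length_le (by omega), List.take_of_length_le (by omega)]

private theorem rev_take (s : List ℕ) {j : ℕ} (hj : j < s.length) :
    (s.take (j + 1)).reverse = s[j] :: (s.take j).reverse := by
  rw [List.take_succ_eq_append_getElem hj, List.reverse_append]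
  rfl

private theorem E_eval (d : ℕ) : S.E.eval (S.t d) = S.t d * (S.θ - S.T d) := by
  have h := S.T_mul_t d
  simp only [E, eval_sub, eval_mul, eval_C, eval_X, eval_one]
  linear_combination h

private theorem pt_t (a d : ℕ) : (S.pt a).eval (S.t d ^ q) =
    S.t d ^ (q * na q a) * (Pp q S.θ a).eval (S.T d) := by
  rw [S.pt_eval, ← mul_assoc, ← mul_pow, mul_comm (S.t d), S.T_mul_t, one_pow, one_mul]

private theorem step_alg {K : Type*} [Field K] {t T θ P Qr Qr' Qj Qj' Qj1 : K}
    {q Nr Nj N1 σr σj σ1 wj w1 εj εr Ep' n : ℕ} (ht : t ≠ 0) (hQr : Qr ≠ 0) (hQr' : Qr' ≠ 0)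
    (e1 : Nr + σr = q * Nr + εr) (e2 : Nj + σj = q * Nj + εj)
    (e3 : q * (n + Nj) + Ep' = N1 + σ1) (e4 : σj + wj = σr) (e5 : σ1 + w1 = σr)
    (h : Qr' * (Qj * (t * (θ - T)) ^ wj * t ^ εj +
      Qj1 * (t * (θ - T)) ^ w1 * (t ^ Ep' * (t ^ (q * n) * P))) = Qr * t ^ εr * Qj') :
    (Qj' * (t ^ q) ^ Nj) / (Qr' * (t ^ q) ^ Nr) =
      (θ - T) ^ wj * ((Qj * t ^ Nj) / (Qr * t ^ Nr)) +
        P * ((θ - T) ^ w1 * ((Qj1 * t ^ N1) / (Qr * t ^ Nr))) := by
  have ht' : t ^ q ≠ 0 := pow_ne_zero _ ht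
  have h1 : Qr' * (t ^ q) ^ Nr ≠ 0 := mul_ne_zero hQr' (pow_ne_zero _ ht')
  have h2 : Qr * t ^ Nr ≠ 0 := mul_ne_zero hQr (pow_ne_zero _ ht)
  have h3 : (θ - T) ^ wj * ((Qj * t ^ Nj) / (Qr * t ^ Nr)) +
        P * ((θ - T) ^ w1 * ((Qj1 * t ^ N1) / (Qr * t ^ Nr))) =
      ((θ - T) ^ wj * (Qj * t ^ Nj) + P * ((θ - T) ^ w1 * (Qj1 * t ^ N1))) / (Qr * t ^ Nr) := by
    rw [add_div]
    ring
  rw [h3, div_eq_div_iff h1 h2]
  apply mul_left_cancel₀ (pow_ne_zero σr ht)
  have x1 : t ^ σr * t ^ Nr * (t ^ q) ^ Nj = t ^ (q * Nj + q * Nr) * t ^ εr := by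
    rw [← pow_mul, ← pow_add, ← pow_add, ← pow_add]
    congr 1
    omega
  have x2 : t ^ σr * t ^ Nj * (t ^ q) ^ Nr = t ^ (q * Nj + q * Nr) * (t ^ wj * t ^ εj) := by
    rw [← pow_mul, ← pow_add, ← pow_add, ← pow_add, ← pow_add]
    congr 1
    omega
  have x3 : t ^ σr * t ^ N1 * (t ^ q) ^ Nr =
      t ^ (q * Nj + q * Nr) * (t ^ w1 * (t ^ Ep' * t ^ (q * n))) := by
    rw [← pow_mul, ← pow_add, ← pow_add, ← pow_add, ← pow_add, ← pow_add]
    congr 1
    rw [mul_add] at e3
    omega
  rw [mul_pow, mul_pow] at h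
  calc t ^ σr * (Qj' * (t ^ q) ^ Nj * (Qr * t ^ Nr))
      = Qj' * Qr * (t ^ σr * t ^ Nr * (t ^ q) ^ Nj) := by ring
    _ = t ^ (q * Nj + q * Nr) * (Qr * t ^ εr * Qj') := by rw [x1]; ring
    _ = (θ - T) ^ wj * Qj * Qr' * (t ^ (q * Nj + q * Nr) * (t ^ wj * t ^ εj)) +
        P * (θ - T) ^ w1 * Qj1 * Qr' *
          (t ^ (q * Nj + q * Nr) * (t ^ w1 * (t ^ Ep' * t ^ (q * n)))) := by rw [← h]; ring
    _ = _ := by rw [← x2, ← x3]; ring

/-- a constant which is small is zero -/
private theorem eq_zero_of_small {P : k[X]} (hP : P ≠ 0) {z : L}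
    (h : S.Small fun d => S.φ (P.eval (S.t d)) * z) : z = 0 := by
  obtain ⟨n, c, hc, hlow⟩ := S.poly_lower hP
  obtain ⟨C, hC⟩ := h (n + 1)
  by_contra hz
  have hz' : 0 < ‖z‖ := norm_pos_iff.mpr hz
  have h1 : ∀ᶠ d in atTop, c * ‖z‖ ≤ C * ‖S.φ (S.t d)‖ := by
    filter_upwards [hlow, hC] with d h2 h3
    rw [norm_mul] at h3
    have h4 := S.norm_t_pos d
    have h5 : c * ‖S.φ (S.t d)‖ ^ n * ‖z‖ ≤ C * ‖S.φ (S.t d)‖ ^ (n + 1) :=
      (mul_le_mul_of_nonneg_right h2 hz'.le).trans h3
    have h6 : 0 < ‖S.φ (S.t d)‖ ^ n := pow_pos h4 n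
    rw [pow_succ] at h5
    have h7 : (c * ‖z‖) * ‖S.φ (S.t d)‖ ^ n ≤ (C * ‖S.φ (S.t d)‖) * ‖S.φ (S.t d)‖ ^ n := by
      linarith
    exact le_of_mul_le_mul_right h7 h6
  have h2 : Tendsto (fun d => C * ‖S.φ (S.t d)‖) atTop (nhds (C * 0)) :=
    S.tendsto_t.const_mul C
  rw [mul_zero] at h2
  have h3 := ge_of_tendsto h2 h1
  have h4 := mul_pos hc hz'
  linarith

private theorem indep_aux (hq : 3 ≤ q) (hT1 : S.T1) : ∀ (r : ℕ) (s : List ℕ), s.length = r →
    (∀ a ∈ s, 1 ≤ a) → ∀ Q : ℕ → k[X],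
    ∑ j ∈ range (r + 1), (Q j : PowerSeries k) * S.Gam (s.take j).reverse = 0 →
    ∀ j < r + 1, Q j = 0 := by
  intro r
  induction r with
  | zero =>
    intro s hr hs Q h j hj
    have hj0 : j = 0 := by omega
    subst hj0
    rw [zero_add, Finset.sum_range_one, List.take_zero, List.reverse_nil, S.gam_nil,
      mul_one] at h
    exact Polynomial.coe_eq_zero_iff.mp h
  | succ r ih =>
    intro s hr hs Q h
    have hq2 : 2 ≤ q := by omega
    have hposl : ∀ j, ∀ a ∈ (s.take j).reverse, 1 ≤ a := by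
      intro j a ha
      exact hs a (List.mem_of_mem_take (List.mem_reverse.mp ha))
    have hind : ∀ Q : ℕ → k[X], ∑ j ∈ range (r + 1), (Q j : PowerSeries k) *
        S.Gam (s.take j).reverse = 0 → ∀ j < r + 1, Q j = 0 := by
      intro Q hQ
      refine ih (s.take r) (by rw [List.length_take]; omega)
        (fun a ha => hs a (List.mem_of_mem_take ha)) Q ?_
      rw [← hQ]
      refine Finset.sum_congr rfl fun j hj => ?_
      rw [List.take_take, min_eq_left (by rw [Finset.mem_range] at hj; omega)]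
    by_cases hQr : Q (r + 1) = 0
    · rw [Finset.sum_range_succ, hQr, Polynomial.coe_zero, zero_mul, add_zero] at h
      intro j hj
      rcases Nat.lt_succ_iff_lt_or_eq.mp hj with h1 | h1
      · exact hind Q h j h1
      · rw [h1]; exact hQr
    exfalso
    -- the transposed recursion
    have hrr := fun (j : ℕ) (hj : j < r + 1) => rel_rec (q := q) hq2 (r := r + 1)
      (Γ := fun j => S.Gam (s.take j).reverse) (E := S.E)
      (B := fun m => X ^ Ep' q (s.getD (m - 1) 0) (s.take (m - 1)).reverse *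
        expand k q (S.pt (s.getD (m - 1) 0)))
      (σ := fun j => (s.take j).sum) (ε := fun j => Ep q (s.take j).reverse)
      (by simp) (by simp [Ep]) (sigma_mono s)
      (by simp only [List.take_zero, List.reverse_nil, S.gam_nil])
      (by
        intro j hj
        have hj' : j < s.length := by omega
        have h1 := S.gam_fe hq (n := s[j]) (l := (s.take j).reverse)
          (hs _ (List.getElem_mem hj')) (hposl j)
        simp only [Nat.add_sub_cancel]
        rw [List.getD_eq_getElem _ _ hj', rev_take s hj']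
        have hsum : (s.take (j + 1)).sum = s[j] + (s.take j).reverse.sum := by
          rw [List.sum_reverse, List.take_succ_eq_append_getElem hj', List.sum_append]
          simp [add_comm]
        rw [hsum]
        exact h1)
      hind Q h hj
    set N : ℕ → ℕ := fun j => Nn q (s.take j).reverse with hN
    set Z : ℕ → ℕ → k := fun j d => ((Q j).eval (S.t d) * S.t d ^ N j) /
      ((Q (r + 1)).eval (S.t d) * S.t d ^ N (r + 1)) with hZ
    have hne := S.poly_ne hQr
    have hne' : ∀ᶠ d in atTop, (Q (r + 1)).eval (S.t (d + 1)) ≠ 0 :=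
      (tendsto_add_atTop_nat 1).eventually hne
    have hsplit : ∀ j, (s.take j).sum + (s.drop j).sum = s.sum := by
      intro j
      rw [← List.sum_append, List.take_append_drop]
    have htop : (s.take (r + 1)).sum = s.sum := by rw [List.take_of_length_le (by omega)]
    have hrec : ∀ (j : ℕ) (hj : j < r + 1), ∀ᶠ d in atTop,
        Z j (d + 1) = (S.θ - S.T d) ^ (s.drop j).sum * Z j d +
          (Pp q S.θ (s[j]'(by omega))).eval (S.T d) *
            ((S.θ - S.T d) ^ (s.drop (j + 1)).sum * Z (j + 1) d) := by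
      intro j hj
      filter_upwards [hne, hne'] with d h1 h2
      have hjl : j < s.length := by omega
      have h3 := hrr j hj
      simp only [Nat.add_sub_cancel] at h3
      rw [List.getD_eq_getElem _ _ hjl] at h3
      have hev := congrArg (Polynomial.eval (S.t d)) h3
      simp only [eval_mul, eval_add, eval_pow, eval_X, Polynomial.expand_eval] at hev
      rw [S.E_eval, S.pt_t] at hev
      have w1 : (s.take (r + 1)).sum - (s.take j).sum = (s.drop j).sum := by
        have := hsplit j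
        omega
      have w2 : (s.take (r + 1)).sum - (s.take (j + 1)).sum = (s.drop (j + 1)).sum := by
        have := hsplit (j + 1)
        omega
      rw [w1, w2] at hev
      have e1 := Ep_spec (q := q) (s.take (r + 1)).reverse
      have e2 := Ep_spec (q := q) (s.take j).reverse
      have e3 := (Ep'_spec (q := q) hq2 (hs _ (List.getElem_mem hjl)) (s.take j).reverse).1
      have e6 : s[j] + (s.take j).reverse.sum = (s.take (j + 1)).sum := by
        rw [List.sum_reverse, List.take_succ_eq_append_getElem hjl, List.sum_append]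
        simp [add_comm]
      rw [← rev_take s hjl, e6] at e3
      rw [List.sum_reverse] at e1 e2
      rw [htop] at e1
      simp only [hZ, S.t_succ]
      rw [S.t_succ] at h2
      exact step_alg (S.t_ne d) h1 h2 e1 e2 e3 (hsplit j) (hsplit (j + 1)) hev
    have hZm : ∀ j, ∀ᶠ d in atTop, Z j d * ((Q (r + 1)).eval (S.t d) * S.t d ^ N (r + 1)) =
        (Q j).eval (S.t d) * S.t d ^ N j := by
      intro j
      filter_upwards [hne] with d h1
      simp only [hZ]
      exact div_mul_cancel₀ _ (mul_ne_zero h1 (pow_ne_zero _ (S.t_ne d)))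
    have hdown : ∀ m ≤ r + 1, ∃ f : k[X], TelF q S.θ (s.drop (r + 1 - m)) f ∧
        ∀ᶠ d in atTop, Z (r + 1 - m) d = f.eval (S.T d) := by
      intro m
      induction m with
      | zero =>
        intro _
        have hd0 : s.drop (r + 1) = [] := List.drop_eq_nil_of_le (by omega)
        rw [Nat.sub_zero, hd0]
        refine ⟨1, rfl, ?_⟩
        filter_upwards [hne] with d h1
        simp only [hZ]
        rw [eval_one]
        exact div_self (mul_ne_zero h1 (pow_ne_zero _ (S.t_ne d)))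
      | succ m ihm =>
        intro hm
        obtain ⟨g, ih1, ih2⟩ := ihm (by omega)
        set j := r + 1 - (m + 1) with hjdef
        have hj1 : r + 1 - m = j + 1 := by omega
        rw [hj1] at ih1 ih2
        have hj : j < r + 1 := by omega
        have hjl : j < s.length := by omega
        have hdrop : s.drop j = s[j] :: s.drop (j + 1) := List.drop_eq_getElem_cons hjl
        have hW : (s.drop j).sum = s[j] + (s.drop (j + 1)).sum := by
          rw [hdrop, List.sum_cons]
        obtain ⟨f, hf1, hf2⟩ := S.rat_poly_t (w := (s.drop j).sum)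
          (h := Pp q S.θ s[j] * ((C S.θ - X) ^ (s.drop (j + 1)).sum * g)) (Z := Z j)
          (M := Q (r + 1)) (N := Q j) (n₁ := N (r + 1)) (n₂ := N j) hQr (hZm j) (by
            filter_upwards [hrec j hj, ih2] with d h1 h2
            rw [h1, h2]
            simp only [eval_mul, eval_pow, eval_sub, eval_C, eval_X])
        refine ⟨f, ?_, hf2⟩
        rw [hdrop]
        refine ⟨g, ih1, ?_⟩
        rw [hf1, hW]
    have hall : ∀ j ≤ r + 1, ∃ f : k[X], TelF q S.θ (s.drop j) f ∧
        ∀ᶠ d in atTop, Z j d = f.eval (S.T d) := by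
      intro j hj
      have := hdown (r + 1 - j) (by omega)
      rwa [show r + 1 - (r + 1 - j) = j by omega] at this
    have hZS : ∀ j ≤ r + 1, ∀ᶠ d in atTop, Z j d * yy q S.θ d ^ (s.drop j).sum =
        SS q S.θ (s.drop j) d := by
      intro j hj
      obtain ⟨f, hf1, hf2⟩ := hall j hj
      filter_upwards [hf2] with d h1
      rw [h1, SS_tel S.gen (fun a ha => hs a (List.mem_of_mem_drop ha)) hf1 d, mul_comm]
      rfl
    -- the value is zero
    have hzero : S.zeta s = 0 := by
      have hsm : S.Small fun d => ∑ j ∈ range (r + 2), S.φ ((Q j).eval (S.t d)) *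
          S.hn (s.take j).reverse d := by
        rw [← S.rep_small, ← h]
        exact S.rep_sum _ fun j _ => S.rep_mul (S.rep_poly _) (S.gam_rep hq (hposl j))
      have hsm2 : S.Small fun d => S.φ (yy q S.θ d) ^ s.sum *
          ∑ j ∈ range (r + 2), S.φ ((Q j).eval (S.t d)) * S.hn (s.take j).reverse d := by
        refine S.small_mul hsm ⟨1, ?_⟩
        filter_upwards [eventually_ge_atTop 1] with d hd
        rw [norm_pow, S.norm_yy hd]
        refine pow_le_one₀ (inv_nonneg.2 (pow_nonneg (norm_nonneg _) _)) ?_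
        exact inv_le_one_of_one_le₀ (one_le_pow₀ S.hθ.le)
      refine S.eq_zero_of_small (P := Q (r + 1) * X ^ N (r + 1))
        (mul_ne_zero hQr (pow_ne_zero _ X_ne_zero)) ?_
      intro M
      obtain ⟨C, hC⟩ := hsm2 M
      refine ⟨C, ?_⟩
      have hall1 : ∀ᶠ d in atTop, ∀ j ∈ range (r + 2),
          Z j d * yy q S.θ d ^ (s.drop j).sum = SS q S.θ (s.drop j) d := by
        rw [Filter.eventually_all_finset]
        intro j hj
        exact hZS j (by rw [Finset.mem_range] at hj; omega)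
      have hall2 : ∀ᶠ d in atTop, ∀ j ∈ range (r + 2),
          Z j d * ((Q (r + 1)).eval (S.t d) * S.t d ^ N (r + 1)) =
            (Q j).eval (S.t d) * S.t d ^ N j := by
        rw [Filter.eventually_all_finset]
        intro j _
        exact hZm j
      filter_upwards [hC, hall1, hall2, eventually_ge_atTop 1] with d h1 h2 h3 h4
      refine le_trans (le_of_eq ?_) h1
      congr 1
      rw [← S.split hs d, Finset.mul_sum, Finset.mul_sum, hr]
      refine Finset.sum_congr rfl fun j hj => ?_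
      have hy : S.φ (yy q S.θ d) ≠ 0 := by
        rw [_root_.map_ne_zero]
        exact S.yy_ne h4
      have hsum : s.sum = (s.take j).reverse.sum + (s.drop j).sum := by
        rw [List.sum_reverse, hsplit]
      have h5 : S.φ ((Q j).eval (S.t d)) * S.φ (S.t d) ^ N j =
          S.φ (Z j d) * S.φ ((Q (r + 1) * X ^ N (r + 1)).eval (S.t d)) := by
        rw [← map_pow, ← map_mul, ← h3 j hj, map_mul, eval_mul, eval_pow, eval_X]
      have h6 : S.hn (s.take j).reverse d = S.φ (S.t d) ^ N j * (S.zg (s.take j).reverse d /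
          S.φ (yy q S.θ d) ^ (s.take j).reverse.sum) := rfl
      rw [← h2 j hj, h6]
      have h7 : S.φ ((Q j).eval (S.t d)) * (S.φ (S.t d) ^ N j * (S.zg (s.take j).reverse d /
          S.φ (yy q S.θ d) ^ (s.take j).reverse.sum)) =
          S.φ (Z j d) * S.φ ((Q (r + 1) * X ^ N (r + 1)).eval (S.t d)) *
          (S.zg (s.take j).reverse d / S.φ (yy q S.θ d) ^ (s.take j).reverse.sum) := by
        rw [← h5]
        ring
      rw [h7, hsum, pow_add, map_mul, map_pow]
      field_simp
    -- but it is not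
    obtain ⟨f, hf1, -⟩ := hall 0 (by omega)
    rw [List.drop_zero] at hf1
    exact S.zeta_ne_of_tel hs hf1 (hT1 s f hs hf1) hzero

theorem indep (hq : 3 ≤ q) (hT1 : S.T1) {s : List ℕ} (hs : ∀ a ∈ s, 1 ≤ a) (Q : ℕ → k[X])
    (h : ∑ j ∈ range (s.length + 1), (Q j : PowerSeries k) * S.Gam (s.take j).reverse = 0) :
    ∀ j ≤ s.length, Q j = 0 := fun j hj =>
  S.indep_aux hq hT1 s.length s rfl hs Q h j (by omega)

end Setup

end Pool.Agent.ZQ
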