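import Pool.Agent.Work.MP_43901b_nt.HIndep
import Pool.Agent.Work.MP_43901b_nt.HLift

/-!
# HMain (M-L): a zeta-like tuple satisfies the algebraic equations

(Model: helper29's `MP_b19acb_nt/MainT.lean`.)  `r = s.length ≥ 1`, `w = s.sum`, `l_j = (s.take j).reverse`,
`σ_j = l_j.sum`, `w_j = (s.drop j).sum`, `w = σ_j + w_j`, `N_j = Nn q l_j`, `N = Nn q [w] = w/(q-1) = N_r`.

Index set `range (r+2)`.  For `1 ≤ j ≤ r`: `ρ_j d = rho (s.drop j) d * T_d^(N_j)`, `g_j = hn l_j`,
`G_j = Gam l_j`.  `j = 0`: `ρ_0 d = rho s d - c rho [w] d`, `g_0 = 1`, `G_0 = 1 = Gam []` (`N_0 = 0`).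
`j = r+1`: `ρ d = - c T_d^N`, `g = hn [w]`, `G = Gam [w]`.
For `d ≥ 1`: `φ(T_d^(N_j)) hn l_j d = zg l_j d/φ(y_d)^(σ_j)`, so `Σ φ(ρ_j d) g_j d = φ(y_d)^(-w)
(Σ_{j≤r} zg l_j d φ(SS (s.drop j) d) - φ c (φ(SS [w] d) + zg [w] d)) = φ(y_d)^(-w) (zeta s - φ c zeta [w]) = 0`
(`split` for `s` and for `[w]`).  `den_*`, `gro_*` (`HDen`), `gam_rep`.  `lift`: for large `d` there is a
relation `Q^d` (`Σ_{j ≤ r+1} Q_j G_j = 0`) with `ρ_j d = Q^d_j(t_d)`.
Fix one such `d₁` and `P = Q^{d₁}`; `P_r ≠ 0` as `ρ_r d = T_d^N ≠ 0` (`rho [] = 1`; `r ≥ 1`).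
For any relation `Q`: `Q_(r+1) P - P_(r+1) Q` has no component `r+1`, so by `indep`
`Q_(r+1) P_j = P_(r+1) Q_j` for all `j ≤ r`; in particular `P_(r+1) ≠ 0`.
For large `d`, `Q = Q^d`: `- c T_d^N P_j(t_d) = P_(r+1)(t_d) ρ_j d`.  `j = r`:
`- c P_r(t_d) = P_(r+1)(t_d)` (cancel `T_d^N`), so `c ≠ 0` and `ρ_j d P_r(t_d) = T_d^N P_j(t_d)` for all
`j ≤ r` and large `d`; with `Z_j d = ρ_j d t_d^(N_j)` (which is `rho (s.drop j) d` for `j ≥ 1` and
`rho s d - c rho [w] d` for `j = 0`): `Z_j d * (P_r(t_d) t_d^N) = P_j(t_d) t_d^(N_j)`.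
Downward induction on `j`, `1 ≤ j ≤ r`: there is `f_j` with `TelF q θ (s.drop j) f_j` and
`Z_j d = f_j(T_d)` for large `d`: `rat_poly_t`, `rho_succ`.  Finally `j = 0`: with `s = a :: t`,
`Z_0 (d+1) = (θ-T_d)^w Z_0 d + P_a(T_d) (θ-T_d)^(t.sum) f_1(T_d) - c P_w(T_d)` (`rho_succ` for `s` and for
`[w]`: `rho [w] (d+1) = (θ-T_d)^w rho [w] d + P_w(T_d)`), and `rat_poly_t` gives `f`.
-/

set_option linter.unusedSectionVars false

namespace Pool.Agent.ZQ

open Polynomial Finset Filter

variable {p q : ℕ} {k L : Type*} [Field k] [NormedField L] [CompleteSpace L]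
  [IsUltrametricDist L] (S : Setup p q k L)

namespace Setup

private theorem hm_sum_take_drop (s : List ℕ) (j : ℕ) :
    (s.take j).reverse.sum + (s.drop j).sum = s.sum := by
  rw [List.sum_reverse, ← List.sum_append, List.take_append_drop]

private theorem hm_take_pos {s : List ℕ} (hs : ∀ a ∈ s, 1 ≤ a) (j : ℕ) :
    ∀ a ∈ (s.take j).reverse, 1 ≤ a := by
  intro a ha
  exact hs a (List.mem_of_mem_take (List.mem_reverse.mp ha))

private theorem hm_drop_pos {s : List ℕ} (hs : ∀ a ∈ s, 1 ≤ a) (j : ℕ) :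
    ∀ a ∈ s.drop j, 1 ≤ a := by
  intro a ha
  exact hs a (List.mem_of_mem_drop ha)

/-- the linear relation between the normalised tails -/
private theorem hm_sum_zero {s : List ℕ} (hs : ∀ a ∈ s, 1 ≤ a) (hw : 1 ≤ s.sum) {c : k}
    (h : S.zeta s = S.φ c * S.zeta [s.sum]) {d : ℕ} (hd : 1 ≤ d) :
    (∑ j ∈ range (s.length + 1), S.φ (S.rho (s.drop j) d * S.T d ^ Nn q (s.take j).reverse) *
      S.hn (s.take j).reverse d) - S.φ (c * S.rho [s.sum] d) +
      S.φ (-(c * S.T d ^ Nn q [s.sum])) * S.hn [s.sum] d = 0 := by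
  have hy : S.φ (yy q S.θ d) ≠ 0 := by
    rw [_root_.map_ne_zero]
    exact S.yy_ne hd
  have hTt : S.φ (S.T d) * S.φ (S.t d) = 1 := by rw [← map_mul, S.T_mul_t, map_one]
  have h1 : ∀ j ∈ range (s.length + 1),
      S.φ (S.rho (s.drop j) d * S.T d ^ Nn q (s.take j).reverse) * S.hn (s.take j).reverse d =
      (S.zg (s.take j).reverse d * S.φ (SS q S.θ (s.drop j) d)) / S.φ (yy q S.θ d) ^ s.sum := by
    intro j _
    rw [← hm_sum_take_drop s j, map_mul, rho, hn, map_div₀, map_pow, map_pow, pow_add]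
    show _ * S.φ (S.T d) ^ Nn q (s.take j).reverse *
      (S.φ (S.t d) ^ Nn q (s.take j).reverse * _) = _
    have e1 : S.φ (S.T d) ^ Nn q (s.take j).reverse * S.φ (S.t d) ^ Nn q (s.take j).reverse = 1 := by
      rw [← mul_pow, hTt, one_pow]
    have e2 : ∀ a x y b : L, x * y = 1 → a * x * (y * b) = a * b := by
      intro a x y b hxy
      rw [mul_assoc, ← mul_assoc x y b, hxy, one_mul]
    rw [e2 _ _ _ _ e1]
    field_simp
  have h2 : S.φ (c * S.rho [s.sum] d) =
      S.φ c * S.φ (SS q S.θ [s.sum] d) / S.φ (yy q S.θ d) ^ s.sum := by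
    rw [map_mul, rho, map_div₀, map_pow, mul_div_assoc, List.sum_singleton]
  have h3 : S.φ (-(c * S.T d ^ Nn q [s.sum])) * S.hn [s.sum] d =
      -(S.φ c * S.zg [s.sum] d / S.φ (yy q S.θ d) ^ s.sum) := by
    rw [map_neg, map_mul, map_pow, hn, List.sum_singleton]
    show -(S.φ c * S.φ (S.T d) ^ Nn q [s.sum]) * (S.φ (S.t d) ^ (s.sum / (q - 1)) * _) = _
    have e0 : Nn q [s.sum] = s.sum / (q - 1) := by rw [Nn, List.sum_singleton]
    have e1 : S.φ (S.T d) ^ (s.sum / (q - 1)) * S.φ (S.t d) ^ (s.sum / (q - 1)) = 1 := by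
      rw [← mul_pow, hTt, one_pow]
    rw [e0]
    linear_combination (-(S.φ c * (S.zg [s.sum] d / S.φ (yy q S.θ d) ^ s.sum))) * e1
  have h4 := S.split (s := [s.sum]) (by
    intro a ha
    rw [List.mem_singleton] at ha
    rw [ha]; exact hw) d
  have h5 : S.φ (SS q S.θ [s.sum] d) + S.zg [s.sum] d = S.zeta [s.sum] := by
    rw [← h4, List.length_singleton, Finset.sum_range_succ, Finset.sum_range_one]
    simp [SS, zg]
  rw [Finset.sum_congr rfl h1, ← Finset.sum_div, S.split hs d, h2, h3, h, ← h5]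
  ring

theorem main (hq : 3 ≤ q) (hT1 : S.T1) {a : ℕ} {t : List ℕ} (hs : ∀ x ∈ a :: t, 1 ≤ x) {c : k}
    (h : S.zeta (a :: t) = S.φ c * S.zeta [a + t.sum]) :
    ∃ f g : k[X], TelF q S.θ t g ∧ expand k q f = (C S.θ - X) ^ (a + t.sum) * f +
      Pp q S.θ a * ((C S.θ - X) ^ t.sum * g) - C c * Pp q S.θ (a + t.sum) := by
  classical
  obtain ⟨s, hsdef⟩ : ∃ s : List ℕ, s = a :: t := ⟨_, rfl⟩
  have hsum : s.sum = a + t.sum := by rw [hsdef, List.sum_cons]
  have ha : 1 ≤ a := hs a (by simp)
  have hw : 1 ≤ s.sum := by omega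
  rw [← hsum]
  rw [← hsdef] at hs h
  rw [← hsum] at h
  have hw1 : ∀ x ∈ [s.sum], 1 ≤ x := by
    intro x hx
    rw [List.mem_singleton] at hx
    rw [hx]; exact hw
  set r := s.length with hr
  have hr1 : 1 ≤ r := by rw [hr, hsdef]; simp
  have hNr : Nn q (s.take r).reverse = Nn q [s.sum] := by
    rw [Nn, Nn, hr, List.take_length, List.sum_reverse, List.sum_singleton]
  let G : ℕ → PowerSeries k := fun j =>
    if j ≤ r then S.Gam (s.take j).reverse else S.Gam [s.sum]
  let g : ℕ → ℕ → L := fun j d =>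
    if j ≤ r then S.hn (s.take j).reverse d else S.hn [s.sum] d
  let ρ : ℕ → ℕ → k := fun j d =>
    if j ≤ r then S.rho (s.drop j) d * S.T d ^ Nn q (s.take j).reverse +
      (if j = 0 then -(c * S.rho [s.sum] d) else 0) else -(c * S.T d ^ Nn q [s.sum])
  have hlift := S.lift (range (r + 2)) G g ρ
    (by
      intro j _
      by_cases hj : j ≤ r
      · simp only [G, g, if_pos hj]
        exact S.gam_rep hq (hm_take_pos hs j)
      · simp only [G, g, if_neg hj]
        exact S.gam_rep hq hw1)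
    (by
      intro j _
      have hT : ∀ N, S.Den fun d => S.T d ^ N := by
        intro N
        have := S.den_poly (X ^ N)
        simpa using this
      by_cases hj : j ≤ r
      · by_cases hj0 : j = 0
        · simp only [ρ, if_pos hj, if_pos hj0]
          have h1 := S.den_mul (S.den_const (-c)) (S.den_rho hw1)
          have h2 := S.den_add (S.den_mul (S.den_rho (hm_drop_pos hs j))
            (hT (Nn q (s.take j).reverse))) h1
          have e : (fun d => S.rho (s.drop j) d * S.T d ^ Nn q (s.take j).reverse +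
              -(c * S.rho [s.sum] d)) = fun d => S.rho (s.drop j) d *
              S.T d ^ Nn q (s.take j).reverse + -c * S.rho [s.sum] d := by
            funext d
            ring
          rw [e]
          exact h2
        · simp only [ρ, if_pos hj, if_neg hj0, add_zero]
          exact S.den_mul (S.den_rho (hm_drop_pos hs j)) (hT _)
      · simp only [ρ, if_neg hj]
        have h1 := S.den_mul (S.den_const (-c)) (hT (Nn q [s.sum]))
        have e : (fun d => -(c * S.T d ^ Nn q [s.sum])) = fun d => -c * S.T d ^ Nn q [s.sum] := by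
          funext d
          ring
        rw [e]
        exact h1)
    (by
      intro j _
      by_cases hj : j ≤ r
      · by_cases hj0 : j = 0
        · simp only [ρ, if_pos hj, if_pos hj0]
          have h1 := S.gro_mul_const (S.gro_rho hw1) (-c)
          have h2 := S.gro_add (S.gro_mul_T (S.gro_rho (hm_drop_pos hs j))
            (Nn q (s.take j).reverse)) h1
          have e : (fun d => S.rho (s.drop j) d * S.T d ^ Nn q (s.take j).reverse +
              -(c * S.rho [s.sum] d)) = fun d => S.rho (s.drop j) d *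
              S.T d ^ Nn q (s.take j).reverse + -c * S.rho [s.sum] d := by
            funext d
            ring
          rw [e]
          exact h2
        · simp only [ρ, if_pos hj, if_neg hj0, add_zero]
          exact S.gro_mul_T (S.gro_rho (hm_drop_pos hs j)) _
      · simp only [ρ, if_neg hj]
        have h1 := S.gro_mul_T (S.gro_const (-c)) (Nn q [s.sum])
        have e : (fun d => -(c * S.T d ^ Nn q [s.sum])) = fun d => -c * S.T d ^ Nn q [s.sum] := by
          funext d
          ring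
        rw [e]
        exact h1)
    (by
      intro M
      refine ⟨0, ?_⟩
      filter_upwards [eventually_ge_atTop 1] with d hd
      have h0 : ∑ j ∈ range (r + 2), S.φ (ρ j d) * g j d = 0 := by
        rw [← hm_sum_zero S hs hw h hd, Finset.sum_range_succ _ (r + 1)]
        simp only [ρ, g, if_neg (show ¬ r + 1 ≤ r by omega)]
        congr 1
        have e1 : ∀ j ∈ range (r + 1), S.φ (if j ≤ r then S.rho (s.drop j) d *
            S.T d ^ Nn q (s.take j).reverse + (if j = 0 then -(c * S.rho [s.sum] d) else 0) else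
            -(c * S.T d ^ Nn q [s.sum])) * (if j ≤ r then S.hn (s.take j).reverse d else
            S.hn [s.sum] d) = S.φ (S.rho (s.drop j) d * S.T d ^ Nn q (s.take j).reverse) *
            S.hn (s.take j).reverse d + (if j = 0 then -S.φ (c * S.rho [s.sum] d) else 0) := by
          intro j hj
          rw [Finset.mem_range] at hj
          rw [if_pos (show j ≤ r by omega), if_pos (show j ≤ r by omega)]
          by_cases hj0 : j = 0
          · subst hj0
            rw [if_pos rfl, if_pos rfl, map_add, map_neg, List.take_zero, List.reverse_nil,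
              S.hn_nil]
            ring
          · rw [if_neg hj0, if_neg hj0, add_zero, add_zero]
        rw [Finset.sum_congr rfl e1, Finset.sum_add_distrib, Finset.sum_ite_eq' (range (r + 1)) 0,
          if_pos (by rw [Finset.mem_range]; omega), sub_eq_add_neg]
      rw [h0, norm_zero, zero_mul])
  -- relations
  have hrel : ∀ Q : ℕ → k[X], ∑ i ∈ range (r + 2), (Q i : PowerSeries k) * G i = 0 →
      (∑ j ∈ range (r + 1), (Q j : PowerSeries k) * S.Gam (s.take j).reverse) +
        (Q (r + 1) : PowerSeries k) * S.Gam [s.sum] = 0 := by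
    intro Q hQ
    rw [← hQ, Finset.sum_range_succ _ (r + 1)]
    congr 1
    · refine Finset.sum_congr rfl fun j hj => ?_
      rw [Finset.mem_range] at hj
      simp only [G, if_pos (show j ≤ r by omega)]
    · simp only [G, if_neg (show ¬ r + 1 ≤ r by omega)]
  obtain ⟨d₁, P, hP, hPρ⟩ := hlift.exists
  have hPr : P r ≠ 0 := by
    intro h0
    have h1 := hPρ r (by rw [Finset.mem_range]; omega)
    rw [h0, eval_zero] at h1
    simp only [ρ, if_pos (le_refl r), if_neg (show ¬ r = 0 by omega), add_zero] at h1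
    rw [hr, List.drop_length, S.rho_nil, one_mul] at h1
    exact pow_ne_zero _ (S.T_ne d₁) h1
  have hcross : ∀ Q : ℕ → k[X], ∑ i ∈ range (r + 2), (Q i : PowerSeries k) * G i = 0 →
      ∀ j ≤ r, Q (r + 1) * P j = P (r + 1) * Q j := by
    intro Q hQ j hj
    have h1 := hrel Q hQ
    have h2 := hrel P hP
    have h3 : ∑ j ∈ range (r + 1), ((Q (r + 1) * P j - P (r + 1) * Q j : k[X]) : PowerSeries k) *
        S.Gam (s.take j).reverse = 0 := by
      have h4 : (Q (r + 1) : PowerSeries k) * ((∑ j ∈ range (r + 1), (P j : PowerSeries k) *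
        S.Gam (s.take j).reverse) + (P (r + 1) : PowerSeries k) * S.Gam [s.sum]) -
        (P (r + 1) : PowerSeries k) * ((∑ j ∈ range (r + 1), (Q j : PowerSeries k) *
        S.Gam (s.take j).reverse) + (Q (r + 1) : PowerSeries k) * S.Gam [s.sum]) = 0 := by
        rw [h1, h2, mul_zero, mul_zero, sub_zero]
      rw [← h4, mul_add, mul_add, Finset.mul_sum, Finset.mul_sum]
      have h5 : ∀ a b x y : PowerSeries k, x = y → (a + x) - (b + y) = a - b := by
        intro a b x y hxy
        rw [hxy]; ring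
      rw [h5 _ _ _ _ (by ring), ← Finset.sum_sub_distrib]
      refine Finset.sum_congr rfl fun i _ => ?_
      push_cast
      ring
    have h6 := S.indep hq hT1 hs _ h3 j hj
    exact sub_eq_zero.mp h6
  have hP1 : P (r + 1) ≠ 0 := by
    intro h0
    have h2 := hrel P hP
    rw [h0, Polynomial.coe_zero, zero_mul, add_zero] at h2
    exact hPr (S.indep hq hT1 hs _ h2 r (le_refl r))
  -- the values
  have hval : ∀ᶠ d in atTop, ∀ j ≤ r, (P (r + 1)).eval (S.t d) * ρ j d =
      -(c * S.T d ^ Nn q [s.sum]) * (P j).eval (S.t d) := by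
    filter_upwards [hlift] with d hd
    obtain ⟨Q, hQ, hQρ⟩ := hd
    intro j hj
    have h1 := hQρ j (by rw [Finset.mem_range]; omega)
    have h2 := hQρ (r + 1) (by rw [Finset.mem_range]; omega)
    simp only [ρ, if_neg (show ¬ r + 1 ≤ r by omega)] at h2
    rw [h1, h2, ← eval_mul, ← eval_mul, hcross Q hQ j hj]
  have hTt : ∀ d n, S.T d ^ n * S.t d ^ n = 1 := by
    intro d n
    rw [← mul_pow, S.T_mul_t, one_pow]
  have hPr1 : ∀ᶠ d in atTop, (P (r + 1)).eval (S.t d) = -(c * (P r).eval (S.t d)) := by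
    filter_upwards [hval] with d hd
    have h1 := hd r (le_refl r)
    simp only [ρ, if_pos (le_refl r), if_neg (show ¬ r = 0 by omega), add_zero] at h1
    rw [hNr, show s.drop r = [] by rw [hr, List.drop_length], S.rho_nil, one_mul] at h1
    have h2 : S.T d ^ Nn q [s.sum] ≠ 0 := pow_ne_zero _ (S.T_ne d)
    refine mul_right_cancel₀ h2 ?_
    rw [h1]
    ring
  have hc : c ≠ 0 := by
    intro h0
    obtain ⟨d, hd1, hd2⟩ := (hPr1.and (S.poly_ne hP1)).exists
    rw [h0, zero_mul, neg_zero] at hd1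
    exact hd2 hd1
  have hfin : ∀ j ≤ r, ∀ᶠ d in atTop, (ρ j d * S.t d ^ Nn q (s.take j).reverse) *
      ((P r).eval (S.t d) * S.t d ^ Nn q [s.sum]) =
      (P j).eval (S.t d) * S.t d ^ Nn q (s.take j).reverse := by
    intro j hj
    filter_upwards [hval, hPr1] with d hd hd1
    have h1 := hd j hj
    rw [hd1] at h1
    have h2 : c * ((P r).eval (S.t d) * ρ j d) = c * (S.T d ^ Nn q [s.sum] *
        (P j).eval (S.t d)) := by
      linear_combination -h1
    have h3 := mul_left_cancel₀ hc h2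
    have h4 := hTt d (Nn q [s.sum])
    linear_combination (S.t d ^ Nn q (s.take j).reverse * S.t d ^ Nn q [s.sum]) * h3 +
      ((P j).eval (S.t d) * S.t d ^ Nn q (s.take j).reverse) * h4
  -- downward induction
  have hind : ∀ m < r, ∃ f : k[X], TelF q S.θ (s.drop (r - m)) f ∧
      ∀ᶠ d in atTop, S.rho (s.drop (r - m)) d = f.eval (S.T d) := by
    intro m
    induction m with
    | zero =>
      intro _
      rw [Nat.sub_zero, hr, List.drop_length]
      exact ⟨1, rfl, Eventually.of_forall fun d => by rw [S.rho_nil, eval_one]⟩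
    | succ m ih =>
      intro hm
      obtain ⟨g', hg', hg'e⟩ := ih (by omega)
      have hlt : r - (m + 1) < s.length := by omega
      have hdrop : s.drop (r - (m + 1)) = s[r - (m + 1)] :: s.drop (r - m) := by
        rw [List.drop_eq_getElem_cons hlt]
        congr 2
        omega
      have h1 := hfin (r - (m + 1)) (by omega)
      have h2 : ∀ᶠ d in atTop, S.rho (s.drop (r - (m + 1))) d *
          ((P r).eval (S.t d) * S.t d ^ Nn q [s.sum]) =
          (P (r - (m + 1))).eval (S.t d) * S.t d ^ Nn q (s.take (r - (m + 1))).reverse := by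
        filter_upwards [h1] with d hd
        simp only [ρ, if_pos (show r - (m + 1) ≤ r by omega),
          if_neg (show ¬ r - (m + 1) = 0 by omega), add_zero] at hd
        rw [mul_assoc (S.rho _ _), hTt, mul_one] at hd
        exact hd
      have h3 : ∀ᶠ d in atTop, S.rho (s.drop (r - (m + 1))) (d + 1) =
          (S.θ - S.T d) ^ (s.drop (r - (m + 1))).sum * S.rho (s.drop (r - (m + 1))) d +
          (Pp q S.θ s[r - (m + 1)] * ((C S.θ - X) ^ (s.drop (r - m)).sum * g')).eval (S.T d) := by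
        filter_upwards [hg'e, eventually_ge_atTop 1] with d hd hd1
        rw [hdrop, S.rho_succ _ _ hd1, hd, List.sum_cons]
        simp only [eval_mul, eval_pow, eval_sub, eval_C, eval_X]
      obtain ⟨f, hf1, hf2⟩ := S.rat_poly_t hPr h2 h3
      refine ⟨f, ?_, hf2⟩
      rw [hdrop] at hf1 ⊢
      rw [List.sum_cons] at hf1
      exact ⟨g', hg', hf1⟩
  obtain ⟨g', hg', hg'e⟩ := hind (r - 1) (by omega)
  have hd1 : s.drop (r - (r - 1)) = t := by
    rw [show r - (r - 1) = 1 by omega, hsdef, List.drop_one, List.tail_cons]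
  rw [hd1] at hg' hg'e
  have h1 := hfin 0 (by omega)
  have h2 : ∀ᶠ d in atTop, (S.rho s d - c * S.rho [s.sum] d) *
      ((P r).eval (S.t d) * S.t d ^ Nn q [s.sum]) =
      (P 0).eval (S.t d) * S.t d ^ Nn q (s.take 0).reverse := by
    filter_upwards [h1] with d hd
    simp only [ρ, if_pos (Nat.zero_le r), if_true] at hd
    have hN0 : Nn q (s.take 0).reverse = 0 := by
      rw [List.take_zero, List.reverse_nil, Nn, List.sum_nil, Nat.zero_div]
    rw [hN0, pow_zero, List.drop_zero, ← sub_eq_add_neg] at hd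
    rw [hN0, pow_zero]
    simpa using hd
  have h3 : ∀ᶠ d in atTop, (S.rho s (d + 1) - c * S.rho [s.sum] (d + 1)) =
      (S.θ - S.T d) ^ s.sum * (S.rho s d - c * S.rho [s.sum] d) +
      (Pp q S.θ a * ((C S.θ - X) ^ t.sum * g') - C c * Pp q S.θ s.sum).eval (S.T d) := by
    filter_upwards [hg'e, eventually_ge_atTop 1] with d hd hd1
    have e1 : S.rho s (d + 1) = (S.θ - S.T d) ^ s.sum * S.rho s d +
        (Pp q S.θ a).eval (S.T d) * ((S.θ - S.T d) ^ t.sum * S.rho t d) := by
      rw [hsum, hsdef, S.rho_succ _ _ hd1]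
    have e2 : S.rho [s.sum] (d + 1) = (S.θ - S.T d) ^ s.sum * S.rho [s.sum] d +
        (Pp q S.θ s.sum).eval (S.T d) := by
      rw [S.rho_succ _ _ hd1, List.sum_nil, S.rho_nil, pow_zero, mul_one, mul_one, add_zero]
    rw [e1, e2, hd]
    simp only [eval_mul, eval_pow, eval_sub, eval_C, eval_X]
    ring
  obtain ⟨f, hf1, _⟩ := S.rat_poly_t (Z := fun d => S.rho s d - c * S.rho [s.sum] d) hPr h2 h3
  refine ⟨f, g', hg', ?_⟩
  rw [hf1]
  ring

end Setup

end Pool.Agent.ZQ
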