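import Pool.Agent.Work.MP_43901b_nt.HBase

/-!
# HNorm (M): norms of the power sums

`Θ = ‖φ θ‖ > 1`, `‖φ (T_d)‖ = Θ^(q^d)`.
* `norm_sub`: `‖φ (θ^(q^i) - θ^(q^l))‖ = Θ^(q^(max i l))` for `i ≠ l` (ultrametric).
* `norm_ell`: `‖φ ℓ_d‖ = Θ^(σ_d)`, `σ_d = sg q d`; so `‖φ x_d‖ = (Θ^(σ_d))⁻¹`;
  `norm_yy`: for `d ≥ 1` `y_d = x_(d-1)` (`yy_succ`).
* `norm_Dd`: `‖φ D_i‖ = Θ^(i q^i)`.
* `norm_cc`: `‖φ (c_i(T_d))‖ ≤ Θ^(q^i σ_d)`: `0` for `i > d` (`cc_eval_T`); for `i ≤ d` it is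
  `Θ^(q^d σ_i - i q^i)` (`c_i(T_d) = ∏_{l=1}^i (θ^(q^i) - θ^(q^(d+l)))/D_i`, `d + l > i` or, if `d = i = 0`, nothing),
  and `q^d σ_i ≤ q^i σ_d` for `i ≤ d` (`(q-1) σ_i + q = q^(i+1)`: `q^d (q^(i+1) - q) ≤ q^i (q^(d+1) - q)`).
* `norm_Pp`: `‖φ (P_a(T_d))‖ ≤ Θ^((a-1) σ_d)`: strong induction with `Pp_rec`, evaluated:
  `q^i σ_d + (a - q^i) σ_d = a σ_d` (ultrametric sum bound).
* `norm_ps`: `‖φ (ps q θ d a)‖ ≤ Θ^(-a σ_d + (a-1) σ_d) = (Θ^(σ_d))⁻¹`.  `ps_zero`: `d = 0`: `x_0 = 1`,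
  `P_a(θ) = 1`.
-/

set_option linter.unusedSectionVars false

namespace Pool.Agent.ZQ

open Polynomial Finset Filter

variable {p q : ℕ} {k L : Type*} [Field k] [NormedField L]
  [IsUltrametricDist L] (S : Setup p q k L)

namespace Setup

private theorem hn_pos : 0 < ‖S.φ S.θ‖ := zero_lt_one.trans S.hθ

private theorem hn_pow (n : ℕ) : ‖S.φ (S.θ ^ n)‖ = ‖S.φ S.θ‖ ^ n := by
  rw [map_pow, norm_pow]

theorem norm_sub {i l : ℕ} (h : i < l) :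
    ‖S.φ (S.θ ^ q ^ i - S.θ ^ q ^ l)‖ = ‖S.φ S.θ‖ ^ q ^ l := by
  have h1 : ‖S.φ S.θ‖ ^ q ^ i < ‖S.φ S.θ‖ ^ q ^ l :=
    pow_lt_pow_right₀ S.hθ (Nat.pow_lt_pow_right S.q_two h)
  rw [map_sub, sub_eq_add_neg, IsUltrametricDist.norm_add_eq_max_of_norm_ne_norm, norm_neg,
    S.hn_pow, S.hn_pow, max_eq_right h1.le]
  rw [norm_neg, S.hn_pow, S.hn_pow]
  exact h1.ne

theorem norm_ell (d : ℕ) : ‖S.φ (ell q S.θ d)‖ = ‖S.φ S.θ‖ ^ sg q d := by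
  unfold ell sg
  rw [map_prod, norm_prod, ← Finset.prod_pow_eq_pow_sum]
  refine Finset.prod_congr rfl fun i _ => ?_
  have h := S.norm_sub (Nat.succ_pos i)
  rwa [pow_zero, pow_one] at h

theorem norm_xx (d : ℕ) : ‖S.φ (xx q S.θ d)‖ = (‖S.φ S.θ‖ ^ sg q d)⁻¹ := by
  unfold xx
  rw [map_inv₀, norm_inv, S.norm_ell]

theorem norm_yy {d : ℕ} (hd : 1 ≤ d) :
    ‖S.φ (yy q S.θ d)‖ = (‖S.φ S.θ‖ ^ sg q (d - 1))⁻¹ := by
  obtain ⟨e, rfl⟩ : ∃ e, d = e + 1 := ⟨d - 1, by omega⟩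
  rw [yy_succ S.gen, Nat.add_sub_cancel, S.norm_xx]

theorem yy_ne {d : ℕ} (hd : 1 ≤ d) : yy q S.θ d ≠ 0 := by
  intro h
  have h1 := S.norm_yy hd
  rw [h, map_zero, norm_zero] at h1
  exact (inv_pos.2 (pow_pos S.hn_pos _)).ne h1

private theorem hn_sg (i j : ℕ) : q ^ j * sg q i ≤ sg q (i + j) := by
  induction j with
  | zero => rw [pow_zero, one_mul, add_zero]
  | succ j ih =>
    rw [← add_assoc, sg_succ', pow_succ']
    have := Nat.mul_le_mul_left q ih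
    rw [mul_assoc]
    omega

private theorem hn_Dd (i : ℕ) : 1 ≤ ‖S.φ (Dd q S.θ i)‖ := by
  unfold Dd
  rw [map_prod, norm_prod]
  refine Finset.prod_induction _ (fun x => 1 ≤ x)
    (fun a b ha hb => one_le_mul_of_one_le_of_one_le ha hb) le_rfl fun l hl => ?_
  rw [map_sub, ← norm_neg, neg_sub, ← map_sub, S.norm_sub (mem_range.1 hl)]
  exact one_le_pow₀ S.hθ.le

theorem norm_cc (i d : ℕ) :
    ‖S.φ ((cc q S.θ i).eval (S.T d))‖ ≤ ‖S.φ S.θ‖ ^ (q ^ i * sg q d) := by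
  rcases lt_or_ge d i with h | h
  · have h0 : (cc q S.θ i).eval (S.T d) = 0 := cc_eval_T S.θ h
    rw [h0, map_zero, norm_zero]
    exact (pow_pos S.hn_pos _).le
  · have h1 : S.φ ((cc q S.θ i).eval (S.T d)) = (S.φ (Dd q S.θ i))⁻¹ *
        ∏ l ∈ range i, S.φ (S.θ ^ q ^ i - S.θ ^ q ^ (d + l + 1)) := by
      unfold cc
      rw [eval_mul, eval_C, eval_prod, map_mul, map_inv₀, map_prod]
      congr 1
      refine Finset.prod_congr rfl fun l _ => ?_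
      rw [eval_sub, eval_C, eval_pow, eval_X]
      unfold T
      rw [← pow_mul, ← pow_add, add_assoc]
    have h2 : ∏ l ∈ range i, ‖S.φ (S.θ ^ q ^ i - S.θ ^ q ^ (d + l + 1))‖ =
        ‖S.φ S.θ‖ ^ (q ^ d * sg q i) := by
      unfold sg
      rw [Finset.mul_sum, ← Finset.prod_pow_eq_pow_sum]
      refine Finset.prod_congr rfl fun l _ => ?_
      rw [S.norm_sub (by omega : i < d + l + 1), ← pow_add, add_assoc]
    rw [h1, norm_mul, norm_inv, norm_prod, h2]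
    have h3 : q ^ d * sg q i ≤ q ^ i * sg q d := by
      obtain ⟨j, rfl⟩ := Nat.exists_eq_add_of_le h
      rw [pow_add, mul_assoc]
      exact Nat.mul_le_mul_left _ (hn_sg i j)
    calc (‖S.φ (Dd q S.θ i)‖)⁻¹ * ‖S.φ S.θ‖ ^ (q ^ d * sg q i) ≤
          1 * ‖S.φ S.θ‖ ^ (q ^ d * sg q i) :=
          mul_le_mul_of_nonneg_right (inv_le_one_of_one_le₀ (S.hn_Dd i)) (pow_pos S.hn_pos _).le
      _ = ‖S.φ S.θ‖ ^ (q ^ d * sg q i) := one_mul _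
      _ ≤ _ := pow_le_pow_right₀ S.hθ.le h3

theorem norm_Pp {a : ℕ} (ha : 1 ≤ a) (d : ℕ) :
    ‖S.φ ((Pp q S.θ a).eval (S.T d))‖ ≤ ‖S.φ S.θ‖ ^ ((a - 1) * sg q d) := by
  induction a using Nat.strong_induction_on with
  | _ a ih =>
    rcases Nat.eq_or_lt_of_le ha with h | h
    · subst h
      rw [Pp_one, eval_one, map_one, norm_one, Nat.sub_self, zero_mul, pow_zero]
    · obtain ⟨b, rfl⟩ : ∃ b, a = b + 1 := ⟨a - 1, by omega⟩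
      have hb : 1 ≤ b := by omega
      rw [Pp_rec S.isq S.θ hb, eval_finsetSum, map_sum, Nat.add_sub_cancel]
      refine IsUltrametricDist.norm_sum_le_of_forall_le_of_nonneg (pow_pos S.hn_pos _).le
        fun i _ => ?_
      split_ifs with hi
      · rw [eval_mul, map_mul, norm_mul]
        have hq : 1 ≤ q ^ i := Nat.one_le_pow _ _ S.isq.pos
        have h1 := ih (b + 1 - q ^ i) (by omega) (by omega)
        have h2 : q ^ i * sg q d + (b + 1 - q ^ i - 1) * sg q d = b * sg q d := by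
          rw [← add_mul]
          congr 1
          omega
        calc _ ≤ ‖S.φ S.θ‖ ^ (q ^ i * sg q d) * ‖S.φ S.θ‖ ^ ((b + 1 - q ^ i - 1) * sg q d) :=
              mul_le_mul (S.norm_cc i d) h1 (norm_nonneg _) (pow_pos S.hn_pos _).le
          _ = _ := by rw [← pow_add, h2]
      · rw [eval_zero, map_zero, norm_zero]
        exact (pow_pos S.hn_pos _).le

theorem norm_ps (d : ℕ) {n : ℕ} (hn : 1 ≤ n) :
    ‖S.φ (ps q S.θ d n)‖ ≤ (‖S.φ S.θ‖ ^ sg q d)⁻¹ := by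
  obtain ⟨m, rfl⟩ : ∃ m, n = m + 1 := ⟨n - 1, by omega⟩
  unfold ps
  rw [map_mul, map_pow, norm_mul, norm_pow, S.norm_xx]
  have h1 := S.norm_Pp hn d
  rw [Nat.add_sub_cancel] at h1
  have hp : 0 < ‖S.φ S.θ‖ ^ sg q d := pow_pos S.hn_pos _
  calc _ ≤ ((‖S.φ S.θ‖ ^ sg q d)⁻¹) ^ (m + 1) * ‖S.φ S.θ‖ ^ (m * sg q d) :=
        mul_le_mul_of_nonneg_left h1 (pow_pos (inv_pos.2 hp) _).le
    _ = (‖S.φ S.θ‖ ^ sg q d)⁻¹ * (((‖S.φ S.θ‖ ^ sg q d)⁻¹) ^ m * (‖S.φ S.θ‖ ^ sg q d) ^ m) := by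
        rw [pow_succ, ← pow_mul, mul_comm (sg q d) m]
        ring
    _ = _ := by rw [← mul_pow, inv_mul_cancel₀ hp.ne', one_pow, mul_one]

theorem ps_zero (n : ℕ) : ps q S.θ 0 n = 1 := by
  unfold ps xx ell
  rw [Finset.prod_range_zero, inv_one, one_pow, one_mul, pow_zero, pow_one]
  exact Pp_eval_self S.isq S.θ n

end Setup

end Pool.Agent.ZQ
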