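import Pool.Agent.Work.MP_43901b_nt.HNorm

/-!
# HZg (M): the tails of the multizeta series and the splitting identity

Copy of helper29's `MP_b19acb_nt/Zg.lean` with `(‖φ θ‖^(σ_d))⁻¹` in place of `‖φ D‖⁻¹^(2^d-1)`
(`norm_ps`; `σ_d → ∞`, `σ_d ≥ d` for `q ≥ 2`), `SS_succ` from `PpB`.  `norm_zeta_single`: `zeta [n] =
Σ_e ps (e) n`, the term `e = 0` is `1` (`ps_zero`), the others have norm `≤ (Θ^(σ_1))⁻¹ < 1`; or
`zg_succ` and `norm_zg`.
-/

set_option linter.unusedSectionVars false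

namespace Pool.Agent.ZQ

open Polynomial Finset Filter

variable {p q : ℕ} {k L : Type*} [Field k] [NormedField L] [CompleteSpace L]
  [IsUltrametricDist L] (S : Setup p q k L)

namespace Setup

private theorem zg_inv_le {d e : ℕ} (h : d ≤ e) :
    (‖S.φ S.θ‖ ^ sg q e)⁻¹ ≤ (‖S.φ S.θ‖ ^ sg q d)⁻¹ :=
  inv_anti₀ (pow_pos (zero_lt_one.trans S.hθ) _) (pow_le_pow_right₀ S.hθ.le (sg_mono q h))

private theorem zg_inv_one (d : ℕ) : (‖S.φ S.θ‖ ^ sg q d)⁻¹ ≤ 1 :=
  inv_le_one_of_one_le₀ (one_le_pow₀ S.hθ.le)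

private theorem zg_inv_nonneg (d : ℕ) : 0 ≤ (‖S.φ S.θ‖ ^ sg q d)⁻¹ :=
  inv_nonneg.2 (pow_nonneg (norm_nonneg _) _)

include S in
private theorem zg_le_sg (d : ℕ) : d ≤ sg q d := by
  induction d with
  | zero => exact Nat.zero_le _
  | succ d ih =>
    rw [sg_succ]
    have : 1 ≤ q ^ (d + 1) := Nat.one_le_pow _ _ S.isq.pos
    omega

private theorem zg_tend : Tendsto (fun d : ℕ => (‖S.φ S.θ‖ ^ sg q d)⁻¹) atTop (nhds 0) := by
  have h1 := tendsto_pow_atTop_nhds_zero_of_lt_one S.tb_q.1.le S.tb_q.2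
  refine (h1.comp (tendsto_atTop_mono (f := fun d : ℕ => d) S.zg_le_sg tendsto_id)).congr
    fun d => ?_
  rw [Function.comp_apply, inv_pow]

private theorem zg_ps_one (d : ℕ) {n : ℕ} (hn : 1 ≤ n) : ‖S.φ (ps q S.θ d n)‖ ≤ 1 :=
  (S.norm_ps d hn).trans (S.zg_inv_one d)

theorem norm_SS_le {s : List ℕ} (hs : ∀ a ∈ s, 1 ≤ a) (d : ℕ) :
    ‖S.φ (SS q S.θ s d)‖ ≤ 1 := by
  induction s generalizing d with
  | nil => rw [SS, map_one, norm_one]
  | cons a s ih =>
    rw [SS, map_sum]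
    refine IsUltrametricDist.norm_sum_le_of_forall_le_of_nonneg zero_le_one fun i _ => ?_
    rw [map_mul, norm_mul]
    exact mul_le_one₀ (S.zg_ps_one i (hs a List.mem_cons_self)) (norm_nonneg _)
      (ih (fun b hb => hs b (List.mem_cons_of_mem a hb)) i)

theorem norm_zg_le {l : List ℕ} (hl : ∀ a ∈ l, 1 ≤ a) (d : ℕ) : ‖S.zg l d‖ ≤ 1 := by
  induction l generalizing d with
  | nil => rw [zg, norm_one]
  | cons a l ih =>
    rw [zg]
    refine IsUltrametricDist.norm_tsum_le_of_forall_le fun e => ?_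
    rw [norm_mul]
    exact mul_le_one₀ (S.zg_ps_one _ (hl a List.mem_cons_self)) (norm_nonneg _)
      (ih (fun b hb => hl b (List.mem_cons_of_mem a hb)) _)

private theorem zg_term {n : ℕ} {l : List ℕ} (hn : 1 ≤ n) (hl : ∀ a ∈ l, 1 ≤ a) (d e : ℕ) :
    ‖S.φ (ps q S.θ (d + e) n) * S.zg l (d + e + 1)‖ ≤ (‖S.φ S.θ‖ ^ sg q (d + e))⁻¹ := by
  rw [norm_mul]
  calc ‖S.φ (ps q S.θ (d + e) n)‖ * ‖S.zg l (d + e + 1)‖ ≤ (‖S.φ S.θ‖ ^ sg q (d + e))⁻¹ * 1 :=
        mul_le_mul (S.norm_ps _ hn) (S.norm_zg_le hl _) (norm_nonneg _)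
          (S.zg_inv_nonneg _)
    _ = _ := mul_one _

theorem norm_zg {l : List ℕ} (hl : ∀ a ∈ l, 1 ≤ a) (hne : l ≠ []) (d : ℕ) :
    ‖S.zg l d‖ ≤ (‖S.φ S.θ‖ ^ sg q d)⁻¹ := by
  cases l with
  | nil => exact absurd rfl hne
  | cons a l =>
    rw [zg]
    refine IsUltrametricDist.norm_tsum_le_of_forall_le fun e => ?_
    exact (S.zg_term (hl a List.mem_cons_self)
      (fun b hb => hl b (List.mem_cons_of_mem a hb)) d e).trans (S.zg_inv_le (Nat.le_add_right d e))

private theorem zg_summable {n : ℕ} {l : List ℕ} (hn : 1 ≤ n) (hl : ∀ a ∈ l, 1 ≤ a) (d : ℕ) :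
    Summable fun e : ℕ => S.φ (ps q S.θ (d + e) n) * S.zg l (d + e + 1) := by
  refine NonarchimedeanAddGroup.summable_of_tendsto_cofinite_zero ?_
  rw [Nat.cofinite_eq_atTop, tendsto_zero_iff_norm_tendsto_zero]
  refine squeeze_zero (fun e => norm_nonneg _) (fun e => S.zg_term hn hl d e) ?_
  have h := S.zg_tend.comp (tendsto_add_atTop_nat d)
  refine h.congr fun e => ?_
  simp only [Function.comp_apply]
  rw [Nat.add_comm e d]

theorem zg_succ {n : ℕ} {l : List ℕ} (hn : 1 ≤ n) (hl : ∀ a ∈ l, 1 ≤ a) (d : ℕ) :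
    S.zg (n :: l) d = S.φ (ps q S.θ d n) * S.zg l (d + 1) + S.zg (n :: l) (d + 1) := by
  rw [zg, (S.zg_summable hn hl d).tsum_eq_zero_add, zg]
  congr 1
  refine tsum_congr fun e => ?_
  rw [show d + (e + 1) = d + 1 + e from by omega]

theorem zg_tendsto {l : List ℕ} (hl : ∀ a ∈ l, 1 ≤ a) (hne : l ≠ []) :
    Tendsto (S.zg l) atTop (nhds 0) := by
  rw [tendsto_zero_iff_norm_tendsto_zero]
  exact squeeze_zero (fun e => norm_nonneg _) (fun e => S.norm_zg hl hne e) S.zg_tend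

/-- the sum of `split`, by recursion with a reversed front part -/
private noncomputable def Sp : List ℕ → List ℕ → ℕ → L
  | l, [], d => S.zg l d
  | l, a :: s, d => S.zg l d * S.φ (SS q S.θ (a :: s) d) + Sp (a :: l) s d

private theorem sp_eq (s l : List ℕ) (d : ℕ) :
    ∑ j ∈ range (s.length + 1), S.zg ((s.take j).reverse ++ l) d * S.φ (SS q S.θ (s.drop j) d) =
      S.Sp l s d := by
  induction s generalizing l with
  | nil => simp [Sp, SS]
  | cons a s ih =>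
    rw [List.length_cons, Finset.sum_range_succ', Sp, ← ih (a :: l), add_comm]
    congr 1
    refine Finset.sum_congr rfl fun j _ => ?_
    simp

private theorem sp_step (s l : List ℕ) (hs : ∀ a ∈ s, 1 ≤ a) (hl : ∀ a ∈ l, 1 ≤ a) (n : ℕ)
    (hn : 1 ≤ n) (d : ℕ) :
    S.Sp (n :: l) s d = S.Sp (n :: l) s (d + 1) +
      S.zg l (d + 1) * S.φ (ps q S.θ d n) * S.φ (SS q S.θ s d) := by
  induction s generalizing l n with
  | nil =>
    rw [Sp, Sp, SS, map_one, mul_one, S.zg_succ hn hl d]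
    ring
  | cons a s ih =>
    rw [Sp, Sp, ih (n :: l) (fun b hb => hs b (List.mem_cons_of_mem a hb))
      (fun b hb => by
        rcases List.mem_cons.1 hb with rfl | hb
        · exact hn
        · exact hl b hb) a (hs a List.mem_cons_self), SS_succ, S.zg_succ hn hl d, map_add, map_mul]
    ring

private theorem sp_SS_zero (a : ℕ) (s : List ℕ) : SS q S.θ (a :: s) 0 = 0 := by
  rw [SS, Finset.range_zero, Finset.sum_empty]

private theorem sp_zero (s l : List ℕ) : S.Sp l s 0 = S.zg (s.reverse ++ l) 0 := by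
  induction s generalizing l with
  | nil => rw [Sp, List.reverse_nil, List.nil_append]
  | cons a s ih =>
    rw [Sp, sp_SS_zero, map_zero, mul_zero, zero_add, ih (a :: l), List.reverse_cons,
      List.append_assoc, List.singleton_append]

private theorem sp_nil {s : List ℕ} (hs : ∀ a ∈ s, 1 ≤ a) (d : ℕ) : S.Sp [] s d = S.zeta s := by
  have h0 : S.Sp [] s 0 = S.zeta s := by
    rw [sp_zero, List.append_nil, zeta]
  rw [← h0]
  induction d with
  | zero => rfl
  | succ d ih =>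
    rw [← ih]
    cases s with
    | nil => rw [Sp, Sp, zg, zg]
    | cons a s =>
      rw [Sp, Sp, S.sp_step s [] (fun b hb => hs b (List.mem_cons_of_mem a hb))
        (fun b hb => absurd hb List.not_mem_nil) a (hs a List.mem_cons_self) d, SS_succ,
        map_add, map_mul, zg, zg]
      ring

theorem split {s : List ℕ} (hs : ∀ a ∈ s, 1 ≤ a) (d : ℕ) :
    ∑ j ∈ range (s.length + 1), S.zg (s.take j).reverse d * S.φ (SS q S.θ (s.drop j) d) =
      S.zeta s := by
  rw [← S.sp_nil hs d, ← S.sp_eq s [] d]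
  refine Finset.sum_congr rfl fun j _ => ?_
  rw [List.append_nil]

private theorem sp_tendsto (s l : List ℕ) (hs : ∀ a ∈ s, 1 ≤ a) (hl : ∀ a ∈ l, 1 ≤ a)
    (hne : l ≠ []) : Tendsto (S.Sp l s) atTop (nhds 0) := by
  induction s generalizing l with
  | nil =>
    refine (S.zg_tendsto hl hne).congr fun d => ?_
    rw [Sp]
  | cons a s ih =>
    have ha := hs a List.mem_cons_self
    have h1 := ih (a :: l) (fun b hb => hs b (List.mem_cons_of_mem a hb))
      (fun b hb => by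
        rcases List.mem_cons.1 hb with rfl | hb
        · exact ha
        · exact hl b hb) (List.cons_ne_nil a l)
    have h2 : Tendsto (fun d => S.zg l d * S.φ (SS q S.θ (a :: s) d)) atTop (nhds 0) := by
      rw [tendsto_zero_iff_norm_tendsto_zero]
      refine squeeze_zero (fun d => norm_nonneg _) (fun d => ?_)
        (tendsto_zero_iff_norm_tendsto_zero.1 (S.zg_tendsto hl hne))
      rw [norm_mul]
      exact mul_le_of_le_one_right (norm_nonneg _) (S.norm_SS_le hs d)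
    have h3 := h2.add h1
    rw [add_zero] at h3
    refine h3.congr fun d => ?_
    rw [Sp]

theorem tendsto_SS {s : List ℕ} (hs : ∀ a ∈ s, 1 ≤ a) :
    Tendsto (fun d => S.φ (SS q S.θ s d)) atTop (nhds (S.zeta s)) := by
  cases s with
  | nil =>
    have h : ∀ d : ℕ, S.φ (SS q S.θ [] d) = S.zeta [] := fun d => by
      rw [SS, map_one, zeta, List.reverse_nil, zg]
    simp only [h]
    exact tendsto_const_nhds
  | cons a s =>
    have h1 := S.sp_tendsto s [a] (fun b hb => hs b (List.mem_cons_of_mem a hb))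
      (fun b hb => by
        rw [List.mem_singleton.1 hb]
        exact hs a List.mem_cons_self) (List.cons_ne_nil a [])
    have h2 := (tendsto_const_nhds (x := S.zeta (a :: s)) (f := atTop (α := ℕ))).sub h1
    rw [sub_zero] at h2
    refine h2.congr fun d => ?_
    have h3 := S.sp_nil hs d
    rw [Sp, zg, one_mul] at h3
    rw [← h3]
    ring

theorem norm_zeta_single {n : ℕ} (hn : 1 ≤ n) : ‖S.zeta [n]‖ = 1 := by
  have h1 : S.zeta [n] = 1 + S.zg [n] 1 := by
    rw [zeta, List.reverse_singleton, S.zg_succ hn (fun b hb => absurd hb List.not_mem_nil) 0,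
      ps_zero, map_one, zg, mul_one]
  have h2 : ‖S.zg [n] 1‖ < 1 := by
    refine (S.norm_zg (fun b hb => by rw [List.mem_singleton.1 hb]; exact hn)
      (List.cons_ne_nil n []) 1).trans_lt (inv_lt_one_of_one_lt₀ ?_)
    rw [sg_one]
    exact one_lt_pow₀ S.hθ S.isq.ne_zero
  rw [h1, IsUltrametricDist.norm_add_eq_max_of_norm_ne_norm (by rw [norm_one]; exact h2.ne'),
    norm_one, max_eq_left h2.le]

/-- the norm of a polynomial at `T_d`, for large `d` -/
private theorem zg_eval {f : k[X]} (hf : f ≠ 0) : ∀ᶠ d in atTop,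
    ‖S.φ (f.eval (S.T d))‖ = ‖S.φ f.leadingCoeff‖ * ‖S.φ (S.T d)‖ ^ f.natDegree := by
  set M : ℝ := ∑ i ∈ range f.natDegree, ‖S.φ (f.coeff i)‖ with hM
  have hM0 : 0 ≤ M := Finset.sum_nonneg fun i _ => norm_nonneg _
  have hlc : 0 < ‖S.φ f.leadingCoeff‖ := by
    rw [norm_pos_iff]
    intro h
    exact hf (leadingCoeff_eq_zero.1 ((map_eq_zero S.φ).1 h))
  have h1 : Tendsto (fun d => M * ‖S.φ (S.t d)‖) atTop (nhds (M * 0)) :=
    S.tendsto_t.const_mul M
  rw [mul_zero] at h1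
  filter_upwards [h1.eventually_lt_const hlc] with d hd
  have hT : 0 < ‖S.φ (S.T d)‖ := norm_pos_iff.2 fun h => S.T_ne d ((map_eq_zero S.φ).1 h)
  have hTt : ‖S.φ (S.T d)‖ * ‖S.φ (S.t d)‖ = 1 := by
    rw [← norm_mul, ← map_mul, S.T_mul_t, map_one, norm_one]
  have hT1 : 1 ≤ ‖S.φ (S.T d)‖ := by
    rw [S.norm_T]
    exact one_le_pow₀ S.hθ.le
  have h2 : ‖S.φ (∑ i ∈ range f.natDegree, f.coeff i * S.T d ^ i)‖ ≤
      M * ‖S.φ (S.t d)‖ * ‖S.φ (S.T d)‖ ^ f.natDegree := by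
    rw [map_sum]
    refine IsUltrametricDist.norm_sum_le_of_forall_le_of_nonneg (by positivity) fun i hi => ?_
    have hi' := Finset.mem_range.1 hi
    rw [map_mul, norm_mul, map_pow, norm_pow]
    have h3 : ‖S.φ (f.coeff i)‖ ≤ M :=
      Finset.single_le_sum (f := fun i => ‖S.φ (f.coeff i)‖) (fun j _ => norm_nonneg _) hi
    have h4 : ‖S.φ (S.T d)‖ ^ i ≤ ‖S.φ (S.t d)‖ * ‖S.φ (S.T d)‖ ^ f.natDegree := by
      obtain ⟨m, hm⟩ : ∃ m, f.natDegree = (i + m) + 1 := ⟨f.natDegree - i - 1, by omega⟩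
      have h5 : ‖S.φ (S.t d)‖ * ‖S.φ (S.T d)‖ ^ f.natDegree = ‖S.φ (S.T d)‖ ^ (i + m) := by
        rw [hm, pow_succ]
        linear_combination (‖S.φ (S.T d)‖ ^ (i + m)) * hTt
      rw [h5]
      exact pow_le_pow_right₀ hT1 (Nat.le_add_right i m)
    calc ‖S.φ (f.coeff i)‖ * ‖S.φ (S.T d)‖ ^ i
        ≤ M * (‖S.φ (S.t d)‖ * ‖S.φ (S.T d)‖ ^ f.natDegree) :=
          mul_le_mul h3 h4 (pow_nonneg (norm_nonneg _) _) hM0
      _ = _ := by ring
  have h6 : ‖S.φ (∑ i ∈ range f.natDegree, f.coeff i * S.T d ^ i)‖ <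
      ‖S.φ (f.leadingCoeff * S.T d ^ f.natDegree)‖ := by
    refine h2.trans_lt ?_
    rw [map_mul, norm_mul, map_pow, norm_pow]
    exact mul_lt_mul_of_pos_right hd (pow_pos hT _)
  rw [eval_eq_sum_range, Finset.sum_range_succ, map_add, coeff_natDegree,
    IsUltrametricDist.norm_add_eq_max_of_norm_ne_norm h6.ne, max_eq_right h6.le, map_mul, norm_mul,
    map_pow, norm_pow]

/-- a telescoping tuple whose polynomial has degree `w/(q-1)` has a nonzero value: `S_{<d}(s) =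
y_d^w f(T_d)` (`SS_tel`), `‖y_d^w‖ = Θ^(-w σ_(d-1))`, `‖f(T_d)‖ = ‖lc f‖ Θ^(D q^d)` for large `d`
(ultrametric), `(q-1) σ_(d-1) + q = q^d`, so the norm is `‖lc f‖ Θ^(D q)` for large `d`, and
`tendsto_SS` -/
theorem zeta_ne_of_tel {s : List ℕ} (hs : ∀ a ∈ s, 1 ≤ a) {f : k[X]} (hf : TelF q S.θ s f)
    (hd : (q - 1) * f.natDegree = s.sum) : S.zeta s ≠ 0 := by
  have hf0 : f ≠ 0 := by
    rintro rfl
    cases s with
    | nil =>
      rw [TelF] at hf
      exact zero_ne_one hf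
    | cons a t =>
      have h1 := hs a List.mem_cons_self
      rw [natDegree_zero, mul_zero, List.sum_cons] at hd
      omega
  have hΘ : 0 < ‖S.φ S.θ‖ := zero_lt_one.trans S.hθ
  have hlc : 0 < ‖S.φ f.leadingCoeff‖ := by
    rw [norm_pos_iff]
    intro h
    exact hf0 (leadingCoeff_eq_zero.1 ((map_eq_zero S.φ).1 h))
  have h1 : ∀ᶠ d in atTop, ‖S.φ (SS q S.θ s d)‖ =
      ‖S.φ f.leadingCoeff‖ * ‖S.φ S.θ‖ ^ (f.natDegree * q) := by
    filter_upwards [S.zg_eval hf0, eventually_ge_atTop 1] with d h2 hd1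
    have h3 := SS_tel S.gen hs hf d
    have h4 : f.eval (S.θ ^ q ^ d) = f.eval (S.T d) := rfl
    have h5 : q ^ d = (q - 1) * sg q (d - 1) + q := by
      rw [sg_mul S.isq.pos, Nat.sub_add_cancel hd1]
    rw [h3, h4, map_mul, norm_mul, h2, map_pow, norm_pow, S.norm_yy hd1, S.norm_T, ← hd, h5,
      inv_pow, ← pow_mul, ← pow_mul,
      show ((q - 1) * sg q (d - 1) + q) * f.natDegree =
        sg q (d - 1) * ((q - 1) * f.natDegree) + f.natDegree * q from by ring, pow_add]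
    have h6 : ‖S.φ S.θ‖ ^ (sg q (d - 1) * ((q - 1) * f.natDegree)) ≠ 0 := (pow_pos hΘ _).ne'
    field_simp
  have h2 := (S.tendsto_SS hs).norm
  have h3 : Tendsto (fun d => ‖S.φ (SS q S.θ s d)‖) atTop
      (nhds (‖S.φ f.leadingCoeff‖ * ‖S.φ S.θ‖ ^ (f.natDegree * q))) :=
    tendsto_const_nhds.congr' (h1.mono fun d hd => hd.symm)
  have h4 := tendsto_nhds_unique h2 h3
  intro h5
  rw [h5, norm_zero] at h4
  exact (mul_pos hlc (pow_pos hΘ _)).ne h4

end Setup

end Pool.Agent.ZQ
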