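import Pool.Agent.Work.MP_43901b_nt.PLev
import Pool.Agent.Work.MP_43901b_nt.FbEq

/-!
# InvB (M-L): depth one

`K = LaurentSeries F`, `θ = th`, `f(T^q) = (θ-T)^b f(T) + P_b(T)`, `b ≥ 1`, `D = natDegree f`,
`V = (C th - X)^b f`.

(0) `f ≠ 0` (`P_b ≠ 0`).  `(q-1) D ≤ b`: otherwise `q D > b + D` and `q D > natDegree P_b`
(`(q-1) natDegree P_b ≤ q (b-1)`), so `natDegree (expand f) = q D` is impossible.
(1) Level 0.  `m` = exact height of `f` (`exists_height`), `φ = La 0 m f ≠ 0`; `V` has height `b + m`, form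
`(1-X)^b φ` (`Nle.pow`, `La_pow`, `La_mul`, `La_ths_zero`).  `expand f` at level 0 has height
`≤ m + D (q-1) ≤ b + m` and its form at height `b + m` is `C c X^(q D)`, where `c = φ.coeff D` if
`(q-1) D = b` and `c = 0` otherwise (`Nle_expand`, `La_expand`, `Nle_succ`, `La_succ`).  `P_b`: height `0`,
form `π = La 0 0 P_b`, `π(1) = 1` (`Pp_level0_eval`).  Compare at the heights:
`b + m > 0`: form at `b+m`: `C c X^(qD) = (1-X)^b φ`; at `X = 1`: `c = 0`, so `φ = 0`, contradiction.
`b + m < 0`: `P_b` would have height `< 0`, contradiction (`π ≠ 0`).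
So `b + m = 0` and `C c X^(qD) = (1-X)^b φ + π`; at 1: `c = 1`.  So `(q-1) D = b` and
`La 0 0 V = X^(q D) - π`, and `φ.coeff D = 1`.
(2) `B = D`, `K` = multiplicity of the root 1 of `La 0 0 V = (1-X)^b φ`; `b ≤ K`.
(3) `mono`: level 0: `φ.coeff D ≠ 0`; by `Nle_succ`, `La_succ`, level 1: form `C 1 X^D`, and again for
all higher levels (induction).
(4) `kB`, `kP`: in terms of `u = X - 1`: `X^(q D) = (1 + u^q)^D = Σ_m binom(D,m) u^(q m)`, and `π` has
degree `≤ b - 1` (`Pp_level0_deg`), also in `u`.  So for `q m ≥ b` the coefficient of `u^(q m)` of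
`X^(qD) - π` is `binom(D, m)` (e.g. `Polynomial.taylor 1`), and if it is nonzero in `F` then `K ≤ q m`.
`m = D`: `K ≤ q D`.  `kP`: `Π = p^u` with `(q-1) D + 1 ≤ q Π`.  If `Π ≥ D`: `K ≤ q D ≤ q Π`.
If `Π < D`: `D < 2 Π` (`(q-1) D < q Π`, `q ≥ 3`: `D < (3/2) Π`), so `D = Π + D'`, `D' < Π` and
`binom(D, Π)` is not divisible by `p` (Lucas with the block `p^u`; here `b = (q-1) D ≤ q Π`).
(5) `ord`: nothing.  `ord0`: `f = Fb q th b` by `tel_unique` (`Fb_eq`; the difference satisfies the
homogeneous equation), so `f(th) = 0` (`Fb_eval`) and the multiplicity is `≥ 1`.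
(6) `top`, `head`: `K ≤ q B` gives `(q-1) K ≤ q b`, `q (K - b) ≤ K`.  `tl`: `t = []`.

`Pp_form_cong`: apply (1) to `f = Fb q th ((q-1) B)` : `natDegree f = B`,
`X^(q B) - π = La 0 0 V = (1-X)^b φ`.
-/

namespace Pool.Agent.ZQ

open Polynomial Finset

variable {F : Type*} [Field F] {p q : ℕ} [CharP F p]

private theorem invB_V (hq : 2 ≤ q) {f : (LaurentSeries F)[X]} {m : ℤ} (b : ℕ)
    (hm : Nle q 0 m f) : Nle q 0 ((b : ℤ) + m) ((C th - X) ^ b * f) ∧
      La q 0 ((b : ℤ) + m) ((C th - X) ^ b * f) = (1 - X) ^ b * La q 0 m f := by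
  have h1 : Nle q 0 (1 : ℤ) (C th - X : (LaurentSeries F)[X]) := by
    have := Nle_ths (F := F) (q := q) (by omega) 0
    simpa using this
  have h2 : Nle q 0 ((b : ℤ) * 1) ((C th - X : (LaurentSeries F)[X]) ^ b) := h1.pow b
  have h3 : La q 0 ((b : ℤ) * 1) ((C th - X : (LaurentSeries F)[X]) ^ b) = (1 - X) ^ b := by
    rw [La_pow h1 b, La_ths_zero]
  rw [mul_one] at h2 h3
  exact ⟨h2.mul hm, by rw [La_mul h2 hm, h3]⟩

private theorem invB_E (hq : 2 ≤ q) {f : (LaurentSeries F)[X]} {m : ℤ} {b : ℕ}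
    (hm : Nle q 0 m f) (hD : (q - 1) * f.natDegree ≤ b) :
    Nle q 0 ((b : ℤ) + m) (expand _ q f) ∧
      La q 0 ((b : ℤ) + m) (expand _ q f) =
        C (if (q - 1) * f.natDegree = b then (La q 0 m f).coeff f.natDegree else 0) *
          X ^ (q * f.natDegree) := by
  have h1 := Nle_succ hq hm (le_refl f.natDegree)
  have h2 := La_succ hq hm (le_refl f.natDegree)
  have e1 : m + (f.natDegree : ℤ) * (((q : ℤ) - 1) * (q : ℤ) ^ 0) =
      (((q - 1) * f.natDegree : ℕ) : ℤ) + m := by
    push_cast [Nat.cast_sub (by omega : 1 ≤ q)]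
    ring
  rw [e1] at h1 h2
  have h3 : Nle q 0 ((((q - 1) * f.natDegree : ℕ) : ℤ) + m) (expand _ q f) :=
    (Nle_expand (by omega)).2 h1
  have hle : (((q - 1) * f.natDegree : ℕ) : ℤ) + m ≤ (b : ℤ) + m := by
    have : (((q - 1) * f.natDegree : ℕ) : ℤ) ≤ (b : ℤ) := by exact_mod_cast hD
    omega
  refine ⟨h3.mono hle, ?_⟩
  split_ifs with hb
  · rw [← hb, La_expand (by omega), h2, map_mul, expand_C, map_pow, expand_X, ← pow_mul]
  · rw [C_0, zero_mul]
    apply La_of_lt h3
    have : (((q - 1) * f.natDegree : ℕ) : ℤ) < (b : ℤ) := by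
      exact_mod_cast lt_of_le_of_ne hD hb
    omega

theorem base_form (h : IsQ p q) {b : ℕ} (hb : 1 ≤ b) {f : (LaurentSeries F)[X]}
    (hf : expand _ q f = (C th - X) ^ b * f + Pp q th b) :
    (q - 1) * f.natDegree = b ∧ Nle q 0 (-(b : ℤ)) f ∧ (La q 0 (-(b : ℤ)) f).coeff f.natDegree = 1 ∧
      (1 - X) ^ b * La q 0 (-(b : ℤ)) f = X ^ (q * f.natDegree) - La q 0 0 (Pp q th b) := by
  have hq := h.two_le
  have hf0 : f ≠ 0 := by
    rintro rfl
    rw [map_zero, mul_zero, zero_add] at hf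
    exact Pp_ne h (th : LaurentSeries F) b hf.symm
  have hD : (q - 1) * f.natDegree ≤ b := by
    by_contra hlt
    push Not at hlt
    have e1 : (expand _ q f).natDegree = f.natDegree * q := natDegree_expand q f
    have e2 : q * f.natDegree = (q - 1) * f.natDegree + f.natDegree := by
      obtain ⟨r, rfl⟩ : ∃ r, q = r + 1 := ⟨q - 1, by omega⟩
      rw [Nat.add_sub_cancel]; ring
    have e3 : (expand _ q f).natDegree ≤ max (b + f.natDegree) (Pp q (th : LaurentSeries F) b).natDegree := by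
      rw [hf]
      refine (natDegree_add_le _ _).trans (max_le_max ?_ le_rfl)
      refine natDegree_mul_le.trans (Nat.add_le_add_right ?_ _)
      refine natDegree_pow_le.trans ?_
      have : (C th - X : (LaurentSeries F)[X]).natDegree ≤ 1 := by
        compute_degree
      calc b * (C th - X : (LaurentSeries F)[X]).natDegree ≤ b * 1 := Nat.mul_le_mul_left _ this
        _ = b := mul_one b
    have e4 := Pp_natDegree_le h (th : LaurentSeries F) b
    rw [e1] at e3
    rcases le_max_iff.1 e3 with h5 | h5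
    · rw [mul_comm] at h5
      omega
    · have h6 : (q - 1) * (f.natDegree * q) ≤ q * (b - 1) :=
        (Nat.mul_le_mul_left _ h5).trans e4
      have h7 : q * ((q - 1) * f.natDegree) ≤ q * (b - 1) := by
        calc q * ((q - 1) * f.natDegree) = (q - 1) * (f.natDegree * q) := by ring
          _ ≤ _ := h6
      have h8 := Nat.le_of_mul_le_mul_left h7 (by omega)
      omega
  obtain ⟨m, hm, hm0⟩ := exists_height q 0 hf0
  obtain ⟨hV, hVl⟩ := invB_V hq b hm
  obtain ⟨hE, hEl⟩ := invB_E hq hm hD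
  set c : F := if (q - 1) * f.natDegree = b then (La q 0 m f).coeff f.natDegree else 0 with hc
  have hP := Pp_level0 (F := F) h b
  have hP1 := Pp_level0_eval (F := F) h b
  have hkey : ∀ M : ℤ, M = (b : ℤ) + m → C c * X ^ (q * f.natDegree) =
      (1 - X) ^ b * La q 0 m f + La q 0 M (Pp q th b) := by
    rintro M rfl
    rw [← hEl, ← hVl, ← La_add, ← hf]
  have hb0 : b ≠ 0 := by omega
  rcases lt_trichotomy ((b : ℤ) + m) 0 with h1 | h1 | h1
  · exfalso
    have h2 : Nle q 0 ((b : ℤ) + m) (Pp q (th : LaurentSeries F) b) := by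
      have h3 : Pp q (th : LaurentSeries F) b = expand _ q f - (C th - X) ^ b * f := by
        rw [hf]; ring
      rw [h3]
      exact hE.sub hV
    have h4 := La_of_lt h2 h1
    rw [h4, eval_zero] at hP1
    exact zero_ne_one hP1
  · have h2 := hkey 0 h1.symm
    have h3 := congrArg (eval (1 : F)) h2
    simp only [eval_mul, eval_C, eval_pow, eval_X, one_pow, mul_one, eval_add, eval_sub, eval_one,
      sub_self, zero_pow hb0, zero_mul, zero_add, hP1] at h3
    have h4 : (q - 1) * f.natDegree = b := by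
      by_contra hne
      rw [hc, if_neg hne] at h3
      exact zero_ne_one h3
    have h5 : m = -(b : ℤ) := by omega
    rw [hc, if_pos h4] at h3
    subst h5
    refine ⟨h4, hm, h3, ?_⟩
    rw [hc, if_pos h4, h3, C_1, one_mul] at h2
    rw [h2]; ring
  · exfalso
    have h2 := hkey _ rfl
    rw [La_of_lt hP h1, add_zero] at h2
    have h3 := congrArg (eval (1 : F)) h2
    simp only [eval_mul, eval_C, eval_pow, eval_X, one_pow, mul_one, eval_sub, eval_one,
      sub_self, zero_pow hb0, zero_mul] at h3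
    rw [h3, C_0, zero_mul] at h2
    have h4 : (1 - X : F[X]) ^ b ≠ 0 := by
      apply pow_ne_zero
      intro h5
      have h6 := congrArg (eval (0 : F)) h5
      simp at h6
    exact hm0 ((mul_eq_zero.1 h2.symm).resolve_left h4)

theorem mono_of_level (hq : 2 ≤ q) {f : (LaurentSeries F)[X]} {j : ℕ} {m : ℤ} (hm : Nle q j m f)
    (hc : (La q j m f).coeff f.natDegree ≠ 0) {i : ℕ} (hi : j < i) :
    ∃ (m' : ℤ) (c : F), c ≠ 0 ∧ Nle q i m' f ∧ La q i m' f = C c * X ^ f.natDegree := by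
  induction i, hi using Nat.le_induction with
  | base => exact ⟨_, _, hc, Nle_succ hq hm le_rfl, La_succ hq hm le_rfl⟩
  | succ n hn ih =>
    obtain ⟨m', c, hc', h1, h2⟩ := ih
    refine ⟨_, _, ?_, Nle_succ hq h1 le_rfl, La_succ hq h1 le_rfl⟩
    rw [h2, coeff_C_mul, coeff_X_pow, if_pos rfl, mul_one]
    exact hc'

private theorem invB_taylor {G π : F[X]} {b D K m : ℕ} (h : IsQ p q)
    (hG : G = X ^ (q * D) - π) (hπ : π.natDegree < b) (hK : (X - C 1) ^ K ∣ G)
    (hm : b ≤ q * m) (hc : ((D.choose m : ℕ) : F) ≠ 0) : K ≤ q * m := by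
  by_contra hlt
  push Not at hlt
  obtain ⟨H, hH⟩ := hK
  have h1 : taylor 1 G = X ^ K * taylor 1 H := by
    rw [hH, taylor_mul, taylor_pow, map_sub, taylor_X, taylor_C]
    congr 2
    rw [C_1]; ring
  have h2 : (taylor 1 G).coeff (q * m) = 0 := by
    rw [h1, coeff_X_pow_mul', if_neg (by omega)]
  have h3 : taylor 1 G = expand F q ((X + 1) ^ D) - taylor 1 π := by
    rw [hG, map_sub, taylor_pow, taylor_X, pow_mul, C_1]
    congr 1
    rw [map_pow, map_add, expand_X, map_one]
    congr 1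
    have := add_pow_q (R := F[X]) h X 1 1
    rwa [pow_one, one_pow] at this
  rw [h3, coeff_sub, mul_comm q m, coeff_expand_mul h.pos, coeff_X_add_one_pow,
    coeff_eq_zero_of_natDegree_lt (by rw [natDegree_taylor]; rw [mul_comm m q]; omega), sub_zero] at h2
  exact hc h2

private theorem invB_choose (h : IsQ p q) (u D' : ℕ) (hD : D' < p ^ u) :
    (((p ^ u + D').choose (p ^ u) : ℕ) : F) = 1 := by
  have h1 : ((X + 1 : F[X]) ^ (p ^ u + D')).coeff (p ^ u) = (((p ^ u + D').choose (p ^ u) : ℕ) : F) :=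
    coeff_X_add_one_pow _ _ _
  rw [← h1, pow_add, add_pow_pp h X 1 u, one_pow, add_mul, one_mul, coeff_add, coeff_X_pow_mul',
    if_pos le_rfl, Nat.sub_self, coeff_X_add_one_pow, coeff_X_add_one_pow,
    Nat.choose_zero_right, Nat.choose_eq_zero_of_lt hD]
  simp

theorem inv_base (h : IsQ p q) (hq : 3 ≤ q) {b : ℕ} (hb : 1 ≤ b) {f : (LaurentSeries F)[X]}
    (hf : expand _ q f = (C th - X) ^ b * f + Pp q th b) : ∃ B K, Inv p q [b] f B K := by
  obtain ⟨hD, hn, hl, hform⟩ := base_form h hb hf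
  set D := f.natDegree with hDdef
  obtain ⟨hV, hVl⟩ := invB_V (by omega : 2 ≤ q) b hn
  rw [add_neg_cancel] at hV hVl
  set φ := La q 0 (-(b : ℤ)) f with hφ
  set K := (La q 0 0 ((C th - X) ^ b * f)).rootMultiplicity 1 with hKdef
  have hφ0 : φ ≠ 0 := by
    rintro h0
    rw [h0, coeff_zero] at hl
    exact zero_ne_one hl
  have hf0 : f ≠ 0 := by
    rintro rfl
    exact hφ0 (La_zero q 0 _)
  have hone : (1 - X : F[X]) ≠ 0 := by
    intro h5
    have h6 := congrArg (eval (0 : F)) h5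
    simp at h6
  have hG0 : La q 0 0 ((C th - X) ^ b * f) ≠ 0 := by
    rw [hVl]
    exact mul_ne_zero (pow_ne_zero _ hone) hφ0
  have hwK : b ≤ K := by
    rw [hKdef, le_rootMultiplicity_iff hG0, hVl, C_1]
    refine Dvd.dvd.mul_right ?_ _
    exact pow_dvd_pow_of_dvd ⟨-1, by ring⟩ b
  have hKd : (X - C 1) ^ K ∣ La q 0 0 ((C th - X) ^ b * f) := by
    rw [← le_rootMultiplicity_iff hG0]
  have hGe : La q 0 0 ((C th - X) ^ b * f) = X ^ (q * D) - La q 0 0 (Pp q th b) := by
    rw [hVl, hform]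
  have hπ : (La q 0 0 (Pp q (th : LaurentSeries F) b)).natDegree < b := by
    have := Pp_level0_deg (F := F) h b
    omega
  have hmain : ∀ m, b ≤ q * m → ((D.choose m : ℕ) : F) ≠ 0 → K ≤ q * m := fun m hm hc =>
    invB_taylor h hGe hπ hKd hm hc
  have hqD : b ≤ q * D := by
    rw [← hD]; exact Nat.mul_le_mul_right _ (by omega)
  have hkB : K ≤ q * D := hmain D hqD (by rw [Nat.choose_self]; simp)
  have hfFb : f = Fb q th b := by
    have hθ : Gen q (th : LaurentSeries F) := gen_th (by omega)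
    have h1 := Fb_eq h hθ hb ⟨D, hD.symm⟩
    have h2 : expand _ q (f - Fb q th b) = (C th - X) ^ b * (f - Fb q th b) := by
      rw [map_sub, hf, h1]; ring
    exact sub_eq_zero.1 (tel_unique hθ hb h2)
  have hroot : 1 ≤ f.rootMultiplicity th := by
    rw [Nat.one_le_iff_ne_zero, ← Nat.pos_iff_ne_zero, rootMultiplicity_pos hf0, IsRoot.def]
    rw [hfFb]
    exact Fb_eval th hb
  have htop : (q - 1) * K ≤ q * b := by
    calc (q - 1) * K ≤ (q - 1) * (q * D) := Nat.mul_le_mul_left _ hkB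
      _ = q * ((q - 1) * D) := by ring
      _ = q * b := by rw [hD]
  refine ⟨D, K, hf0, by simpa using hD, by simpa using hD.le, by simpa using hV,
    by simpa using hG0, by simp [hKdef], by simpa using hwK, ?_, ?_, ?_, ?_, ?_, ?_, hkB, ?_⟩
  · intro i hi
    have h1 : (0 : ℕ) < i := by
      have h2 : 1 ≤ i := by simpa using hi
      omega
    exact mono_of_level (by omega) hn (by rw [← hφ, ← hDdef, hl]; exact one_ne_zero) h1
  · intro i h1 h2
    simp at h2
    omega
  · simp only [List.sum_cons, List.sum_nil, add_zero]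
    rw [hD]
    omega
  · simp only [List.length_cons, List.length_nil, zero_add, pow_one, List.sum_cons, List.sum_nil,
      add_zero]
    obtain ⟨r, hr⟩ : ∃ r, q = r + 1 := ⟨q - 1, by omega⟩
    rw [hr, Nat.add_sub_cancel] at htop
    rw [hr, Nat.mul_sub]
    have : (r + 1) * K = r * K + K := by ring
    omega
  · rintro a t hat
    obtain ⟨rfl, rfl⟩ : b = a ∧ [] = t := by simpa using hat
    simpa using htop
  · rintro a t hat
    obtain ⟨rfl, rfl⟩ : b = a ∧ [] = t := by simpa using hat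
    simp
  · intro u hu
    rcases le_or_gt D (p ^ u) with hle | hgt
    · exact hkB.trans (Nat.mul_le_mul_left _ hle)
    · have h1 : D < 2 * p ^ u := by
        by_contra hge
        push Not at hge
        have h2 : (q - 1) * (2 * p ^ u) ≤ (q - 1) * D := Nat.mul_le_mul_left _ hge
        have h3 : q * p ^ u ≤ (q - 1) * (2 * p ^ u) := by
          calc q * p ^ u ≤ (2 * (q - 1)) * p ^ u := Nat.mul_le_mul_right _ (by omega)
            _ = _ := by ring
        omega
      have h2 : D = p ^ u + (D - p ^ u) := by omega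
      apply hmain
      · rw [← hD]
        omega
      · rw [h2, invB_choose h u (D - p ^ u) (by omega)]
        exact one_ne_zero

theorem Pp_form_cong (h : IsQ p q) {B : ℕ} (hB : 1 ≤ B) :
    (1 - X : F[X]) ^ ((q - 1) * B) ∣ X ^ (q * B) - La q 0 0 (Pp q (th : LaurentSeries F) ((q - 1) * B)) := by
  have hq := h.two_le
  have hb : 1 ≤ (q - 1) * B := Nat.mul_pos (by omega) hB
  have h1 := Fb_eq h (gen_th hq : Gen q (th : LaurentSeries F)) hb (dvd_mul_right _ _)
  obtain ⟨hD, -, -, h2⟩ := base_form h hb h1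
  have h3 : (Fb q (th : LaurentSeries F) ((q - 1) * B)).natDegree = B :=
    Nat.eq_of_mul_eq_mul_left (by omega) hD
  rw [h3] at h2
  exact ⟨_, h2.symm⟩

end Pool.Agent.ZQ
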