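import Pool.Agent.Work.MP_43901b_nt.InvB

/-!
# InvS0 (M): the step, level 0

`s = (a, t)`, `w = a + t.sum`, `f(T^q) = (θ-T)^w f + P_a(T) V_t`, `V_t = (C th - X)^(t.sum) g`,
`Inv p q t g B K`.

`step_deg`: `f ≠ 0` (otherwise `P_a V_t = 0`, but `V_t ≠ 0` by `l0`).  `(q-1) D ≤ w`: otherwise
`q D > w + D`, and `(q-1) natDegree (P_a V_t) ≤ q(a-1) + (q-1) t.sum + t.sum = q (w-1)` (`deg` of `Inv`),
so `q D > w q/(q-1) > natDegree (P_a V_t)`: impossible.
`step_level0`: `m` = exact height of `f` at level 0, `φ = La 0 m f`; `V = (C th - X)^w f` has height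
`w + m` and form `(1-X)^w φ`; `expand f` has height `≤ m + D(q-1) ≤ w + m`, form `C c X^(qD)` at height
`w + m` (`c = 0` if `(q-1) D < w`).  `P_a V_t` has height 0 and form `π ψ ≠ 0`, `π = La 0 0 P_a`,
`ψ = La 0 0 V_t` (`n0`, `l0`).
`w + m > 0`: `C c X^(qD) = (1-X)^w φ`, at 1: `c = 0`, `φ = 0`, contradiction.
`w + m < 0`: then `P_a V_t` has height `< 0`, contradiction.
So `w + m = 0`, `C c X^(qD) = (1-X)^w φ + π ψ`; `ψ(1) = 0` (`r0`, `K ≥ t.sum`..; `K ≥ 1` because
`ord0`.. or `wK` and `t.sum ≥ 1`: `t.sum = 0` would give, by `deg`, `natDegree g = 0`, so `g` has no root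
and `ord0` fails), so `c = 0` and `La 0 0 V = (1-X)^w φ = - π ψ`.
`step_root`: `π(1) = 1`, so the multiplicity of 1 in `-π ψ` is the one in `ψ`, i.e. `K`; `(1-X)^w`
divides, so `w ≤ K`.
-/

namespace Pool.Agent.ZQ

open Polynomial Finset

variable {F : Type*} [Field F] {p q : ℕ} [CharP F p]

theorem inv_sum_pos {t : List ℕ} {g : (LaurentSeries F)[X]} {B K : ℕ} (hq : 2 ≤ q)
    (hI : Inv p q t g B K) : 1 ≤ t.sum := by
  by_contra h0
  have h1 : t.sum = 0 := by omega
  have h2 := hI.deg
  rw [h1] at h2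
  have h3 : g.natDegree = 0 := by
    rcases Nat.mul_eq_zero.1 h2 with h | h
    · omega
    · exact h
  have h4 : g.rootMultiplicity th = 0 := by
    rw [eq_C_of_natDegree_eq_zero h3]
    exact rootMultiplicity_C _ _
  have h5 := hI.ord0
  rw [h1, h4] at h5
  omega

theorem step_deg (h : IsQ p q) {a : ℕ} (ha : 1 ≤ a) {t : List ℕ} {f g : (LaurentSeries F)[X]}
    {B K : ℕ} (hI : Inv p q t g B K) (hf : expand _ q f =
      (C th - X) ^ (a + t.sum) * f + Pp q th a * ((C th - X) ^ t.sum * g)) :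
    f ≠ 0 ∧ (q - 1) * f.natDegree ≤ a + t.sum := by
  have hq := h.two_le
  have hX : (C th - X : (LaurentSeries F)[X]) ≠ 0 := by
    intro h0
    have h1 := congrArg (fun r => r.coeff 1) h0
    simp at h1
  constructor
  · rintro rfl
    rw [map_zero, mul_zero, zero_add] at hf
    rcases mul_eq_zero.1 hf.symm with h1 | h1
    · exact Pp_ne h _ _ h1
    · rcases mul_eq_zero.1 h1 with h2 | h2
      · exact hX ((pow_eq_zero_iff (by have := inv_sum_pos hq hI; omega)).1 h2)
      · exact hI.ne h2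
  · by_contra hcon
    push Not at hcon
    have h1 := congrArg natDegree hf
    rw [natDegree_expand] at h1
    have hdX : (C th - X : (LaurentSeries F)[X]).natDegree ≤ 1 := by
      refine (natDegree_sub_le _ _).trans ?_
      simp
    have h2 : ((C th - X) ^ (a + t.sum) * f).natDegree ≤ a + t.sum + f.natDegree := by
      refine natDegree_mul_le.trans ?_
      have := natDegree_pow_le (p := (C th - X : (LaurentSeries F)[X])) (n := a + t.sum)
      have h3 : (a + t.sum) * (C th - X : (LaurentSeries F)[X]).natDegree ≤ (a + t.sum) * 1 :=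
        Nat.mul_le_mul_left _ hdX
      omega
    have h4 : (Pp q th a * ((C th - X) ^ t.sum * g)).natDegree ≤
        (Pp q (th : LaurentSeries F) a).natDegree + (t.sum + g.natDegree) := by
      refine natDegree_mul_le.trans ?_
      have h5 : ((C th - X) ^ t.sum * g).natDegree ≤ t.sum + g.natDegree := by
        refine natDegree_mul_le.trans ?_
        have := natDegree_pow_le (p := (C th - X : (LaurentSeries F)[X])) (n := t.sum)
        have h3 : t.sum * (C th - X : (LaurentSeries F)[X]).natDegree ≤ t.sum * 1 :=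
          Nat.mul_le_mul_left _ hdX
        omega
      omega
    have h6 := Pp_natDegree_le h (th : LaurentSeries F) a
    have h7 := hI.deg
    have h8 : ((C th - X) ^ (a + t.sum) * f + Pp q th a * ((C th - X) ^ t.sum * g)).natDegree ≤
        max (a + t.sum + f.natDegree) ((Pp q (th : LaurentSeries F) a).natDegree +
          (t.sum + g.natDegree)) :=
      (natDegree_add_le _ _).trans (max_le_max h2 h4)
    rw [← h1] at h8
    obtain ⟨k, rfl⟩ : ∃ k, q = k + 1 := ⟨q - 1, by omega⟩
    obtain ⟨b, rfl⟩ : ∃ b, a = b + 1 := ⟨a - 1, by omega⟩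
    rw [Nat.add_sub_cancel] at hcon h6 h7
    rw [Nat.add_sub_cancel] at h6
    rcases le_max_iff.1 h8 with h9 | h9
    · have h10 : f.natDegree * (k + 1) = k * f.natDegree + f.natDegree := by ring
      omega
    · have h10 := Nat.mul_le_mul_left k h9
      have h11 : k * ((Pp (k + 1) (th : LaurentSeries F) (b + 1)).natDegree + (t.sum + g.natDegree)) =
          k * (Pp (k + 1) (th : LaurentSeries F) (b + 1)).natDegree + k * t.sum +
            k * g.natDegree := by ring
      rw [h11, h7] at h10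
      have h12 : (k + 1) * (b + 1 + t.sum) < (k + 1) * (k * f.natDegree) :=
        Nat.mul_lt_mul_of_pos_left hcon (by omega)
      have h13 : k * (f.natDegree * (k + 1)) = (k + 1) * (k * f.natDegree) := by ring
      have h14 : (k + 1) * (b + 1 + t.sum) = (k + 1) * b + (k + 1) + k * t.sum + t.sum := by ring
      omega

private theorem one_sub_X_ne : (1 - X : F[X]) ≠ 0 := by
  intro h0
  have h1 := congrArg (fun r => r.coeff 1) h0
  simp [coeff_one] at h1

theorem step_level0 (h : IsQ p q) {a : ℕ} (ha : 1 ≤ a) {t : List ℕ} {f g : (LaurentSeries F)[X]}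
    {B K : ℕ} (hI : Inv p q t g B K) (hf : expand _ q f =
      (C th - X) ^ (a + t.sum) * f + Pp q th a * ((C th - X) ^ t.sum * g)) :
    Nle q 0 0 ((C th - X) ^ (a + t.sum) * f) ∧ La q 0 0 ((C th - X) ^ (a + t.sum) * f) =
      - (La q 0 0 (Pp q th a) * La q 0 0 ((C th - X) ^ t.sum * g)) := by
  have hq := h.two_le
  obtain ⟨hf0, hdeg⟩ := step_deg h ha hI hf
  obtain ⟨m, hm, hφ⟩ := exists_height q 0 hf0
  set w := a + t.sum with hw
  have hths : Nle q 0 1 (C th - X : (LaurentSeries F)[X]) := by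
    have := Nle_ths (F := F) (q := q) (by omega) 0
    rwa [pow_zero] at this
  have hVn : Nle q 0 ((w : ℤ) + m) ((C th - X) ^ w * f) := by
    have := (hths.pow w).mul hm
    rwa [mul_one] at this
  have hVl : La q 0 ((w : ℤ) + m) ((C th - X) ^ w * f) = (1 - X) ^ w * La q 0 m f := by
    have h1 := La_mul (hths.pow w) hm
    rw [La_pow hths, La_ths_zero, mul_one] at h1
    exact h1
  -- the form of `expand f`
  have hen : Nle q 0 (m + f.natDegree * (((q : ℤ) - 1) * (q : ℤ) ^ 0)) (expand _ q f) :=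
    (Nle_expand (by omega)).2 (Nle_succ hq hm le_rfl)
  have hel : La q 0 (m + f.natDegree * (((q : ℤ) - 1) * (q : ℤ) ^ 0)) (expand _ q f) =
      C ((La q 0 m f).coeff f.natDegree) * X ^ (q * f.natDegree) := by
    rw [La_expand (by omega), La_succ hq hm le_rfl, map_mul, map_pow, expand_C, expand_X, pow_mul]
  rw [pow_zero, mul_one] at hen hel
  have hle : m + (f.natDegree : ℤ) * ((q : ℤ) - 1) ≤ (w : ℤ) + m := by
    have h1 : (((q - 1) * f.natDegree : ℕ) : ℤ) ≤ (w : ℤ) := by exact_mod_cast hdeg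
    rw [Nat.cast_mul, Nat.cast_sub (by omega), Nat.cast_one] at h1
    linarith [mul_comm ((q : ℤ) - 1) (f.natDegree : ℤ)]
  have hex : ∃ c : F, La q 0 ((w : ℤ) + m) (expand _ q f) = C c * X ^ (q * f.natDegree) := by
    rcases hle.lt_or_eq with h1 | h1
    · exact ⟨0, by rw [La_of_lt hen h1, C_0, zero_mul]⟩
    · exact ⟨_, by rw [← h1]; exact hel⟩
  obtain ⟨c, hc⟩ := hex
  have hPn := (Pp_level0 (F := F) h a).mul hI.n0
  have hPl := La_mul (Pp_level0 (F := F) h a) hI.n0
  rw [add_zero] at hPn hPl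
  have hπ := Pp_level0_eval (F := F) h a
  have hπ0 : La q 0 0 (Pp q (th : LaurentSeries F) a) ≠ 0 := by
    intro h0
    rw [h0, eval_zero] at hπ
    exact zero_ne_one hπ
  have hψ := hI.l0
  have hψ1 : (La q 0 0 ((C th - X) ^ t.sum * g)).eval 1 = 0 := by
    have h1 : 0 < (La q 0 0 ((C th - X) ^ t.sum * g)).rootMultiplicity 1 := by
      rw [hI.r0]
      have := inv_sum_pos hq hI
      have := hI.wK
      omega
    exact (rootMultiplicity_pos hψ).1 h1
  have hw1 : 1 ≤ w := by omega
  rcases lt_trichotomy ((w : ℤ) + m) 0 with h1 | h1 | h1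
  · exfalso
    have h2 := congrArg (La q 0 0) hf
    rw [La_add, La_of_lt hVn h1, La_of_lt (hen.mono hle) h1, hPl, zero_add] at h2
    exact mul_ne_zero hπ0 hψ h2.symm
  · have h2 := congrArg (La q 0 ((w : ℤ) + m)) hf
    rw [La_add, hc, hVl, h1, hPl] at h2
    have h3 := congrArg (eval 1) h2
    simp only [eval_mul, eval_C, eval_pow, eval_X, eval_add, eval_sub, eval_one, one_pow,
      sub_self, hψ1, mul_zero, mul_one, add_zero] at h3
    rw [zero_pow (by omega), zero_mul] at h3
    rw [h3, C_0, zero_mul] at h2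
    rw [h1] at hVn hVl
    refine ⟨hVn, ?_⟩
    rw [hVl]
    exact eq_neg_of_add_eq_zero_left h2.symm
  · exfalso
    have h2 := congrArg (La q 0 ((w : ℤ) + m)) hf
    rw [La_add, hc, hVl, La_of_lt hPn h1, add_zero] at h2
    have h3 := congrArg (eval 1) h2
    simp only [eval_mul, eval_C, eval_pow, eval_X, eval_sub, eval_one, one_pow,
      sub_self, mul_one] at h3
    rw [zero_pow (by omega), zero_mul] at h3
    rw [h3, C_0, zero_mul] at h2
    exact mul_ne_zero (pow_ne_zero _ one_sub_X_ne) hφ h2.symm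

/-- the same consequences from the form at level 0 (also used in the odd case) -/
theorem root_of_level0 (h : IsQ p q) {a : ℕ} {t : List ℕ} {f g : (LaurentSeries F)[X]}
    {B K : ℕ} (hI : Inv p q t g B K) (hn : Nle q 0 0 ((C th - X) ^ (a + t.sum) * f))
    (hl : La q 0 0 ((C th - X) ^ (a + t.sum) * f) =
      - (La q 0 0 (Pp q th a) * La q 0 0 ((C th - X) ^ t.sum * g))) :
    La q 0 0 ((C th - X) ^ (a + t.sum) * f) ≠ 0 ∧
      (La q 0 0 ((C th - X) ^ (a + t.sum) * f)).rootMultiplicity 1 = K ∧ a + t.sum ≤ K := by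
  have hπ := Pp_level0_eval (F := F) h a
  have hπ0 : La q 0 0 (Pp q (th : LaurentSeries F) a) ≠ 0 := by
    intro h0
    rw [h0, eval_zero] at hπ
    exact zero_ne_one hπ
  have hne : La q 0 0 ((C th - X) ^ (a + t.sum) * f) ≠ 0 := by
    rw [hl, neg_ne_zero]
    exact mul_ne_zero hπ0 hI.l0
  have hK : (La q 0 0 ((C th - X) ^ (a + t.sum) * f)).rootMultiplicity 1 = K := by
    rw [hl, ← neg_mul, rootMultiplicity_mul (mul_ne_zero (neg_ne_zero.2 hπ0) hI.l0), hI.r0,
      rootMultiplicity_eq_zero, zero_add]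
    rw [IsRoot.def, eval_neg, hπ]
    exact neg_ne_zero.2 one_ne_zero
  refine ⟨hne, hK, ?_⟩
  rw [← hK, le_rootMultiplicity_iff hne]
  refine dvd_trans ?_ (dvd_La0 (Dvd.intro _ rfl) hn)
  exact pow_dvd_pow_of_dvd ⟨-1, by rw [C_1]; ring⟩ _

end Pool.Agent.ZQ
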