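import Pool.Agent.Work.MP_43901b_nt.InvS0

/-!
# InvS1 (M): the step, the multiplicities of the roots `T_i`

`mult_expand`: `(expand q f).rootMultiplicity (th^(q^i)) = q * f.rootMultiplicity (th^(q^(i+1)))`
(`Polynomial.rootMultiplicity_expand_pow`, `q = p^e`).

`step_ord`: let `n = (q-1) B + 1`.  Induction on `i`, `1 ≤ i ≤ t.length`.
`i = 1`: `(C th - X)^n` divides `expand f`: it divides `(C th - X)^(a + t.sum)` because
`n ≤ (q-1) B + a ≤ a + t.sum` (`low`), and it divides `(C th - X)^(t.sum) g` because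
`n ≤ t.sum + g.rootMultiplicity th` (`ord0`; `(X - C th)^(mult) ∣ g`).  So
`n ≤ (expand f).rootMultiplicity th = q f.rootMultiplicity (th^q)` (`th = th^(q^0)`).
`i → i+1 ≤ t.length` (`i < t.length`): let `m = min (mult_{T_i} f) (mult_{T_i} g)`; `n ≤ q^i m` by induction
and by `hI.ord`.  `(X - C T_i)^m` divides `f` and `g`, so it divides `expand f`, so
`m ≤ q mult_{T_(i+1)} f`.
-/

namespace Pool.Agent.ZQ

open Polynomial Finset

variable {F : Type*} [Field F] {p q : ℕ} [CharP F p]

theorem mult_expand (h : IsQ p q) (f : (LaurentSeries F)[X]) (i : ℕ) :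
    (expand _ q f).rootMultiplicity (th ^ q ^ i) = q * f.rootMultiplicity (th ^ q ^ (i + 1)) := by
  obtain ⟨e, he, hq⟩ := h.pow
  have : ExpChar (LaurentSeries F) p := ExpChar.prime h.prime
  have h1 := Polynomial.rootMultiplicity_expand_pow (R := LaurentSeries F) (p := p) (n := e)
    (f := f) (r := (th : LaurentSeries F) ^ q ^ i)
  rw [← hq] at h1
  rw [h1, pow_succ q i, pow_mul]

theorem step_ord (h : IsQ p q) {a : ℕ} (ha : 1 ≤ a) {t : List ℕ} {f g : (LaurentSeries F)[X]}
    {B K : ℕ} (hI : Inv p q t g B K) (hf0 : f ≠ 0) (hf : expand _ q f =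
      (C th - X) ^ (a + t.sum) * f + Pp q th a * ((C th - X) ^ t.sum * g)) {i : ℕ} (hi : 1 ≤ i)
    (hi' : i ≤ t.length) : (q - 1) * B + 1 ≤ q ^ i * f.rootMultiplicity (th ^ q ^ i) := by
  have hE : expand (LaurentSeries F) q f ≠ 0 := (expand_ne_zero h.pos).2 hf0
  have hneg : ∀ m, (X - C (th : LaurentSeries F)) ^ m ∣ (C th - X) ^ m := fun m =>
    pow_dvd_pow_of_dvd ⟨-1, by ring⟩ m
  induction i, hi using Nat.le_induction with
  | base =>
    have h1 : (X - C (th : LaurentSeries F)) ^ ((q - 1) * B + 1) ∣ expand (LaurentSeries F) q f := by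
      rw [hf]
      refine dvd_add (dvd_mul_of_dvd_left ?_ _) (dvd_mul_of_dvd_right ?_ _)
      · have := hI.low
        exact (pow_dvd_pow _ (by omega)).trans (hneg _)
      · have h2 := hI.ord0
        refine (pow_dvd_pow _ h2).trans ?_
        rw [pow_add]
        exact mul_dvd_mul (hneg _) (pow_rootMultiplicity_dvd g th)
    have h2 := (le_rootMultiplicity_iff hE).2 h1
    have h3 := mult_expand h f 0
    rw [pow_zero, pow_one, zero_add] at h3
    rw [h3, pow_one] at h2
    rw [pow_one]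
    exact h2
  | succ i hi ih =>
    have h1 := ih (by omega)
    have h2 := hI.ord i hi (by omega)
    set m := min (f.rootMultiplicity (th ^ q ^ i)) (g.rootMultiplicity (th ^ q ^ i)) with hm
    have h3 : (q - 1) * B + 1 ≤ q ^ i * m := by
      rcases min_choice (f.rootMultiplicity (th ^ q ^ i)) (g.rootMultiplicity (th ^ q ^ i)) with
        h4 | h4
      · rw [hm, h4]
        exact h1
      · rw [hm, h4]
        exact h2
    have hdf : (X - C ((th : LaurentSeries F) ^ q ^ i)) ^ m ∣ f :=
      (pow_dvd_pow _ (min_le_left _ _)).trans (pow_rootMultiplicity_dvd f _)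
    have hdg : (X - C ((th : LaurentSeries F) ^ q ^ i)) ^ m ∣ g :=
      (pow_dvd_pow _ (min_le_right _ _)).trans (pow_rootMultiplicity_dvd g _)
    have hd : (X - C ((th : LaurentSeries F) ^ q ^ i)) ^ m ∣ expand (LaurentSeries F) q f := by
      rw [hf]
      exact dvd_add (dvd_mul_of_dvd_right hdf _)
        (dvd_mul_of_dvd_right (dvd_mul_of_dvd_right hdg _) _)
    have h5 := (le_rootMultiplicity_iff hE).2 hd
    rw [mult_expand h] at h5
    calc (q - 1) * B + 1 ≤ q ^ i * m := h3
      _ ≤ q ^ i * (q * f.rootMultiplicity (th ^ q ^ (i + 1))) := Nat.mul_le_mul_left _ h5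
      _ = _ := by rw [← mul_assoc, ← pow_succ]

end Pool.Agent.ZQ
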