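import Pool.Agent.Work.MP_43901b_nt.InvS1

/-!
# InvS2 (M-L): the step, level `j = t.length ≥ 1`

`w = a + t.sum`, `D = natDegree f`, `δ = natDegree g` (`(q-1) δ = t.sum`, `hI.deg`), `M` = the
multiplicity of the root `T_j` of `f`; `M ≥ 1` (`step_ord` with `i = j`).
`m` = exact height of `f` at level `j`, `φ = La j m f ≠ 0`.  `V = (C th - X)^w f`: height
`h = w q^j + m`, form `(-X)^w φ` (`La_ths`, `La_pow`).  `expand f`: height `≤ m + D (q-1) q^j ≤ h`, form at
height `h`: `C c X^(q D)`, `c = φ.coeff D` if `(q-1) D = w`, `c = 0` otherwise (`La_succ`, `La_expand`; if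
`(q-1) D < w` the height is `< h`).  `V_t = (C th - X)^(t.sum) g`: height `t.sum q^j + m_t`, form
`(-X)^(t.sum) C c_t X^δ` (`hI.mono j`, `c_t ≠ 0`).  `P_a`: exact height `m_P`, form `P_j ≠ 0`
(`exists_height`).  `h' = m_P + t.sum q^j + m_t`.
* `h < h'`: contradiction (the form of `P_a V_t` at `h'` is nonzero, the other two vanish there).
* `h > h'`: `C c X^(qD) = (-X)^w φ`; `(X-1)^M ∣ φ` (`dvd_La`), `M ≥ 1`, so at 1: `c = 0`, `φ = 0`,
  contradiction.
* `h = h'`: `C c X^(qD) = (-X)^w φ + P_j (-X)^(t.sum) C c_t X^δ`, `t.sum + δ = q δ`.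
  If `c = 0`: `(X-1)^M` divides `X^(q δ) P_j` up to a unit constant, so it divides `P_j` (coprime to `X`):
  first alternative.
  If `c ≠ 0`: `(q-1) D = w`, `(La j m f).coeff D = c ≠ 0`, `D ≥ δ`, and
  `(-X)^w φ = X^(qδ) (C c X^(q(D-δ)) - C c' P_j)`, `c' = (-1)^(t.sum) c_t`; the bracket is nonzero and
  divisible by `(X-1)^M`.
-/

namespace Pool.Agent.ZQ

open Polynomial Finset

variable {F : Type*} [Field F] {p q : ℕ} [CharP F p]

private theorem invS2_V (hq : 2 ≤ q) {f : (LaurentSeries F)[X]} {j : ℕ} (hj : 1 ≤ j) {m : ℤ} (w : ℕ)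
    (hm : Nle q j m f) : Nle q j ((w : ℤ) * (q : ℤ) ^ j + m) ((C th - X) ^ w * f) ∧
      La q j ((w : ℤ) * (q : ℤ) ^ j + m) ((C th - X) ^ w * f) = (-X) ^ w * La q j m f := by
  have h1 : Nle q j ((q : ℤ) ^ j) (C th - X : (LaurentSeries F)[X]) := Nle_ths (by omega) j
  have h2 : Nle q j ((w : ℤ) * (q : ℤ) ^ j) ((C th - X : (LaurentSeries F)[X]) ^ w) := h1.pow w
  have h3 : La q j ((w : ℤ) * (q : ℤ) ^ j) ((C th - X : (LaurentSeries F)[X]) ^ w) = (-X) ^ w := by
    rw [La_pow h1 w, La_ths hq hj]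
  exact ⟨h2.mul hm, by rw [La_mul h2 hm, h3]⟩

private theorem invS2_E (hq : 2 ≤ q) {f : (LaurentSeries F)[X]} {j : ℕ} {m : ℤ} {w : ℕ}
    (hm : Nle q j m f) (hD : (q - 1) * f.natDegree ≤ w) :
    Nle q j ((w : ℤ) * (q : ℤ) ^ j + m) (expand _ q f) ∧
      La q j ((w : ℤ) * (q : ℤ) ^ j + m) (expand _ q f) =
        C (if (q - 1) * f.natDegree = w then (La q j m f).coeff f.natDegree else 0) *
          X ^ (q * f.natDegree) := by
  have h1 := Nle_succ hq hm (le_refl f.natDegree)
  have h2 := La_succ hq hm (le_refl f.natDegree)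
  have hqj : (0 : ℤ) < (q : ℤ) ^ j := by
    have : (0 : ℤ) < q := by omega
    positivity
  have e1 : m + (f.natDegree : ℤ) * (((q : ℤ) - 1) * (q : ℤ) ^ j) =
      (((q - 1) * f.natDegree : ℕ) : ℤ) * (q : ℤ) ^ j + m := by
    push_cast [Nat.cast_sub (by omega : 1 ≤ q)]
    ring
  rw [e1] at h1 h2
  have h3 : Nle q j ((((q - 1) * f.natDegree : ℕ) : ℤ) * (q : ℤ) ^ j + m) (expand _ q f) :=
    (Nle_expand (by omega)).2 h1
  have hle : (((q - 1) * f.natDegree : ℕ) : ℤ) * (q : ℤ) ^ j + m ≤ (w : ℤ) * (q : ℤ) ^ j + m := by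
    have : (((q - 1) * f.natDegree : ℕ) : ℤ) ≤ (w : ℤ) := by exact_mod_cast hD
    have := mul_le_mul_of_nonneg_right this hqj.le
    omega
  refine ⟨h3.mono hle, ?_⟩
  split_ifs with hb
  · rw [← hb, La_expand (by omega), h2, map_mul, expand_C, map_pow, expand_X, ← pow_mul]
  · rw [C_0, zero_mul]
    apply La_of_lt h3
    have : (((q - 1) * f.natDegree : ℕ) : ℤ) < (w : ℤ) := by
      exact_mod_cast lt_of_le_of_ne hD hb
    have := mul_lt_mul_of_pos_right this hqj
    omega

private theorem invS2_cop (M n : ℕ) : IsCoprime ((X - 1 : F[X]) ^ M) (X ^ n) := by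
  apply IsCoprime.pow
  exact ⟨-1, 1, by ring⟩

theorem step_levelj (h : IsQ p q) {a : ℕ} (ha : 1 ≤ a) {t : List ℕ} {f g : (LaurentSeries F)[X]}
    {B K : ℕ} (hI : Inv p q t g B K) (ht : 1 ≤ t.length) (hf : expand _ q f =
      (C th - X) ^ (a + t.sum) * f + Pp q th a * ((C th - X) ^ t.sum * g)) :
    ∃ mP : ℤ, Nle q t.length mP (Pp q (th : LaurentSeries F) a) ∧
      La q t.length mP (Pp q (th : LaurentSeries F) a) ≠ 0 ∧
      ((X - 1) ^ f.rootMultiplicity (th ^ q ^ t.length) ∣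
          La q t.length mP (Pp q (th : LaurentSeries F) a) ∨
        ((q - 1) * f.natDegree = a + t.sum ∧
          (∃ m : ℤ, Nle q t.length m f ∧ (La q t.length m f).coeff f.natDegree ≠ 0) ∧
          ∃ c c' : F, C c * X ^ (q * (f.natDegree - g.natDegree)) -
              C c' * La q t.length mP (Pp q (th : LaurentSeries F) a) ≠ 0 ∧
            (X - 1) ^ f.rootMultiplicity (th ^ q ^ t.length) ∣
              C c * X ^ (q * (f.natDegree - g.natDegree)) -
                C c' * La q t.length mP (Pp q (th : LaurentSeries F) a))) := by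
  have hq := h.two_le
  obtain ⟨hf0, hD⟩ := step_deg h ha hI hf
  have hord := step_ord h ha hI hf0 hf ht le_rfl
  set M := f.rootMultiplicity (th ^ q ^ t.length) with hM
  have hM1 : M ≠ 0 := by
    rintro h0
    rw [h0, mul_zero] at hord
    omega
  obtain ⟨m, hm, hm0⟩ := exists_height q t.length hf0
  obtain ⟨mP, hmP, hmP0⟩ := exists_height q t.length (Pp_ne h (th : LaurentSeries F) a)
  obtain ⟨mt, ct, hct, hmt, hlt⟩ := hI.mono t.length le_rfl
  obtain ⟨hV, hVl⟩ := invS2_V hq ht (a + t.sum) hm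
  obtain ⟨hE, hEl⟩ := invS2_E hq hm hD
  obtain ⟨hT, hTl⟩ := invS2_V hq ht t.sum hmt
  have hPT := hmP.mul hT
  have hPTl := La_mul hmP hT
  rw [hTl, hlt] at hPTl
  set P := La q t.length mP (Pp q (th : LaurentSeries F) a) with hPdef
  set φ := La q t.length m f with hφ
  set c : F := if (q - 1) * f.natDegree = a + t.sum then φ.coeff f.natDegree else 0 with hc
  have hdvd : (X - 1) ^ M ∣ φ := dvd_La (pow_rootMultiplicity_dvd f _) hm
  have hφ1 : φ.eval 1 = 0 := by
    obtain ⟨r, hr⟩ := hdvd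
    rw [hr, eval_mul, eval_pow, eval_sub, eval_X, eval_one, sub_self, zero_pow hM1, zero_mul]
  have hX : ∀ n : ℕ, ((-X : F[X]) ^ n) ≠ 0 := fun n => pow_ne_zero _ (neg_ne_zero.2 X_ne_zero)
  have hPTne : P * ((-X) ^ t.sum * (C ct * X ^ g.natDegree)) ≠ 0 :=
    mul_ne_zero hmP0 (mul_ne_zero (hX _) (mul_ne_zero (by simpa using hct)
      (pow_ne_zero _ X_ne_zero)))
  refine ⟨mP, hmP, hmP0, ?_⟩
  have hdeg : (q - 1) * g.natDegree = t.sum := hI.deg
  rcases lt_trichotomy (((a + t.sum : ℕ) : ℤ) * (q : ℤ) ^ t.length + m)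
    (mP + ((t.sum : ℤ) * (q : ℤ) ^ t.length + mt)) with h1 | h1 | h1
  · exfalso
    apply hPTne
    rw [← hPTl]
    have h2 : Pp q (th : LaurentSeries F) a * ((C th - X) ^ t.sum * g) =
        expand _ q f - (C th - X) ^ (a + t.sum) * f := by rw [hf]; ring
    rw [h2, La_sub, La_of_lt hE h1, La_of_lt hV h1, sub_zero]
  · have h2 : C c * X ^ (q * f.natDegree) =
        (-X) ^ (a + t.sum) * φ + P * ((-X) ^ t.sum * (C ct * X ^ g.natDegree)) := by
      rw [← hEl, ← hVl, ← hPTl, ← h1, ← La_add, ← hf]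
    by_cases hc0 : c = 0
    · left
      rw [hc0, C_0, zero_mul] at h2
      have h3 : (X - 1) ^ M ∣ (C ct * (-1) ^ t.sum) * (X ^ (t.sum + g.natDegree) * P) := by
        have h4 : (C ct * (-1) ^ t.sum) * (X ^ (t.sum + g.natDegree) * P) =
            -((-X) ^ (a + t.sum) * φ) := by
          rw [eq_neg_iff_add_eq_zero, h2]
          rw [neg_pow (X : F[X]) t.sum]
          ring
        rw [h4]
        exact (Dvd.dvd.mul_left hdvd _).neg_right
      have h5 : IsUnit (C ct * (-1 : F[X]) ^ t.sum) := by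
        apply IsUnit.mul
        · exact isUnit_C.2 (isUnit_iff_ne_zero.2 hct)
        · exact IsUnit.pow _ isUnit_one.neg
      rw [h5.dvd_mul_left] at h3
      exact (invS2_cop M _).dvd_of_dvd_mul_left h3
    · right
      have hw : (q - 1) * f.natDegree = a + t.sum := by
        by_contra hne
        exact hc0 (by rw [hc, if_neg hne])
      have hcc : φ.coeff f.natDegree = c := by rw [hc, if_pos hw]
      have hle : g.natDegree ≤ f.natDegree := by
        have : (q - 1) * g.natDegree ≤ (q - 1) * f.natDegree := by omega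
        exact Nat.le_of_mul_le_mul_left this (by omega)
      refine ⟨hw, ⟨m, hm, by rw [← hφ, hcc]; exact hc0⟩, c, (-1) ^ t.sum * ct, ?_⟩
      have hqD : q * f.natDegree = q * g.natDegree + q * (f.natDegree - g.natDegree) := by
        rw [← mul_add]; congr 1; omega
      have hqd : t.sum + g.natDegree = q * g.natDegree := by
        rw [← hdeg]
        obtain ⟨r, rfl⟩ : ∃ r, q = r + 1 := ⟨q - 1, by omega⟩
        rw [Nat.add_sub_cancel]; ring
      have h3 : X ^ (q * g.natDegree) * (C c * X ^ (q * (f.natDegree - g.natDegree)) -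
          C ((-1) ^ t.sum * ct) * P) = (-X) ^ (a + t.sum) * φ := by
        have h4 : (-X : F[X]) ^ (a + t.sum) * φ =
            C c * X ^ (q * f.natDegree) - P * ((-X) ^ t.sum * (C ct * X ^ g.natDegree)) := by
          rw [h2]; ring
        rw [h4, hqD, pow_add, neg_pow (X : F[X]) t.sum, C_mul, C_pow, C_neg, C_1]
        have h5 : (X : F[X]) ^ (q * g.natDegree) = X ^ t.sum * X ^ g.natDegree := by
          rw [← pow_add, hqd]
        rw [h5]
        ring
      constructor
      · intro h0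
        rw [h0, mul_zero] at h3
        exact mul_ne_zero (hX _) hm0 h3.symm
      · apply (invS2_cop M (q * g.natDegree)).dvd_of_dvd_mul_left
        rw [h3]
        exact Dvd.dvd.mul_left hdvd _
  · exfalso
    have h2 : C c * X ^ (q * f.natDegree) = (-X) ^ (a + t.sum) * φ := by
      rw [← hEl, ← hVl, hf, La_add, La_of_lt hPT h1, add_zero]
    have h3 := congrArg (eval (1 : F)) h2
    simp only [eval_mul, eval_C, eval_pow, eval_X, one_pow, mul_one, hφ1, mul_zero] at h3
    rw [h3, C_0, zero_mul] at h2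
    exact mul_ne_zero (hX _) hm0 h2.symm

end Pool.Agent.ZQ
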