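import Pool.Agent.Work.MP_43901b_nt.LevC
import Pool.Agent.Work.MP_43901b_nt.PpB

/-!
# PLev (M): the levels of `c_i` and `P_a`

`Dd q th i` has degree `i q^i` and leading coefficient 1: `C (Dd)` has height `i q^i` and form `1` at
every level (`La_mul` over the product, each `th^(q^i) - th^(q^l)`, `l < i`, has height `q^i`, form 1);
so `C (Dd)⁻¹` has height `-i q^i` and form 1 (`exists_deg`, product with `C (Dd)` is `1`).

`cc_level0`: `C (th^(q^i)) - X^(q^(l+1))` at level 0: height `q^i`; form `1` for `l+1 < i` and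
`1 - X^(q^i) = (1-X)^(q^i)` for `l + 1 = i`.
`Pp_level0`: strong induction with `gg_rec`/`Pp_rec` (`Nle.mul`, `Nle.sum`); the forms satisfy
`La 0 0 P_(a+1) = Σ_{q^i ≤ a} (La 0 0 c_i) (La 0 0 P_(a+1-q^i))`, at `X = 1` only `i = 0` contributes, so the
value at 1 is constant `1` (`Pp_level0_eval`); degree: `q^i + (a - q^i) = a` (`Pp_level0_deg`).
`cc_levelj`: level `j`: the factor `C (th^(q^l)) - X^(q^(l'+1))` has height `≤ max (q^l) (q^(j+l'+1))`, so the
height of `c_l` is `≤ Σ_{l'=1}^{l} max (q^l) (q^(j+l')) - l q^l`, and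
`Σ_{l'=1}^{l} max (q^l) (q^(j+l')) ≤ l q^l + q^l σ_j` by induction on `j`: `j = 0` clear; the sum for
`j+1` is the sum for `j` shifted by one, so it increases by at most `q^(j+l+1)`.
`Pp_levelj`: strong induction: `q^l σ_j + (a - q^l) σ_j = a σ_j`.
-/

namespace Pool.Agent.ZQ

open Polynomial Finset

variable {F : Type*} [Field F] {p q : ℕ}

private theorem pl_La_sum {ι : Type*} (T : Finset ι) (j : ℕ) (m : ℤ)
    (f : ι → (LaurentSeries F)[X]) :
    La q j m (∑ i ∈ T, f i) = ∑ i ∈ T, La q j m (f i) := by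
  classical
  induction T using Finset.induction_on with
  | empty => rw [sum_empty, sum_empty, La_zero]
  | insert a s ha ih => rw [sum_insert ha, sum_insert ha, La_add, ih]

private theorem pl_prod (j n : ℕ) (m : ℕ → ℤ) (f : ℕ → (LaurentSeries F)[X])
    (hf : ∀ l < n, Nle q j (m l) (f l)) :
    Nle q j (∑ l ∈ range n, m l) (∏ l ∈ range n, f l) ∧
      La q j (∑ l ∈ range n, m l) (∏ l ∈ range n, f l) = ∏ l ∈ range n, La q j (m l) (f l) := by
  induction n with
  | zero =>
    simp only [range_zero, sum_empty, prod_empty]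
    exact ⟨Nle_one q j, La_one q j⟩
  | succ n ih =>
    obtain ⟨h1, h2⟩ := ih fun l hl => hf l (Nat.lt_succ_of_lt hl)
    have h3 := hf n (Nat.lt_succ_self n)
    rw [sum_range_succ, prod_range_succ, prod_range_succ]
    exact ⟨h1.mul h3, by rw [La_mul h1 h3, h2]⟩

private theorem pl_th_coeff (n : ℕ) (k : ℤ) :
    ((th : LaurentSeries F) ^ n).coeff k = if k = -(n : ℤ) then 1 else 0 := by
  rw [th_pow]
  by_cases hk : k = -(n : ℤ)
  · rw [if_pos hk, hk, HahnSeries.coeff_single_same]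
  · rw [if_neg hk, HahnSeries.coeff_single_of_ne hk]

private theorem pl_Cth (j n : ℕ) {m : ℤ} (hm : (n : ℤ) ≤ m) :
    Nle q j m (C ((th : LaurentSeries F) ^ n)) := by
  rw [Nle_C]
  intro k hk
  rw [pl_th_coeff, if_neg (by omega)]

private theorem pl_LCth (j n : ℕ) (m : ℤ) :
    La q j m (C ((th : LaurentSeries F) ^ n)) = if (n : ℤ) = m then 1 else 0 := by
  rw [La_C, pl_th_coeff]
  split_ifs with h1 h2 h2
  · exact C_1
  · omega
  · omega
  · exact C_0

private theorem pl_X (j n : ℕ) {m : ℤ} (hm : (n : ℤ) * (q : ℤ) ^ j ≤ m) :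
    Nle q j m ((X : (LaurentSeries F)[X]) ^ n) := by
  intro i k hk
  rw [coeff_X_pow]
  split_ifs with h
  · subst h
    rw [HahnSeries.coeff_one, if_neg (by omega)]
  · rfl

private theorem pl_LX (j n : ℕ) (m : ℤ) :
    La q j m ((X : (LaurentSeries F)[X]) ^ n) = if (n : ℤ) * (q : ℤ) ^ j = m then X ^ n else 0 := by
  ext i
  rw [La_coeff, coeff_X_pow]
  by_cases h : i = n
  · subst h
    rw [if_pos rfl, HahnSeries.coeff_one]
    by_cases h2 : (i : ℤ) * (q : ℤ) ^ j = m
    · rw [if_pos (by omega), if_pos h2, coeff_X_pow, if_pos rfl]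
    · rw [if_neg (by omega), if_neg h2, coeff_zero]
  · rw [if_neg h, HahnSeries.coeff_zero]
    split_ifs
    · rw [coeff_X_pow, if_neg h]
    · rw [coeff_zero]

private theorem pl_Dd (hq : 2 ≤ q) (j i : ℕ) :
    Nle q j ((i : ℤ) * (q : ℤ) ^ i) (C (Dd q (th : LaurentSeries F) i)) ∧
      La q j ((i : ℤ) * (q : ℤ) ^ i) (C (Dd q (th : LaurentSeries F) i)) = 1 := by
  have hlt : ∀ l < i, q ^ l < q ^ i := fun l hl => Nat.pow_lt_pow_right (by omega) hl
  have h1 := pl_prod (F := F) (q := q) j i (fun _ => (q : ℤ) ^ i)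
    (fun l => C (th ^ q ^ i - th ^ q ^ l)) (fun l hl => by
      rw [C_sub]
      refine Nle.sub (pl_Cth _ _ (by push_cast; exact le_rfl)) (pl_Cth _ _ ?_)
      have := (hlt l hl).le
      exact_mod_cast this)
  have h2 : ∏ l ∈ range i, C ((th : LaurentSeries F) ^ q ^ i - th ^ q ^ l) =
      C (Dd q (th : LaurentSeries F) i) := by
    rw [Dd, map_prod]
  have h3 : ∑ l ∈ range i, (fun _ : ℕ => (q : ℤ) ^ i) l = (i : ℤ) * (q : ℤ) ^ i := by
    simp
  rw [h2, h3] at h1
  refine ⟨h1.1, h1.2.trans ?_⟩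
  refine prod_eq_one fun l hl => ?_
  rw [mem_range] at hl
  have h4 := hlt l hl
  rw [C_sub, La_sub, pl_LCth, pl_LCth, if_pos (by push_cast; rfl), if_neg, sub_zero]
  intro h5
  have h6 : q ^ l = q ^ i := by exact_mod_cast h5
  omega

private theorem pl_Dd_ne (hq : 2 ≤ q) (i : ℕ) : Dd q (th : LaurentSeries F) i ≠ 0 := by
  intro h0
  have h1 := (pl_Dd (F := F) hq 0 i).2
  rw [h0, C_0, La_zero] at h1
  exact zero_ne_one h1

theorem Dd_inv_level (hq : 2 ≤ q) (j i : ℕ) :
    Nle q j (-((i : ℤ) * (q : ℤ) ^ i)) (C (Dd q (th : LaurentSeries F) i)⁻¹) ∧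
      La q j (-((i : ℤ) * (q : ℤ) ^ i)) (C (Dd q (th : LaurentSeries F) i)⁻¹) = 1 := by
  have hne := pl_Dd_ne (F := F) hq i
  obtain ⟨h1, h2⟩ := pl_Dd (F := F) hq j i
  obtain ⟨δ, c₀, hc, hδ⟩ := exists_deg (inv_ne_zero hne)
  obtain ⟨h3, h4⟩ := hδ q j
  have h5 : C (Dd q (th : LaurentSeries F) i) * C (Dd q (th : LaurentSeries F) i)⁻¹ = 1 := by
    rw [← C_mul, mul_inv_cancel₀ hne, C_1]
  have h6 := h1.mul h3
  have h7 := La_mul h1 h3
  rw [h5] at h6 h7
  rw [h2, h4, one_mul] at h7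
  have h8 : (i : ℤ) * (q : ℤ) ^ i + δ ≤ 0 := by
    refine le_of_La (Nle_one q j) (f := (1 : (LaurentSeries F)[X])) ?_
    rw [h7]
    exact C_ne_zero.2 hc
  have h9 : 0 ≤ (i : ℤ) * (q : ℤ) ^ i + δ := by
    refine le_of_La h6 ?_
    rw [La_one]
    exact one_ne_zero
  have h10 : δ = -((i : ℤ) * (q : ℤ) ^ i) := by omega
  rw [← h10]
  refine ⟨h3, ?_⟩
  have h11 : (i : ℤ) * (q : ℤ) ^ i + δ = 0 := by omega
  rw [h11, La_one] at h7
  rw [h4, ← h7]

theorem cc_level0 [CharP F p] (h : IsQ p q) (i : ℕ) : Nle q 0 0 (cc q (th : LaurentSeries F) i) ∧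
    La q 0 0 (cc q (th : LaurentSeries F) i) = if i = 0 then 1 else (1 - X) ^ q ^ i := by
  have hq := h.two_le
  have hle : ∀ l < i, q ^ (l + 1) ≤ q ^ i := fun l hl => Nat.pow_le_pow_right (by omega) hl
  have h1 := pl_prod (F := F) (q := q) 0 i (fun _ => (q : ℤ) ^ i)
    (fun l => C (th ^ q ^ i) - X ^ q ^ (l + 1)) (fun l hl => by
      refine Nle.sub (pl_Cth _ _ (by push_cast; exact le_rfl)) (pl_X _ _ ?_)
      rw [pow_zero, mul_one]
      exact_mod_cast hle l hl)
  have h3 : ∑ l ∈ range i, (fun _ : ℕ => (q : ℤ) ^ i) l = (i : ℤ) * (q : ℤ) ^ i := by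
    simp
  rw [h3] at h1
  obtain ⟨h4, h5⟩ := Dd_inv_level (F := F) hq 0 i
  have h6 := h4.mul h1.1
  have h7 := La_mul h4 h1.1
  rw [neg_add_cancel] at h6 h7
  refine ⟨h6, ?_⟩
  rw [cc, h7, h5, one_mul, h1.2]
  cases i with
  | zero => rw [range_zero, prod_empty, if_pos rfl]
  | succ i =>
    rw [if_neg (Nat.succ_ne_zero i), prod_range_succ, prod_eq_one, one_mul]
    · rw [La_sub, pl_LCth, pl_LX, if_pos (by push_cast; rfl), if_pos (by push_cast; ring),
        sub_pow_q h, one_pow]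
    · intro l hl
      rw [mem_range] at hl
      have h8 : q ^ (l + 1) < q ^ (i + 1) := Nat.pow_lt_pow_right (by omega) (by omega)
      rw [La_sub, pl_LCth, pl_LX, if_pos (by push_cast; rfl), if_neg, sub_zero]
      intro h9
      rw [pow_zero, mul_one] at h9
      have h10 : q ^ (l + 1) = q ^ (i + 1) := by exact_mod_cast h9
      omega

private theorem pl_Pp_zero (θ : LaurentSeries F) : Pp q θ 0 = 1 := by
  have : Pp q θ 0 = Pp q θ 1 := rfl
  rw [this, Pp_one]

theorem Pp_level0 [CharP F p] (h : IsQ p q) (a : ℕ) :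
    Nle q 0 0 (Pp q (th : LaurentSeries F) a) := by
  induction a using Nat.strong_induction_on with
  | _ a ih =>
    rcases Nat.lt_or_ge a 2 with h2 | h2
    · interval_cases a
      · rw [pl_Pp_zero]
        exact Nle_one q 0
      · rw [Pp_one]
        exact Nle_one q 0
    · obtain ⟨b, rfl⟩ : ∃ b, a = b + 1 := ⟨a - 1, by omega⟩
      rw [Pp_rec h th (by omega : 1 ≤ b)]
      refine Nle.sum _ fun i _ => ?_
      split_ifs with hi
      · have h3 : 0 < q ^ i := Nat.pow_pos h.pos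
        have h4 := (cc_level0 (F := F) h i).1.mul (ih (b + 1 - q ^ i) (by omega))
        rwa [add_zero] at h4
      · exact Nle_zero q 0 0

private theorem pl_form [CharP F p] (h : IsQ p q) {b : ℕ} (hb : 1 ≤ b) :
    La q 0 0 (Pp q (th : LaurentSeries F) (b + 1)) = ∑ i ∈ range (b + 1), if q ^ i ≤ b then
      (if i = 0 then 1 else (1 - X) ^ q ^ i) * La q 0 0 (Pp q (th : LaurentSeries F) (b + 1 - q ^ i))
      else 0 := by
  rw [Pp_rec h th hb, pl_La_sum]
  refine sum_congr rfl fun i _ => ?_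
  split_ifs with hi h0
  · have h4 := La_mul (cc_level0 (F := F) h i).1 (Pp_level0 (F := F) h (b + 1 - q ^ i))
    rw [add_zero, (cc_level0 (F := F) h i).2, if_pos h0] at h4
    exact h4
  · have h4 := La_mul (cc_level0 (F := F) h i).1 (Pp_level0 (F := F) h (b + 1 - q ^ i))
    rw [add_zero, (cc_level0 (F := F) h i).2, if_neg h0] at h4
    exact h4
  · exact La_zero q 0 0

theorem Pp_level0_eval [CharP F p] (h : IsQ p q) (a : ℕ) :
    (La q 0 0 (Pp q (th : LaurentSeries F) a)).eval 1 = 1 := by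
  induction a using Nat.strong_induction_on with
  | _ a ih =>
    rcases Nat.lt_or_ge a 2 with h2 | h2
    · interval_cases a
      · rw [pl_Pp_zero, La_one, eval_one]
      · rw [Pp_one, La_one, eval_one]
    · obtain ⟨b, rfl⟩ : ∃ b, a = b + 1 := ⟨a - 1, by omega⟩
      rw [pl_form h (by omega : 1 ≤ b), eval_finsetSum, sum_eq_single 0]
      · rw [pow_zero, if_pos (by omega), if_pos rfl, one_mul]
        exact ih _ (by omega)
      · intro i _ hi
        split_ifs with h3
        · rw [eval_mul, eval_pow, eval_sub, eval_one, eval_X, sub_self,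
            zero_pow (pow_ne_zero _ h.ne_zero), zero_mul]
        · rw [eval_zero]
      · intro h0
        exact absurd (mem_range.2 (by omega)) h0

theorem Pp_level0_deg [CharP F p] (h : IsQ p q) (a : ℕ) :
    (La q 0 0 (Pp q (th : LaurentSeries F) a)).natDegree ≤ a - 1 := by
  induction a using Nat.strong_induction_on with
  | _ a ih =>
    rcases Nat.lt_or_ge a 2 with h2 | h2
    · interval_cases a
      · rw [pl_Pp_zero, La_one, natDegree_one]
      · rw [Pp_one, La_one, natDegree_one]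
    · obtain ⟨b, rfl⟩ : ∃ b, a = b + 1 := ⟨a - 1, by omega⟩
      rw [pl_form h (by omega : 1 ≤ b)]
      refine natDegree_sum_le_of_forall_le _ _ fun i _ => ?_
      have h3 : 0 < q ^ i := Nat.pow_pos h.pos
      split_ifs with hi h0
      · have h4 := ih (b + 1 - q ^ i) (by omega)
        rw [one_mul]
        omega
      · have h4 := ih (b + 1 - q ^ i) (by omega)
        have h5 : ((1 - X : F[X]) ^ q ^ i).natDegree ≤ q ^ i := by
          refine natDegree_pow_le_of_le (q ^ i) (?_ : (1 - X : F[X]).natDegree ≤ 1) |>.trans ?_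
          · refine (natDegree_sub_le _ _).trans ?_
            rw [natDegree_one, natDegree_X]
            omega
          · omega
        refine (natDegree_mul_le).trans ?_
        omega
      · rw [natDegree_zero]
        omega

private theorem pl_max (hq : 2 ≤ q) (l j : ℕ) :
    ∑ i ∈ range l, max ((q : ℤ) ^ l) ((q : ℤ) ^ (j + i + 1)) ≤
      (l : ℤ) * (q : ℤ) ^ l + (q : ℤ) ^ l * sg q j := by
  have hq1 : (1 : ℤ) ≤ (q : ℤ) := by exact_mod_cast (by omega : 1 ≤ q)
  induction j with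
  | zero =>
    rw [sg_zero, Nat.cast_zero, mul_zero, add_zero]
    have h1 : ∀ i ∈ range l, max ((q : ℤ) ^ l) ((q : ℤ) ^ (0 + i + 1)) = (q : ℤ) ^ l := by
      intro i hi
      rw [mem_range] at hi
      exact max_eq_left (pow_le_pow_right₀ hq1 (by omega))
    rw [sum_congr rfl h1, sum_const, card_range, nsmul_eq_mul]
  | succ j ih =>
    have h1 : ∑ i ∈ range l, max ((q : ℤ) ^ l) ((q : ℤ) ^ (j + 1 + i + 1)) +
        max ((q : ℤ) ^ l) ((q : ℤ) ^ (j + 0 + 1)) =
        ∑ i ∈ range l, max ((q : ℤ) ^ l) ((q : ℤ) ^ (j + i + 1)) +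
        max ((q : ℤ) ^ l) ((q : ℤ) ^ (j + l + 1)) := by
      rw [← sum_range_succ (fun i => max ((q : ℤ) ^ l) ((q : ℤ) ^ (j + i + 1))) l,
        sum_range_succ' (fun i => max ((q : ℤ) ^ l) ((q : ℤ) ^ (j + i + 1))) l]
      congr 1
      refine sum_congr rfl fun i _ => ?_
      congr 2
      ring
    have h2 : max ((q : ℤ) ^ l) ((q : ℤ) ^ (j + l + 1)) = (q : ℤ) ^ l * (q : ℤ) ^ (j + 1) := by
      rw [max_eq_right (pow_le_pow_right₀ hq1 (by omega)), ← pow_add]
      congr 1
      ring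
    have h3 : (0 : ℤ) ≤ max ((q : ℤ) ^ l) ((q : ℤ) ^ (j + 0 + 1)) :=
      le_trans (by positivity) (le_max_left _ _)
    rw [sg_succ]
    push_cast
    rw [mul_add]
    linarith

theorem cc_levelj (h : IsQ p q) (j l : ℕ) :
    Nle q j ((q : ℤ) ^ l * sg q j) (cc q (th : LaurentSeries F) l) := by
  have hq := h.two_le
  have h1 := pl_prod (F := F) (q := q) j l
    (fun i => max ((q : ℤ) ^ l) ((q : ℤ) ^ (j + i + 1)))
    (fun i => C (th ^ q ^ l) - X ^ q ^ (i + 1)) (fun i hi => by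
      refine Nle.sub (pl_Cth _ _ ?_) (pl_X _ _ ?_)
      · push_cast
        exact le_max_left _ _
      · push_cast
        rw [← pow_add]
        refine le_trans (le_of_eq ?_) (le_max_right _ _)
        congr 1
        ring)
  have h4 := (Dd_inv_level (F := F) hq j l).1.mul h1.1
  refine Nle.mono (m := -((l : ℤ) * (q : ℤ) ^ l) +
    ∑ i ∈ range l, max ((q : ℤ) ^ l) ((q : ℤ) ^ (j + i + 1))) h4 ?_
  have h5 := pl_max hq l j
  linarith

theorem Pp_levelj (h : IsQ p q) (j : ℕ) {a : ℕ} (ha : 1 ≤ a) :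
    Nle q j (((a : ℤ) - 1) * sg q j) (Pp q (th : LaurentSeries F) a) := by
  induction a using Nat.strong_induction_on with
  | _ a ih =>
    rcases Nat.lt_or_ge a 2 with h2 | h2
    · obtain rfl : a = 1 := by omega
      rw [Pp_one, Nat.cast_one, sub_self, zero_mul]
      exact Nle_one q j
    · obtain ⟨b, rfl⟩ : ∃ b, a = b + 1 := ⟨a - 1, by omega⟩
      rw [Pp_rec h th (by omega : 1 ≤ b)]
      refine Nle.sum _ fun i _ => ?_
      split_ifs with hi
      · have h3 : 0 < q ^ i := Nat.pow_pos h.pos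
        have h4 := (cc_levelj (F := F) h j i).mul (ih (b + 1 - q ^ i) (by omega) (by omega))
        refine h4.mono (le_of_eq ?_)
        rw [Nat.cast_sub (by omega : q ^ i ≤ b + 1)]
        push_cast
        ring
      · exact Nle_zero q j _

end Pool.Agent.ZQ
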