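import Pool.Agent.Work.MP_43901b_nt.S1Exp
import Pool.Agent.Work.MP_43901b_nt.PLev

/-!
# PLow (S-M): a lower bound for the lowest index of the forms of `P_a` at the levels `j ≥ 1`

Write `P_a = Σ f_i T^i`.  By `P1_coeff` there is `n ≤ m + a - q a` with `(P_a(th^q)).coeff n ≠ 0`, and
`P_a(th^q) = Σ f_i th^(q i)`, so there is `i'` with `f_(i').coeff (n + q i') ≠ 0` (`HahnSeries.coeff_sum`,
`(x th^k).coeff n = x.coeff (n + k)`).  Level 0 (`Pp_level0`): `n + q i' ≥ i'`, i.e.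
`(q-1) i' ≥ -n ≥ (q-1) a - m`.
Suppose `(q-1) i < (q-1) a - m`; then `i < i'`.  From `hi`: `f_i.coeff (i q^j - M) ≠ 0`, level 0 gives
`i q^j - M ≥ i`, so `M ≤ i (q^j - 1) = (q-1) i + i (q^j - q)`.  From `hM` and `f_(i').coeff (n + q i') ≠ 0`:
`n + q i' ≥ i' q^j - M`, i.e. `M ≥ i' (q^j - q) - n ≥ i' (q^j - q) + (q-1) a - m > i (q^j - q) + (q-1) i`
(`j ≥ 1`, so `q^j ≥ q`).  Contradiction.
-/

namespace Pool.Agent.ZQ

open Polynomial Finset

variable {F : Type*} [Field F] [Fintype F] {p q : ℕ}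

theorem Pp_low [CharP F p] (h : IsQ p q) (hF : Fintype.card F = q) {a m : ℕ} (ha : 1 ≤ a)
    (hv : Valid p q a m) {j : ℕ} (hj : 1 ≤ j) {M : ℤ} (hM : Nle q j M (Pp q (th : LaurentSeries F) a))
    {i : ℕ} (hi : (La q j M (Pp q (th : LaurentSeries F) a)).coeff i ≠ 0) :
    (q - 1) * a ≤ (q - 1) * i + m := by
  have hq := h.two_le
  obtain ⟨n, hn, hne⟩ := P1_coeff h hF ha hv
  set P := Pp q (th : LaurentSeries F) a with hP
  -- an index with a nonzero contribution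
  obtain ⟨k, hk⟩ : ∃ k : ℕ, (P.coeff k).coeff (n + (q * k : ℕ)) ≠ 0 := by
    by_contra hcon
    push Not at hcon
    apply hne
    rw [eval_eq_sum_range, HahnSeries.coeff_sum]
    refine sum_eq_zero fun k _ => ?_
    rw [← pow_mul, th_pow]
    have h1 := HahnSeries.coeff_mul_single_add (r := (1 : F)) (x := P.coeff k)
      (a := n + (q * k : ℕ)) (b := -((q * k : ℕ) : ℤ))
    rw [add_neg_cancel_right, mul_one] at h1
    rw [h1]
    exact hcon k
  have h0 := Pp_level0 (F := F) h a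
  have h2 : (k : ℤ) ≤ n + (q * k : ℕ) := by
    by_contra hcon
    exact hk (h0 k _ (by rw [pow_zero, mul_one, sub_zero]; exact not_le.1 hcon))
  have h3 : (k : ℤ) * (q : ℤ) ^ j - M ≤ n + (q * k : ℕ) := by
    by_contra hcon
    exact hk (hM k _ (not_le.1 hcon))
  rw [La_coeff] at hi
  have h4 : (i : ℤ) ≤ (i : ℤ) * (q : ℤ) ^ j - M := by
    by_contra hcon
    exact hi (h0 i _ (by rw [pow_zero, mul_one, sub_zero]; exact not_le.1 hcon))
  by_contra hcon
  push Not at hcon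
  obtain ⟨r, rfl⟩ : ∃ r, q = r + 1 := ⟨q - 1, by omega⟩
  rw [Nat.add_sub_cancel] at hcon
  have h5 : (r : ℤ) * i + m < r * a := by exact_mod_cast hcon
  have h6 : ((r : ℤ) + 1) ≤ ((r : ℤ) + 1) ^ j := by
    calc ((r : ℤ) + 1) = ((r : ℤ) + 1) ^ 1 := (pow_one _).symm
      _ ≤ ((r : ℤ) + 1) ^ j := pow_le_pow_right₀ (by omega) hj
  push_cast at h2 h3 h4 hn
  set Q : ℤ := ((r : ℤ) + 1) ^ j with hQ
  have hr : (0 : ℤ) < r := by
    have : 1 ≤ r := by omega
    exact_mod_cast this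
  -- i < k
  have h7 : (r : ℤ) * i < r * k := by nlinarith
  have h8 : (i : ℤ) < k := lt_of_mul_lt_mul_left h7 hr.le
  have h9 : 0 ≤ ((k : ℤ) - i) * (Q - (r + 1)) :=
    mul_nonneg (by linarith) (by linarith)
  nlinarith

end Pool.Agent.ZQ
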