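import Pool.Agent.Work.MP_43901b_nt.InvS2
import Pool.Agent.Work.MP_43901b_nt.PLow
import Pool.Agent.Work.MP_43901b_nt.DegP
import Pool.Agent.Work.MP_43901b_nt.DigG

/-!
# InvS3 (M): the step, conclusion from the digit lemma

`j = t.length`, `M` = multiplicity of `T_j` in `f`, `P_j` the form of `P_a` at level `j` (`step_levelj`),
`D`, `δ` the degrees of `f`, `g`.  Facts:
(i) `(q-1) B + 1 ≤ q^j M` (`step_ord`), so `M ≥ 1`.
(ii) for valid `m`: all indices `i` of nonzero coefficients of `P_j` satisfy `(q-1) a ≤ (q-1) i + m`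
(`Pp_low`); `natDegree P_j ≤ natDegree P_a =: π` (`La_natDegree`), `(q-1) π ≤ q (a-1)`.
(iii) `q^j a ≤ K`: `a + t.sum ≤ K` (`root_of_level0`, `step_level0`) and `q^j (K - t.sum) ≤ K` (`hI.top`).
`K ≤ q B`.
(α) `(X-1)^M ∣ P_j`, (β) `(q-1) D = a + t.sum` (so `(q-1)(D - δ) = a`) and `(X-1)^M` divides the
polynomial `R = C c X^(q(D-δ)) - C c' P_j ≠ 0`, whose indices are `≤ q (D-δ)` (as `π < q (D - δ)`:
`(q-1) π ≤ q(a-1)`) and `≥` the lowest index of `P_j` or `= q (D-δ)`.  Use `low_high`.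

Case (C): `(q-1) a = m + q (q-1) r`, `natDegree P_a ≤ q r` (`Pp_deg_of_DegB`).  By (ii) the indices of `P_j`
are `≥ q r`.  (α): `low_high`: `M + q r ≤ q r`, contradiction to `M ≥ 1`.  (β): `M + q r ≤ q (D-δ)`;
`q-1 ∣ a`, so `a = (q-1)(r + p^u)`, `D - δ = r + p^u`: `M ≤ q p^u`, `(q-1) p^u ≤ a`.  This is the claim.
Case (N): `q (a+m) ≤ (q-1)^2 a`.  Let `n` be a lower bound of the indices with `(q-1) n ≥ (q-1) a - m`
(take the least index of `P_j`).  (α): `M + n ≤ π`; (β): `M + n ≤ q (D-δ)`; in both cases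
`(q-1) M ≤ a + m`, so `q (q-1) M ≤ (q-1)^2 a`, `q M ≤ (q-1) a`, hence
`q ((q-1) B + 1) ≤ q q^j M ≤ (q-1) q^j a ≤ (q-1) K ≤ (q-1) q B`, contradiction.
Case (E): `q = 3`, `a = 11·3^i`, `m = 4·3^i`, `natDegree P_a ≤ 3·4·3^i = 12·3^i`, indices
`≥ a - m/2 = 9·3^i`.  (β) impossible (`2 ∤ a`).  (α): `M ≤ 3·3^i`.  `2 B + 1 ≤ 3^j M ≤ 3·3^(i+j)`, and
`11·3^(i+j) ≤ K ≤ 3 B`: contradiction.
-/

set_option linter.unusedSectionVars false

namespace Pool.Agent.ZQ

open Polynomial Finset

variable {F : Type*} [Field F] [Fintype F] {p q : ℕ} [CharP F p]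

theorem step_main (h : IsQ p q) (hF : Fintype.card F = q) (hq : 3 ≤ q) {a : ℕ} (ha : 1 ≤ a)
    {t : List ℕ} {f g : (LaurentSeries F)[X]}
    {B K : ℕ} (hI : Inv p q t g B K) (ht : 1 ≤ t.length) (hf : expand _ q f =
      (C th - X) ^ (a + t.sum) * f + Pp q th a * ((C th - X) ^ t.sum * g)) :
    (q - 1) * f.natDegree = a + t.sum ∧
      (∃ m : ℤ, Nle q t.length m f ∧ (La q t.length m f).coeff f.natDegree ≠ 0) ∧
      ∃ u, f.rootMultiplicity (th ^ q ^ t.length) ≤ q * p ^ u ∧ (q - 1) * p ^ u ≤ a := by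
  obtain ⟨hf0, -⟩ := step_deg h ha hI hf
  have hord := step_ord h ha hI hf0 hf ht le_rfl
  obtain ⟨hl0, hl1⟩ := step_level0 h ha hI hf
  obtain ⟨-, -, hwK⟩ := root_of_level0 h hI hl0 hl1
  obtain ⟨mP, hmP, hPne, hcase⟩ := step_levelj h ha hI ht hf
  have htop := hI.top
  have hKB := hI.kB
  have hgd := hI.deg
  obtain ⟨j, hj⟩ : ∃ j, j = t.length := ⟨_, rfl⟩
  rw [← hj] at hord hmP hPne hcase htop ht ⊢
  obtain ⟨M, hM⟩ : ∃ M, M = f.rootMultiplicity (th ^ q ^ j) := ⟨_, rfl⟩
  rw [← hM] at hord hcase ⊢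
  obtain ⟨P, hP⟩ : ∃ P, P = La q j mP (Pp q (th : LaurentSeries F) a) := ⟨_, rfl⟩
  rw [← hP] at hPne hcase
  have hqj : 0 < q ^ j := pow_pos h.pos _
  have hM1 : 1 ≤ M := by
    rcases Nat.eq_zero_or_pos M with h0 | h0
    · rw [h0, mul_zero] at hord
      omega
    · exact h0
  have hqa : q ^ j * a ≤ K := (Nat.mul_le_mul_left _ (by omega)).trans htop
  have hPdeg0 : P.natDegree ≤ (Pp q (th : LaurentSeries F) a).natDegree := by
    rw [hP]
    exact La_natDegree _ _ _ _
  have hPdeg : (q - 1) * P.natDegree ≤ q * (a - 1) :=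
    (Nat.mul_le_mul_left _ hPdeg0).trans (Pp_natDegree_le h th a)
  have hlow : ∀ m, Valid p q a m → ∀ i, P.coeff i ≠ 0 → (q - 1) * a ≤ (q - 1) * i + m := by
    intro m hv i hi
    rw [hP] at hi
    exact Pp_low h hF ha hv ht hmP hi
  -- the two cases, in terms of a lower bound `n` of the indices of `P`
  have key : ∀ n : ℕ, (∀ i, P.coeff i ≠ 0 → n ≤ i) → M + n ≤ P.natDegree ∨
      ((q - 1) * f.natDegree = a + t.sum ∧
        (∃ m : ℤ, Nle q j m f ∧ (La q j m f).coeff f.natDegree ≠ 0) ∧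
        (q - 1) * (f.natDegree - g.natDegree) = a ∧
        M + n ≤ q * (f.natDegree - g.natDegree)) := by
    intro n hn
    rcases hcase with hα | ⟨hD, hlev, c, c', hne, hdvd⟩
    · exact Or.inl (low_high hPne hα hn le_rfl)
    · right
      have hE : (q - 1) * (f.natDegree - g.natDegree) = a := by
        rw [Nat.mul_sub, hD, hgd]
        omega
      refine ⟨hD, hlev, hE, ?_⟩
      obtain ⟨E, hEE⟩ : ∃ E, E = f.natDegree - g.natDegree := ⟨_, rfl⟩
      rw [← hEE] at hE hne hdvd ⊢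
      have hE1 : 1 ≤ E := by
        rcases Nat.eq_zero_or_pos E with h0 | h0
        · rw [h0, mul_zero] at hE
          omega
        · exact h0
      have hPE : P.natDegree < q * E := by
        by_contra hcon
        push Not at hcon
        have h1 : (q - 1) * (q * E) ≤ q * (a - 1) := (Nat.mul_le_mul_left _ hcon).trans hPdeg
        have h2 : (q - 1) * (q * E) = q * a := by rw [← hE]; ring
        rw [h2] at h1
        have h3 := Nat.le_of_mul_le_mul_left h1 h.pos
        omega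
      have hnE : n ≤ q * E := by
        have h1 : P.coeff P.natDegree ≠ 0 := by
          rw [coeff_natDegree]
          exact leadingCoeff_ne_zero.2 hPne
        exact (hn _ h1).trans hPE.le
      refine low_high hne hdvd ?_ ?_
      · intro i hi
        by_cases h1 : i = q * E
        · rw [h1]
          exact hnE
        · refine hn i fun h2 => hi ?_
          rw [coeff_sub, coeff_C_mul, coeff_C_mul, coeff_X_pow, if_neg h1, h2]
          ring
      · refine (natDegree_sub_le _ _).trans (max_le ?_ ?_)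
        · exact (natDegree_C_mul_le _ _).trans (natDegree_X_pow_le _)
        · exact (natDegree_C_mul_le _ _).trans hPE.le
  obtain ⟨r0, hr0⟩ : ∃ r0, q = r0 + 1 := ⟨q - 1, by omega⟩
  have hr1 : q - 1 = r0 := by omega
  have hr2 : 2 ≤ r0 := by omega
  -- the digit lemma
  rcases lemmaG h hq ha with hC | hN | hE
  · obtain ⟨m, r, hv, hmr, hB, hu⟩ := hC
    have hn : ∀ i, P.coeff i ≠ 0 → q * r ≤ i := by
      intro i hi
      have h1 := hlow m hv i hi
      rw [hmr] at h1
      have h2 : (q - 1) * (q * r) ≤ (q - 1) * i := by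
        have : q * ((q - 1) * r) = (q - 1) * (q * r) := by ring
        omega
      exact Nat.le_of_mul_le_mul_left h2 (by omega)
    have hdegr := Pp_deg_of_DegB h (th : LaurentSeries F) ha hB
    rcases key (q * r) hn with h1 | ⟨hD, hlev, hE, h1⟩
    · omega
    · refine ⟨hD, hlev, ?_⟩
      obtain ⟨u, hau⟩ := hu ⟨_, hE.symm⟩
      refine ⟨u, ?_, ?_⟩
      · have h2 : f.natDegree - g.natDegree = r + p ^ u := by
          rw [hau] at hE
          exact Nat.eq_of_mul_eq_mul_left (by omega) hE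
        rw [h2, mul_add] at h1
        omega
      · rw [hau]
        exact Nat.mul_le_mul_left _ (Nat.le_add_left _ _)
  · exfalso
    obtain ⟨m, hv, hm⟩ := hN
    have hc : P.coeff P.natTrailingDegree ≠ 0 := trailingCoeff_nonzero_iff_nonzero.2 hPne
    have hn : ∀ i, P.coeff i ≠ 0 → P.natTrailingDegree ≤ i := fun i hi =>
      natTrailingDegree_le_of_ne_zero hi
    have h1 := hlow m hv _ hc
    have h2 : (q - 1) * M ≤ a + m := by
      rcases key _ hn with h3 | ⟨-, -, hE, h3⟩
      · have h4 := Nat.mul_le_mul_left (q - 1) h3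
        rw [mul_add] at h4
        have h5 : q * (a - 1) ≤ (q - 1) * a + a := by
          rw [hr1, hr0]
          have : (r0 + 1) * (a - 1) ≤ (r0 + 1) * a := Nat.mul_le_mul_left _ (by omega)
          calc _ ≤ _ := this
            _ = _ := by ring
        omega
      · have h4 := Nat.mul_le_mul_left (q - 1) h3
        rw [mul_add] at h4
        have h5 : (q - 1) * (q * (f.natDegree - g.natDegree)) = (q - 1) * a + a := by
          calc (q - 1) * (q * (f.natDegree - g.natDegree)) =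
              q * ((q - 1) * (f.natDegree - g.natDegree)) := by ring
            _ = q * a := by rw [hE]
            _ = _ := by rw [hr1, hr0]; ring
        omega
    have h3 : q * M ≤ (q - 1) * a := by
      have h4 : (q - 1) * (q * M) ≤ (q - 1) * ((q - 1) * a) := by
        calc (q - 1) * (q * M) = q * ((q - 1) * M) := by ring
          _ ≤ q * (a + m) := Nat.mul_le_mul_left _ h2
          _ ≤ (q - 1) ^ 2 * a := hm
          _ = _ := by ring
      exact Nat.le_of_mul_le_mul_left h4 (by omega)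
    have h5 : q * ((q - 1) * B + 1) ≤ q * ((q - 1) * B) := by
      calc q * ((q - 1) * B + 1) ≤ q * (q ^ j * M) := Nat.mul_le_mul_left _ hord
        _ = q ^ j * (q * M) := by ring
        _ ≤ q ^ j * ((q - 1) * a) := Nat.mul_le_mul_left _ h3
        _ = (q - 1) * (q ^ j * a) := by ring
        _ ≤ (q - 1) * (q * B) := Nat.mul_le_mul_left _ (hqa.trans hKB)
        _ = _ := by ring
    have h6 := Nat.le_of_mul_le_mul_left h5 h.pos
    omega
  · exfalso
    obtain ⟨hq3, i, hai, hv, hB⟩ := hE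
    have hdegr := Pp_deg_of_DegB h (th : LaurentSeries F) ha hB
    have hn : ∀ l, P.coeff l ≠ 0 → 9 * 3 ^ i ≤ l := by
      intro l hl
      have h1 := hlow _ hv l hl
      rw [hai, hq3] at h1
      omega
    rcases key _ hn with h1 | ⟨-, -, hE, -⟩
    · have hdeg2 : (Pp q (th : LaurentSeries F) a).natDegree ≤ 3 * (4 * 3 ^ i) :=
        hdegr.trans (le_of_eq (by rw [hq3]))
      rw [hq3] at hord hKB
      have h2 : M ≤ 3 * 3 ^ i := by omega
      have h3 : 3 ^ j * M ≤ 3 ^ j * (3 * 3 ^ i) := Nat.mul_le_mul_left _ h2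
      rw [hq3, hai] at hqa
      have h4 : 3 ^ j * (11 * 3 ^ i) = 11 * (3 ^ j * 3 ^ i) := by ring
      have h5 : 3 ^ j * (3 * 3 ^ i) = 3 * (3 ^ j * 3 ^ i) := by ring
      omega
    · rw [hai, hq3] at hE
      have h1 : 3 ^ i % 2 = 1 := by
        rw [Nat.pow_mod]
        norm_num
      omega

end Pool.Agent.ZQ
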