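import Pool.Agent.Work.MP_43901b_nt.Star

/-!
# InvSer (M): the inverse series `x = Σ b_i E^(q^i)`

`bb_succ`: unfold (`Fin.sum_univ_eq_sum_range`).
`bb_conv`: `Σ_{l ≤ n} b_l c_(n-l)^(q^l) = 0` for `n ≥ 1` (as `c_0 = 1`).
`inv_ser`: first `s = 0`: all coefficients of `x - Σ_{i≤n} b_i E^(q^i)` of index `< q^(n+1)` vanish:
`E^(q^i)` has the coefficient `c_j^(q^i)` at `x^(q^(i+j))` and no others (`coeff_pow_p`, `q^i = p^(e i)`,
`coeff_ser_pow`, `coeff_ser_ne`), so the coefficient at `x^N`, `N < q^(n+1)`, of the difference is `0`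
if `N` is not a power of `q`, and at `N = q^m`, `m ≤ n`, it is `[m=0] - Σ_{i≤m} b_i c_(m-i)^(q^i) = 0`.
Then raise to the power `p^s` (`sub_pow_pp`, `sum_pow_pp`; `(x^(q^(n+1)))^(p^s)` divides).
-/

namespace Pool.Agent.ZQ

open Finset

variable {R : Type*} [CommRing R] {p q : ℕ} [CharP R p]

theorem bb_zero {R : Type*} [CommRing R] (c : ℕ → R) : bb q c 0 = 1 := by
  rw [bb]

theorem bb_succ {R : Type*} [CommRing R] (c : ℕ → R) (n : ℕ) : bb q c (n + 1) =
    - ∑ l ∈ range (n + 1), bb q c l * (c (n + 1 - l)) ^ q ^ l := by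
  rw [bb, Fin.sum_univ_eq_sum_range (fun l => bb q c l * (c (n + 1 - l)) ^ q ^ l) (n + 1)]

theorem bb_conv {R : Type*} [CommRing R] (c : ℕ → R) (hc : c 0 = 1) (n : ℕ) :
    ∑ l ∈ range (n + 2), bb q c l * (c (n + 1 - l)) ^ q ^ l = 0 := by
  rw [sum_range_succ, Nat.sub_self, hc, one_pow, mul_one, bb_succ]
  ring

theorem inv_ser (h : IsQ p q) (c : ℕ → R) (hc : c 0 = 1) (s n : ℕ) :
    PowerSeries.X ^ (p ^ s * q ^ (n + 1)) ∣ (PowerSeries.X ^ p ^ s -
      ∑ i ∈ range (n + 1), PowerSeries.C ((bb q c i) ^ p ^ s) * ser q c ^ (p ^ s * q ^ i)) := by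
  have hq := h.two_le
  have hchar : CharP (PowerSeries R) p :=
    charP_of_injective_ringHom (f := PowerSeries.C (R := R)) PowerSeries.C_injective p
  obtain ⟨e, _, he⟩ := h.pow_eq
  have hco : ∀ i m, PowerSeries.coeff m (ser q c ^ q ^ i) =
      if q ^ i ∣ m then (PowerSeries.coeff (m / q ^ i) (ser q c)) ^ q ^ i else 0 := by
    intro i m
    have h1 := coeff_pow_p h (ser q c) (e * i) m
    rw [← he i] at h1
    exact h1
  have key : PowerSeries.X ^ q ^ (n + 1) ∣ (PowerSeries.X -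
      ∑ i ∈ range (n + 1), PowerSeries.C (bb q c i) * ser q c ^ q ^ i : PowerSeries R) := by
    rw [PowerSeries.X_pow_dvd_iff]
    intro m hm
    rw [map_sub, map_sum, PowerSeries.coeff_X]
    have h1 : ∀ i ∈ range (n + 1), PowerSeries.coeff m
        (PowerSeries.C (bb q c i) * ser q c ^ q ^ i) = bb q c i *
        (if q ^ i ∣ m then (PowerSeries.coeff (m / q ^ i) (ser q c)) ^ q ^ i else 0) := by
      intro i _
      rw [PowerSeries.coeff_C_mul, hco]
    rw [sum_congr rfl h1]
    by_cases hk : ∃ k, m = q ^ k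
    · obtain ⟨k, rfl⟩ := hk
      have hkn : k < n + 1 := (Nat.pow_lt_pow_iff_right (by omega)).1 hm
      have h2 : ∀ i ∈ range (n + 1), bb q c i * (if q ^ i ∣ q ^ k then
          (PowerSeries.coeff (q ^ k / q ^ i) (ser q c)) ^ q ^ i else 0) =
          if i ∈ range (k + 1) then bb q c i * (c (k - i)) ^ q ^ i else 0 := by
        intro i _
        by_cases hik : i ≤ k
        · rw [if_pos (pow_dvd_pow q hik), if_pos (mem_range.2 (by omega)),
            Nat.pow_div hik (by omega), coeff_ser_pow hq]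
        · rw [if_neg, if_neg (fun h3 => hik (by have := mem_range.1 h3; omega)), mul_zero]
          intro h3
          exact hik ((Nat.pow_dvd_pow_iff_le_right (by omega)).1 h3)
      rw [sum_congr rfl h2, sum_ite_mem, inter_eq_right.2 (range_mono (by omega))]
      rcases Nat.eq_zero_or_pos k with rfl | hk0
      · rw [pow_zero, if_pos rfl, zero_add, sum_range_one, bb_zero, Nat.sub_zero, hc, one_pow,
          mul_one, sub_self]
      · obtain ⟨k', rfl⟩ : ∃ k', k = k' + 1 := ⟨k - 1, by omega⟩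
        have h3 : q ^ (k' + 1) ≠ 1 := by
          have h4 : q ^ 1 ≤ q ^ (k' + 1) := Nat.pow_le_pow_right (by omega) (by omega)
          rw [pow_one] at h4
          omega
        rw [if_neg h3, bb_conv c hc k', sub_zero]
    · have h2 : ∀ i ∈ range (n + 1), bb q c i * (if q ^ i ∣ m then
          (PowerSeries.coeff (m / q ^ i) (ser q c)) ^ q ^ i else 0) = 0 := by
        intro i _
        by_cases hi : q ^ i ∣ m
        · rw [if_pos hi, coeff_ser_ne, zero_pow (pow_ne_zero _ (by omega)), mul_zero]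
          intro j hj
          apply hk
          refine ⟨i + j, ?_⟩
          rw [pow_add, ← hj, Nat.mul_div_cancel' hi]
        · rw [if_neg hi, mul_zero]
      rw [sum_congr rfl h2, sum_const_zero, sub_zero, if_neg]
      rintro rfl
      exact hk ⟨0, rfl⟩
  have h5 := pow_dvd_pow_of_dvd key (p ^ s)
  rw [← pow_mul, sub_pow_pp h, sum_pow_pp h] at h5
  have h6 : ∀ i ∈ range (n + 1), (PowerSeries.C (bb q c i) * ser q c ^ q ^ i) ^ p ^ s =
      PowerSeries.C ((bb q c i) ^ p ^ s) * ser q c ^ (p ^ s * q ^ i) := by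
    intro i _
    rw [mul_pow, ← pow_mul, map_pow, mul_comm (q ^ i)]
  rw [sum_congr rfl h6, mul_comm (q ^ (n + 1))] at h5
  exact h5

end Pool.Agent.ZQ
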