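import Pool.Agent.Work.MP_43901b_nt.Base

/-!
# LevA (M): levels, additive part

`f = Σ f_i T^i` over `F((1/θ))` (`LaurentSeries F`, `θ = th = single (-1) 1`; the coefficient of index
`n` is the coefficient of `θ^(-n)`).  `Nle q j m f`: `(f_i).coeff n = 0` for `n < i q^j - m`.
`(La q j m f).coeff i = (f_i).coeff (i q^j - m)`: `La_coeff` (for `i > natDegree` both sides are 0).
Everything here is coefficientwise from `La_coeff` and the definition.

`Nle_of_La`: for `n < i q^j - (m-1)`: `n < i q^j - m` or `n = i q^j - m`.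
`exists_height`: `f ≠ 0`; the set of `m` with `¬ (La q j m f = 0)` is nonempty (`f_i ≠ 0` has a nonzero
coefficient at some `n`, take `m = i q^j - n`) and bounded above (finitely many `i`, each `f_i` has a
bounded below support, `HahnSeries.coeff_eq_zero_of_lt_order`): take its maximum `m`; then
`Nle q j m f`.
`La_C`: `C c` has only the index 0.
-/

namespace Pool.Agent.ZQ

open Polynomial Finset

variable {F : Type*} [Field F] {q j : ℕ} {m m' : ℤ} {f g : (LaurentSeries F)[X]}

theorem La_coeff (q j : ℕ) (m : ℤ) (f : (LaurentSeries F)[X]) (i : ℕ) :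
    (La q j m f).coeff i = (f.coeff i).coeff ((i : ℤ) * (q : ℤ) ^ j - m) := by
  rw [La, finsetSum_coeff]
  simp only [coeff_C_mul_X_pow]
  rw [sum_ite_eq]
  split_ifs with h
  · rfl
  · have h1 : f.coeff i = 0 := coeff_eq_zero_of_natDegree_lt (by
      rw [mem_range] at h
      omega)
    rw [h1]
    rfl

theorem La_zero (q j : ℕ) (m : ℤ) : La q j m (0 : (LaurentSeries F)[X]) = 0 := by
  ext i
  rw [La_coeff, coeff_zero, coeff_zero]
  rfl

theorem La_add (q j : ℕ) (m : ℤ) (f g : (LaurentSeries F)[X]) :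
    La q j m (f + g) = La q j m f + La q j m g := by
  ext i
  rw [coeff_add, La_coeff, La_coeff, La_coeff, coeff_add]
  rfl

theorem La_neg (q j : ℕ) (m : ℤ) (f : (LaurentSeries F)[X]) : La q j m (-f) = - La q j m f := by
  ext i
  rw [coeff_neg, La_coeff, La_coeff, coeff_neg]
  rfl

theorem La_sub (q j : ℕ) (m : ℤ) (f g : (LaurentSeries F)[X]) :
    La q j m (f - g) = La q j m f - La q j m g := by
  rw [sub_eq_add_neg, La_add, La_neg, ← sub_eq_add_neg]

theorem Nle_zero (q j : ℕ) (m : ℤ) : Nle q j m (0 : (LaurentSeries F)[X]) := by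
  intro i n _
  rw [coeff_zero]
  rfl

theorem Nle.add (hf : Nle q j m f) (hg : Nle q j m g) : Nle q j m (f + g) := by
  intro i n hn
  rw [coeff_add]
  show (f.coeff i).coeff n + (g.coeff i).coeff n = 0
  rw [hf i n hn, hg i n hn, add_zero]

theorem Nle.neg (hf : Nle q j m f) : Nle q j m (-f) := by
  intro i n hn
  rw [coeff_neg]
  show -(f.coeff i).coeff n = 0
  rw [hf i n hn, neg_zero]

theorem Nle.sub (hf : Nle q j m f) (hg : Nle q j m g) : Nle q j m (f - g) := by
  rw [sub_eq_add_neg]
  exact hf.add hg.neg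

theorem Nle.sum {ι : Type*} (T : Finset ι) {f : ι → (LaurentSeries F)[X]}
    (hf : ∀ i ∈ T, Nle q j m (f i)) : Nle q j m (∑ i ∈ T, f i) := by
  classical
  induction T using Finset.induction_on with
  | empty => rw [sum_empty]; exact Nle_zero q j m
  | insert a s ha ih =>
    rw [sum_insert ha]
    exact (hf a (mem_insert_self a s)).add (ih fun i hi => hf i (mem_insert_of_mem hi))

theorem Nle.mono (hf : Nle q j m f) (h : m ≤ m') : Nle q j m' f :=
  fun i n hn => hf i n (by omega)

theorem La_of_lt (hf : Nle q j m f) (h : m < m') : La q j m' f = 0 := by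
  ext i
  rw [La_coeff, coeff_zero]
  exact hf i _ (by omega)

theorem Nle_of_La (hf : Nle q j m f) (h0 : La q j m f = 0) : Nle q j (m - 1) f := by
  intro i n hn
  by_cases h : n < (i : ℤ) * (q : ℤ) ^ j - m
  · exact hf i n h
  · have h1 : n = (i : ℤ) * (q : ℤ) ^ j - m := by omega
    have h2 := La_coeff q j m f i
    rw [h0, coeff_zero] at h2
    rw [h1]
    exact h2.symm

/-- `f` of height `≤ m`, with a nonzero form at height `m'`: `m' ≤ m` -/
theorem le_of_La (hf : Nle q j m f) (h : La q j m' f ≠ 0) : m' ≤ m := by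
  by_contra hc
  push Not at hc
  exact h (La_of_lt hf hc)

theorem La_natDegree (q j : ℕ) (m : ℤ) (f : (LaurentSeries F)[X]) :
    (La q j m f).natDegree ≤ f.natDegree := by
  rw [natDegree_le_iff_coeff_eq_zero]
  intro i hi
  rw [La_coeff, coeff_eq_zero_of_natDegree_lt hi]
  rfl

theorem exists_height (q j : ℕ) (hf : f ≠ 0) : ∃ m : ℤ, Nle q j m f ∧ La q j m f ≠ 0 := by
  have hne : f.support.Nonempty := Finset.nonempty_of_ne_empty (by
    rw [Ne, support_eq_empty]
    exact hf)
  obtain ⟨i₀, hi₀, hmax⟩ := exists_max_image f.support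
    (fun i => (i : ℤ) * (q : ℤ) ^ j - (f.coeff i).order) hne
  refine ⟨(i₀ : ℤ) * (q : ℤ) ^ j - (f.coeff i₀).order, fun i n hn => ?_, fun h0 => ?_⟩
  · by_cases hi : i ∈ f.support
    · have h1 := hmax i hi
      refine HahnSeries.coeff_eq_zero_of_lt_order ?_
      omega
    · rw [notMem_support_iff.1 hi]
      rfl
  · have h2 := La_coeff q j ((i₀ : ℤ) * (q : ℤ) ^ j - (f.coeff i₀).order) f i₀
    rw [h0, coeff_zero, sub_sub_cancel] at h2
    exact mem_support_iff.1 hi₀ (HahnSeries.coeff_order_eq_zero.1 h2.symm)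

theorem Nle_C {c : LaurentSeries F} : Nle q j m (C c) ↔ ∀ n : ℤ, n < -m → c.coeff n = 0 := by
  constructor
  · intro h n hn
    have h1 := h 0 n (by simpa using hn)
    rwa [coeff_C_zero] at h1
  · intro h i n hn
    rcases Nat.eq_zero_or_pos i with rfl | hi
    · rw [coeff_C_zero]
      exact h n (by simpa using hn)
    · rw [coeff_C_of_ne_zero (by omega)]
      rfl

theorem La_C (q j : ℕ) (m : ℤ) (c : LaurentSeries F) :
    La q j m (C c) = C (c.coeff (-m)) := by
  ext i
  rw [La_coeff]
  rcases Nat.eq_zero_or_pos i with rfl | hi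
  · rw [coeff_C_zero, coeff_C_zero, Nat.cast_zero, zero_mul, zero_sub]
  · rw [coeff_C_of_ne_zero (by omega), coeff_C_of_ne_zero (by omega)]
    rfl

theorem Nle_one (q j : ℕ) : Nle q j 0 (1 : (LaurentSeries F)[X]) := by
  rw [← C_1, Nle_C]
  intro n hn
  rw [neg_zero] at hn
  rw [HahnSeries.coeff_one, if_neg (by omega)]

theorem La_one (q j : ℕ) : La q j 0 (1 : (LaurentSeries F)[X]) = 1 := by
  rw [← C_1, La_C, neg_zero, HahnSeries.coeff_one, if_pos rfl, C_1]

/-- a nonzero constant has an exact height `δ` (its degree in `θ`), the same at every level -/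
theorem exists_deg {c : LaurentSeries F} (hc : c ≠ 0) : ∃ (δ : ℤ) (c₀ : F), c₀ ≠ 0 ∧
    ∀ q j : ℕ, Nle q j δ (C c) ∧ La q j δ (C c) = C c₀ := by
  refine ⟨-c.order, c.coeff c.order, fun h => hc (HahnSeries.coeff_order_eq_zero.1 h),
    fun q j => ⟨?_, ?_⟩⟩
  · rw [Nle_C]
    intro n hn
    rw [neg_neg] at hn
    exact HahnSeries.coeff_eq_zero_of_lt_order hn
  · rw [La_C, neg_neg]

end Pool.Agent.ZQ
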