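import Pool.Agent.Work.MP_43901b_nt.LevM

/-!
# LevC (M): change of level, evaluation, multiplicities

* `Nle_expand`, `La_expand`: the coefficient of index `q i` of `expand q f` is `f_i`, the others are
  0, and `q i q^j = i q^(j+1)`.  `Nle_expand_pow`, `La_expand_pow`: the same for `q^i` and level 0.
* `Nle_succ`, `La_succ`: for `i ≤ D`: `i q^(j+1) - (m + D (q-1) q^j) = (i q^j - m) - (D-i)(q-1) q^j`.
* `coeff_eval`: `f(θ^(q^j)) = Σ f_i θ^(i q^j)` and `(x th^n).coeff k = x.coeff (k + n)`.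
* `dvd_La`: `f = (X - C T_j)^n g`; if `f = 0` trivial; `g ≠ 0`, `exists_height` for `g`: height `m_g`,
  form `≠ 0`; `f` has the exact height `n q^j + m_g` with form `(X-1)^n La g` (`La_mul`, `La_pow`,
  `La_sT`).  As `Nle q j m f`, `n q^j + m_g ≤ m` (`le_of_La`); if `<`, `La q j m f = 0`.
* `dvd_La0`: the same with `C th - X` at level 0.
* `low_high`: `f = X^n f'` with `f'(0)..`, `natDegree f' ≤ N - n`; `(X-1)^M` is coprime to `X^n`, so it
  divides `f' ≠ 0`, so `M ≤ natDegree f'`.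
-/

namespace Pool.Agent.ZQ

open Polynomial Finset

variable {F : Type*} [Field F] {q j : ℕ} {m m' : ℤ} {f g : (LaurentSeries F)[X]}

theorem Nle_expand (hq : 1 ≤ q) : Nle q j m (expand _ q f) ↔ Nle q (j + 1) m f := by
  constructor
  · intro h i n hn
    have h1 := h (i * q) n (by
      push_cast
      have e : (i : ℤ) * (q : ℤ) * (q : ℤ) ^ j = (i : ℤ) * (q : ℤ) ^ (j + 1) := by ring
      rw [e]
      exact hn)
    rwa [coeff_expand_mul hq] at h1
  · intro h i n hn
    rw [coeff_expand hq]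
    split_ifs with hd
    · obtain ⟨k, rfl⟩ := hd
      rw [Nat.mul_div_cancel_left k hq]
      refine h k n ?_
      have e : ((q * k : ℕ) : ℤ) * (q : ℤ) ^ j = (k : ℤ) * (q : ℤ) ^ (j + 1) := by
        push_cast
        ring
      rwa [e] at hn
    · simp

theorem La_expand (hq : 1 ≤ q) (j : ℕ) (m : ℤ) (f : (LaurentSeries F)[X]) :
    La q j m (expand _ q f) = expand F q (La q (j + 1) m f) := by
  ext i
  rw [La_coeff, coeff_expand hq, coeff_expand hq]
  split_ifs with hd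
  · obtain ⟨k, rfl⟩ := hd
    rw [Nat.mul_div_cancel_left k hq, La_coeff]
    congr 1
    push_cast
    ring
  · simp

theorem Nle_expand_pow (hq : 1 ≤ q) (i : ℕ) : Nle q 0 m (expand _ (q ^ i) f) ↔ Nle q i m f := by
  have hqi : 0 < q ^ i := Nat.pow_pos hq
  constructor
  · intro h k n hn
    have h1 := h (k * q ^ i) n (by
      push_cast
      have e : (k : ℤ) * (q : ℤ) ^ i * (q : ℤ) ^ 0 = (k : ℤ) * (q : ℤ) ^ i := by ring
      rw [e]
      exact hn)
    rwa [coeff_expand_mul hqi] at h1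
  · intro h k n hn
    rw [coeff_expand hqi]
    split_ifs with hd
    · obtain ⟨l, rfl⟩ := hd
      rw [Nat.mul_div_cancel_left l hqi]
      refine h l n ?_
      have e : ((q ^ i * l : ℕ) : ℤ) * (q : ℤ) ^ 0 = (l : ℤ) * (q : ℤ) ^ i := by
        push_cast
        ring
      rwa [e] at hn
    · simp

theorem La_expand_pow (hq : 1 ≤ q) (i : ℕ) (m : ℤ) (f : (LaurentSeries F)[X]) :
    La q 0 m (expand _ (q ^ i) f) = expand F (q ^ i) (La q i m f) := by
  have hqi : 0 < q ^ i := Nat.pow_pos hq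
  ext k
  rw [La_coeff, coeff_expand hqi, coeff_expand hqi]
  split_ifs with hd
  · obtain ⟨l, rfl⟩ := hd
    rw [Nat.mul_div_cancel_left l hqi, La_coeff]
    congr 1
    push_cast
    ring
  · simp

theorem Nle_succ (hq : 2 ≤ q) (hf : Nle q j m f) {D : ℕ} (hD : f.natDegree ≤ D) :
    Nle q (j + 1) (m + D * (((q : ℤ) - 1) * (q : ℤ) ^ j)) f := by
  intro i n hn
  have hq' : (2 : ℤ) ≤ (q : ℤ) := by exact_mod_cast hq
  have hqj : (0 : ℤ) < ((q : ℤ) - 1) * (q : ℤ) ^ j := by
    have : (0 : ℤ) < (q : ℤ) ^ j := by positivity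
    exact mul_pos (by linarith) this
  rcases lt_or_ge D i with h | h
  · rw [Polynomial.coeff_eq_zero_of_natDegree_lt (lt_of_le_of_lt hD h)]
    simp
  · refine hf i n (lt_of_lt_of_le hn ?_)
    have hi : (i : ℤ) ≤ (D : ℤ) := by exact_mod_cast h
    have h1 := mul_le_mul_of_nonneg_right hi hqj.le
    have e : (i : ℤ) * (q : ℤ) ^ (j + 1) =
        (i : ℤ) * (q : ℤ) ^ j + (i : ℤ) * (((q : ℤ) - 1) * (q : ℤ) ^ j) := by ring
    rw [e]
    linarith

theorem La_succ (hq : 2 ≤ q) (hf : Nle q j m f) {D : ℕ} (hD : f.natDegree ≤ D) :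
    La q (j + 1) (m + D * (((q : ℤ) - 1) * (q : ℤ) ^ j)) f = C ((La q j m f).coeff D) * X ^ D := by
  have hq' : (2 : ℤ) ≤ (q : ℤ) := by exact_mod_cast hq
  have hqj : (0 : ℤ) < ((q : ℤ) - 1) * (q : ℤ) ^ j := by
    have : (0 : ℤ) < (q : ℤ) ^ j := by positivity
    exact mul_pos (by linarith) this
  ext i
  rw [La_coeff, Polynomial.coeff_C_mul, Polynomial.coeff_X_pow]
  have e : (i : ℤ) * (q : ℤ) ^ (j + 1) =
      (i : ℤ) * (q : ℤ) ^ j + (i : ℤ) * (((q : ℤ) - 1) * (q : ℤ) ^ j) := by ring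
  rcases lt_trichotomy i D with h | h | h
  · rw [if_neg (by omega), mul_zero]
    refine hf i _ ?_
    have hi : (i : ℤ) < (D : ℤ) := by exact_mod_cast h
    have h1 := mul_lt_mul_of_pos_right hi hqj
    rw [e]
    linarith
  · subst h
    rw [if_pos rfl, mul_one, La_coeff]
    congr 1
    rw [e]
    ring
  · rw [if_neg (by omega), mul_zero,
      Polynomial.coeff_eq_zero_of_natDegree_lt (lt_of_le_of_lt hD h)]
    simp

private theorem coeff_fsum' {ι : Type*} (T : Finset ι) (x : ι → LaurentSeries F) (n : ℤ) :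
    (∑ i ∈ T, x i).coeff n = ∑ i ∈ T, (x i).coeff n := by
  classical
  induction T using Finset.induction_on with
  | empty => simp
  | insert a T ha ih => rw [Finset.sum_insert ha, Finset.sum_insert ha, HahnSeries.coeff_add, ih]

private theorem coeff_mul_th_pow (x : LaurentSeries F) (n : ℕ) (k : ℤ) :
    (x * th ^ n).coeff k = x.coeff (k + n) := by
  rw [th_pow]
  have h := HahnSeries.coeff_mul_single_add (r := (1 : F)) (x := x) (a := k + n) (b := -(n : ℤ))
  rw [mul_one] at h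
  rw [← h]
  congr 1
  ring

theorem coeff_eval (hf : Nle q j m f) : (∀ n : ℤ, n < -m → (f.eval (th ^ q ^ j)).coeff n = 0) ∧
    (f.eval (th ^ q ^ j)).coeff (-m) = (La q j m f).eval 1 := by
  have hc : ∀ k : ℤ, (f.eval (th ^ q ^ j)).coeff k =
      ∑ i ∈ range (f.natDegree + 1), (f.coeff i).coeff (k + (i : ℤ) * (q : ℤ) ^ j) := by
    intro k
    rw [Polynomial.eval_eq_sum_range, coeff_fsum']
    refine Finset.sum_congr rfl ?_
    intro i _
    rw [← pow_mul, coeff_mul_th_pow]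
    congr 1
    push_cast
    ring
  constructor
  · intro n hn
    rw [hc]
    refine Finset.sum_eq_zero ?_
    intro i _
    exact hf i _ (by linarith)
  · rw [hc, Polynomial.eval_eq_sum_range' (Nat.lt_succ_of_le (La_natDegree q j m f))]
    refine Finset.sum_congr rfl ?_
    intro i _
    rw [La_coeff, one_pow, mul_one]
    congr 1
    ring

theorem dvd_La {n : ℕ} (hn : (X - C (th ^ q ^ j)) ^ n ∣ f) (hf : Nle q j m f) :
    (X - 1) ^ n ∣ La q j m f := by
  obtain ⟨g, rfl⟩ := hn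
  by_cases hg : g = 0
  · rw [hg, mul_zero, La_zero]
    exact dvd_zero _
  obtain ⟨mg, h1, h2⟩ := exists_height q j hg
  have h3 : La q j (n * (q : ℤ) ^ j + mg) ((X - C (th ^ q ^ j)) ^ n * g) =
      (X - 1) ^ n * La q j mg g := by
    rw [La_mul ((Nle_sT q j).pow n) h1, La_pow (Nle_sT q j), La_sT]
  have hX : (X - 1 : F[X]) ≠ 0 := by
    have := Polynomial.X_sub_C_ne_zero (1 : F)
    rwa [C_1] at this
  have h4 : La q j (n * (q : ℤ) ^ j + mg) ((X - C (th ^ q ^ j)) ^ n * g) ≠ 0 := by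
    rw [h3]
    exact mul_ne_zero (pow_ne_zero _ hX) h2
  have h5 := le_of_La hf h4
  rcases eq_or_lt_of_le h5 with h | h
  · rw [← h, h3]
    exact dvd_mul_right _ _
  · rw [La_of_lt (((Nle_sT q j).pow n).mul h1) h]
    exact dvd_zero _

private theorem Nle_ths0 (q : ℕ) : Nle q 0 1 (C th - X : (LaurentSeries F)[X]) := by
  have h := Nle_ths (F := F) (q := 1) le_rfl 0
  intro i n hn
  refine h i n ?_
  simpa using hn

theorem dvd_La0 {n : ℕ} (hn : (C th - X) ^ n ∣ f) (hf : Nle q 0 m f) :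
    (1 - X) ^ n ∣ La q 0 m f := by
  obtain ⟨g, rfl⟩ := hn
  by_cases hg : g = 0
  · rw [hg, mul_zero, La_zero]
    exact dvd_zero _
  obtain ⟨mg, h1, h2⟩ := exists_height q 0 hg
  have h3 : La q 0 (n * (1 : ℤ) + mg) ((C th - X) ^ n * g) = (1 - X) ^ n * La q 0 mg g := by
    rw [La_mul ((Nle_ths0 q).pow n) h1, La_pow (Nle_ths0 q), La_ths_zero]
  have hX : (1 - X : F[X]) ≠ 0 := by
    intro h
    have := Polynomial.X_sub_C_ne_zero (1 : F)
    apply this
    rw [C_1, ← neg_sub, h, neg_zero]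
  have h4 : La q 0 (n * (1 : ℤ) + mg) ((C th - X) ^ n * g) ≠ 0 := by
    rw [h3]
    exact mul_ne_zero (pow_ne_zero _ hX) h2
  have h5 := le_of_La hf h4
  rcases eq_or_lt_of_le h5 with h | h
  · rw [← h, h3]
    exact dvd_mul_right _ _
  · rw [La_of_lt (((Nle_ths0 q).pow n).mul h1) h]
    exact dvd_zero _

theorem low_high {f : F[X]} (hf : f ≠ 0) {M n N : ℕ} (hM : (X - 1) ^ M ∣ f)
    (hn : ∀ i, f.coeff i ≠ 0 → n ≤ i) (hN : f.natDegree ≤ N) : M + n ≤ N := by
  have h1 : (X : F[X]) ^ n ∣ f := by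
    rw [Polynomial.X_pow_dvd_iff]
    intro d hd
    by_contra h
    have := hn d h
    omega
  have hc : IsCoprime (X - 1 : F[X]) X := ⟨-1, 1, by ring⟩
  have h2 : (X - 1 : F[X]) ^ M * X ^ n ∣ f := (hc.pow).mul_dvd hM h1
  have h3 := Polynomial.natDegree_le_of_dvd h2 hf
  have hX : (X - 1 : F[X]) ≠ 0 := by
    have := Polynomial.X_sub_C_ne_zero (1 : F)
    rwa [C_1] at this
  have hd : (X - 1 : F[X]).natDegree = 1 := by
    have := Polynomial.natDegree_X_sub_C (1 : F)
    rwa [C_1] at this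
  rw [Polynomial.natDegree_mul (pow_ne_zero _ hX) (pow_ne_zero _ X_ne_zero),
    Polynomial.natDegree_pow, hd, Polynomial.natDegree_X_pow] at h3
  omega

end Pool.Agent.ZQ
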