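import Pool.Agent.Work.MP_43901b_nt.LevA

/-!
# LevM (M): levels, multiplicative part

`coeff_mul_low`: `x y : LaurentSeries F`, `x.coeff n = 0` for `n < a`, `y.coeff n = 0` for `n < b`: then
`(x y).coeff n = 0` for `n < a + b` and `(x y).coeff (a+b) = x.coeff a * y.coeff b`
(`HahnSeries.coeff_mul`: in the sum over `addAntidiagonal` only the pair `(a,b)` can contribute).
`Nle.mul`, `La_mul`: `(f g)_i = Σ_{i'+i''=i} f_(i') g_(i'')`, `i q^j = i' q^j + i'' q^j`.
`Nle.pow`, `La_pow`: induction.
`th_pow`: `th^n = single (-n) 1`.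
`T = X`: `C th - X` has the coefficients `th`, `-1` at the indices 0, 1; `X - C (th^(q^j))`:
`-th^(q^j)`, `1`.
-/

namespace Pool.Agent.ZQ

open Polynomial Finset

variable {F : Type*} [Field F] {q j : ℕ} {m m' : ℤ} {f g : (LaurentSeries F)[X]}

theorem coeff_mul_low {x y : LaurentSeries F} {a b : ℤ} (hx : ∀ n < a, x.coeff n = 0)
    (hy : ∀ n < b, y.coeff n = 0) : (∀ n < a + b, (x * y).coeff n = 0) ∧
      (x * y).coeff (a + b) = x.coeff a * y.coeff b := by
  classical
  constructor
  · intro n hn
    rw [HahnSeries.coeff_mul]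
    refine Finset.sum_eq_zero ?_
    rintro ⟨i, j⟩ hij
    rw [Finset.mem_addAntidiagonal] at hij
    obtain ⟨hi, hj, hs⟩ := hij
    simp only at hs
    rcases lt_or_ge i a with h | h
    · exact absurd (hx i h) hi
    · exact absurd (hy j (by omega)) hj
  · rw [HahnSeries.coeff_mul, Finset.sum_eq_single (a, b)]
    · rintro ⟨i, j⟩ hij hne
      rw [Finset.mem_addAntidiagonal] at hij
      obtain ⟨hi, hj, hs⟩ := hij
      simp only at hs
      rcases lt_or_ge i a with h | h
      · exact absurd (hx i h) hi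
      · rcases lt_or_ge j b with h' | h'
        · exact absurd (hy j h') hj
        · exfalso
          apply hne
          have h1 : i = a := by omega
          have h2 : j = b := by omega
          rw [h1, h2]
    · intro hne
      by_cases h1 : x.coeff a = 0
      · simp [h1]
      by_cases h2 : y.coeff b = 0
      · simp [h2]
      exact absurd (Finset.mem_addAntidiagonal.2 ⟨h1, h2, rfl⟩) hne

private theorem coeff_fsum {ι : Type*} (T : Finset ι) (x : ι → LaurentSeries F) (n : ℤ) :
    (∑ i ∈ T, x i).coeff n = ∑ i ∈ T, (x i).coeff n := by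
  classical
  induction T using Finset.induction_on with
  | empty => simp
  | insert a T ha ih => rw [Finset.sum_insert ha, Finset.sum_insert ha, HahnSeries.coeff_add, ih]

theorem Nle.mul (hf : Nle q j m f) (hg : Nle q j m' g) : Nle q j (m + m') (f * g) := by
  intro i n hn
  rw [Polynomial.coeff_mul, coeff_fsum]
  refine Finset.sum_eq_zero ?_
  rintro ⟨a, b⟩ hab
  have hab' : a + b = i := by simpa using hab
  refine (coeff_mul_low (hf a) (hg b)).1 n ?_
  subst hab'
  push_cast at hn ⊢
  linarith [hn]

theorem La_mul (hf : Nle q j m f) (hg : Nle q j m' g) :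
    La q j (m + m') (f * g) = La q j m f * La q j m' g := by
  ext i
  rw [La_coeff, Polynomial.coeff_mul, Polynomial.coeff_mul, coeff_fsum]
  refine Finset.sum_congr rfl ?_
  rintro ⟨a, b⟩ hab
  have hab' : a + b = i := by simpa using hab
  rw [La_coeff, La_coeff, ← (coeff_mul_low (hf a) (hg b)).2]
  congr 1
  subst hab'
  push_cast
  ring

theorem Nle.pow (hf : Nle q j m f) (n : ℕ) : Nle q j (n * m) (f ^ n) := by
  induction n with
  | zero => simpa using Nle_one (F := F) q j
  | succ n ih =>
    rw [pow_succ]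
    have h := ih.mul hf
    have e : ((n + 1 : ℕ) : ℤ) * m = n * m + m := by push_cast; ring
    rw [e]
    exact h

theorem La_pow (hf : Nle q j m f) (n : ℕ) : La q j (n * m) (f ^ n) = La q j m f ^ n := by
  induction n with
  | zero => simpa using La_one (F := F) q j
  | succ n ih =>
    rw [pow_succ, pow_succ, ← ih, ← La_mul (hf.pow n) hf]
    congr 1
    push_cast
    ring

theorem th_pow (n : ℕ) : (th : LaurentSeries F) ^ n = HahnSeries.single (-(n : ℤ)) 1 := by
  induction n with
  | zero => simp
  | succ n ih =>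
    rw [pow_succ, ih, th, HahnSeries.single_mul_single]
    congr 1
    · push_cast
      ring_nf
    · simp

theorem th_ne : (th : LaurentSeries F) ≠ 0 := by
  rw [th]
  exact HahnSeries.single_ne_zero one_ne_zero

private theorem th_pow_coeff (n : ℕ) (k : ℤ) :
    ((th : LaurentSeries F) ^ n).coeff k = if k = -(n : ℤ) then 1 else 0 := by
  rw [th_pow, HahnSeries.coeff_single]
  split_ifs <;> rfl

/-- `th` satisfies `Gen` -/
theorem gen_th (hq : 2 ≤ q) : Gen q (th : LaurentSeries F) := by
  intro a b hab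
  have h1 : ((th : LaurentSeries F) ^ q ^ a).coeff (-((q ^ a : ℕ) : ℤ)) =
      ((th : LaurentSeries F) ^ q ^ b).coeff (-((q ^ a : ℕ) : ℤ)) := by
    have h2 : (th : LaurentSeries F) ^ q ^ a = (th : LaurentSeries F) ^ q ^ b := hab
    rw [h2]
  rw [th_pow_coeff, th_pow_coeff, if_pos rfl] at h1
  by_cases h : (-((q ^ a : ℕ) : ℤ)) = -((q ^ b : ℕ) : ℤ)
  · have h3 : q ^ a = q ^ b := by
      have := neg_injective h
      exact_mod_cast this
    exact Nat.pow_right_injective hq h3
  · rw [if_neg h] at h1
    exact absurd h1 one_ne_zero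

private theorem th_coeff (k : ℤ) : (th : LaurentSeries F).coeff k = if k = -1 then 1 else 0 := by
  rw [th, HahnSeries.coeff_single]
  split_ifs <;> rfl

private theorem one_coeff (k : ℤ) : (1 : LaurentSeries F).coeff k = if k = 0 then 1 else 0 := by
  rw [HahnSeries.coeff_one]
  split_ifs <;> rfl

theorem Nle_ths (hq : 1 ≤ q) (j : ℕ) : Nle q j ((q : ℤ) ^ j) (C th - X : (LaurentSeries F)[X]) := by
  have hqj : (1 : ℤ) ≤ (q : ℤ) ^ j := by exact_mod_cast Nat.one_le_pow _ _ hq
  refine Nle.sub ?_ ?_
  · rw [Nle_C]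
    intro n hn
    rw [th_coeff, if_neg]
    intro h
    omega
  · intro i n hn
    rw [Polynomial.coeff_X]
    split_ifs with h
    · rw [one_coeff, if_neg]
      intro h0
      subst h
      subst h0
      simp at hn
    · simp

theorem La_ths (hq : 2 ≤ q) (hj : 1 ≤ j) :
    La q j ((q : ℤ) ^ j) (C th - X : (LaurentSeries F)[X]) = -X := by
  have hqj : (2 : ℤ) ≤ (q : ℤ) ^ j := by
    have : 2 ≤ q ^ j := le_trans hq (Nat.le_self_pow (by omega) q)
    exact_mod_cast this
  rw [La_sub, La_C, th_coeff, if_neg (by intro h; omega), C_0, zero_sub]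
  congr 1
  ext i
  rw [La_coeff, Polynomial.coeff_X, Polynomial.coeff_X]
  split_ifs with h
  · subst h
    rw [one_coeff, if_pos (by simp)]
  · simp

theorem La_ths_zero (q : ℕ) : La q 0 1 (C th - X : (LaurentSeries F)[X]) = 1 - X := by
  rw [La_sub, La_C, th_coeff, if_pos rfl, C_1]
  congr 1
  ext i
  rw [La_coeff, Polynomial.coeff_X, Polynomial.coeff_X]
  split_ifs with h
  · subst h
    rw [one_coeff, if_pos (by simp)]
  · simp

theorem Nle_sT (q j : ℕ) : Nle q j ((q : ℤ) ^ j) (X - C (th ^ q ^ j) : (LaurentSeries F)[X]) := by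
  refine Nle.sub ?_ ?_
  · intro i n hn
    rw [Polynomial.coeff_X]
    split_ifs with h
    · rw [one_coeff, if_neg]
      intro h0
      subst h
      subst h0
      simp at hn
    · simp
  · rw [Nle_C]
    intro n hn
    rw [th_pow_coeff, if_neg]
    intro h
    rw [h] at hn
    push_cast at hn
    exact lt_irrefl _ hn

theorem La_sT (q j : ℕ) :
    La q j ((q : ℤ) ^ j) (X - C (th ^ q ^ j) : (LaurentSeries F)[X]) = X - 1 := by
  rw [La_sub, La_C, th_pow_coeff, if_pos (by push_cast; rfl), C_1]
  congr 1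
  ext i
  rw [La_coeff, Polynomial.coeff_X, Polynomial.coeff_X]
  split_ifs with h
  · subst h
    rw [one_coeff, if_pos (by simp)]
  · simp

end Pool.Agent.ZQ
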