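import Pool.Agent.Work.MP_43901b_nt.OddD
import Pool.Agent.Work.MP_43901b_nt.InvS0

/-!
# Odd0 (M): the odd case at level 0

`w = a + s.sum`, `D = natDegree f`, `V = (C th - X)^w f`, `V_s = (C th - X)^(s.sum) g`.
`odd_ne`: if `f = 0`: `P_a V_s = C c P_w`; evaluate at `th`: `s.sum ≥ 1` (`inv_sum_pos`) so the left side is
0, and `P_w(th) = 1` (`Pp_eval_self`): `c = 0`, contradiction.
`odd_deg`: `(q-1) D < w`: if `(q-1) D > w` then `q D > w + D` and `q D > natDegree` of `P_a V_s` and
`P_w` (`(q-1) natDegree (P_a V_s) ≤ q(a-1) + (q-1) s.sum + s.sum = q (w-1)`,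
`(q-1) natDegree P_w ≤ q (w-1)`), impossible.  `(q-1) D = w` would give `q-1 ∣ w`, but `q-1 ∣ s.sum`
(`hI.deg`), so `q-1 ∣ a`.
`odd_level0`: `δ`, `c₀` from `exists_deg`.  `m` exact height of `f` at level 0, form `φ`;
`V`: height `h = w + m`, form `(1-X)^w φ`; `expand f`: height `≤ m + (q-1) D < h`.  `P_a V_s`: height
0, form `π ψ`, `ψ(1) = 0` (`r0`, `K ≥ 1`); `C c P_w`: height `δ`, form `C c₀ π_w`, `π_w(1) = 1`.
* If `δ > 0`: `h > δ`: the form of `V` at `h` would be 0.  `h < δ`: the form `C c₀ π_w` at `δ` would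
  be 0.  `h = δ`: `(1-X)^w φ = C c₀ π_w`, at 1: `c₀ = 0`.
* If `δ = 0`: `h > 0` impossible; so `V` has height `≤ 0` with form `(1-X)^w φ` or `0` at height 0:
  `(1-X)^w φ' + π ψ - C c₀ π_w = 0`, at 1: `c₀ = 0`.
So `δ < 0`.  Then `h = 0` and `La 0 0 V = - π ψ` (`h > 0`: `(1-X)^w φ = 0`; `h < 0`: `π ψ = 0`).
`odd_wK`: `root_of_level0`.
-/

namespace Pool.Agent.ZQ

open Polynomial Finset

variable {F : Type*} [Field F] {p q : ℕ} [CharP F p] {a : ℕ} {s : List ℕ}
  {f g : (LaurentSeries F)[X]} {c : LaurentSeries F} {B K : ℕ}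

theorem odd_ne (h : IsQ p q) (ho : OddEq p q a s f g c B K) : f ≠ 0 := by
  rintro rfl
  have hs := inv_sum_pos h.two_le ho.inv
  have e := ho.eq
  rw [map_zero, mul_zero, zero_add] at e
  have e2 := congrArg (Polynomial.eval th) e
  rw [eval_zero, eval_sub, eval_mul, eval_mul, eval_pow, eval_sub, eval_C, eval_X, sub_self,
    zero_pow (by omega), zero_mul, mul_zero, zero_sub, eval_mul, eval_C, Pp_eval_self h,
    mul_one] at e2
  exact ho.hc (neg_eq_zero.1 e2.symm)

private theorem odd0_nd (n : ℕ) (g : (LaurentSeries F)[X]) :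
    ((C th - X) ^ n * g).natDegree ≤ n + g.natDegree := by
  refine natDegree_mul_le.trans ?_
  have h1 : ((C th - X : (LaurentSeries F)[X]) ^ n).natDegree ≤ n := by
    refine natDegree_pow_le.trans ?_
    have h2 : (C th - X : (LaurentSeries F)[X]).natDegree ≤ 1 := by
      refine (natDegree_sub_le _ _).trans ?_
      simp
    calc n * (C th - X : (LaurentSeries F)[X]).natDegree ≤ n * 1 := Nat.mul_le_mul_left _ h2
      _ = n := mul_one n
  omega

theorem odd_deg (h : IsQ p q) (ho : OddEq p q a s f g c B K) :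
    (q - 1) * f.natDegree < a + s.sum := by
  have hq := h.two_le
  have ha := ho.ha
  have hI := ho.inv
  by_contra hcon
  push Not at hcon
  have hlt : a + s.sum < (q - 1) * f.natDegree := by
    rcases hcon.lt_or_eq with h1 | h1
    · exact h1
    · exfalso
      apply ho.hd
      have h2 : (q - 1) ∣ a + s.sum := ⟨_, h1⟩
      have h3 : (q - 1) ∣ s.sum := ⟨_, hI.deg.symm⟩
      exact (Nat.dvd_add_left h3).1 h2
  -- degrees
  have hE : (expand _ q f).natDegree = f.natDegree * q := natDegree_expand q f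
  have hV : ((C th - X) ^ (a + s.sum) * f).natDegree ≤ a + s.sum + f.natDegree := odd0_nd _ _
  have hPV : (q - 1) * (Pp q th a * ((C th - X) ^ s.sum * g)).natDegree ≤ q * (a + s.sum - 1) := by
    have h1 : (Pp q th a * ((C th - X) ^ s.sum * g)).natDegree ≤
        (Pp q (th : LaurentSeries F) a).natDegree + (s.sum + g.natDegree) :=
      natDegree_mul_le.trans (Nat.add_le_add_left (odd0_nd _ _) _)
    calc (q - 1) * (Pp q th a * ((C th - X) ^ s.sum * g)).natDegree
        ≤ (q - 1) * ((Pp q (th : LaurentSeries F) a).natDegree + (s.sum + g.natDegree)) :=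
          Nat.mul_le_mul_left _ h1
      _ = (q - 1) * (Pp q (th : LaurentSeries F) a).natDegree + ((q - 1) * s.sum +
          (q - 1) * g.natDegree) := by ring
      _ ≤ q * (a - 1) + ((q - 1) * s.sum + s.sum) := by
          rw [hI.deg]
          exact Nat.add_le_add_right (Pp_natDegree_le h th a) _
      _ = q * (a + s.sum - 1) := by
          obtain ⟨r, rfl⟩ : ∃ r, q = r + 1 := ⟨q - 1, by omega⟩
          obtain ⟨a', rfl⟩ : ∃ a', a = a' + 1 := ⟨a - 1, by omega⟩
          rw [show a' + 1 + s.sum - 1 = a' + s.sum by omega]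
          simp only [Nat.add_sub_cancel]
          ring
  have hPw : (q - 1) * (C c * Pp q th (a + s.sum)).natDegree ≤ q * (a + s.sum - 1) := by
    refine le_trans (Nat.mul_le_mul_left _ (natDegree_C_mul_le _ _)) ?_
    exact Pp_natDegree_le h th _
  -- all the terms on the right have degree smaller than `q D`
  have hq1 : 0 < q - 1 := by omega
  have key : q * (a + s.sum - 1) < (q - 1) * (f.natDegree * q) := by
    have h1 : a + s.sum - 1 < (q - 1) * f.natDegree := by omega
    calc q * (a + s.sum - 1) < q * ((q - 1) * f.natDegree) :=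
          Nat.mul_lt_mul_of_pos_left h1 (by omega)
      _ = (q - 1) * (f.natDegree * q) := by ring
  have h1 : (Pp q th a * ((C th - X) ^ s.sum * g)).natDegree < f.natDegree * q :=
    Nat.lt_of_mul_lt_mul_left (lt_of_le_of_lt hPV key)
  have h2 : (C c * Pp q th (a + s.sum)).natDegree < f.natDegree * q :=
    Nat.lt_of_mul_lt_mul_left (lt_of_le_of_lt hPw key)
  have h3 : ((C th - X) ^ (a + s.sum) * f).natDegree < f.natDegree * q := by
    refine lt_of_le_of_lt hV ?_
    obtain ⟨r, rfl⟩ : ∃ r, q = r + 1 := ⟨q - 1, by omega⟩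
    simp only [Nat.add_sub_cancel] at hlt
    nlinarith
  have h4 : (expand _ q f).natDegree < f.natDegree * q := by
    rw [ho.eq]
    refine lt_of_le_of_lt (natDegree_sub_le _ _) (max_lt ?_ h2)
    exact lt_of_le_of_lt (natDegree_add_le _ _) (max_lt h3 h1)
  omega

theorem odd_level0 (h : IsQ p q) (ho : OddEq p q a s f g c B K) :
    (∃ (δ : ℤ) (c₀ : F), δ < 0 ∧ c₀ ≠ 0 ∧ ∀ q j : ℕ, Nle q j δ (C c) ∧ La q j δ (C c) = C c₀) ∧
    Nle q 0 0 ((C th - X) ^ (a + s.sum) * f) ∧ La q 0 0 ((C th - X) ^ (a + s.sum) * f) =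
      - (La q 0 0 (Pp q th a) * La q 0 0 ((C th - X) ^ s.sum * g)) := by
  have hq := h.two_le
  have hs := inv_sum_pos hq ho.inv
  have hf0 := odd_ne h ho
  have hdeg := odd_deg h ho
  have hI := ho.inv
  obtain ⟨δ, c₀, hc₀, hδ⟩ := exists_deg ho.hc
  obtain ⟨m, hm, hφ⟩ := exists_height q 0 hf0
  have heq := ho.eq
  set w := a + s.sum with hw
  have hw1 : 1 ≤ w := by omega
  have hths : Nle q 0 1 (C th - X : (LaurentSeries F)[X]) := by
    simpa using Nle_ths (F := F) (q := q) (by omega) 0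
  have hV : Nle q 0 ((w : ℤ) + m) ((C th - X) ^ w * f) := by
    have h1 := (hths.pow w).mul hm
    rwa [mul_one] at h1
  have hLV : La q 0 ((w : ℤ) + m) ((C th - X) ^ w * f) = (1 - X) ^ w * La q 0 m f := by
    have h1 := La_mul (hths.pow w) hm
    rw [La_pow hths, La_ths_zero, mul_one] at h1
    exact h1
  have hE : Nle q 0 ((w : ℤ) + m - 1) (expand _ q f) := by
    rw [Nle_expand (by omega)]
    refine (Nle_succ hq hm le_rfl).mono ?_
    rw [pow_zero, mul_one]
    have h1 : ((q : ℤ) - 1) * (f.natDegree : ℤ) < w := by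
      have h2 : (((q - 1) * f.natDegree : ℕ) : ℤ) < (w : ℤ) := by exact_mod_cast hdeg
      rw [Nat.cast_mul, Nat.cast_sub (by omega), Nat.cast_one] at h2
      exact h2
    nlinarith
  have hPa := Pp_level0 (F := F) h a
  have hPw := Pp_level0 (F := F) h w
  have hPV : Nle q 0 0 (Pp q th a * ((C th - X) ^ s.sum * g)) := by
    have h1 := hPa.mul hI.n0
    rwa [add_zero] at h1
  have hLPV : La q 0 0 (Pp q th a * ((C th - X) ^ s.sum * g)) =
      La q 0 0 (Pp q th a) * La q 0 0 ((C th - X) ^ s.sum * g) := by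
    have h1 := La_mul hPa hI.n0
    rwa [add_zero] at h1
  have hCP : Nle q 0 δ (C c * Pp q th w) := by
    have h1 := (hδ q 0).1.mul hPw
    rwa [add_zero] at h1
  have hLCP : La q 0 δ (C c * Pp q th w) = C c₀ * La q 0 0 (Pp q th w) := by
    have h1 := La_mul (hδ q 0).1 hPw
    rwa [add_zero, (hδ q 0).2] at h1
  -- values at 1
  have hψ : (La q 0 0 ((C th - X) ^ s.sum * g)).eval 1 = 0 := by
    have h1 : 0 < (La q 0 0 ((C th - X) ^ s.sum * g)).rootMultiplicity 1 := by
      rw [hI.r0]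
      have := hI.wK
      omega
    exact (rootMultiplicity_pos hI.l0).1 h1
  have hsum : ∀ M : ℤ, La q 0 M (expand _ q f) = La q 0 M ((C th - X) ^ w * f) +
      La q 0 M (Pp q th a * ((C th - X) ^ s.sum * g)) - La q 0 M (C c * Pp q th w) := by
    intro M
    rw [heq, La_sub, La_add]
  have evV : ∀ M : ℤ, (w : ℤ) + m ≤ M → (La q 0 M ((C th - X) ^ w * f)).eval 1 = 0 := by
    intro M hM
    rcases hM.lt_or_eq with h1 | h1
    · rw [La_of_lt hV h1, eval_zero]
    · rw [← h1, hLV, eval_mul, eval_pow, eval_sub, eval_one, eval_X, sub_self,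
        zero_pow (by omega), zero_mul]
  have evPV : ∀ M : ℤ, 0 ≤ M → (La q 0 M (Pp q th a * ((C th - X) ^ s.sum * g))).eval 1 = 0 := by
    intro M hM
    rcases hM.lt_or_eq with h1 | h1
    · rw [La_of_lt hPV h1, eval_zero]
    · rw [← h1, hLPV, eval_mul, hψ, mul_zero]
  -- `δ` is smaller than the maximum of the two other heights
  have hδM : ∀ M : ℤ, (w : ℤ) + m ≤ M → 0 ≤ M → δ ≠ M := by
    rintro M h1 h2 rfl
    have h3 := congrArg (Polynomial.eval 1) (hsum δ)
    rw [La_of_lt hE (by omega), eval_zero, eval_sub, eval_add, evV _ h1, evPV _ h2, hLCP, eval_mul,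
      eval_C, Pp_level0_eval h, mul_one, add_zero, zero_sub] at h3
    exact hc₀ (neg_eq_zero.1 h3.symm)
  have hone : (1 - X : F[X]) ≠ 0 := by
    intro h1
    have h2 := congrArg (Polynomial.eval 0) h1
    simp at h2
  have hLV0 : La q 0 ((w : ℤ) + m) ((C th - X) ^ w * f) ≠ 0 := by
    rw [hLV]
    exact mul_ne_zero (pow_ne_zero _ hone) hφ
  have hπ : La q 0 0 (Pp q (th : LaurentSeries F) a) ≠ 0 := by
    intro h1
    have h2 := Pp_level0_eval (F := F) h a
    rw [h1, eval_zero] at h2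
    exact zero_ne_one h2
  have hLPV0 : La q 0 0 (Pp q th a * ((C th - X) ^ s.sum * g)) ≠ 0 := by
    rw [hLPV]
    exact mul_ne_zero hπ hI.l0
  -- `δ < max (w + m) 0`
  have hδlt : δ < max ((w : ℤ) + m) 0 := by
    by_contra hcon
    push Not at hcon
    exact hδM δ ((le_max_left _ _).trans hcon) ((le_max_right _ _).trans hcon) rfl
  have hA : (w : ℤ) + m ≤ 0 := by
    by_contra hcon
    push Not at hcon
    rw [max_eq_left hcon.le] at hδlt
    have h3 := hsum ((w : ℤ) + m)
    rw [La_of_lt hE (by omega), La_of_lt hPV hcon, La_of_lt hCP hδlt, add_zero, sub_zero] at h3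
    exact hLV0 h3.symm
  rw [max_eq_right hA] at hδlt
  have hA' : (w : ℤ) + m = 0 := by
    by_contra hcon
    have hlt : (w : ℤ) + m < 0 := lt_of_le_of_ne hA hcon
    have h3 := hsum 0
    rw [La_of_lt hE (by omega), La_of_lt hV hlt, La_of_lt hCP hδlt, zero_add, sub_zero] at h3
    exact hLPV0 h3.symm
  refine ⟨⟨δ, c₀, hδlt, hc₀, hδ⟩, hV.mono hA, ?_⟩
  have h3 := hsum 0
  rw [La_of_lt hE (by omega), La_of_lt hCP hδlt, sub_zero, hLPV] at h3
  exact eq_neg_of_add_eq_zero_left h3.symm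

theorem odd_wK (h : IsQ p q) (ho : OddEq p q a s f g c B K) : a + s.sum ≤ K := by
  obtain ⟨_, h1, h2⟩ := odd_level0 h ho
  exact (root_of_level0 h ho.inv h1 h2).2.2

end Pool.Agent.ZQ
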