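import Pool.Agent.Work.MP_43901b_nt.Odd0

/-!
# OddI (M): iteration of the equation modulo `(θ - X)^n`, `n = (q-1) B + 1`

Claim: `(C th - X)^n ∣ expand (q^i) f + C c * Sg q w i` for `1 ≤ i ≤ d = s.length`, `w = a + s.sum`.
For `0 ≤ i < d`: apply `expand (q^i)` to the equation (`expand_mul`: `expand (q^i) (expand q f) =
expand (q^(i+1)) f`; `expand (q^i) (C th - X) = C th - X^(q^i)`):
`expand (q^(i+1)) f = (C th - X^(q^i))^w expand (q^i) f + expand (q^i) P_a (C th - X^(q^i))^(s.sum) expand (q^i) g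
 - C c expand (q^i) P_w`.
`i = 0`: `(C th - X)^n` divides the first term (`n ≤ s.sum + 1 ≤ w`, `low`) and the second one
(`n ≤ s.sum + mult_θ g`, `ord0`), and `Sg 1 = 0 + P_w`: claim for `i = 1`.
`1 ≤ i < d`: `(C th - X)^n ∣ expand (q^i) g`: `(X - C T_i)^(M_i) ∣ g`, `n ≤ q^i M_i` (`hI.ord`), and
`expand (q^i) (X - C T_i) = X^(q^i) - C th^(q^i) = (X - C th)^(q^i)`.  With the claim for `i` and
`Sg (i+1) = (C th - X^(q^i))^w Sg i + expand (q^i) P_w` the claim for `i+1` follows.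
-/

namespace Pool.Agent.ZQ

open Polynomial Finset

variable {F : Type*} [Field F] {p q : ℕ} [CharP F p] {a : ℕ} {s : List ℕ}
  {f g : (LaurentSeries F)[X]} {c : LaurentSeries F} {B K : ℕ}

private theorem oddI_dvd (n : ℕ) {x : (LaurentSeries F)[X]} (hx : (X - C th) ^ n ∣ x) :
    (C th - X) ^ n ∣ x := by
  obtain ⟨y, rfl⟩ := hx
  refine ⟨(-1) ^ n * y, ?_⟩
  rw [← mul_assoc, ← mul_pow]
  congr 2
  ring

/-- `expand (q^(i+1)) f + c Σ_(i+1)` in terms of `expand (q^i) f + c Σ_i` -/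
private theorem oddI_step (ho : OddEq p q a s f g c B K) (i : ℕ) :
    expand _ (q ^ (i + 1)) f + C c * Sg q (a + s.sum) (i + 1) =
      (C th - X ^ q ^ i) ^ (a + s.sum) * (expand _ (q ^ i) f + C c * Sg q (a + s.sum) i) +
        expand _ (q ^ i) (Pp q th a) * ((C th - X ^ q ^ i) ^ s.sum * expand _ (q ^ i) g) := by
  have e := congrArg (expand _ (q ^ i)) ho.eq
  rw [expand_expand, ← pow_succ] at e
  rw [e, Sg]
  simp only [map_sub, map_add, map_mul, map_pow, expand_C, expand_X]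
  ring

theorem odd_iter (h : IsQ p q) (ho : OddEq p q a s f g c B K) {i : ℕ} (hi : 1 ≤ i)
    (hi' : i ≤ s.length) :
    (C th - X) ^ ((q - 1) * B + 1) ∣ expand _ (q ^ i) f + C c * Sg q (a + s.sum) i := by
  have hI := ho.inv
  have ha := ho.ha
  have hlow := hI.low
  induction i, hi using Nat.le_induction with
  | base =>
    rw [oddI_step ho 0, pow_zero, pow_one]
    refine dvd_add (Dvd.dvd.mul_right (pow_dvd_pow _ (by omega)) _) (Dvd.dvd.mul_left ?_ _)
    rw [expand_one]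
    have h1 : (C th - X) ^ (s.sum + g.rootMultiplicity th) ∣ (C th - X) ^ s.sum * g := by
      rw [pow_add]
      exact mul_dvd_mul_left _ (oddI_dvd _ (pow_rootMultiplicity_dvd g th))
    exact (pow_dvd_pow _ hI.ord0).trans h1
  | succ i hi ih =>
    rw [oddI_step ho i]
    refine dvd_add (Dvd.dvd.mul_left (ih (by omega)) _)
      (Dvd.dvd.mul_left (Dvd.dvd.mul_left ?_ _) _)
    have h1 : (X - C (th ^ q ^ i)) ^ (g.rootMultiplicity (th ^ q ^ i)) ∣ g :=
      pow_rootMultiplicity_dvd g _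
    have h2 := map_dvd (expand (LaurentSeries F) (q ^ i)) h1
    rw [map_pow, map_sub, expand_X, expand_C, C_pow, ← sub_pow_q h, ← pow_mul] at h2
    exact (pow_dvd_pow _ (hI.ord i hi (by omega))).trans (oddI_dvd _ h2)

end Pool.Agent.ZQ
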