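import Pool.Agent.Work.MP_43901b_nt.OddD
import Pool.Agent.Work.MP_43901b_nt.InvB

/-!
# OddS (M): the form of `Σ_d` at level 0; the `(q-1)`-th power of the form of `P_w`

`Sg_level0`, `i ≥ 0`: `Sg (i+1)` has height `≤ w σ_i` at level 0, with form
`C ((-1)^(w i)) X^(w σ_i) La 0 0 P_w` there.  `i = 0`: `Sg 1 = P_w` (`expand 1 = id`).  Step (`i ≥ 1`,
`Sg (i+1) = (C th - X^(q^i))^w Sg i + expand (q^i) P_w`): `C th - X^(q^i)` has at level 0 the height `q^i`
and the form `-X^(q^i)` (it is `expand (q^(i))` of `C th - X`: `Nle_expand_pow`, `La_expand_pow`,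
`Nle_ths`, `La_ths`), so the first term has height `w q^i + w σ_(i-1) = w σ_i` and the form
`(-1)^w X^(w q^i) (..)`; `expand (q^i) P_w` has height `≤ (w-1) σ_i < w σ_i` (`Nle_expand_pow`, `Pp_levelj`;
`σ_i ≥ 1`), so its form at `w σ_i` is 0 (`La_of_lt`).

`form_pow`: `w ≥ 1`.  `Pp_pow` with `j = q-1`: `(C th - X)^(w+1) ∣ P_((q-1)w) - P_w^(q-1)`; both have height
0 (`Nle.pow`), so by `dvd_La0` (`m = 0`): `(1-X)^(w+1) ∣ La 0 0 P_((q-1)w) - (La 0 0 P_w)^(q-1)`.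
`Pp_form_cong` with `B = w`: `(1-X)^((q-1)w) ∣ X^(q w) - La 0 0 P_((q-1)w)`, `(q-1) w ≥ w + 1` if
`q ≥ 3` and `w ≥ 1`.
-/

namespace Pool.Agent.ZQ

open Polynomial Finset

variable {F : Type*} [Field F] {p q : ℕ} [CharP F p]

theorem Sg_level0 (h : IsQ p q) {w : ℕ} (hw : 1 ≤ w) (i : ℕ) :
    Nle q 0 ((w : ℤ) * sg q i) (Sg q w (i + 1) : (LaurentSeries F)[X]) ∧
      La q 0 ((w : ℤ) * sg q i) (Sg q w (i + 1) : (LaurentSeries F)[X]) =
        C ((-1) ^ (w * i)) * (X ^ (w * sg q i) * La q 0 0 (Pp q th w)) := by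
  have hq := h.two_le
  induction i with
  | zero =>
    have h1 : (Sg q w (0 + 1) : (LaurentSeries F)[X]) = Pp q th w := by
      rw [Sg, Sg, mul_zero, zero_add, pow_zero, expand_one]
    have h2 : ((w : ℤ) * (sg q 0 : ℕ)) = 0 := by rw [sg_zero, Nat.cast_zero, mul_zero]
    rw [h1, h2]
    refine ⟨Pp_level0 h w, ?_⟩
    rw [mul_zero, pow_zero, C_1, one_mul, sg_zero, mul_zero, pow_zero, one_mul]
  | succ i ih =>
    obtain ⟨ih1, ih2⟩ := ih
    have h1 : (Sg q w (i + 1 + 1) : (LaurentSeries F)[X]) =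
        (C th - X ^ q ^ (i + 1)) ^ w * Sg q w (i + 1) + expand _ (q ^ (i + 1)) (Pp q th w) := rfl
    have h2 : (C th - X ^ q ^ (i + 1) : (LaurentSeries F)[X]) =
        expand _ (q ^ (i + 1)) (C th - X) := by
      rw [map_sub, expand_C, expand_X]
    have h3 : Nle q 0 ((q : ℤ) ^ (i + 1)) (C th - X ^ q ^ (i + 1) : (LaurentSeries F)[X]) := by
      rw [h2, Nle_expand_pow (by omega)]
      exact Nle_ths (by omega) (i + 1)
    have h4 : La q 0 ((q : ℤ) ^ (i + 1)) (C th - X ^ q ^ (i + 1) : (LaurentSeries F)[X]) =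
        -X ^ q ^ (i + 1) := by
      rw [h2, La_expand_pow (by omega), La_ths hq (by omega), map_neg, expand_X]
    have h5 := h3.pow w
    have h6 := La_pow h3 w
    have h7 := h5.mul ih1
    have h8 := La_mul h5 ih1
    have h9 : ((w : ℤ) * (q : ℤ) ^ (i + 1) + (w : ℤ) * (sg q i : ℕ)) =
        (w : ℤ) * (sg q (i + 1) : ℕ) := by
      rw [sg_succ]
      push_cast
      ring
    rw [h9] at h7 h8
    rw [h4] at h6
    have h10 : Nle q 0 (((w : ℤ) - 1) * (sg q (i + 1) : ℕ))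
        (expand _ (q ^ (i + 1)) (Pp q (th : LaurentSeries F) w)) := by
      rw [Nle_expand_pow (by omega)]
      exact Pp_levelj h (i + 1) hw
    have h11 : (((w : ℤ) - 1) * (sg q (i + 1) : ℕ)) < (w : ℤ) * (sg q (i + 1) : ℕ) := by
      have h12 : 1 ≤ sg q (i + 1) := by
        rw [sg_succ]
        have := Nat.one_le_pow (i + 1) q (by omega)
        omega
      have h13 : (1 : ℤ) ≤ (sg q (i + 1) : ℕ) := by exact_mod_cast h12
      nlinarith
    have h14 := La_of_lt h10 h11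
    rw [h1]
    refine ⟨h7.add (h10.mono h11.le), ?_⟩
    rw [La_add, h8, h14, add_zero, h6, ih2, sg_succ]
    have h15 : (-X ^ q ^ (i + 1) : F[X]) ^ w = C ((-1) ^ w) * X ^ (w * q ^ (i + 1)) := by
      rw [neg_eq_neg_one_mul, mul_pow, ← pow_mul, mul_comm (q ^ (i + 1)) w, C_pow, C_neg, C_1]
    rw [h15, Nat.mul_succ, pow_add (-1 : F) (w * i) w, C_mul, Nat.mul_add, pow_add X]
    ring

theorem form_pow (h : IsQ p q) (hq : 3 ≤ q) {w : ℕ} (hw : 1 ≤ w) :
    (1 - X : F[X]) ^ (w + 1) ∣ X ^ (q * w) - La q 0 0 (Pp q (th : LaurentSeries F) w) ^ (q - 1) := by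
  have h1 := Pp_pow h (th : LaurentSeries F) hw (show 1 ≤ q - 1 by omega)
  have h2 : Nle q 0 0 (Pp q (th : LaurentSeries F) w ^ (q - 1)) := by
    have := (Pp_level0 (F := F) h w).pow (q - 1)
    rwa [mul_zero] at this
  have h3 : La q 0 0 (Pp q (th : LaurentSeries F) w ^ (q - 1)) =
      La q 0 0 (Pp q (th : LaurentSeries F) w) ^ (q - 1) := by
    have := La_pow (Pp_level0 (F := F) h w) (q - 1)
    rwa [mul_zero] at this
  have h4 := dvd_La0 h1 ((Pp_level0 (F := F) h ((q - 1) * w)).sub h2)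
  rw [La_sub, h3] at h4
  have h5 := Pp_form_cong (F := F) h hw
  have h6 : w + 1 ≤ (q - 1) * w := by
    have : 2 * w ≤ (q - 1) * w := Nat.mul_le_mul_right _ (by omega)
    omega
  have h7 := (pow_dvd_pow (1 - X : F[X]) h6).trans h5
  have h8 := dvd_add h7 h4
  rwa [sub_add_sub_cancel] at h8

end Pool.Agent.ZQ
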