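import Pool.Agent.Work.MP_43901b_nt.OddL
import Pool.Agent.Work.MP_43901b_nt.OddI
import Pool.Agent.Work.MP_43901b_nt.OddS

/-!
# OddC (M-L): comparison of `f(X^(q^d))` and `c Σ_d`, two cases

`d = s.length ≥ 1`, `w = a + s.sum`, `n = (q-1) B + 1`, `m` = exact height of `f` at level `d`,
`φ = La d m f`, `G`, `c₁` from `odd_leveld`; `δ < 0`, `c₀` from `odd_level0`.
`expand (q^d) f` has height `m` at level 0 with form `expand (q^d) φ` (`Nle_expand_pow`,
`La_expand_pow`); `C c Sg d` has height `≤ e := δ + w σ_(d-1)` with form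
`C (c₀ ε) X^(w σ_(d-1)) Π`, `Π = La 0 0 P_w`, `ε = (-1)^(w(d-1))` (`Sg_level0` with `i = d-1`).
`e ≤ m` (`f_height`).  `(C th - X)^n` divides the sum (`odd_iter` for `i = d`), so by `dvd_La0` `(1-X)^n`
divides the form of the sum at the height `m`.
Useful: for `u : F[X]`, `u ≠ 0`: multiplicity of 1 in `expand (q^i) u` is `q^i` times the one in `u`
(`rootMultiplicity_expand_pow`, `1^(..) = 1`).

Case 1, `e < m`: `(1-X)^n ∣ expand (q^d) φ`, so `n ≤ q^d mult_1 φ`.  From `X^a φ = C c₁ X^(..) expand q G`: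
`mult_1 φ = q mult_1 G ≤ q natDegree G`, so `(q-1) n ≤ q^(d+1) (q-1) natDegree G ≤ q^(d+1) (a-1)`.

Case 2, `e = m`: `(1-X)^n ∣ x - y`, `x = expand (q^d) φ`, `y = - C (c₀ ε) X^(w σ_(d-1)) Π`; so
`(1-X)^n ∣ x^(q-1) - y^(q-1)`.  Constants of `F`, nonzero, have `(q-1)`-th power 1
(`FiniteField.pow_card_sub_one_eq_one`), `(q-1) σ_(d-1) + q = q^d` (`sg_mul`), so
`y^(q-1) = X^(w (q^d - q)) Π^(q-1)`, and by `form_pow` (`n ≤ s.sum + 1 ≤ w + 1`) it is congruent to
`X^(w(q^d-q)) X^(q w) = X^(w q^d)` modulo `(1-X)^n`.  So `(1-X)^n ∣ expand (q^d) (φ^(q-1) - X^w)`.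
`u := φ^(q-1) - X^w ≠ 0` (degree: `q-1 ∤ w`), so `n ≤ q^d mult_1 u`.  And
`X^((q-1)a) u = (X^a φ)^(q-1) - X^((q-1)a + w) = X^((q-1) natDegree g) expand q (G^(q-1)) - X^((q-1)a+w)
 = X^(s.sum) expand q (G^(q-1) - X^a)` (`(q-1) natDegree g = s.sum`, `c₁^(q-1) = 1`), so
`mult_1 u = q mult_1 (G^(q-1) - X^a)`.
-/

set_option linter.unusedSectionVars false

namespace Pool.Agent.ZQ

open Polynomial Finset

variable {F : Type*} [Field F] [Fintype F] {p q : ℕ} [CharP F p] {a : ℕ} {s : List ℕ}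
  {f g : (LaurentSeries F)[X]} {c : LaurentSeries F} {B K : ℕ}

private theorem oc_root (h : IsQ p q) (u : F[X]) (i : ℕ) :
    (expand F (q ^ i) u).rootMultiplicity 1 = q ^ i * u.rootMultiplicity 1 := by
  obtain ⟨e, _, he⟩ := h.pow_eq
  have := h.fact
  have : ExpChar F p := ExpChar.prime h.prime
  rw [he, rootMultiplicity_expand_pow, one_pow]

private theorem oc_le {u : F[X]} (hu : u ≠ 0) {n : ℕ} (hn : (1 - X) ^ n ∣ u) :
    n ≤ u.rootMultiplicity 1 := by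
  rw [le_rootMultiplicity_iff hu]
  have h1 : (X - C 1 : F[X]) = -(1 - X) := by rw [map_one]; ring
  rw [h1, neg_pow]
  exact (IsUnit.mul_left_dvd ((isUnit_one.neg).pow n)).2 hn

private theorem oc_X {u : F[X]} (hu : u ≠ 0) (j : ℕ) :
    (X ^ j * u).rootMultiplicity 1 = u.rootMultiplicity 1 := by
  rw [rootMultiplicity_mul (mul_ne_zero (pow_ne_zero _ X_ne_zero) hu),
    rootMultiplicity_eq_zero (p := X ^ j), zero_add]
  rw [IsRoot.def, eval_pow, eval_X, one_pow]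
  exact one_ne_zero

private theorem oc_C {u : F[X]} (hu : u ≠ 0) {c : F} (hc : c ≠ 0) :
    (C c * u).rootMultiplicity 1 = u.rootMultiplicity 1 := by
  rw [rootMultiplicity_mul (mul_ne_zero (C_ne_zero.2 hc) hu), rootMultiplicity_C, zero_add]

theorem odd_cases (h : IsQ p q) (hF : Fintype.card F = q) (hq : 3 ≤ q)
    (ho : OddEq p q a s f g c B K) (hs : 1 ≤ s.length) :
    (q - 1) * ((q - 1) * B + 1) ≤ q ^ (s.length + 1) * (a - 1) ∨
      ∃ G : F[X], (q - 1) * G.natDegree ≤ a - 1 ∧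
        (q - 1) * B + 1 ≤ q ^ (s.length + 1) * (G ^ (q - 1) - X ^ a).rootMultiplicity 1 := by
  classical
  have hq1 : 1 ≤ q := by omega
  have ha := ho.ha
  have hss : 1 ≤ s.sum := inv_sum_pos h.two_le ho.inv
  obtain ⟨d, hd⟩ : ∃ d, s.length = d + 1 := ⟨s.length - 1, by omega⟩
  obtain ⟨⟨δ, c₀, hδ, hc₀, hc⟩, -, -⟩ := odd_level0 h ho
  obtain ⟨m, hm, hφ⟩ := exists_height q s.length (odd_ne h ho)
  obtain ⟨G, c₁, hc₁, hG, hGd, hGe⟩ := odd_leveld h ho hs hm hφ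
  have he := f_height h ho hs hc₀ (hc q s.length) hm
  have hdiv := odd_iter h ho hs le_rfl
  have hgd := ho.inv.deg
  have hlow := ho.inv.low
  rw [hd] at hm hφ hGe he hdiv
  rw [Nat.add_sub_cancel] at he
  set φ := La q (d + 1) m f with hφdef
  obtain ⟨w, hw⟩ : ∃ w, w = a + s.sum := ⟨_, rfl⟩
  rw [← hw] at he hdiv
  have hw1 : 1 ≤ w := by omega
  obtain ⟨n, hn⟩ : ∃ n, n = (q - 1) * B + 1 := ⟨_, rfl⟩
  rw [← hn] at hdiv ⊢
  have hnw : n ≤ w := by omega
  obtain ⟨hS1, hS2⟩ := Sg_level0 (F := F) h hw1 d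
  obtain ⟨hc1, hc2⟩ := hc q 0
  have hE1 : Nle q 0 m (expand _ (q ^ (d + 1)) f) := (Nle_expand_pow hq1 _).2 hm
  have hE2 : La q 0 m (expand _ (q ^ (d + 1)) f) = expand F (q ^ (d + 1)) φ :=
    La_expand_pow hq1 _ _ _
  have hP1 : Nle q 0 (δ + (w : ℤ) * sg q d) (C c * Sg q w (d + 1)) := hc1.mul hS1
  have hP2 : La q 0 (δ + (w : ℤ) * sg q d) (C c * Sg q w (d + 1)) =
      C c₀ * (C ((-1) ^ (w * d)) * (X ^ (w * sg q d) * La q 0 0 (Pp q th w))) := by
    rw [La_mul hc1 hS1, hc2, hS2]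
  have hdvd := dvd_La0 hdiv (hE1.add (hP1.mono he))
  rw [La_add, hE2] at hdvd
  have hqe : expand F (q ^ (d + 1)) φ ≠ 0 := by
    rwa [Ne, expand_eq_zero (pow_pos h.pos _)]
  -- the multiplicity of `φ` at 1
  have hφG : φ.rootMultiplicity 1 = q * G.rootMultiplicity 1 := by
    have hq0 : 0 < q := h.pos
    have e1 : expand F q G ≠ 0 := by rwa [Ne, expand_eq_zero hq0]
    have e2 : X ^ g.natDegree * expand F q G ≠ 0 := mul_ne_zero (pow_ne_zero _ X_ne_zero) e1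
    have e3 := oc_root h G 1
    rw [pow_one] at e3
    rw [← oc_X hφ a, hGe, oc_C e2 hc₁, oc_X e1, e3]
  rw [hd]
  rcases he.lt_or_eq with hlt | heq
  · -- Case 1
    left
    rw [La_of_lt hP1 hlt, add_zero] at hdvd
    have h1 := oc_le hqe hdvd
    rw [oc_root h, hφG] at h1
    have h2 : G.rootMultiplicity 1 ≤ G.natDegree := by
      refine (Polynomial.rootMultiplicity_le_rootMultiplicity_of_dvd hG dvd_rfl 1).trans ?_
      have h3 := Polynomial.pow_rootMultiplicity_dvd G 1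
      have h4 := natDegree_le_of_dvd h3 hG
      rwa [natDegree_pow, natDegree_X_sub_C, mul_one] at h4
    calc (q - 1) * n ≤ (q - 1) * (q ^ (d + 1) * (q * G.rootMultiplicity 1)) :=
          Nat.mul_le_mul_left _ h1
      _ = q ^ (d + 1 + 1) * ((q - 1) * G.rootMultiplicity 1) := by ring
      _ ≤ q ^ (d + 1 + 1) * ((q - 1) * G.natDegree) :=
          Nat.mul_le_mul_left _ (Nat.mul_le_mul_left _ h2)
      _ ≤ q ^ (d + 1 + 1) * (a - 1) := Nat.mul_le_mul_left _ hGd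
  · -- Case 2
    right
    refine ⟨G, hGd, ?_⟩
    rw [← heq, hP2] at hdvd
    have hconst : ∀ x : F, x ≠ 0 → x ^ (q - 1) = 1 := by
      intro x hx
      rw [← hF]
      exact FiniteField.pow_card_sub_one_eq_one x hx
    set Wf := La q 0 0 (Pp q (th : LaurentSeries F) w) with hWf
    set κ : F := -(c₀ * (-1) ^ (w * d)) with hκ
    have hκ0 : κ ≠ 0 := neg_ne_zero.2 (mul_ne_zero hc₀ (pow_ne_zero _ (neg_ne_zero.2 one_ne_zero)))
    have e1 : (1 - X) ^ n ∣ expand F (q ^ (d + 1)) φ - C κ * (X ^ (w * sg q d) * Wf) := by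
      have e2 : expand F (q ^ (d + 1)) φ - C κ * (X ^ (w * sg q d) * Wf) =
          expand F (q ^ (d + 1)) φ + C c₀ * (C ((-1) ^ (w * d)) * (X ^ (w * sg q d) * Wf)) := by
        rw [hκ, map_neg, map_mul]
        ring
      rw [e2]
      exact hdvd
    have e2 : (1 - X) ^ n ∣ (expand F (q ^ (d + 1)) φ) ^ (q - 1) -
        (C κ * (X ^ (w * sg q d) * Wf)) ^ (q - 1) := e1.trans (sub_dvd_pow_sub_pow _ _ _)
    have hsg : (q - 1) * sg q d + q = q ^ (d + 1) := sg_mul hq1 d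
    have e3 : (C κ * (X ^ (w * sg q d) * Wf)) ^ (q - 1) =
        X ^ (w * ((q - 1) * sg q d)) * Wf ^ (q - 1) := by
      rw [mul_pow, mul_pow, ← C_pow, hconst κ hκ0, C_1, one_mul, ← pow_mul]
      congr 2
      ring
    have e4 : (1 - X : F[X]) ^ n ∣ X ^ (w * ((q - 1) * sg q d)) * Wf ^ (q - 1) - X ^ (w * q ^ (d + 1)) := by
      have e5 := (pow_dvd_pow (1 - X : F[X]) (show n ≤ w + 1 by omega)).trans
        (form_pow (F := F) h hq hw1)
      have e6 : X ^ (w * ((q - 1) * sg q d)) * Wf ^ (q - 1) - X ^ (w * q ^ (d + 1)) =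
          X ^ (w * ((q - 1) * sg q d)) * (-(X ^ (q * w) - Wf ^ (q - 1))) := by
        rw [← hsg, mul_add, pow_add, mul_comm w q]
        ring
      rw [e6]
      exact ((dvd_neg).2 e5).mul_left _
    have hφp : (expand F (q ^ (d + 1)) φ) ^ (q - 1) - X ^ (w * q ^ (d + 1)) =
        expand F (q ^ (d + 1)) (φ ^ (q - 1) - X ^ w) := by
      rw [map_sub, map_pow, map_pow, expand_X, ← pow_mul, mul_comm w]
    have e7 : (1 - X : F[X]) ^ n ∣ expand F (q ^ (d + 1)) (φ ^ (q - 1) - X ^ w) := by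
      rw [← hφp]
      have e8 := dvd_add e2 (e3 ▸ e4 : (1 - X : F[X]) ^ n ∣ (C κ * (X ^ (w * sg q d) * Wf)) ^ (q - 1) -
        X ^ (w * q ^ (d + 1)))
      rwa [sub_add_sub_cancel] at e8
    have hndvd : ¬ (q - 1) ∣ w := by
      intro h1
      have h2 : (q - 1) ∣ s.sum := ⟨_, hgd.symm⟩
      rw [hw] at h1
      exact ho.hd ((Nat.dvd_add_left h2).1 h1)
    have hu : φ ^ (q - 1) - X ^ w ≠ 0 := by
      intro h0
      have h1 := congrArg natDegree (sub_eq_zero.1 h0)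
      rw [natDegree_pow, natDegree_X_pow] at h1
      exact hndvd ⟨_, h1.symm⟩
    have hu2 : G ^ (q - 1) - X ^ a ≠ 0 := by
      intro h0
      have h1 := congrArg natDegree (sub_eq_zero.1 h0)
      rw [natDegree_pow, natDegree_X_pow] at h1
      omega
    have hexp : expand F (q ^ (d + 1)) (φ ^ (q - 1) - X ^ w) ≠ 0 := by
      rwa [Ne, expand_eq_zero (pow_pos h.pos _)]
    have e9 := oc_le hexp e7
    rw [oc_root h] at e9
    have e10 : X ^ ((q - 1) * a) * (φ ^ (q - 1) - X ^ w) =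
        X ^ s.sum * expand F q (G ^ (q - 1) - X ^ a) := by
      have e11 : (X ^ a * φ) ^ (q - 1) = X ^ s.sum * expand F q (G ^ (q - 1)) := by
        rw [hGe, mul_pow, mul_pow, ← C_pow, hconst c₁ hc₁, C_1, one_mul, ← pow_mul,
          mul_comm g.natDegree, hgd, map_pow]
      rw [mul_sub, map_sub, mul_sub, ← e11, mul_pow, ← pow_mul, mul_comm a (q - 1)]
      congr 1
      rw [map_pow, expand_X, ← pow_mul, ← pow_add, ← pow_add]
      congr 1
      rw [hw]
      obtain ⟨r, rfl⟩ : ∃ r, q = r + 1 := ⟨q - 1, by omega⟩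
      rw [Nat.add_sub_cancel]
      ring
    have e12 : (φ ^ (q - 1) - X ^ w).rootMultiplicity 1 =
        q * (G ^ (q - 1) - X ^ a).rootMultiplicity 1 := by
      have e13 : expand F q (G ^ (q - 1) - X ^ a) ≠ 0 := by
        rwa [Ne, expand_eq_zero h.pos]
      have e14 := oc_root h (G ^ (q - 1) - X ^ a) 1
      rw [pow_one] at e14
      rw [← oc_X hu ((q - 1) * a), e10, oc_X e13, e14]
    rw [e12] at e9
    calc n ≤ _ := e9
      _ = _ := by ring

end Pool.Agent.ZQ
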