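import Pool.Agent.Work.MP_43901b_nt.Defs

/-!
# OddD: definitions for the odd case (`q - 1` does not divide the first entry `a`)
-/

namespace Pool.Agent.ZQ

open Polynomial Finset

variable {F : Type*} [Field F]

/-- The odd case: `s` is a telescoping tuple with polynomial `g` and invariants `B`, `K`, and
`f(T^q) = (θ-T)^w f(T) + P_a(T) (θ-T)^(w_s) g(T) - c P_w(T)`, `w = a + w_s`, `c ≠ 0`. -/
structure OddEq (p q a : ℕ) (s : List ℕ) (f g : (LaurentSeries F)[X]) (c : LaurentSeries F)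
    (B K : ℕ) : Prop where
  ha : 1 ≤ a
  hd : ¬ (q - 1) ∣ a
  inv : Inv p q s g B K
  hc : c ≠ 0
  eq : expand _ q f = (C th - X) ^ (a + s.sum) * f + Pp q th a * ((C th - X) ^ s.sum * g) -
    C c * Pp q th (a + s.sum)

/-- `U_1 = P_w(θ)`, `U_(i+1) = (θ - T_i)^w U_i + P_w(T_i)` -/
noncomputable def Ut (q w : ℕ) : ℕ → LaurentSeries F
  | 0 => 0
  | i + 1 => (th - th ^ q ^ i) ^ w * Ut q w i + (Pp q th w).eval (th ^ q ^ i)

/-- `Σ_1 = P_w(X)`, `Σ_(i+1) = (θ - X^(q^i))^w Σ_i + P_w(X^(q^i))` -/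
noncomputable def Sg (q w : ℕ) : ℕ → (LaurentSeries F)[X]
  | 0 => 0
  | i + 1 => (C th - X ^ q ^ i) ^ w * Sg q w i + expand _ (q ^ i) (Pp q th w)

end Pool.Agent.ZQ
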