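import Pool.Agent.Work.MP_43901b_nt.OddT

/-!
# OddL (M): the odd case at level `d = s.length ≥ 1`

`m` = exact height of `f` at level `d`, `φ = La d m f`; `δ`, `c₀` for `c`.  `w = a + s.sum`.
`V = (C th - X)^w f`: height `w q^d + m`, form `(-X)^w φ`.
`expand f`: height `≤ m + natDegree f (q-1) q^d < w q^d + m` (`Nle_succ`, `odd_deg`).
`C c P_w`: height `≤ δ + (w-1) σ_d` (`Pp_levelj`) `< δ + w σ_d = δ + w σ_(d-1) + w q^d ≤ m + w q^d`
(`f_height`).
So at the height `w q^d + m` and above only `V` and `P_a V_s` have nonzero forms: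
`P_a V_s` has the exact height `m_P + (s.sum q^d + m_s)` with form `P_d (-X)^(s.sum) C c_s X^(natDegree g)`
(`hI.mono d`, `exists_height` for `P_a`), hence the heights agree and
`(-X)^w φ = - P_d (-X)^(s.sum) C c_s X^(natDegree g)`; cancel `(-X)^(s.sum)`:
`X^a φ = C c₁ X^(natDegree g) P_d`, `c₁ = -(-1)^a c_s ≠ 0`.
`P_a = expand q R`, `(q-1) natDegree R ≤ a-1` (`Pp_expand`), `P_d = La d m_P (expand q R) =
expand q (La (d+1) m_P R)` (`La_expand`): `G = La (d+1) m_P R`, `natDegree G ≤ natDegree R`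
(`La_natDegree`).
-/

namespace Pool.Agent.ZQ

open Polynomial Finset

variable {F : Type*} [Field F] {p q : ℕ} [CharP F p] {a : ℕ} {s : List ℕ}
  {f g : (LaurentSeries F)[X]} {c : LaurentSeries F} {B K : ℕ}

theorem odd_leveld (h : IsQ p q) (ho : OddEq p q a s f g c B K) (hs : 1 ≤ s.length) {m : ℤ}
    (hm : Nle q s.length m f) (hφ : La q s.length m f ≠ 0) :
    ∃ (G : F[X]) (c₁ : F), c₁ ≠ 0 ∧ G ≠ 0 ∧ (q - 1) * G.natDegree ≤ a - 1 ∧
      X ^ a * La q s.length m f = C c₁ * (X ^ g.natDegree * expand F q G) := by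
  have hq := h.two_le
  have hI := ho.inv
  have ha := ho.ha
  have hdeg := odd_deg h ho
  obtain ⟨⟨δ, c₀, hδ0, hc₀, hδ⟩, -, -⟩ := odd_level0 h ho
  have hheight := f_height h ho hs hc₀ (hδ q s.length) hm
  obtain ⟨ms, cs, hcs, hms, hLs⟩ := hI.mono s.length le_rfl
  obtain ⟨mP, hmP, hP⟩ := exists_height q s.length (Pp_ne h (th : LaurentSeries F) a)
  have heq := ho.eq
  set w := a + s.sum with hw
  have hw1 : 1 ≤ w := by omega
  set d := s.length with hd
  have hQ0 : (0 : ℤ) < (q : ℤ) ^ d := by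
    have h5 : 0 < q ^ d := Nat.pow_pos (by omega)
    exact_mod_cast h5
  have hths : Nle q d ((q : ℤ) ^ d) (C th - X : (LaurentSeries F)[X]) := Nle_ths (by omega) d
  have hLths : La q d ((q : ℤ) ^ d) (C th - X : (LaurentSeries F)[X]) = -X := La_ths hq hs
  -- the term `V`
  have hV : Nle q d ((w : ℤ) * (q : ℤ) ^ d + m) ((C th - X) ^ w * f) := (hths.pow w).mul hm
  have hLV : La q d ((w : ℤ) * (q : ℤ) ^ d + m) ((C th - X) ^ w * f) =
      (-X) ^ w * La q d m f := by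
    rw [La_mul (hths.pow w) hm, La_pow hths, hLths]
  have hLV0 : La q d ((w : ℤ) * (q : ℤ) ^ d + m) ((C th - X) ^ w * f) ≠ 0 := by
    rw [hLV]
    exact mul_ne_zero (pow_ne_zero _ (neg_ne_zero.2 X_ne_zero)) hφ
  -- the term `P_a V_s`
  have hVs : Nle q d ((s.sum : ℤ) * (q : ℤ) ^ d + ms) ((C th - X) ^ s.sum * g) :=
    (hths.pow s.sum).mul hms
  have hLVs : La q d ((s.sum : ℤ) * (q : ℤ) ^ d + ms) ((C th - X) ^ s.sum * g) =
      (-X) ^ s.sum * (C cs * X ^ g.natDegree) := by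
    rw [La_mul (hths.pow s.sum) hms, La_pow hths, hLths, hLs]
  have hPV : Nle q d (mP + ((s.sum : ℤ) * (q : ℤ) ^ d + ms))
      (Pp q th a * ((C th - X) ^ s.sum * g)) := hmP.mul hVs
  have hLPV : La q d (mP + ((s.sum : ℤ) * (q : ℤ) ^ d + ms))
      (Pp q th a * ((C th - X) ^ s.sum * g)) =
      La q d mP (Pp q th a) * ((-X) ^ s.sum * (C cs * X ^ g.natDegree)) := by
    rw [La_mul hmP hVs, hLVs]
  have hLPV0 : La q d (mP + ((s.sum : ℤ) * (q : ℤ) ^ d + ms))
      (Pp q th a * ((C th - X) ^ s.sum * g)) ≠ 0 := by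
    rw [hLPV]
    exact mul_ne_zero hP (mul_ne_zero (pow_ne_zero _ (neg_ne_zero.2 X_ne_zero))
      (mul_ne_zero (C_ne_zero.2 hcs) (pow_ne_zero _ X_ne_zero)))
  -- the term `expand f`
  have hE : Nle q d ((w : ℤ) * (q : ℤ) ^ d + m - 1) (expand _ q f) := by
    rw [Nle_expand (by omega)]
    refine (Nle_succ hq hm le_rfl).mono ?_
    have h1 : ((q : ℤ) - 1) * (f.natDegree : ℤ) + 1 ≤ w := by
      have h2 : (((q - 1) * f.natDegree : ℕ) : ℤ) < (w : ℤ) := by exact_mod_cast hdeg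
      rw [Nat.cast_mul, Nat.cast_sub (by omega), Nat.cast_one] at h2
      omega
    nlinarith
  -- the term `C c * P_w`
  have hCP : Nle q d ((w : ℤ) * (q : ℤ) ^ d + m - 1) (C c * Pp q th w) := by
    refine ((hδ q d).1.mul (Pp_levelj h d hw1)).mono ?_
    have hσ : (sg q d : ℤ) = sg q (d - 1) + (q : ℤ) ^ d := by
      have h1 := sg_succ q (d - 1)
      rw [Nat.sub_add_cancel hs] at h1
      rw [h1]
      push_cast
      ring
    have hσ0 : (0 : ℤ) ≤ sg q (d - 1) := Int.natCast_nonneg _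
    rw [hσ]
    nlinarith
  have hsum : ∀ M : ℤ, La q d M (expand _ q f) = La q d M ((C th - X) ^ w * f) +
      La q d M (Pp q th a * ((C th - X) ^ s.sum * g)) - La q d M (C c * Pp q th w) := by
    intro M
    rw [heq, La_sub, La_add]
  have e1 := hsum ((w : ℤ) * (q : ℤ) ^ d + m)
  rw [La_of_lt hE (by omega), La_of_lt hCP (by omega), sub_zero] at e1
  have e2 : La q d ((w : ℤ) * (q : ℤ) ^ d + m) ((C th - X) ^ w * f) =
      - La q d ((w : ℤ) * (q : ℤ) ^ d + m) (Pp q th a * ((C th - X) ^ s.sum * g)) :=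
    eq_neg_of_add_eq_zero_left e1.symm
  have h1 : (w : ℤ) * (q : ℤ) ^ d + m ≤ mP + ((s.sum : ℤ) * (q : ℤ) ^ d + ms) := by
    refine le_of_La hPV ?_
    intro h2
    rw [h2, neg_zero] at e2
    exact hLV0 e2
  have h2 : mP + ((s.sum : ℤ) * (q : ℤ) ^ d + ms) ≤ (w : ℤ) * (q : ℤ) ^ d + m := by
    by_contra hcon
    push Not at hcon
    have e3 := hsum (mP + ((s.sum : ℤ) * (q : ℤ) ^ d + ms))
    rw [La_of_lt hE (by omega), La_of_lt hCP (by omega), La_of_lt hV hcon, sub_zero,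
      zero_add] at e3
    exact hLPV0 e3.symm
  rw [hLV, le_antisymm h1 h2, hLPV] at e2
  -- cancel `(-X)^(s.sum)`
  have e3 : (-X : F[X]) ^ s.sum * ((-X) ^ a * La q d m f) =
      (-X) ^ s.sum * (-(La q d mP (Pp q th a) * (C cs * X ^ g.natDegree))) := by
    rw [← mul_assoc, ← pow_add, Nat.add_comm s.sum a, ← hw, e2]
    ring
  have e4 := mul_left_cancel₀ (pow_ne_zero _ (neg_ne_zero.2 X_ne_zero)) e3
  -- the polynomial `G`
  obtain ⟨R, hR, hRd⟩ := Pp_expand h (th : LaurentSeries F) a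
  have hG : La q d mP (Pp q (th : LaurentSeries F) a) = expand F q (La q (d + 1) mP R) := by
    rw [hR, La_expand (by omega)]
  refine ⟨La q (d + 1) mP R, -((-1) ^ a * cs), ?_, ?_, ?_, ?_⟩
  · exact neg_ne_zero.2 (mul_ne_zero (pow_ne_zero _ (neg_ne_zero.2 one_ne_zero)) hcs)
  · intro h3
    rw [h3, map_zero] at hG
    exact hP hG
  · exact (Nat.mul_le_mul_left _ (La_natDegree _ _ _ _)).trans hRd
  · rw [← hG]
    have e5 : (X : F[X]) ^ a = (-1) ^ a * (-X) ^ a := by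
      rw [← mul_pow]
      congr 1
      ring
    rw [e5, mul_assoc, e4, C_neg, C_mul, C_pow, C_neg, C_1]
    ring

end Pool.Agent.ZQ
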