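import Pool.Agent.Work.MP_43901b_nt.Odd0

/-!
# OddT (M): the values of `f` at `T_1, ..., T_d`, `d = s.length`

`f_eval`: `f(T_(i)) = - c U_i` for `1 ≤ i ≤ d`.  Induction on `i`: evaluate the equation at `T_i = th^(q^i)`
(`expand_eval`): `f(T_(i+1)) = (θ-T_i)^w f(T_i) + P_a(T_i) (θ-T_i)^(s.sum) g(T_i) - c P_w(T_i)`.
`i = 0`: `T_0 = th`, `w ≥ 1`, `s.sum ≥ 1`: `f(T_1) = - c P_w(th) = -c U_1` (`U_1 = 0 + P_w(th)`).
`1 ≤ i < d`: `g(T_i) = 0` (`hI.ord i`: the multiplicity is positive).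

`Ut_coeff`: for `i ≥ 0`: `(U_(i+1)).coeff n = 0` for `n < -(w σ_i)` and `≠ 0` for `n = -(w σ_i)`
(`σ_i = sg q i`).  Induction: `i = 0`: `U_1 = P_w(th) = 1` (`Pp_eval_self`).  Step: `(θ-T_i)^w`, `i ≥ 1`, has
the order `-w q^i` with leading coefficient `(-1)^w` (`coeff_mul_low`; or `coeff_eval`-free:
`th - th^(q^i) = single (-1) 1 - single (-q^i) 1`), so the first term has order `-w (q^i + σ_(i-1)) =
-w σ_i`; `P_w(T_i)` vanishes below `-(w-1) σ_i` (`Pp_levelj`, `coeff_eval`) and `(w-1) σ_i < w σ_i`.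

`f_height`: `f(T_d) = -c U_d`, `d = (d-1) + 1`; `c` has its lowest nonzero coefficient at `-δ` (`Nle_C`,
`La_C`), `U_d` at `-(w σ_(d-1))`, so (`coeff_mul_low`) `f(T_d)` has a nonzero coefficient at
`-δ - w σ_(d-1)`; by `coeff_eval` it is `≥ -m`.
-/

namespace Pool.Agent.ZQ

open Polynomial Finset

variable {F : Type*} [Field F] {p q : ℕ} [CharP F p] {a : ℕ} {s : List ℕ}
  {f g : (LaurentSeries F)[X]} {c : LaurentSeries F} {B K : ℕ}

private theorem oddT_low_pow {x : LaurentSeries F} {b : ℤ} (hx : ∀ n < b, x.coeff n = 0) (w : ℕ) :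
    (∀ n < (w : ℤ) * b, (x ^ w).coeff n = 0) ∧ (x ^ w).coeff ((w : ℤ) * b) = (x.coeff b) ^ w := by
  induction w with
  | zero =>
    rw [Nat.cast_zero, zero_mul, pow_zero, pow_zero]
    refine ⟨fun n hn => ?_, ?_⟩
    · rw [HahnSeries.coeff_one, if_neg (by omega)]
    · rw [HahnSeries.coeff_one, if_pos rfl]
  | succ w ih =>
    have h1 := coeff_mul_low ih.1 hx
    have h2 : ((w + 1 : ℕ) : ℤ) * b = (w : ℤ) * b + b := by push_cast; ring
    rw [pow_succ x, pow_succ (x.coeff b), h2]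
    exact ⟨h1.1, by rw [h1.2, ih.2]⟩

private theorem oddT_ths {q : ℕ} (hq : 2 ≤ q) {i : ℕ} (hi : 1 ≤ i) :
    (∀ n < -((q : ℤ) ^ i), (th - th ^ q ^ i : LaurentSeries F).coeff n = 0) ∧
      (th - th ^ q ^ i : LaurentSeries F).coeff (-((q : ℤ) ^ i)) = -1 := by
  have h1 : (1 : ℤ) < (q : ℤ) ^ i := by
    have h2 : 1 < q ^ i := Nat.one_lt_pow (by omega) (by omega)
    exact_mod_cast h2
  have h0 : (th : LaurentSeries F) - th ^ q ^ i =
      HahnSeries.single (-1 : ℤ) (1 : F) - HahnSeries.single (-((q : ℤ) ^ i)) (1 : F) := by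
    rw [th_pow, Nat.cast_pow]
    rfl
  rw [h0]
  refine ⟨fun n hn => ?_, ?_⟩
  · rw [HahnSeries.coeff_sub, HahnSeries.coeff_single_of_ne (by omega),
      HahnSeries.coeff_single_of_ne (by omega), sub_zero]
  · rw [HahnSeries.coeff_sub, HahnSeries.coeff_single_of_ne (by omega),
      HahnSeries.coeff_single_same, zero_sub]

theorem Ut_coeff (h : IsQ p q) {w : ℕ} (hw : 1 ≤ w) (i : ℕ) :
    (∀ n : ℤ, n < -((w : ℤ) * sg q i) → (Ut q w (i + 1) : LaurentSeries F).coeff n = 0) ∧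
      (Ut q w (i + 1) : LaurentSeries F).coeff (-((w : ℤ) * sg q i)) ≠ 0 := by
  induction i with
  | zero =>
    have h1 : (Ut q w (0 + 1) : LaurentSeries F) = 1 := by
      rw [Ut, Ut, mul_zero, zero_add, pow_zero, pow_one, Pp_eval_self h]
    rw [h1, sg_zero, Nat.cast_zero, mul_zero, neg_zero]
    refine ⟨fun n hn => ?_, ?_⟩
    · rw [HahnSeries.coeff_one, if_neg (by omega)]
    · rw [HahnSeries.coeff_one, if_pos rfl]
      exact one_ne_zero
  | succ i ih =>
    have hq := h.two_le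
    have h1 := oddT_ths (F := F) hq (i := i + 1) (by omega)
    have h2 := oddT_low_pow h1.1 w
    rw [h1.2] at h2
    have h3 := coeff_mul_low h2.1 ih.1
    have h4 := coeff_eval (Pp_levelj (F := F) h (i + 1) hw)
    have hσ : (sg q (i + 1) : ℤ) = sg q i + (q : ℤ) ^ (i + 1) := by
      rw [sg_succ]
      push_cast
      ring
    have hσ0 : (0 : ℤ) ≤ sg q i := Int.natCast_nonneg _
    have hq0 : (0 : ℤ) < (q : ℤ) ^ (i + 1) := by
      have h5 : 0 < q ^ (i + 1) := Nat.pow_pos (by omega)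
      exact_mod_cast h5
    have e1 : (w : ℤ) * -((q : ℤ) ^ (i + 1)) + -((w : ℤ) * sg q i) =
        -((w : ℤ) * sg q (i + 1)) := by
      rw [hσ]
      ring
    rw [e1] at h3
    have e2 : -((w : ℤ) * sg q (i + 1)) < -(((w : ℤ) - 1) * sg q (i + 1)) := by
      rw [hσ]
      nlinarith
    have e3 : (Ut q w (i + 1 + 1) : LaurentSeries F) =
        (th - th ^ q ^ (i + 1)) ^ w * Ut q w (i + 1) + (Pp q th w).eval (th ^ q ^ (i + 1)) := rfl
    rw [e3]
    refine ⟨fun n hn => ?_, ?_⟩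
    · rw [HahnSeries.coeff_add, h3.1 n hn, h4.1 n (hn.trans e2), add_zero]
    · rw [HahnSeries.coeff_add, h3.2, h2.2, h4.1 _ e2, add_zero]
      exact mul_ne_zero (pow_ne_zero _ (neg_ne_zero.2 one_ne_zero)) ih.2

theorem f_eval (h : IsQ p q) (ho : OddEq p q a s f g c B K) {i : ℕ} (hi : 1 ≤ i)
    (hi' : i ≤ s.length) : f.eval (th ^ q ^ i) = - (c * Ut q (a + s.sum) i) := by
  have hq := h.two_le
  have hs := inv_sum_pos hq ho.inv
  have ha := ho.ha
  have step : ∀ i : ℕ, f.eval (th ^ q ^ (i + 1)) = (th - th ^ q ^ i) ^ (a + s.sum) *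
      f.eval (th ^ q ^ i) + (Pp q th a).eval (th ^ q ^ i) * ((th - th ^ q ^ i) ^ s.sum *
      g.eval (th ^ q ^ i)) - c * (Pp q th (a + s.sum)).eval (th ^ q ^ i) := by
    intro i
    have e := congrArg (Polynomial.eval (th ^ q ^ i)) ho.eq
    rw [expand_eval, ← pow_mul, ← pow_succ] at e
    rw [e]
    simp only [eval_sub, eval_add, eval_mul, eval_pow, eval_C, eval_X]
  induction i, hi using Nat.le_induction with
  | base =>
    have e := step 0
    rw [zero_add] at e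
    rw [e, Ut, Ut, pow_zero, pow_one, sub_self, zero_pow (by omega), zero_pow (by omega)]
    ring
  | succ i hi ih =>
    have hg : g.eval (th ^ q ^ i) = 0 := by
      have h1 := ho.inv.ord i hi (by omega)
      have h2 : 0 < g.rootMultiplicity (th ^ q ^ i) := by
        rcases Nat.eq_zero_or_pos (g.rootMultiplicity (th ^ q ^ i)) with h3 | h3
        · rw [h3, mul_zero] at h1
          omega
        · exact h3
      exact (rootMultiplicity_pos'.1 h2).2
    rw [step i, ih (by omega), hg, Ut]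
    ring

/-- the height of `f` at level `d = s.length` is at least `δ + w σ_(d-1)`, `δ` the height of `c` -/
theorem f_height (h : IsQ p q) (ho : OddEq p q a s f g c B K) (hs : 1 ≤ s.length) {δ : ℤ} {c₀ : F}
    (hc₀ : c₀ ≠ 0) (hδ : Nle q s.length δ (C c) ∧ La q s.length δ (C c) = C c₀) {m : ℤ}
    (hm : Nle q s.length m f) : δ + (a + s.sum : ℕ) * (sg q (s.length - 1) : ℤ) ≤ m := by
  have ha := ho.ha
  have h1 := Ut_coeff (F := F) h (w := a + s.sum) (by omega) (s.length - 1)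
  rw [Nat.sub_add_cancel hs] at h1
  have h2 := Nle_C.1 hδ.1
  have h3 : c.coeff (-δ) = c₀ := by
    have h4 := hδ.2
    rw [La_C] at h4
    exact C_injective h4
  have h4 := (coeff_mul_low h2 h1.1).2
  rw [h3] at h4
  by_contra hcon
  push Not at hcon
  have h5 := (coeff_eval hm).1 (-δ + -(((a + s.sum : ℕ) : ℤ) * (sg q (s.length - 1) : ℤ)))
    (by omega)
  rw [f_eval h ho hs le_rfl, HahnSeries.coeff_neg, h4, neg_eq_zero] at h5
  exact mul_ne_zero hc₀ h1.2 h5

end Pool.Agent.ZQ
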