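import Pool.Agent.Work.MP_43901b_nt.PpB

/-!
# PowS (M-L): `x_d^a P_a(T_d)` is the power sum over the monic polynomials of degree `d`

`F` a finite field with `q` elements, `ψ : F[X] → K` an injective ring homomorphism, `θ = ψ X`.
(Model: helper29's `MP_b19acb_nt/PowS.lean`, which is the case of two elements.)

`mon F d`: the monic polynomials of degree `d`, `q^d` of them (e.g. the image of
`Polynomial.degreeLT`/functions `Fin d → F` under `a ↦ X^d + Σ a_i X^i`).

Put `e_{d,i} = c_i(T_d) x_d^(q^i)` and `E_d(z) = Σ_{i≤d} e_{d,i} z^(q^i)` (`cc_eval_T`: `e_{d,i} = 0` for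
`i > d`).  From `c_i(T_d) = ∏_{l=1}^{i} (θ^(q^i) - θ^(q^(d+l)))/D_i`, `D_(i+1) = (θ^(q^(i+1)) - θ) D_i^q`,
`ℓ_(d+1) = ℓ_d (θ - T_(d+1))`, `(x-y)^(q^i) = x^(q^i) - y^(q^i)`:
(i)  `(θ^(q^(i+1)) - θ) e_{d+1,i+1} = e_{d,i}^q`;
(ii) `(T_(d+1) - θ) e_{d+1,0} = -e_{d,0}`, and `e_{d,i+1} = (θ^(q^(i+1)) - T_(d+1)) e_{d+1,i+1}`, so
`(T_(d+1) - θ) e_{d+1,i+1} = e_{d,i}^q - e_{d,i+1}`.
Hence for all `z ∈ K`: (I) `E_(d+1)(θ z) = θ E_(d+1)(z) + E_d(z)^q`,
(II) `(T_(d+1) - θ) E_(d+1)(z) = E_d(z)^q - E_d(z)`.  `E_d` is additive, and `E_d(c z) = c E_d(z)` for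
`c ∈ ψ(F)` (`c^q = c`).
Claim: `E_d(ψ m) = 0` for `deg m < d` and `= ψ(leading coefficient)` for `deg m = d`.  Induction on `d`:
`d = 0`: `E_0(z) = z`.  Step: (II) and `λ^q = λ`: `E_(d+1)(ψ m) = 0` for `deg m ≤ d` (`T_(d+1) ≠ θ`).  For
`deg m = d+1` write `m = X m' + c`: `E_(d+1)(ψ m) = E_(d+1)(θ ψ m') + c E_(d+1)(1) =
θ E_(d+1)(ψ m') + E_d(ψ m')^q = λ^q = λ`.
So `P(z) = 1 - E_d(z)`, a polynomial of degree `≤ q^d` with `P(0) = 1`, has the `q^d` distinct nonzero
zeros `ψ n`, `n` monic of degree `d`: `P = ∏_n (1 - (ψ n)⁻¹ z)`.  Its derivative is `-e_{d,0} = -x_d`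
(`q^i = 0` in `K` for `i ≥ 1`; `c_0 = 1`), and also `-Σ_n (ψ n)⁻¹ ∏_{m≠n} (1 - (ψ m)⁻¹ z)`.  So in power
series `P * Σ_n (ψ n)⁻¹ mk (fun j => (ψ n)⁻¹^j) = x_d`, and `P * mk (gg q (e_{d,·})) = 1` (`gg_inv`, as
`P = 1 - ser q (e_{d,·})`).  Comparing coefficients of `z^(k-1)`:
`Σ_n (ψ n)^(-k) = x_d gg q (e_{d,·}) (k-1)`, and `gg q (e_{d,·}) (k-1) = x_d^(k-1) (P_k)(T_d)` (`gg_scale`
with `a = x_d` and `gg_map` for `eval T_d`).
-/

namespace Pool.Agent.ZQ

open Polynomial Finset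

variable {p q : ℕ} {F : Type*} [Field F] [Fintype F] {K : Type*} [Field K]

/-- the monic polynomials of degree `d` -/
noncomputable def mon (F : Type*) [Field F] [Fintype F] (d : ℕ) : Finset F[X] := by
  classical
  exact (univ : Finset (Fin d → F)).image fun a => X ^ d + ∑ i : Fin d, C (a i) * X ^ (i : ℕ)

theorem mem_mon {d : ℕ} {n : F[X]} : n ∈ mon F d ↔ n.Monic ∧ n.natDegree = d := by
  classical
  unfold mon
  rw [Finset.mem_image]
  constructor
  · rintro ⟨c, -, rfl⟩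
    have h1 : (∑ i : Fin d, C (c i) * X ^ (i : ℕ) : F[X]).degree < d :=
      degree_sum_fin_lt c
    exact ⟨monic_X_pow_add h1, by
      rw [natDegree_add_eq_left_of_degree_lt (by rw [degree_X_pow]; exact h1), natDegree_X_pow]⟩
  · rintro ⟨h1, h2⟩
    refine ⟨fun i => n.coeff i, Finset.mem_univ _, ?_⟩
    rw [Fin.sum_univ_eq_sum_range (fun i => C (n.coeff i) * X ^ i) d]
    conv_rhs => rw [h1.as_sum, h2]

theorem card_mon (d : ℕ) : (mon F d).card = Fintype.card F ^ d := by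
  classical
  unfold mon
  rw [Finset.card_image_of_injective, Finset.card_univ, Fintype.card_fun, Fintype.card_fin]
  intro c c' h
  funext j
  have h1 := congrArg (fun p : F[X] => p.coeff (j : ℕ)) h
  have hj := j.2
  simp only [coeff_add, coeff_X_pow, finsetSum_coeff, coeff_C_mul] at h1
  have key : ∀ c : Fin d → F, ∑ x : Fin d, c x * (if (j : ℕ) = (x : ℕ) then 1 else 0) = c j := by
    intro c
    rw [Finset.sum_eq_single j]
    · simp
    · intro b _ hb
      rw [if_neg (fun h => hb (Fin.ext h.symm)), mul_zero]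
    · intro h; exact absurd (Finset.mem_univ _) h
  rw [key, key] at h1
  exact add_left_cancel h1

theorem gen_of_injective (hF : Fintype.card F = q) (ψ : F[X] →+* K)
    (hψ : Function.Injective ψ) : Gen q (ψ X) := by
  intro a b hab
  simp only [← map_pow] at hab
  have h1 : (X : F[X]) ^ q ^ a = X ^ q ^ b := hψ hab
  have h2 := congrArg natDegree h1
  rw [natDegree_X_pow, natDegree_X_pow] at h2
  have hq : 2 ≤ q := by
    rw [← hF]
    exact Fintype.one_lt_card
  exact Nat.pow_right_injective hq h2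

/-- `e_{d,i} = c_i(T_d) x_d^(q^i)` -/
private noncomputable def ed (q : ℕ) (θ : K) (d i : ℕ) : K :=
  (cc q θ i).eval (θ ^ q ^ d) * xx q θ d ^ q ^ i

/-- `E_d(z)` -/
private noncomputable def Ed (q : ℕ) (θ : K) (d : ℕ) (z : K) : K :=
  ∑ i ∈ range (d + 1), ed q θ d i * z ^ q ^ i

private lemma xx_succ {θ : K} (hθ : Gen q θ) (d : ℕ) :
    (θ - θ ^ q ^ (d + 1)) * xx q θ (d + 1) = xx q θ d := by
  have h1 := yy_succ hθ d
  unfold yy at h1
  rw [mul_comm]
  exact h1

private lemma ed_zero (θ : K) (d : ℕ) : ed q θ d 0 = xx q θ d := by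
  unfold ed
  rw [cc_zero, eval_one, one_mul, pow_zero, pow_one]

private lemma ed_gt (θ : K) {i d : ℕ} (h : d < i) : ed q θ d i = 0 := by
  unfold ed
  rw [cc_eval_T θ h, zero_mul]

/-- (ii') -/
private lemma ed_succ' {θ : K} [CharP K p] (h : IsQ p q) (hθ : Gen q θ) (d i : ℕ) :
    (θ ^ q ^ (i + 1) - θ) * ed q θ d (i + 1) =
      (θ ^ q ^ (i + 1) - θ ^ q ^ (d + 1)) * ed q θ d i ^ q := by
  have h0 : θ ^ q ^ (i + 1) - θ ≠ 0 := sub_ne_zero.2 (hθ.ne (by omega))
  unfold ed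
  rw [cc_succ h]
  simp only [eval_mul, eval_C, eval_sub, eval_pow, eval_X]
  rw [← mul_assoc, ← mul_assoc, mul_inv_cancel₀ h0, one_mul, mul_pow, ← pow_mul, ← pow_mul,
    ← pow_succ, ← pow_succ, mul_assoc]

/-- (iii) -/
private lemma ed_down {θ : K} [CharP K p] (h : IsQ p q) (hθ : Gen q θ) (d i : ℕ) :
    (θ ^ q ^ i - θ ^ q ^ (d + 1)) * ed q θ (d + 1) i = ed q θ d i := by
  induction i with
  | zero =>
    rw [ed_zero, ed_zero, pow_zero, pow_one]
    exact xx_succ hθ d
  | succ i ih =>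
    have h0 : θ ^ q ^ (i + 1) - θ ≠ 0 := sub_ne_zero.2 (hθ.ne (by omega))
    apply mul_left_cancel₀ h0
    have h1 := ed_succ' h hθ (d + 1) i
    have h2 := ed_succ' h hθ d i
    have h3 : (θ ^ q ^ (i + 1) - θ ^ q ^ (d + 1 + 1)) * ed q θ (d + 1) i ^ q = ed q θ d i ^ q := by
      rw [← ih, mul_pow, sub_pow_q1 h, ← pow_mul, ← pow_mul, ← pow_succ, ← pow_succ]
    rw [h2, ← h3, ← h1]
    ring

/-- (i) -/
private lemma ed_one {θ : K} [CharP K p] (h : IsQ p q) (hθ : Gen q θ) (d i : ℕ) :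
    (θ ^ q ^ (i + 1) - θ) * ed q θ (d + 1) (i + 1) = ed q θ d i ^ q := by
  have h1 := ed_succ' h hθ (d + 1) i
  rw [h1, ← ed_down h hθ d i, mul_pow, sub_pow_q1 h, ← pow_mul, ← pow_mul, ← pow_succ, ← pow_succ]

private lemma Ed_I {θ : K} [CharP K p] (h : IsQ p q) (hθ : Gen q θ) (d : ℕ) (z : K) :
    Ed q θ (d + 1) (θ * z) = θ * Ed q θ (d + 1) z + Ed q θ d z ^ q := by
  have h1 : Ed q θ d z ^ q = ∑ i ∈ range (d + 1), (ed q θ d i * z ^ q ^ i) ^ q := by
    have := sum_pow_q h (range (d + 1)) (fun i => ed q θ d i * z ^ q ^ i) 1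
    rwa [pow_one] at this
  have h2 : Ed q θ (d + 1) (θ * z) - θ * Ed q θ (d + 1) z =
      ∑ i ∈ range (d + 2), (θ ^ q ^ i - θ) * ed q θ (d + 1) i * z ^ q ^ i := by
    unfold Ed
    rw [mul_sum, ← sum_sub_distrib]
    refine sum_congr rfl fun i _ => ?_
    rw [mul_pow]
    ring
  rw [sum_range_succ', pow_zero, pow_one, sub_self, zero_mul, zero_mul, add_zero] at h2
  have h3 : ∑ k ∈ range (d + 1), (θ ^ q ^ (k + 1) - θ) * ed q θ (d + 1) (k + 1) * z ^ q ^ (k + 1) =
      Ed q θ d z ^ q := by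
    rw [h1]
    refine sum_congr rfl fun i _ => ?_
    rw [ed_one h hθ, mul_pow, ← pow_mul, ← pow_succ]
  rw [h3] at h2
  linear_combination h2

private lemma Ed_II {θ : K} [CharP K p] (h : IsQ p q) (hθ : Gen q θ) (d : ℕ) (z : K) :
    (θ ^ q ^ (d + 1) - θ) * Ed q θ (d + 1) z = Ed q θ d z ^ q - Ed q θ d z := by
  have h1 : Ed q θ d z ^ q = ∑ i ∈ range (d + 1), (ed q θ d i * z ^ q ^ i) ^ q := by
    have := sum_pow_q h (range (d + 1)) (fun i => ed q θ d i * z ^ q ^ i) 1
    rwa [pow_one] at this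
  have h2 : Ed q θ d z = ∑ i ∈ range (d + 2), ed q θ d i * z ^ q ^ i := by
    rw [sum_range_succ, ed_gt θ (Nat.lt_succ_self d), zero_mul, add_zero]
    rfl
  have h3 : Ed q θ (d + 1) z = ∑ i ∈ range (d + 2), ed q θ (d + 1) i * z ^ q ^ i := rfl
  have hA : ∑ i ∈ range (d + 1), (θ ^ q ^ (d + 1) - θ) *
      (ed q θ (d + 1) (i + 1) * z ^ q ^ (i + 1)) =
      ∑ i ∈ range (d + 1), (ed q θ d i * z ^ q ^ i) ^ q -
      ∑ i ∈ range (d + 1), ed q θ d (i + 1) * z ^ q ^ (i + 1) := by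
    rw [← sum_sub_distrib]
    refine sum_congr rfl fun i _ => ?_
    have h4 := ed_one h hθ d i
    have h5 := ed_down h hθ d (i + 1)
    rw [← h5, mul_pow, ← h4, ← pow_mul, ← pow_succ]
    ring
  have h6 := xx_succ hθ d
  rw [sum_range_succ', ed_zero, pow_zero, pow_one] at h2
  rw [h3, mul_sum, sum_range_succ', hA, ← h1, ed_zero, pow_zero, pow_one]
  linear_combination h2 - z * h6

private lemma Ed_add [CharP K p] (h : IsQ p q) (θ : K) (d : ℕ) (z w : K) :
    Ed q θ d (z + w) = Ed q θ d z + Ed q θ d w := by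
  unfold Ed
  rw [← sum_add_distrib]
  refine sum_congr rfl fun i _ => ?_
  rw [add_pow_q h, mul_add]

private lemma Ed_psi [CharP K p] (h : IsQ p q) (hF : Fintype.card F = q) (ψ : F[X] →+* K)
    (hψ : Function.Injective ψ) (d : ℕ) : ∀ m : F[X], m.natDegree ≤ d →
      Ed q (ψ X) d (ψ m) = ψ (C (m.coeff d)) := by
  have hθ := gen_of_injective hF ψ hψ
  have hfr : ∀ c : F, ψ (C c) ^ q = ψ (C c) := by
    intro c
    rw [← map_pow, ← C_pow, ← hF, FiniteField.pow_card]
  induction d with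
  | zero =>
    intro m hm
    rw [Ed, sum_range_one, ed_zero, pow_zero, pow_one, xx, ell, range_zero, prod_empty, inv_one,
      one_mul, ← eq_C_of_natDegree_le_zero hm]
  | succ d ih =>
    have hlow : ∀ m : F[X], m.natDegree ≤ d → Ed q (ψ X) (d + 1) (ψ m) = 0 := by
      intro m hm
      have h1 := Ed_II h hθ d (ψ m)
      rw [ih m hm, hfr, sub_self] at h1
      exact (mul_eq_zero.1 h1).resolve_left (sub_ne_zero.2 (hθ.ne (by omega)))
    intro m hm
    have h1 : ψ m = ψ X * ψ m.divX + ψ (C (m.coeff 0)) := by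
      conv_lhs => rw [← divX_mul_X_add m]
      rw [map_add, map_mul, mul_comm]
    have h2 : m.divX.natDegree ≤ d := by
      rw [natDegree_divX_eq_natDegree_tsub_one]
      omega
    rw [h1, Ed_add h, Ed_I h hθ, hlow _ h2, ih _ h2, hfr, mul_zero, zero_add,
      hlow _ (by rw [natDegree_C]; omega), add_zero, coeff_divX]

private lemma ps_aux_coeff (hq : 2 ≤ q) (c : ℕ → K) (d : ℕ) (hc : ∀ i, d < i → c i = 0) :
    (((1 - ∑ i ∈ range (d + 1), C (c i) * X ^ q ^ i : K[X])) : PowerSeries K) = 1 - ser q c := by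
  ext n
  rw [Polynomial.coeff_coe, coeff_sub, map_sub]
  congr 1
  · rw [coeff_one, PowerSeries.coeff_one]
  · rw [finsetSum_coeff, ser, PowerSeries.coeff_mk]
    simp_rw [coeff_C_mul_X_pow]
    by_cases h : n = q ^ Nat.log q n
    · rw [if_pos h, Finset.sum_eq_single (Nat.log q n)]
      · rw [if_pos h]
      · intro b _ hb
        rw [if_neg]
        intro hn
        apply hb
        rw [hn, Nat.log_pow (by omega)]
      · intro hn
        rw [if_pos h]
        apply hc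
        rw [Finset.mem_range] at hn
        omega
    · rw [if_neg h]
      refine Finset.sum_eq_zero fun i _ => ?_
      rw [if_neg]
      intro hn
      apply h
      rw [hn, Nat.log_pow (by omega)]

private lemma geom_inv (c : K) :
    ((1 - C c * X : K[X]) : PowerSeries K) * PowerSeries.mk (fun j => c ^ j) = 1 := by
  ext n
  rw [Polynomial.coe_sub, Polynomial.coe_one, Polynomial.coe_mul, Polynomial.coe_C,
    Polynomial.coe_X, sub_mul, one_mul, map_sub, PowerSeries.coeff_mk, mul_assoc,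
    PowerSeries.coeff_C_mul, PowerSeries.coeff_one]
  rcases n with _ | n
  · rw [PowerSeries.coeff_zero_X_mul]
    simp
  · rw [PowerSeries.coeff_succ_X_mul, PowerSeries.coeff_mk, if_neg (Nat.succ_ne_zero n), pow_succ,
      mul_comm c, sub_self]

theorem ps_eq_sum [CharP K p] (h : IsQ p q) (hF : Fintype.card F = q) (ψ : F[X] →+* K)
    (hψ : Function.Injective ψ) (d : ℕ) {k : ℕ} (hk : 1 ≤ k) :
    ∑ n ∈ mon F d, ((ψ n)⁻¹) ^ k = ps q (ψ X) d k := by
  classical
  have hθ := gen_of_injective hF ψ hψ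
  set θ : K := ψ X with hθd
  have hq := h.two_le
  set c : ℕ → K := fun i => ed q θ d i with hc
  have hcgt : ∀ i, d < i → c i = 0 := fun i hi => ed_gt θ hi
  set P : K[X] := 1 - ∑ i ∈ range (d + 1), C (c i) * X ^ q ^ i with hP
  set Q : K[X] := ∏ n ∈ mon F d, (1 - C ((ψ n)⁻¹) * X) with hQ
  have hn0 : ∀ n ∈ mon F d, ψ n ≠ 0 := by
    intro n hn h
    have h1 : n = 0 := hψ (by rw [h, map_zero])
    have h2 := (mem_mon.1 hn).1
    rw [h1] at h2
    exact h2.ne_zero rfl
  have hPeval : ∀ z, P.eval z = 1 - Ed q θ d z := by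
    intro z
    rw [hP, eval_sub, eval_one, eval_finsetSum, Ed]
    congr 1
    refine Finset.sum_congr rfl fun i _ => ?_
    rw [eval_mul, eval_C, eval_pow, eval_X]
  have hPQ : P = Q := by
    have hcard : (insert (0 : K) ((mon F d).image ψ)).card = q ^ d + 1 := by
      rw [Finset.card_insert_of_notMem, Finset.card_image_of_injective _ hψ, card_mon, hF]
      intro h
      obtain ⟨n, hn, h0⟩ := Finset.mem_image.1 h
      exact hn0 n hn h0
    have hPdeg : P.natDegree ≤ q ^ d := by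
      rw [hP]
      refine (natDegree_sub_le _ _).trans (max_le (by simp) ?_)
      refine natDegree_sum_le_of_forall_le _ _ fun i hi => ?_
      refine (natDegree_C_mul_X_pow_le _ _).trans ?_
      rw [Finset.mem_range] at hi
      exact Nat.pow_le_pow_right (by omega) (by omega)
    have hQdeg : Q.natDegree ≤ q ^ d := by
      rw [hQ]
      refine (natDegree_prod_le _ _).trans ?_
      refine (Finset.sum_le_card_nsmul _ _ 1 fun n _ => ?_).trans ?_
      · refine (natDegree_sub_le _ _).trans (max_le (by simp) ?_)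
        exact (natDegree_C_mul_le _ _).trans natDegree_X_le
      · rw [card_mon, hF]; simp
    refine eq_of_degree_sub_lt_of_eval_finset_eq (insert (0 : K) ((mon F d).image ψ)) ?_ ?_
    · rw [hcard]
      refine lt_of_le_of_lt (degree_le_natDegree) ?_
      have h1 : (P - Q).natDegree ≤ q ^ d := (natDegree_sub_le _ _).trans (max_le hPdeg hQdeg)
      exact_mod_cast Nat.lt_succ_of_le h1
    · intro z hz
      rcases Finset.mem_insert.1 hz with rfl | hz
      · rw [hPeval, hQ, eval_prod]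
        have h1 : Ed q θ d 0 = 0 := by
          unfold Ed
          refine Finset.sum_eq_zero fun i _ => ?_
          rw [zero_pow (pow_ne_zero _ h.ne_zero), mul_zero]
        rw [h1, sub_zero]
        symm
        refine Finset.prod_eq_one fun n _ => ?_
        simp
      · obtain ⟨n, hn, rfl⟩ := Finset.mem_image.1 hz
        obtain ⟨h1, h2⟩ := mem_mon.1 hn
        have h3 : n.coeff d = 1 := by
          rw [← h2]
          exact h1
        rw [hPeval, Ed_psi h hF ψ hψ d n h2.le, h3, C_1, map_one, sub_self, hQ, eval_prod]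
        symm
        refine Finset.prod_eq_zero hn ?_
        rw [eval_sub, eval_one, eval_mul, eval_C, eval_X, inv_mul_cancel₀ (hn0 n hn), sub_self]
  have hder : derivative P = -C (xx q θ d) := by
    rw [hP, derivative_sub, derivative_one, zero_sub, derivative_sum]
    congr 1
    rw [Finset.sum_eq_single 0]
    · rw [hc]
      simp only
      rw [ed_zero, pow_zero, pow_one, derivative_C_mul_X]
    · intro i _ hi
      rw [derivative_C_mul_X_pow, q_cast h (by omega), mul_zero, C_0, zero_mul]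
    · intro h
      exact absurd (Finset.mem_range.2 (Nat.succ_pos d)) h
  have hderQ : derivative Q = ∑ n ∈ mon F d, (∏ m ∈ (mon F d).erase n, (1 - C ((ψ m)⁻¹) * X)) *
      (-C ((ψ n)⁻¹)) := by
    rw [hQ, derivative_prod_finset]
    refine Finset.sum_congr rfl fun n _ => ?_
    congr 1
    rw [derivative_sub, derivative_one, zero_sub, derivative_C_mul_X]
  set G : PowerSeries K := PowerSeries.mk fun n => gg q c n with hG
  have hPG : (P : PowerSeries K) * G = 1 := by
    rw [hP, ps_aux_coeff hq c d hcgt]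
    exact gg_inv c
  set Fs : PowerSeries K := ∑ n ∈ mon F d, PowerSeries.C ((ψ n)⁻¹) *
    PowerSeries.mk (fun j => ((ψ n)⁻¹) ^ j) with hFs
  have hPF : (P : PowerSeries K) * Fs = PowerSeries.C (xx q θ d) := by
    have h0 : C (xx q θ d) = ∑ n ∈ mon F d, (∏ m ∈ (mon F d).erase n, (1 - C ((ψ m)⁻¹) * X)) *
        C ((ψ n)⁻¹) := by
      have h1 : -C (xx q θ d) = -∑ n ∈ mon F d, (∏ m ∈ (mon F d).erase n,
          (1 - C ((ψ m)⁻¹) * X)) * C ((ψ n)⁻¹) := by
        rw [← hder, hPQ, hderQ, ← Finset.sum_neg_distrib]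
        refine Finset.sum_congr rfl fun n _ => ?_
        rw [mul_neg]
      exact neg_injective h1
    rw [← Polynomial.coe_C, h0, hFs, Finset.mul_sum]
    have h2 : ((∑ n ∈ mon F d, (∏ m ∈ (mon F d).erase n, (1 - C ((ψ m)⁻¹) * X)) *
        C ((ψ n)⁻¹) : K[X]) : PowerSeries K) = ∑ n ∈ mon F d,
        (((∏ m ∈ (mon F d).erase n, (1 - C ((ψ m)⁻¹) * X)) * C ((ψ n)⁻¹) : K[X]) :
          PowerSeries K) :=
      map_sum (Polynomial.coeToPowerSeries.ringHom (R := K)) _ _
    rw [h2]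
    refine Finset.sum_congr rfl fun n hn => ?_
    have h3 : P = (1 - C ((ψ n)⁻¹) * X) * ∏ m ∈ (mon F d).erase n, (1 - C ((ψ m)⁻¹) * X) := by
      rw [hPQ, hQ]
      exact (Finset.mul_prod_erase (mon F d) (fun n => 1 - C ((ψ n)⁻¹) * X) hn).symm
    rw [Polynomial.coe_mul, Polynomial.coe_C]
    conv_lhs => rw [h3, Polynomial.coe_mul]
    have h4 := geom_inv ((ψ n)⁻¹)
    calc _ = ((∏ m ∈ (mon F d).erase n, (1 - C ((ψ m)⁻¹) * X) : K[X]) : PowerSeries K) *
          PowerSeries.C ((ψ n)⁻¹) * (((1 - C ((ψ n)⁻¹) * X : K[X]) : PowerSeries K) *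
          PowerSeries.mk (fun j => ((ψ n)⁻¹) ^ j)) := by ring
      _ = _ := by rw [h4, mul_one]
  have hFG : Fs = PowerSeries.C (xx q θ d) * G := by
    calc Fs = (P : PowerSeries K) * G * Fs := by rw [hPG, one_mul]
      _ = ((P : PowerSeries K) * Fs) * G := by ring
      _ = _ := by rw [hPF]
  have h5 := congrArg (PowerSeries.coeff (k - 1)) hFG
  rw [PowerSeries.coeff_C_mul, hG, PowerSeries.coeff_mk, hFs, map_sum] at h5
  have h6 : gg q c (k - 1) = xx q θ d ^ (k - 1) * (Pp q θ k).eval (θ ^ q ^ d) := by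
    have h7 : c = fun i => xx q θ d ^ q ^ i * (evalRingHom (θ ^ q ^ d)) (cc q θ i) := by
      funext i
      rw [hc]
      simp only [ed, coe_evalRingHom]
      ring
    rw [h7, gg_scale hq, ← gg_map, Pp, coe_evalRingHom]
  unfold ps
  rw [h6, ← mul_assoc, ← pow_succ', show k - 1 + 1 = k by omega] at h5
  rw [← h5]
  refine Finset.sum_congr rfl fun n _ => ?_
  rw [PowerSeries.coeff_C_mul, PowerSeries.coeff_mk, ← pow_succ']
  congr 1
  omega

end Pool.Agent.ZQ
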