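import Pool.Agent.Work.MP_43901b_nt.LevM
import Pool.Agent.Work.MP_43901b_nt.PowS

/-!
# S1Exp (M): the expansion of `S_1(a) = Σ_{c∈F} (θ+c)^(-a)` at infinity

In `LaurentSeries F`, `x = th⁻¹ = single 1 1`.  `(th + c)⁻¹ = x (1 + c x)⁻¹`, and
`(1 + c x)^(-a) = Σ_m (-c)^m binom(a+m-1, m) x^m` (power series: `PowerSeries.invOneSubPow` rescaled by
`-c`, or induction on `a`), so the coefficient of index `a + m` of `((th + c)⁻¹)^a` is
`(-1)^m c^m binom(a+m-1, m)`.  Sum over `c ∈ F`: `Σ_c c^m = -1` for `m > 0`, `q - 1 ∣ m`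
(`FiniteField.sum_pow_lt_card_sub_one`, `FiniteField.sum_pow_units`; `0^m = 0`).

`P1_eval`: `ps_eq_sum` for `d = 1`, `ψ = aeval th` (injective: `th` has the powers `single (-n) 1`; a
polynomial of degree `n` has the coefficient `leadingCoeff` at index `-n`), `mon F 1` = the `X + C c`;
`ps q th 1 a = x_1^a P_a(th^q)`, `x_1 = (th - th^q)⁻¹`.
`P1_coeff`: `(th - th^q)^a` vanishes below the index `-q a` and has the coefficient `(-1)^a` there
(`coeff_mul_low` for powers).  But `Σ_c ((th + c)⁻¹)^a` has possibly smaller indices than `a + m` with a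
nonzero coefficient; so only the following is claimed: there is an index `n ≤ m + a - q a` with
`(P_a(th^q)).coeff n ≠ 0`.  (If all coefficients of index `≤ m + a - q a` of the product vanished, then,
as `(th - th^q)^a` is exactly of order `-q a`, all coefficients of index `≤ a + m` of the other factor
would vanish: take the order `o` of the sum, `o ≤ a + m`, and `coeff_mul_low` for `(-q a, o)`.)
-/

namespace Pool.Agent.ZQ

open Polynomial Finset

variable {F : Type*} [Field F] [Fintype F] {p q : ℕ}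

/-- the embedding `F[X] → F((1/θ))`, `X ↦ θ` -/
noncomputable def toL (F : Type*) [Field F] : F[X] →+* LaurentSeries F :=
  Polynomial.eval₂RingHom (HahnSeries.C : F →+* LaurentSeries F) th

theorem toL_X : toL F X = th := by
  rw [toL, coe_eval₂RingHom, eval₂_X]

theorem toL_coeff (P : F[X]) (n : ℕ) : (toL F P).coeff (-(n : ℤ)) = P.coeff n := by
  induction P using Polynomial.induction_on' with
  | add P Q h1 h2 => rw [map_add, HahnSeries.coeff_add, h1, h2, coeff_add]
  | monomial k a =>
    rw [toL, coe_eval₂RingHom, eval₂_monomial, th_pow, HahnSeries.C_mul_eq_smul,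
      HahnSeries.coeff_smul, coeff_monomial, smul_eq_mul]
    by_cases h : k = n
    · subst h
      rw [HahnSeries.coeff_single_same, if_pos rfl, mul_one]
    · rw [HahnSeries.coeff_single_of_ne (by omega), if_neg h, mul_zero]

theorem toL_injective : Function.Injective (toL F) := by
  intro P Q hPQ
  ext n
  rw [← toL_coeff, ← toL_coeff, hPQ]

private theorem s1_choose (a m : ℕ) (ha : 0 < a) : (a - 1 + m).choose (a - 1) = (a + m - 1).choose m := by
  have h1 : a + m - 1 = a - 1 + m := by omega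
  rw [h1, Nat.choose_symm_add]

private theorem s1_x : (th : LaurentSeries F) * HahnSeries.single (1 : ℤ) (1 : F) = 1 := by
  rw [th, HahnSeries.single_mul_single, neg_add_cancel, mul_one]
  rfl

theorem inv_coeff (c : F) (a m : ℕ) :
    (((th + HahnSeries.C c : LaurentSeries F)⁻¹) ^ a).coeff ((a : ℤ) + m) =
      (-1) ^ m * c ^ m * ((a + m - 1).choose m : F) := by
  rcases Nat.eq_zero_or_pos a with ha | ha
  · subst ha
    rw [pow_zero, HahnSeries.coeff_one]
    cases m with
    | zero => simp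
    | succ m =>
      rw [if_neg (by push_cast; omega), Nat.choose_eq_zero_of_lt (by omega), Nat.cast_zero,
        mul_zero]
  · set x : LaurentSeries F := HahnSeries.single (1 : ℤ) (1 : F) with hx
    set G : PowerSeries F := PowerSeries.rescale (-c) (PowerSeries.invOneSubPow F a).val with hG
    have h1 : G * (1 + PowerSeries.C c * PowerSeries.X) ^ a = 1 := by
      have h2 := (PowerSeries.invOneSubPow F a).val_inv
      have h3 := congrArg (PowerSeries.rescale (-c)) h2
      rw [PowerSeries.invOneSubPow_inv_eq_one_sub_pow, map_mul, map_one, map_pow, map_sub,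
        map_one, PowerSeries.rescale_X, map_neg] at h3
      rw [hG]
      convert h3 using 3
      ring
    have h4 := congrArg (HahnSeries.ofPowerSeries ℤ F) h1
    rw [map_mul, map_pow, map_add, map_mul, map_one, HahnSeries.ofPowerSeries_C,
      HahnSeries.ofPowerSeries_X] at h4
    have h5 : (th + HahnSeries.C c : LaurentSeries F) = th * (1 + HahnSeries.C c * x) := by
      rw [mul_add, mul_one, mul_left_comm, hx, s1_x, mul_one]
    have h6 : (((th + HahnSeries.C c : LaurentSeries F)⁻¹) ^ a) =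
        x ^ a * HahnSeries.ofPowerSeries ℤ F G := by
      have h7 : (th : LaurentSeries F)⁻¹ = x := by
        rw [inv_eq_iff_eq_inv, eq_comm, inv_eq_iff_eq_inv, eq_comm]
        exact inv_eq_of_mul_eq_one_right s1_x
      have h8 : ((1 + HahnSeries.C c * x : LaurentSeries F) ^ a)⁻¹ =
          HahnSeries.ofPowerSeries ℤ F G := inv_eq_of_mul_eq_one_left h4
      rw [h5, mul_inv, mul_pow, h7, inv_pow, h8]
    rw [h6, hx, HahnSeries.single_pow, one_pow, nsmul_eq_mul, mul_one,
      add_comm ((a : ℕ) : ℤ) ((m : ℕ) : ℤ)]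
    rw [HahnSeries.coeff_single_mul_add, one_mul, HahnSeries.ofPowerSeries_apply_coeff, hG,
      PowerSeries.coeff_rescale, PowerSeries.invOneSubPow_val_eq_mk_sub_one_add_choose_of_pos F a ha,
      PowerSeries.coeff_mk, s1_choose a m ha, neg_pow]

private theorem s1_mon (F : Type*) [Field F] [Fintype F] :
    ∀ f : F[X] → LaurentSeries F, ∑ n ∈ mon F 1, f n = ∑ c : F, f (X + C c) := by
  classical
  intro f
  have h1 : mon F 1 = (univ : Finset F).image fun c => X + C c := by
    ext n
    rw [mem_mon, mem_image]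
    constructor
    · rintro ⟨h1, h2⟩
      exact ⟨n.coeff 0, mem_univ _, (h1.eq_X_add_C h2).symm⟩
    · rintro ⟨c, _, rfl⟩
      exact ⟨monic_X_add_C c, natDegree_X_add_C c⟩
  rw [h1, sum_image]
  intro c _ d _ hcd
  exact C_injective (add_left_cancel hcd)

private theorem s1_xx (θ : LaurentSeries F) : xx q θ 1 = (θ - θ ^ q)⁻¹ := by
  rw [xx, ell, prod_range_one, zero_add, pow_one]

private theorem s1_ne (hq : 2 ≤ q) : (th - th ^ q : LaurentSeries F) ≠ 0 := by
  intro h0
  have h1 := (gen_th (F := F) hq).ne le_rfl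
  rw [pow_one] at h1
  exact h1 (sub_eq_zero.1 h0).symm

theorem P1_eval [CharP F p] (h : IsQ p q) (hF : Fintype.card F = q) {a : ℕ} (ha : 1 ≤ a) :
    (Pp q (th : LaurentSeries F) a).eval (th ^ q) =
      (th - th ^ q) ^ a * ∑ c : F, ((th + HahnSeries.C c : LaurentSeries F)⁻¹) ^ a := by
  have h1 := ps_eq_sum h hF (toL F) toL_injective 1 ha
  rw [s1_mon, toL_X, ps, s1_xx, pow_one] at h1
  have h2 : ∑ c : F, ((toL F (X + C c))⁻¹) ^ a =
      ∑ c : F, ((th + HahnSeries.C c : LaurentSeries F)⁻¹) ^ a := by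
    refine sum_congr rfl fun c _ => ?_
    rw [map_add, toL_X, toL, coe_eval₂RingHom, eval₂_C]
  rw [h2] at h1
  rw [h1, inv_pow, mul_inv_cancel_left₀ (pow_ne_zero a (s1_ne h.two_le))]

private theorem s1_low (hq : 2 ≤ q) (a : ℕ) :
    (∀ n : ℤ, n < -((q : ℤ) * a) → ((th - th ^ q : LaurentSeries F) ^ a).coeff n = 0) ∧
      ((th - th ^ q : LaurentSeries F) ^ a).coeff (-((q : ℤ) * a)) = (-1) ^ a := by
  have h0 : (∀ n : ℤ, n < -(q : ℤ) → ((th - th ^ q : LaurentSeries F)).coeff n = 0) ∧
      ((th - th ^ q : LaurentSeries F)).coeff (-(q : ℤ)) = -1 := by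
    constructor
    · intro n hn
      rw [HahnSeries.coeff_sub, th_pow, th, HahnSeries.coeff_single_of_ne (by omega),
        HahnSeries.coeff_single_of_ne (by omega), sub_zero]
    · rw [HahnSeries.coeff_sub, th_pow, th, HahnSeries.coeff_single_of_ne (by omega),
        HahnSeries.coeff_single_same, zero_sub]
  induction a with
  | zero =>
    constructor
    · intro n hn
      rw [pow_zero, HahnSeries.coeff_one, if_neg]
      push_cast at hn
      omega
    · rw [pow_zero, pow_zero]
      simp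
  | succ a ih =>
    obtain ⟨h1, h2⟩ := coeff_mul_low (F := F) (a := -((q : ℤ) * a)) (b := -(q : ℤ)) ih.1 h0.1
    have h3 : -((q : ℤ) * ((a + 1 : ℕ) : ℤ)) = -((q : ℤ) * a) + -(q : ℤ) := by
      push_cast
      ring
    rw [h3, pow_succ]
    refine ⟨h1, ?_⟩
    rw [h2, ih.2, h0.2, pow_succ]

private theorem s1_sum (hF : Fintype.card F = q) {m : ℕ} (hm : 0 < m) (hd : (q - 1) ∣ m) :
    ∑ c : F, c ^ m = -1 := by
  classical
  have h1 : ∀ c : F, c ^ m = if c = 0 then 0 else 1 := by
    intro c
    split_ifs with hc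
    · rw [hc, zero_pow hm.ne']
    · obtain ⟨k, rfl⟩ := hd
      rw [pow_mul, ← hF, FiniteField.pow_card_sub_one_eq_one c hc, one_pow]
  have h2 : ∑ c : F, (1 : F) = ∑ c : F, c ^ m + 1 := by
    rw [sum_congr rfl fun c _ => h1 c]
    have h3 : (1 : F) = ∑ c : F, if c = 0 then 1 else 0 := by
      rw [sum_ite_eq' univ (0 : F) (fun _ => (1 : F)), if_pos (mem_univ _)]
    conv_rhs => rw [h3]
    rw [← sum_add_distrib]
    refine sum_congr rfl fun c _ => ?_
    split_ifs <;> simp
  rw [sum_const, card_univ, nsmul_eq_mul, FiniteField.cast_card_eq_zero, zero_mul] at h2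
  linear_combination -h2

theorem P1_coeff [CharP F p] (h : IsQ p q) (hF : Fintype.card F = q) {a m : ℕ} (ha : 1 ≤ a)
    (hv : Valid p q a m) : ∃ n : ℤ, n ≤ (m : ℤ) + a - q * a ∧
      ((Pp q (th : LaurentSeries F) a).eval (th ^ q)).coeff n ≠ 0 := by
  obtain ⟨hm, hd, hp⟩ := hv
  set S : LaurentSeries F := ∑ c : F, ((th + HahnSeries.C c : LaurentSeries F)⁻¹) ^ a with hS
  have h1 : S.coeff ((a : ℤ) + m) ≠ 0 := by
    have h2 : S.coeff ((a : ℤ) + m) = ∑ c : F, (-1) ^ m * c ^ m * ((a + m - 1).choose m : F) := by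
      have h3 : ∀ T : Finset F, (∑ c ∈ T, ((th + HahnSeries.C c : LaurentSeries F)⁻¹) ^ a).coeff
          ((a : ℤ) + m) = ∑ c ∈ T, (-1) ^ m * c ^ m * ((a + m - 1).choose m : F) := by
        classical
        intro T
        induction T using Finset.induction_on with
        | empty => rw [sum_empty, sum_empty, HahnSeries.coeff_zero]
        | insert c T hc ih =>
          rw [sum_insert hc, sum_insert hc, HahnSeries.coeff_add, ih, inv_coeff]
      exact h3 univ
    rw [h2, ← sum_mul, ← mul_sum, s1_sum hF hm hd]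
    refine mul_ne_zero (mul_ne_zero (pow_ne_zero _ (neg_ne_zero.2 one_ne_zero))
      (neg_ne_zero.2 one_ne_zero)) ?_
    rwa [Ne, CharP.cast_eq_zero_iff F p]
  have hS0 : S ≠ 0 := by
    intro h0
    rw [h0, HahnSeries.coeff_zero] at h1
    exact h1 rfl
  have h2 : S.order ≤ (a : ℤ) + m := HahnSeries.order_le_of_coeff_ne_zero h1
  obtain ⟨h3, h4⟩ := s1_low (F := F) h.two_le a
  obtain ⟨_, h6⟩ := coeff_mul_low (F := F) h3
    (fun n hn => HahnSeries.coeff_eq_zero_of_lt_order (x := S) hn)
  refine ⟨-((q : ℤ) * a) + S.order, by linarith, ?_⟩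
  rw [P1_eval h hF ha, ← hS, h6, h4]
  exact mul_ne_zero (pow_ne_zero _ (neg_ne_zero.2 one_ne_zero))
    (fun h7 => hS0 (HahnSeries.coeff_order_eq_zero.1 h7))

end Pool.Agent.ZQ
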