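import Pool.Agent.Work.MP_43901b_nt.Base

/-!
# Ser (M): the series `E = Σ c_i x^(q^i)` and the coefficients of `1/(1-E)`

`2 ≤ q`.  Model: helper29's modules `MP_b19acb_nt/GG.lean` (the case `q = 2` with `1 + ser` instead
of `1 - ser`); the proofs carry over with signs.

* `coeff_ser_pow`, `coeff_ser_ne`: from the definition (`Nat.log_pow`).
* `coeff_ser_mul`: `coeff_mul`, antidiagonal; only the pairs `(q^i, n - q^i)`, `q^i ≤ n` contribute
  (`i ≤ n` as `i < q^i`).
* `gg_inv`: `PowerSeries.mul_invOfUnit` (constant coefficient of `1 - ser q c` is `1`, because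
  `0 ≠ q^(log q 0) = 1`).
* `gg_zero`, `gg_rec`: compare the coefficients of `x^n` in `(1 - E) G = 1`.
* `gg_map`: uniqueness of the inverse, or strong induction with `gg_rec`.
* `gg_scale`: strong induction with `gg_rec`, `a^(q^i) a^(n-q^i) = a^n`.
* `gg_geom`: `G = 1 + E G` iterated (induction on `N`).
* `ser_const`, `ser_map`.
* `coeff_ser_pow_lt`: `x ∣ E` so `x^m ∣ E^m`.

Proved by helper65.
-/

namespace Pool.Agent.ZQ

open Finset

variable {R : Type*} [CommRing R] {q : ℕ}

private theorem coeff_ser' (c : ℕ → R) (n : ℕ) : PowerSeries.coeff n (ser q c) =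
    if n = q ^ Nat.log q n then c (Nat.log q n) else 0 := PowerSeries.coeff_mk _ _

theorem coeff_ser_pow (hq : 2 ≤ q) (c : ℕ → R) (i : ℕ) :
    PowerSeries.coeff (q ^ i) (ser q c) = c i := by
  rw [coeff_ser', Nat.log_pow (by omega), if_pos rfl]

theorem coeff_ser_ne (c : ℕ → R) {n : ℕ} (h : ∀ i, n ≠ q ^ i) :
    PowerSeries.coeff n (ser q c) = 0 := by
  rw [coeff_ser', if_neg (h _)]

theorem ser_const (c : ℕ → R) : PowerSeries.constantCoeff (ser q c) = 0 := by
  rw [← PowerSeries.coeff_zero_eq_constantCoeff_apply, coeff_ser']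
  simp

theorem ser_map {S : Type*} [CommRing S] (f : R →+* S) (c : ℕ → R) :
    PowerSeries.map f (ser q c) = ser q (fun i => f (c i)) := by
  ext n
  rw [PowerSeries.coeff_map, coeff_ser', coeff_ser']
  split_ifs
  · rfl
  · rw [map_zero]

theorem coeff_ser_mul (hq : 2 ≤ q) (c : ℕ → R) (f : PowerSeries R) (n : ℕ) :
    PowerSeries.coeff n (ser q c * f) = ∑ i ∈ range (n + 1),
      if q ^ i ≤ n then c i * PowerSeries.coeff (n - q ^ i) f else 0 := by
  rw [PowerSeries.coeff_mul,
    Finset.Nat.sum_antidiagonal_eq_sum_range_succ_mk]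
  have h1 : ∀ k ∈ range (n + 1), PowerSeries.coeff k (ser q c) * PowerSeries.coeff (n - k) f =
      if k = q ^ Nat.log q k then c (Nat.log q k) * PowerSeries.coeff (n - k) f else 0 := by
    intro k _
    rw [coeff_ser']
    split_ifs
    · rfl
    · rw [zero_mul]
  rw [Finset.sum_congr rfl h1, ← Finset.sum_filter, ← Finset.sum_filter]
  refine Finset.sum_nbij' (Nat.log q) (fun i => q ^ i) ?_ ?_ ?_ ?_ ?_
  · intro k hk
    rw [Finset.mem_filter, Finset.mem_range] at hk ⊢
    refine ⟨lt_of_le_of_lt (Nat.log_le_self q k) hk.1, ?_⟩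
    rw [← hk.2]
    omega
  · intro i hi
    rw [Finset.mem_filter, Finset.mem_range] at hi
    rw [Finset.mem_filter, Finset.mem_range, Nat.log_pow (by omega)]
    exact ⟨by omega, rfl⟩
  · intro k hk
    rw [Finset.mem_filter] at hk
    exact hk.2.symm
  · intro i _
    exact Nat.log_pow (by omega) i
  · intro k hk
    rw [Finset.mem_filter] at hk
    rw [← hk.2]

theorem coeff_ser_pow_lt (c : ℕ → R) {n m : ℕ} (h : n < m) (f : PowerSeries R) :
    PowerSeries.coeff n (ser q c ^ m * f) = 0 := by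
  have h1 : (PowerSeries.X : PowerSeries R) ∣ ser q c :=
    PowerSeries.X_dvd_iff.2 (ser_const c)
  have h2 : (PowerSeries.X : PowerSeries R) ^ m ∣ ser q c ^ m * f :=
    Dvd.dvd.mul_right (pow_dvd_pow_of_dvd h1 m) f
  exact PowerSeries.X_pow_dvd_iff.1 h2 n h

private theorem gg_const (c : ℕ → R) :
    PowerSeries.constantCoeff (1 - ser q c) = ((1 : Rˣ) : R) := by
  rw [map_sub, ser_const, sub_zero, map_one, Units.val_one]

private theorem gg_mk (c : ℕ → R) : (PowerSeries.mk fun n => gg q c n) =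
    PowerSeries.invOfUnit (1 - ser q c) 1 := by
  ext n
  rw [PowerSeries.coeff_mk]
  rfl

private theorem ser_inv_unique {P A B : PowerSeries R} (hA : P * A = 1) (hB : P * B = 1) :
    A = B := by
  calc A = A * (P * B) := by rw [hB, mul_one]
    _ = (P * A) * B := by ring
    _ = B := by rw [hA, one_mul]

theorem gg_inv (c : ℕ → R) : (1 - ser q c) * (PowerSeries.mk fun n => gg q c n) = 1 := by
  rw [gg_mk]
  exact PowerSeries.mul_invOfUnit _ _ (gg_const c)

theorem gg_zero (c : ℕ → R) : gg q c 0 = 1 := by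
  unfold gg
  rw [PowerSeries.coeff_zero_eq_constantCoeff_apply, PowerSeries.constantCoeff_invOfUnit]
  simp

theorem gg_rec (hq : 2 ≤ q) (c : ℕ → R) {n : ℕ} (hn : 1 ≤ n) : gg q c n =
    ∑ i ∈ range (n + 1), if q ^ i ≤ n then c i * gg q c (n - q ^ i) else 0 := by
  have h1 := congrArg (PowerSeries.coeff n) (gg_inv (q := q) c)
  rw [sub_mul, one_mul, map_sub, PowerSeries.coeff_mk, coeff_ser_mul hq, PowerSeries.coeff_one,
    if_neg (by omega), sub_eq_zero] at h1
  rw [h1]
  refine Finset.sum_congr rfl fun i _ => ?_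
  rw [PowerSeries.coeff_mk]

theorem gg_map {S : Type*} [CommRing S] (f : R →+* S) (c : ℕ → R) (n : ℕ) :
    f (gg q c n) = gg q (fun i => f (c i)) n := by
  have h1 : PowerSeries.map f (1 - ser q c) = 1 - ser q (fun i => f (c i)) := by
    rw [map_sub, map_one, ser_map]
  have h2 : (1 - ser q (fun i => f (c i))) * PowerSeries.map f (PowerSeries.mk fun n => gg q c n) =
      1 := by
    rw [← h1, ← map_mul, gg_inv, map_one]
  have h3 := ser_inv_unique h2 (gg_inv fun i => f (c i))
  have h4 := congrArg (PowerSeries.coeff n) h3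
  rw [PowerSeries.coeff_map, PowerSeries.coeff_mk, PowerSeries.coeff_mk] at h4
  exact h4

theorem gg_scale (hq : 2 ≤ q) (a : R) (c : ℕ → R) (n : ℕ) :
    gg q (fun i => a ^ q ^ i * c i) n = a ^ n * gg q c n := by
  induction n using Nat.strong_induction_on with
  | _ n ih =>
    rcases Nat.eq_zero_or_pos n with rfl | hn
    · rw [gg_zero, gg_zero, pow_zero, one_mul]
    · rw [gg_rec hq _ hn, gg_rec hq c hn, Finset.mul_sum]
      refine Finset.sum_congr rfl fun i _ => ?_
      by_cases h : q ^ i ≤ n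
      · rw [if_pos h, if_pos h, ih (n - q ^ i) (Nat.sub_lt hn (by positivity))]
        have e : a ^ n = a ^ q ^ i * a ^ (n - q ^ i) := by
          rw [← pow_add, Nat.add_sub_cancel' h]
        rw [e]
        ring
      · rw [if_neg h, if_neg h, mul_zero]

theorem gg_geom (c : ℕ → R) (N : ℕ) : (PowerSeries.mk fun n => gg q c n) =
    (∑ m ∈ range N, ser q c ^ m) + ser q c ^ N * (PowerSeries.mk fun n => gg q c n) := by
  have h := gg_inv (q := q) c
  have h' : (PowerSeries.mk fun n => gg q c n) =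
      1 + ser q c * (PowerSeries.mk fun n => gg q c n) := by
    linear_combination h
  induction N with
  | zero => simp
  | succ N ih =>
    rw [Finset.sum_range_succ]
    generalize (PowerSeries.mk fun n => gg q c n) = G at ih h'
    linear_combination ih + ser q c ^ N * h'

end Pool.Agent.ZQ
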