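import Pool.Agent.Work.MP_43901b_nt.Ser

/-!
# Star (M): the coefficient of `x^(p^s u - 1)` of `E^n`, `1 ≤ u ≤ q`, characteristic `p`, `c_0 = 1`

Claim: it is `1` if `n = p^s u - 1` and `0` otherwise.  Induction on `s` (for all `c`, `n`).

`s = 0`: `E = x + (terms of degree ≥ q)`.  If `n = 0`: `coeff (u-1) 1`, which is `1` iff `u = 1`.
If `n ≥ 1`: `E^n = x^n (1 + x^(q-1) (..))^n`, i.e. `E = x * Ψ` with `Ψ = 1 + x^(q-1) Φ`; the
coefficient of `x^(u-1)` is `0` for `n > u - 1`, `1` for `n = u - 1`, and for `1 ≤ n < u - 1` it is the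
coefficient of `x^(u-1-n)` of `(1 + x^(q-1) Φ)^n`, and `0 < u-1-n < q-1`, so `0`.

`s → s+1`: `n = p n' + n_0`, `n_0 < p`.  `E^n = (E^p)^(n') E^(n_0)`, and in characteristic `p`
`E^p = expand p Ẽ` with `Ẽ = ser q (c^p)` (coefficient of `x^m` of `f^p` is `(f_(m/p))^p` or `0`;
lemma `coeff_pow_p`, e.g. from `PowerSeries`/`Polynomial` `map_frobenius_expand` by truncation, or
`E^p = map (frobenius) (expand p E)`), so `(E^p)^(n') = expand p (Ẽ^(n'))`.
`E = x + expand p W` (all `q^i`, `i ≥ 1`, are divisible by `p`), so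
`E^(n_0) = Σ_j binom(n_0,j) x^j (expand p W)^(n_0-j)`.  The coefficient of
`x^(p^(s+1) u - 1)`, `p^(s+1) u - 1 = p (p^s u - 1) + (p-1)`, of `x^j expand p (..)`, `j ≤ n_0 ≤ p-1`,
is `0` unless `j = p - 1`, i.e. `n_0 = p-1 = j`.  So it is `0` for `n_0 < p-1`, and for `n_0 = p-1` it is
the coefficient of `x^(p^s u - 1)` of `Ẽ^(n')`, use the induction hypothesis
(`n = p^(s+1) u - 1 ↔ n' = p^s u - 1`).
-/

namespace Pool.Agent.ZQ

open Finset

variable {R : Type*} [CommRing R] {p q : ℕ} [CharP R p]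

/-- coefficients of `f^(p^s)` in characteristic `p` -/
theorem coeff_pow_p (h : IsQ p q) (f : PowerSeries R) (s n : ℕ) :
    PowerSeries.coeff n (f ^ p ^ s) =
      if p ^ s ∣ n then (PowerSeries.coeff (n / p ^ s) f) ^ p ^ s else 0 := by
  have := h.fact
  have hp : p ≠ 0 := h.prime.ne_zero
  have key : PowerSeries.map (iterateFrobenius R p s)
      (PowerSeries.expand (p ^ s) (pow_ne_zero s hp) f) = f ^ p ^ s :=
    MvPowerSeries.map_iterateFrobenius_expand p hp f s
  rw [← key, PowerSeries.coeff_map, PowerSeries.coeff_expand]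
  split_ifs
  · rw [iterateFrobenius_def]
  · rw [map_zero]

/-- the part of `E` beyond `x` -/
private theorem star_ser (h : IsQ p q) (c : ℕ → R) (hc : c 0 = 1) :
    ∃ Φ : PowerSeries R, ser q c = PowerSeries.X * (1 + PowerSeries.X ^ (q - 1) * Φ) := by
  have hq := h.two_le
  have h1 : PowerSeries.X ^ q ∣ ser q c - PowerSeries.X := by
    rw [PowerSeries.X_pow_dvd_iff]
    intro m hm
    rw [map_sub, PowerSeries.coeff_X]
    by_cases h1 : m = 1
    · rw [if_pos h1, h1]
      have h2 := coeff_ser_pow hq c 0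
      rw [pow_zero] at h2
      rw [h2, hc, sub_self]
    · rw [if_neg h1, sub_zero]
      apply coeff_ser_ne
      intro i hi
      rcases Nat.eq_zero_or_pos i with rfl | hi'
      · exact h1 (by simpa using hi)
      · have h3 : q ^ 1 ≤ q ^ i := Nat.pow_le_pow_right (by omega) hi'
        rw [pow_one] at h3
        omega
  obtain ⟨Φ, hΦ⟩ := h1
  refine ⟨Φ, ?_⟩
  have h2 : (PowerSeries.X : PowerSeries R) ^ q = PowerSeries.X * PowerSeries.X ^ (q - 1) := by
    rw [← pow_succ', Nat.sub_add_cancel (by omega)]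
  rw [h2] at hΦ
  linear_combination hΦ

private theorem star_zero (h : IsQ p q) (c : ℕ → R) (hc : c 0 = 1) (n : ℕ) :
    ∃ Θ : PowerSeries R, ser q c ^ n =
      PowerSeries.X ^ n + PowerSeries.X ^ (n + (q - 1)) * Θ := by
  obtain ⟨Φ, hΦ⟩ := star_ser h c hc
  have h1 : PowerSeries.X ^ (q - 1) * Φ ∣ (1 + PowerSeries.X ^ (q - 1) * Φ) ^ n - 1 := by
    have h2 := sub_dvd_pow_sub_pow (1 + PowerSeries.X ^ (q - 1) * Φ) 1 n
    rw [add_sub_cancel_left, one_pow] at h2
    exact h2
  obtain ⟨Θ, hΘ⟩ := h1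
  refine ⟨Φ * Θ, ?_⟩
  rw [hΦ, mul_pow, pow_add]
  linear_combination (PowerSeries.X : PowerSeries R) ^ n * hΘ

/-- series supported on multiples of `p` -/
private def Sup (p : ℕ) (f : PowerSeries R) : Prop := ∀ m, ¬ p ∣ m → PowerSeries.coeff m f = 0

private theorem sup_mul {f g : PowerSeries R} (hf : Sup p f) (hg : Sup p g) : Sup p (f * g) := by
  intro m hm
  rw [PowerSeries.coeff_mul]
  refine Finset.sum_eq_zero ?_
  rintro ⟨i, j⟩ hij
  rw [Finset.HasAntidiagonal.mem_antidiagonal] at hij
  change i + j = m at hij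
  change PowerSeries.coeff i f * PowerSeries.coeff j g = 0
  by_cases hi : p ∣ i
  · rw [hg j, mul_zero]
    intro hj
    exact hm (hij ▸ dvd_add hi hj)
  · rw [hf i hi, zero_mul]

private theorem sup_pow {f : PowerSeries R} (hf : Sup p f) (k : ℕ) : Sup p (f ^ k) := by
  induction k with
  | zero =>
    intro m hm
    rw [pow_zero, PowerSeries.coeff_one, if_neg]
    rintro rfl
    exact hm (dvd_zero p)
  | succ k ih =>
    rw [pow_succ]
    exact sup_mul ih hf

private theorem star_low (h : IsQ p q) (c : ℕ → R) (hc : c 0 = 1) {n i : ℕ} (hn : n < p)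
    (hi : p ∣ i + 1) :
    PowerSeries.coeff i (ser q c ^ n) = if n = p - 1 ∧ i = p - 1 then 1 else 0 := by
  have hp2 : 2 ≤ p := h.prime.two_le
  have hq := h.two_le
  have hW : Sup p (ser q c - PowerSeries.X) := by
    intro m hm
    rw [map_sub, PowerSeries.coeff_X]
    by_cases h1 : m = 1
    · rw [if_pos h1, h1]
      have h2 := coeff_ser_pow hq c 0
      rw [pow_zero] at h2
      rw [h2, hc, sub_self]
    · rw [if_neg h1, sub_zero]
      apply coeff_ser_ne
      intro k hk
      rcases Nat.eq_zero_or_pos k with rfl | hk'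
      · exact h1 (by simpa using hk)
      · exact hm (hk ▸ dvd_pow h.dvd (by omega))
  have h0 : ser q c = PowerSeries.X + (ser q c - PowerSeries.X) := by ring
  rw [h0, add_pow, map_sum]
  have h1 : ∀ m ∈ Finset.range (n + 1), PowerSeries.coeff i (PowerSeries.X ^ m *
      (ser q c - PowerSeries.X) ^ (n - m) * ((n.choose m : ℕ) : PowerSeries R)) =
      if m = p - 1 then (if n = p - 1 ∧ i = p - 1 then 1 else 0) else 0 := by
    intro m hm
    rw [Finset.mem_range] at hm
    have h2 : ((n.choose m : ℕ) : PowerSeries R) = PowerSeries.C ((n.choose m : ℕ) : R) := by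
      rw [map_natCast]
    rw [h2, PowerSeries.coeff_mul_C, PowerSeries.coeff_X_pow_mul']
    by_cases h3 : m = p - 1
    · have hnp : n = p - 1 := by omega
      rw [if_pos h3]
      by_cases h4 : m ≤ i
      · rw [if_pos h4, hnp, h3, Nat.sub_self, pow_zero, PowerSeries.coeff_one, Nat.choose_self]
        by_cases h5 : i = p - 1
        · rw [if_pos (by omega), if_pos ⟨rfl, h5⟩, Nat.cast_one, mul_one]
        · rw [if_neg (by omega), if_neg (fun h6 => h5 h6.2), zero_mul]
      · rw [if_neg h4, zero_mul, if_neg (by omega)]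
    · rw [if_neg h3]
      by_cases h4 : m ≤ i
      · rw [if_pos h4, sup_pow hW (n - m) (i - m), zero_mul]
        intro h5
        apply h3
        have h6 : p ∣ m + 1 := by
          have h7 : i + 1 = (m + 1) + (i - m) := by omega
          rw [h7] at hi
          exact (Nat.dvd_add_left h5).1 hi
        have h8 := Nat.le_of_dvd (by omega) h6
        omega
      · rw [if_neg h4, zero_mul]
  rw [Finset.sum_congr rfl h1, Finset.sum_ite_eq' (Finset.range (n + 1))]
  by_cases h2 : p - 1 ∈ Finset.range (n + 1)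
  · rw [if_pos h2]
  · rw [if_neg h2, if_neg]
    rintro ⟨h3, -⟩
    exact h2 (Finset.mem_range.2 (by omega))

theorem star (h : IsQ p q) (c : ℕ → R) (hc : c 0 = 1) (s : ℕ) {u : ℕ} (hu : 1 ≤ u) (hu' : u ≤ q)
    (n : ℕ) : PowerSeries.coeff (p ^ s * u - 1) (ser q c ^ n) =
      if n = p ^ s * u - 1 then 1 else 0 := by
  have hq := h.two_le
  induction s generalizing n with
  | zero =>
    rw [pow_zero, one_mul]
    obtain ⟨Θ, hΘ⟩ := star_zero h c hc n
    rcases Nat.eq_zero_or_pos n with rfl | hn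
    · rw [pow_zero, PowerSeries.coeff_one]
      by_cases h1 : u - 1 = 0
      · rw [if_pos h1, if_pos h1.symm]
      · rw [if_neg h1, if_neg (Ne.symm h1)]
    · have h2 : ¬ n + (q - 1) ≤ u - 1 := by omega
      rw [hΘ, map_add, PowerSeries.coeff_X_pow, PowerSeries.coeff_X_pow_mul', if_neg h2, add_zero]
      by_cases h1 : u - 1 = n
      · rw [if_pos h1, if_pos h1.symm]
      · rw [if_neg h1, if_neg (Ne.symm h1)]
  | succ s ih =>
    have hp2 : 2 ≤ p := h.prime.two_le
    have hpos : 1 ≤ p ^ s * u := Nat.mul_pos (pow_pos (by omega) s) hu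
    obtain ⟨n', n0, hn0, rfl⟩ : ∃ n' n0, n0 < p ∧ n = p * n' + n0 :=
      ⟨n / p, n % p, Nat.mod_lt _ (by omega), (Nat.div_add_mod n p).symm⟩
    have hN : p ^ (s + 1) * u - 1 = p * (p ^ s * u - 1) + (p - 1) := by
      have h1 : p ^ (s + 1) * u = p * (p ^ s * u) := by ring
      rw [h1]
      obtain ⟨m, hm⟩ : ∃ m, p ^ s * u = m + 1 := ⟨p ^ s * u - 1, by omega⟩
      rw [hm, Nat.add_sub_cancel, Nat.mul_add, mul_one]
      omega
    have hE : ser q c ^ (p * n' + n0) = ser q c ^ n0 * (ser q c ^ n') ^ p := by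
      rw [pow_add, ← pow_mul, mul_comm n' p, mul_comm]
    rw [hN, hE, PowerSeries.coeff_mul]
    have hcp : ∀ j, PowerSeries.coeff j ((ser q c ^ n') ^ p) =
        if p ∣ j then (PowerSeries.coeff (j / p) (ser q c ^ n')) ^ p else 0 := by
      intro j
      have h1 := coeff_pow_p (q := q) h (ser q c ^ n') 1 j
      rw [pow_one] at h1
      exact h1
    rw [Finset.sum_eq_single (p - 1, p * (p ^ s * u - 1))]
    · rw [star_low h c hc hn0 (by rw [Nat.sub_add_cancel (by omega : 1 ≤ p)]), hcp,
        if_pos (dvd_mul_right _ _), Nat.mul_div_cancel_left _ (by omega : 0 < p), ih]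
      by_cases h1 : n0 = p - 1
      · by_cases h2 : n' = p ^ s * u - 1
        · rw [if_pos ⟨h1, rfl⟩, if_pos h2, if_pos (by rw [h1, h2]), one_pow, mul_one]
        · rw [if_neg h2, zero_pow (by omega), mul_zero, if_neg]
          intro h3
          apply h2
          rw [h1] at h3
          have h4 : p * n' = p * (p ^ s * u - 1) := by omega
          exact Nat.eq_of_mul_eq_mul_left (by omega) h4
      · rw [if_neg (fun h2 => h1 h2.1), zero_mul, if_neg]
        intro h3
        apply h1
        have h4 : (p * n' + n0) % p = (p * (p ^ s * u - 1) + (p - 1)) % p := by rw [h3]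
        rw [Nat.mul_add_mod, Nat.mul_add_mod, Nat.mod_eq_of_lt hn0,
          Nat.mod_eq_of_lt (by omega)] at h4
        exact h4
    · rintro ⟨i, j⟩ hij hne
      rw [Finset.HasAntidiagonal.mem_antidiagonal] at hij
      change i + j = _ at hij
      change PowerSeries.coeff i _ * PowerSeries.coeff j _ = 0
      rw [hcp]
      by_cases hj : p ∣ j
      · obtain ⟨j', rfl⟩ := hj
        have hi : p ∣ i + 1 := by
          have h1 : i + 1 + p * j' = p * (p ^ s * u) := by
            have h2 : p * (p ^ s * u - 1) + p = p * (p ^ s * u) := by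
              obtain ⟨m, hm⟩ : ∃ m, p ^ s * u = m + 1 := ⟨p ^ s * u - 1, by omega⟩
              rw [hm, Nat.add_sub_cancel, Nat.mul_add, mul_one]
            omega
          exact (Nat.dvd_add_left (dvd_mul_right p j')).1 (h1 ▸ dvd_mul_right _ _)
        rw [star_low h c hc hn0 hi, if_neg, zero_mul]
        rintro ⟨-, h3⟩
        apply hne
        rw [h3] at hij
        rw [h3]
        congr 1
        omega
      · rw [if_neg hj, mul_zero]
    · intro h1
      exact absurd (Finset.HasAntidiagonal.mem_antidiagonal.2 (by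
        show p - 1 + p * (p ^ s * u - 1) = _
        omega)) h1

end Pool.Agent.ZQ
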