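import Pool.Agent.Work.MP_43901b_nt.ZDefs
import Pool.Agent.Work.MP_43901b_nt.HZg
import Pool.Agent.Work.MP_43901b_nt.PowS

/-!
# ZSum (M): the multizeta series converges to `zeta s`

(Model: helper29's `MP_b19acb_nt/Tup.lean` and `MzvSum.lean`, the case of two elements.)

`norm_psi`: `‖φ (ψ (C c))‖ = 1` for `c ≠ 0` (`c^(q-1) = 1`), `ψ X = θ`, so for a nonzero `P` the leading
term dominates: `‖φ (ψ P)‖ = ‖φ θ‖^natDegree` (ultrametric).  In particular `ψ` is injective
(`psi_inj`), so `ps_eq_sum` applies.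

`tup F r d`: the finite set of the tuples `(a_1, ..., a_r)` of monic polynomials with
`d > deg a_1 > ... > deg a_r`, and `Σ_{tup} ∏ ((ψ a_i)⁻¹)^(s_i) = SS q θ s d` by induction on `s`
(`SS (a :: s) d = Σ_{i<d} ps i a * SS s i`, `ps i a = Σ_{n ∈ mon F i} ((ψ n)⁻¹)^a`).

`hasSum_zeta`: `f a = ∏ i, (φ (ψ (a i))⁻¹)^(s.get i)`.
(1) summable: in a complete nonarchimedean group it is enough that `f → 0` along the cofinite filter
(`NonarchimedeanAddGroup.summable_of_tendsto_cofinite_zero`).  For `r = 0` the index type is finite.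
For `r ≥ 1`: `‖f a‖ ≤ ‖φ θ‖⁻¹^(deg a_1)` (all `s_i ≥ 1`), and the `a` with `deg a_1 < d` are finitely many.
(2) the finite sets `tup F r d` increase to everything, `Σ_{tup} f = φ (SS s d)`; `tendsto_SS` and
uniqueness of limits: the sum of the series is `zeta s`.
-/

set_option linter.unusedSectionVars false

namespace Pool.Agent.ZQ

open Polynomial Finset Filter

variable {p q : ℕ} {k L : Type*} [Field k] [CharP k p] [NormedField L] [CompleteSpace L]
  [IsUltrametricDist L] (S : Setup p q k L) {F : Type*} [Field F] [Fintype F]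

open Classical in
/-- tuples of monic polynomials of strictly decreasing degrees `< d` -/
private noncomputable def tup (F : Type*) [Field F] [Fintype F] :
    (r : ℕ) → ℕ → Finset (Fin r → F[X])
  | 0, _ => {fun i => i.elim0}
  | r + 1, d => (range d).biUnion fun i =>
      (mon F i ×ˢ tup F r i).image fun p => (Fin.cons p.1 p.2 : Fin (r + 1) → F[X])

private theorem mem_tup {r d : ℕ} {a : Fin r → F[X]} : a ∈ tup F r d ↔
    (∀ i, (a i).Monic) ∧ StrictAnti (fun i => (a i).natDegree) ∧ ∀ i, (a i).natDegree < d := by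
  induction r generalizing d with
  | zero =>
    rw [tup, Finset.mem_singleton]
    exact ⟨fun _ => ⟨fun i => i.elim0, fun i => i.elim0, fun i => i.elim0⟩,
      fun _ => funext fun i => i.elim0⟩
  | succ r ih =>
    rw [tup]
    simp only [Finset.mem_biUnion, Finset.mem_range, Finset.mem_image, Finset.mem_product]
    constructor
    · rintro ⟨i, hi, ⟨n, b⟩, ⟨hn, hb⟩, rfl⟩
      obtain ⟨hn1, hn2⟩ := mem_mon.1 hn
      obtain ⟨hb1, hb2, hb3⟩ := ih.1 hb
      simp only at hn1 hn2 hb1 hb2 hb3 ⊢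
      refine ⟨fun j => ?_, fun j j' hjj' => ?_, fun j => ?_⟩
      · refine Fin.cases ?_ (fun j => ?_) j
        · rw [Fin.cons_zero]
          exact hn1
        · rw [Fin.cons_succ]
          exact hb1 j
      · revert hjj'
        refine Fin.cases ?_ (fun j' => ?_) j'
        · intro h
          exact absurd h (Fin.not_lt_zero j)
        · refine Fin.cases ?_ (fun j => ?_) j
          · intro _
            simp only [Fin.cons_succ, Fin.cons_zero]
            rw [hn2]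
            exact hb3 j'
          · intro h
            simp only [Fin.cons_succ]
            exact hb2 (Fin.succ_lt_succ_iff.1 h)
      · refine Fin.cases ?_ (fun j => ?_) j
        · rw [Fin.cons_zero, hn2]
          exact hi
        · rw [Fin.cons_succ]
          exact (hb3 j).trans hi
    · rintro ⟨h1, h2, h3⟩
      refine ⟨(a 0).natDegree, h3 0, (a 0, Fin.tail a), ⟨mem_mon.2 ⟨h1 0, rfl⟩, ih.2
        ⟨fun j => h1 j.succ, fun j j' hjj' => ?_, fun j => ?_⟩⟩, Fin.cons_self_tail a⟩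
      · exact h2 (Fin.succ_lt_succ_iff.2 hjj')
      · exact h2 (Fin.succ_pos j)

private theorem sum_tup (h : IsQ p q) (hF : Fintype.card F = q) (ψ : F[X] →+* k)
    (hψ : Function.Injective ψ) {s : List ℕ} (hs : ∀ a ∈ s, 1 ≤ a) (d : ℕ) :
    ∑ a ∈ tup F s.length d, ∏ i, ((ψ (a i))⁻¹) ^ s.get i = SS q (ψ X) s d := by
  classical
  induction s generalizing d with
  | nil =>
    show ∑ a ∈ tup F 0 d, ∏ i : Fin 0, ((ψ (a i))⁻¹) ^ (([] : List ℕ).get i) = 1
    rw [tup, Finset.sum_singleton]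
    rfl
  | cons n s ih =>
    show ∑ a ∈ tup F (s.length + 1) d, ∏ i : Fin (s.length + 1), ((ψ (a i))⁻¹) ^ ((n :: s).get i) =
      ∑ i ∈ range d, ps q (ψ X) i n * SS q (ψ X) s i
    rw [tup, Finset.sum_biUnion]
    · refine Finset.sum_congr rfl fun i _ => ?_
      rw [Finset.sum_image, Finset.sum_product, ← ps_eq_sum h hF ψ hψ i
        (hs n List.mem_cons_self), ← ih (fun a ha => hs a (List.mem_cons_of_mem n ha)) i,
        Finset.sum_mul_sum]
      · refine Finset.sum_congr rfl fun n _ => Finset.sum_congr rfl fun b _ => ?_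
        rw [Fin.prod_univ_succ]
        simp only [Fin.cons_zero, Fin.cons_succ, List.get_cons_zero]
        rfl
      · rintro ⟨n, b⟩ _ ⟨n', b'⟩ _ h
        have h' : (Fin.cons n b : Fin (s.length + 1) → F[X]) = Fin.cons n' b' := h
        have h1 := congrFun h' 0
        rw [Fin.cons_zero, Fin.cons_zero] at h1
        have h2 : b = b' := by
          funext j
          have := congrFun h' j.succ
          rwa [Fin.cons_succ, Fin.cons_succ] at this
        rw [h1, h2]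
    · intro i _ i' _ hii'
      refine Finset.disjoint_left.2 fun a ha ha' => hii' ?_
      obtain ⟨⟨n, b⟩, hp, rfl⟩ := Finset.mem_image.1 ha
      obtain ⟨⟨n', b'⟩, hp', he⟩ := Finset.mem_image.1 ha'
      have h1 := congrFun he 0
      simp only [Fin.cons_zero] at h1
      have h2 := (mem_mon.1 (Finset.mem_product.1 hp).1).2
      have h3 := (mem_mon.1 (Finset.mem_product.1 hp').1).2
      simp only at h2 h3
      rw [← h2, ← h3, h1]

namespace Setup

theorem norm_psi (hF : Fintype.card F = q) {ψ : F[X] →+* k} (hψ : ψ X = S.θ) {P : F[X]}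
    (hP : P ≠ 0) : ‖S.φ (ψ P)‖ = ‖S.φ S.θ‖ ^ P.natDegree := by
  have hY : 1 < ‖S.φ S.θ‖ := S.hθ
  have hY0 : 0 < ‖S.φ S.θ‖ := zero_lt_one.trans hY
  have hc1 : ∀ c : F, c ≠ 0 → ‖S.φ (ψ (C c))‖ = 1 := by
    intro c hc
    have h1 : c ^ (q - 1) = 1 := by
      rw [← hF]
      exact FiniteField.pow_card_sub_one_eq_one c hc
    have h2 : ‖S.φ (ψ (C c))‖ ^ (q - 1) = 1 := by
      rw [← norm_pow, ← map_pow, ← map_pow, ← C_pow, h1, C_1, map_one, map_one, norm_one]
    have hq := S.q_two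
    exact (pow_eq_one_iff_of_nonneg (norm_nonneg _) (by omega)).1 h2
  have hc : ∀ c : F, ‖S.φ (ψ (C c))‖ ≤ 1 := by
    intro c
    by_cases h : c = 0
    · rw [h, C_0, map_zero, map_zero, norm_zero]
      exact zero_le_one
    · exact (hc1 c h).le
  have hterm : ∀ i, ‖S.φ (ψ (C (P.coeff i) * X ^ i))‖ ≤ ‖S.φ S.θ‖ ^ i := by
    intro i
    rw [map_mul, map_mul, norm_mul, map_pow, map_pow, norm_pow, hψ]
    exact mul_le_of_le_one_left (pow_nonneg hY0.le i) (hc _)
  have hlead : P.coeff P.natDegree ≠ 0 := by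
    rw [coeff_natDegree]
    exact leadingCoeff_ne_zero.2 hP
  have hsmall : ‖∑ i ∈ range P.natDegree, S.φ (ψ (C (P.coeff i) * X ^ i))‖ <
      ‖S.φ S.θ‖ ^ P.natDegree := by
    rcases Nat.eq_zero_or_pos P.natDegree with h0 | h0
    · rw [h0, Finset.sum_range_zero, norm_zero, pow_zero]
      exact zero_lt_one
    · obtain ⟨k', hk'⟩ : ∃ k', P.natDegree = k' + 1 := ⟨P.natDegree - 1, by omega⟩
      rw [hk']
      refine lt_of_le_of_lt (IsUltrametricDist.norm_sum_le_of_forall_le_of_nonneg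
        (pow_nonneg hY0.le k') fun i hi => ?_) (pow_lt_pow_right₀ hY (Nat.lt_succ_self k'))
      rw [Finset.mem_range] at hi
      exact (hterm i).trans (pow_le_pow_right₀ hY.le (by omega))
  have hbig : ‖S.φ (ψ (C (P.coeff P.natDegree) * X ^ P.natDegree))‖ =
      ‖S.φ S.θ‖ ^ P.natDegree := by
    rw [map_mul, map_mul, norm_mul, hc1 _ hlead, one_mul, map_pow, map_pow, norm_pow, hψ]
  have hsum : S.φ (ψ P) = (∑ i ∈ range P.natDegree, S.φ (ψ (C (P.coeff i) * X ^ i))) +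
      S.φ (ψ (C (P.coeff P.natDegree) * X ^ P.natDegree)) := by
    rw [← Finset.sum_range_succ (fun i => S.φ (ψ (C (P.coeff i) * X ^ i))), ← map_sum, ← map_sum,
      ← as_sum_range_C_mul_X_pow]
  rw [hsum, IsUltrametricDist.norm_add_eq_max_of_norm_ne_norm (by rw [hbig]; exact hsmall.ne),
    hbig, max_eq_right hsmall.le]

theorem psi_inj (hF : Fintype.card F = q) {ψ : F[X] →+* k} (hψ : ψ X = S.θ) :
    Function.Injective ψ := by
  rw [injective_iff_map_eq_zero]
  intro P h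
  by_contra hP
  have h1 := S.norm_psi hF hψ hP
  rw [h, map_zero, norm_zero] at h1
  have h2 : 0 < ‖S.φ S.θ‖ ^ P.natDegree := pow_pos (zero_lt_one.trans S.hθ) _
  rw [← h1] at h2
  exact lt_irrefl _ h2

private theorem norm_f_le (hF : Fintype.card F = q) {ψ : F[X] →+* k} (hψ : ψ X = S.θ)
    {s : List ℕ} (hs : ∀ a ∈ s, 1 ≤ a) (a : Idx F s.length) (i : Fin s.length) :
    ‖∏ i, ((S.φ (ψ (a.1 i)))⁻¹) ^ s.get i‖ ≤ ‖S.φ S.θ‖⁻¹ ^ (a.1 i).natDegree := by
  have hY : 1 < ‖S.φ S.θ‖ := S.hθ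
  have hY0 : 0 ≤ ‖S.φ S.θ‖⁻¹ := inv_nonneg.2 (norm_nonneg _)
  have hY1 : ‖S.φ S.θ‖⁻¹ ≤ 1 := (inv_lt_one_of_one_lt₀ hY).le
  rw [norm_prod]
  have hterm : ∀ j, ‖((S.φ (ψ (a.1 j)))⁻¹) ^ s.get j‖ =
      (‖S.φ S.θ‖⁻¹ ^ (a.1 j).natDegree) ^ s.get j := by
    intro j
    rw [norm_pow, norm_inv, S.norm_psi hF hψ (a.2.1 j).ne_zero, ← inv_pow]
  rw [Finset.prod_congr rfl fun j _ => hterm j, ← Finset.mul_prod_erase _ _ (Finset.mem_univ i)]
  have h1 : ∏ j ∈ univ.erase i, (‖S.φ S.θ‖⁻¹ ^ (a.1 j).natDegree) ^ s.get j ≤ 1 :=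
    Finset.prod_le_one (fun j _ => pow_nonneg (pow_nonneg hY0 _) _)
      fun j _ => pow_le_one₀ (pow_nonneg hY0 _) (pow_le_one₀ hY0 hY1)
  have h2 : (‖S.φ S.θ‖⁻¹ ^ (a.1 i).natDegree) ^ s.get i ≤ ‖S.φ S.θ‖⁻¹ ^ (a.1 i).natDegree := by
    have h3 : 1 ≤ s.get i := hs _ (List.get_mem s i)
    calc (‖S.φ S.θ‖⁻¹ ^ (a.1 i).natDegree) ^ s.get i ≤ (‖S.φ S.θ‖⁻¹ ^ (a.1 i).natDegree) ^ 1 :=
          pow_le_pow_of_le_one (pow_nonneg hY0 _) (pow_le_one₀ hY0 hY1) h3
      _ = _ := pow_one _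
  calc (‖S.φ S.θ‖⁻¹ ^ (a.1 i).natDegree) ^ s.get i *
        ∏ j ∈ univ.erase i, (‖S.φ S.θ‖⁻¹ ^ (a.1 j).natDegree) ^ s.get j
      ≤ ‖S.φ S.θ‖⁻¹ ^ (a.1 i).natDegree * 1 :=
        mul_le_mul h2 h1 (Finset.prod_nonneg fun j _ => pow_nonneg (pow_nonneg hY0 _) _)
          (pow_nonneg hY0 _)
    _ = _ := mul_one _

theorem hasSum_zeta (hF : Fintype.card F = q) {ψ : F[X] →+* k} (hψ : ψ X = S.θ) {s : List ℕ}
    (hs : ∀ a ∈ s, 1 ≤ a) :
    HasSum (fun a : Idx F s.length => ∏ i, ((S.φ (ψ (a.1 i)))⁻¹) ^ s.get i) (S.zeta s) := by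
  classical
  have hY : 1 < ‖S.φ S.θ‖ := S.hθ
  have hY0 : 0 ≤ ‖S.φ S.θ‖⁻¹ := inv_nonneg.2 (norm_nonneg _)
  have hY1 : ‖S.φ S.θ‖⁻¹ < 1 := inv_lt_one_of_one_lt₀ hY
  have hval : Function.Injective (fun a : Idx F s.length => a.1) := fun a b h => Subtype.ext h
  let T : ℕ → Finset (Idx F s.length) := fun d =>
    (tup F s.length d).preimage (fun a => a.1) hval.injOn
  have hmemT : ∀ d (a : Idx F s.length), a ∈ T d ↔ ∀ i, (a.1 i).natDegree < d := by
    intro d a
    rw [Finset.mem_preimage, mem_tup]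
    exact ⟨fun h => h.2.2, fun h => ⟨a.2.1, a.2.2, h⟩⟩
  have hsummable : Summable
      (fun a : Idx F s.length => ∏ i, ((S.φ (ψ (a.1 i)))⁻¹) ^ s.get i) := by
    refine NonarchimedeanAddGroup.summable_of_tendsto_cofinite_zero ?_
    rw [tendsto_zero_iff_norm_tendsto_zero, Metric.tendsto_nhds]
    intro ε hε
    rw [Filter.eventually_cofinite]
    obtain ⟨d, hd⟩ := exists_pow_lt_of_lt_one hε hY1
    refine (T d).finite_toSet.subset fun a ha => ?_
    rw [Finset.mem_coe, hmemT]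
    by_contra hcon
    apply ha
    push Not at hcon
    obtain ⟨i, hi⟩ := hcon
    rw [Real.dist_eq, sub_zero, abs_of_nonneg (norm_nonneg _)]
    exact ((S.norm_f_le hF hψ hs a i).trans (pow_le_pow_of_le_one hY0 hY1.le hi)).trans_lt hd
  have hTmono : Monotone T := by
    intro d d' hdd' a ha
    rw [hmemT] at ha ⊢
    exact fun i => (ha i).trans_le hdd'
  have hTall : ∀ a : Idx F s.length, ∃ d, a ∈ T d := by
    intro a
    refine ⟨(∑ i, (a.1 i).natDegree) + 1, (hmemT _ a).2 fun i => ?_⟩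
    have := Finset.single_le_sum (f := fun i => (a.1 i).natDegree) (fun _ _ => Nat.zero_le _)
      (Finset.mem_univ i)
    exact Nat.lt_succ_of_le this
  have hT : Tendsto T atTop atTop := Filter.tendsto_atTop_finset_of_monotone hTmono hTall
  have hsumT : ∀ d, ∑ a ∈ T d, ∏ i, ((S.φ (ψ (a.1 i)))⁻¹) ^ s.get i =
      S.φ (SS q S.θ s d) := by
    intro d
    have h1 := Finset.sum_preimage (fun a : Idx F s.length => a.1) (tup F s.length d) hval.injOn
      (fun b : Fin s.length → F[X] => ∏ i, ((S.φ (ψ (b i)))⁻¹) ^ s.get i)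
      (fun b hb hnot => by
        exfalso
        apply hnot
        have := mem_tup.1 hb
        exact ⟨⟨b, this.1, this.2.1⟩, rfl⟩)
    rw [← hψ, ← sum_tup S.isq hF ψ (S.psi_inj hF hψ) hs d, map_sum]
    refine h1.trans (Finset.sum_congr rfl fun b _ => ?_)
    rw [map_prod]
    refine Finset.prod_congr rfl fun i _ => ?_
    rw [map_pow, map_inv₀]
  have h2 := hsummable.hasSum.comp hT
  have h3 : Tendsto (fun d => ∑ a ∈ T d, ∏ i, ((S.φ (ψ (a.1 i)))⁻¹) ^ s.get i) atTop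
      (nhds (S.zeta s)) := by
    refine (S.tendsto_SS hs).congr fun d => ?_
    rw [hsumT]
  have h4 := tendsto_nhds_unique h2 h3
  rw [← h4]
  exact hsummable.hasSum

end Setup

end Pool.Agent.ZQ
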